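import Pool.Agent.H62.MC.Defs

/-!
# ADJ: the domain of the adjoint is moved by unitaries with bounded derivative

PROOF. `adj_right`: let `p = (x, θ) ∈ Gr`, `R = v w`.  `(R*, r(v*) C w0) ∈ Gr` (Leibniz with
`R* = w* v*`, `θ(w*) = C w0`, `θ(v*) = 0`), so `(x R*, l x (r v* (C w0)) + r R* θ) ∈ Gr` and
`⟪r R* θ, z⟫ = ⟪x R* Ω, ζ⟫ - ⟪l x (r v* (C w0)), z⟫`.  Here `⟪θ, r R z⟫ = ⟪r R* θ, z⟫` (`S.r_star`),
`x R* Ω = ρ(R*) (x Ω)` (`S.ρ_apply`), `⟪ρ(R*) x Ω, ζ⟫ = ⟪x Ω, ρ(R) ζ⟫` (`S.ρ_star`), and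
`l x (r v* (C w0)) = C (tp (x Ω) (v* Ω))` (`cc_l`, `cc_r`, `l_w0`, `r_w0`), so the last term is
`⟪tp (x Ω) (v* Ω), C* z⟫ = ⟪x Ω, adjoint (tp.flip (v* Ω)) (C* z)⟫`.
`adj_left`: `L = G v`, `L* = v* G*`, `(L*, l v* (C w0)) ∈ Gr`, `(L* x, l L* θ + r x (l v* (C w0))) ∈ Gr`,
`⟪θ, l L z⟫ = ⟪l L* θ, z⟫ = ⟪L* x Ω, ζ⟫ - ⟪C (tp (v* Ω) (x Ω)), z⟫`.
-/

namespace Pool.H62.MC

open scoped InnerProductSpace TensorProduct ComplexConjugate
open Filter Topology Pool.H62.UC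

noncomputable section

variable {H : Type*} [NormedAddCommGroup H] [InnerProductSpace ℂ H] [CompleteSpace H]
variable {K : Type*} [NormedAddCommGroup K] [InnerProductSpace ℂ K] [CompleteSpace K]

variable {S : Std H K} {Gr : Submodule ℂ ((H →L[ℂ] H) × K)}

theorem adj_add {z z' : K} {η η' : H} (h : IsAdj S Gr z η) (h' : IsAdj S Gr z' η') :
    IsAdj S Gr (z + z') (η + η') := by
  intro p hp
  rw [inner_add_right, inner_add_right, h p hp, h' p hp]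

theorem adj_star_left {V : Type*} [NormedAddCommGroup V] [InnerProductSpace ℂ V] [CompleteSpace V]
    (A : V →L[ℂ] V) (a b : V) : ⟪(star A) a, b⟫_ℂ = ⟪a, A b⟫_ℂ := by
  rw [ContinuousLinearMap.star_eq_adjoint, ContinuousLinearMap.adjoint_inner_left]

theorem adj_star_right {V : Type*} [NormedAddCommGroup V] [InnerProductSpace ℂ V] [CompleteSpace V]
    (A : V →L[ℂ] V) (a b : V) : ⟪A a, b⟫_ℂ = ⟪a, (star A) b⟫_ℂ := by
  rw [ContinuousLinearMap.star_eq_adjoint, ContinuousLinearMap.adjoint_inner_right]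

theorem adj_right (hmem : ∀ p ∈ Gr, p.1 ∈ S.M)
    (leib : ∀ p ∈ Gr, ∀ q ∈ Gr, (p.1 * q.1, S.l p.1 q.2 + S.r q.1 p.2) ∈ Gr)
    {z : K} {ζ : H} (hz : IsAdj S Gr z ζ) {v w : H →L[ℂ] H} (hv : v ∈ UM S) (hw : w ∈ UM S)
    (hv0 : (star v, (0 : K)) ∈ Gr) {C : K →L[ℂ] K} (hC : C ∈ (NK S).commutant)
    (hw0 : (star w, C (w0 S)) ∈ Gr) :
    IsAdj S Gr (S.r (v * w) z) (S.ρ (v * w) ζ -
      (ContinuousLinearMap.adjoint (S.T.tp.flip ((star v) S.Ω))) ((star C) z)) := by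
  intro p hp
  have hvM : v ∈ S.M := hv.1
  have hwM : w ∈ S.M := hw.1
  have hsv : star v ∈ S.M := (UM_star S hv).1
  have hR : v * w ∈ S.M := (UM_mul S hv hw).1
  have hRs : star (v * w) ∈ S.M := (UM_star S (UM_mul S hv hw)).1
  have hx : p.1 ∈ S.M := hmem p hp
  have h1 := leib _ hw0 _ hv0
  simp only [map_zero, zero_add] at h1
  rw [← star_mul] at h1
  have h2 := hz _ (leib p hp _ h1)
  simp only at h2
  rw [inner_add_left] at h2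
  have e1 : ⟪p.2, S.r (v * w) z⟫_ℂ = ⟪S.r (star (v * w)) p.2, z⟫_ℂ := by
    rw [S.r_star hR, adj_star_left]
  have e2 : (p.1 * star (v * w)) S.Ω = (star (S.ρ (v * w))) (p.1 S.Ω) := by
    rw [← S.ρ_star hR, S.ρ_apply p.1 hx _ hRs]
  have e3 : S.l p.1 (S.r (star v) (C (w0 S))) = C (S.T.tp (p.1 S.Ω) ((star v) S.Ω)) := by
    rw [← cc_r hC hsv, ← cc_l hC hx, r_w0 hsv, S.l_tp]
  rw [e2, adj_star_left, e3, adj_star_right] at h2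
  have e4 : ⟪p.1 S.Ω, (ContinuousLinearMap.adjoint (S.T.tp.flip ((star v) S.Ω))) ((star C) z)⟫_ℂ =
      ⟪S.T.tp (p.1 S.Ω) ((star v) S.Ω), (star C) z⟫_ℂ := by
    rw [ContinuousLinearMap.adjoint_inner_right, ContinuousLinearMap.flip_apply]
  rw [inner_sub_right, e1, e4, ← h2]
  ring

theorem adj_left (hmem : ∀ p ∈ Gr, p.1 ∈ S.M)
    (leib : ∀ p ∈ Gr, ∀ q ∈ Gr, (p.1 * q.1, S.l p.1 q.2 + S.r q.1 p.2) ∈ Gr)
    {z : K} {ζ : H} (hz : IsAdj S Gr z ζ) {v G : H →L[ℂ] H} (hv : v ∈ UM S) (hG : G ∈ UM S)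
    (hv0 : (star v, (0 : K)) ∈ Gr) {C : K →L[ℂ] K} (hC : C ∈ (NK S).commutant)
    (hG0 : (star G, C (w0 S)) ∈ Gr) :
    IsAdj S Gr (S.l (G * v) z) ((G * v) ζ -
      (ContinuousLinearMap.adjoint (S.T.tp ((star v) S.Ω))) ((star C) z)) := by
  intro p hp
  have hsv : star v ∈ S.M := (UM_star S hv).1
  have hx : p.1 ∈ S.M := hmem p hp
  have h1 := leib _ hv0 _ hG0
  simp only [map_zero, add_zero] at h1
  rw [← star_mul] at h1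
  have h2 := hz _ (leib _ h1 p hp)
  simp only at h2
  rw [inner_add_left] at h2
  have e1 : ⟪p.2, S.l (G * v) z⟫_ℂ = ⟪S.l (star (G * v)) p.2, z⟫_ℂ := by
    rw [S.l_star, adj_star_left]
  have e2 : ⟪(star (G * v) * p.1) S.Ω, ζ⟫_ℂ = ⟪p.1 S.Ω, (G * v) ζ⟫_ℂ := by
    rw [← adj_star_left (G * v)]
    rfl
  have e3 : S.r p.1 (S.l (star v) (C (w0 S))) = C (S.T.tp ((star v) S.Ω) (p.1 S.Ω)) := by
    rw [← S.lr_comm, ← cc_r hC hx, ← cc_l hC hsv, r_w0 hx, S.l_tp]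
  rw [e2, e3, adj_star_right C] at h2
  have e4 : ⟪p.1 S.Ω, (ContinuousLinearMap.adjoint (S.T.tp ((star v) S.Ω))) ((star C) z)⟫_ℂ =
      ⟪S.T.tp ((star v) S.Ω) (p.1 S.Ω), (star C) z⟫_ℂ := by
    rw [ContinuousLinearMap.adjoint_inner_right]
  rw [inner_sub_right, e1, e4, ← h2]
  ring

end

end Pool.H62.MC
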