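import Pool.Agent.H62.MC.Defs

/-!
# BVA: bounded vectors

PROOF. `bv_l`: `l x (C w0) = C (l x w0) = C ((x Ω) ⊗ Ω) = C (T.L (ρ x)) w0` as `ρ x Ω = x Ω`
(`S.ρ_Ω`, `cc_l`, `l_w0`, `S.T.L_tp`), and `T.L (ρ x)` is in the commutant of `NK S`: it commutes with
the generators `S.l y = T.L y` (`S.ρ_mem`: `ρ x ∈ M'`) and `S.r y = T.R (ρ y)` (`S.T.LR_comm`); see
`NK_mem_iff` (an operator commuting with the generators commutes with `NK S`).  `bv_r`: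
`r y (C w0) = C (r y w0) = C (Ω ⊗ (y Ω)) = C (T.R y) w0`, `T.R y` commutes with `T.L x` and with
`T.R (ρ x)` because `ρ x ∈ M'`.
`exists_bv` (as in `UC/Frac.lean`): `exists_pair (NK S) (opOf (NK S) w0 κ)` gives `P, Q ∈ NK S`, `P`
injective, `(P w0, Q w0) ∈ opOf`; `exists_right` for `P`: `g ∈ N'` injective with `g w0 = P w0`; also
`(g w0, g κ) ∈ opOf`, single valued (`(opOf_affil ..).sv`), so `g κ = Q w0 = C w0` (`exists_right`
for `Q`).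
-/

namespace Pool.H62.MC

open scoped InnerProductSpace TensorProduct ComplexConjugate
open Filter Topology Pool.H62.UC

noncomputable section

variable {H : Type*} [NormedAddCommGroup H] [InnerProductSpace ℂ H] [CompleteSpace H]
variable {K : Type*} [NormedAddCommGroup K] [InnerProductSpace ℂ K] [CompleteSpace K]

variable {S : Std H K}

theorem mem_comm_iff (C : K →L[ℂ] K) (h1 : ∀ x ∈ S.M, C * S.l x = S.l x * C)
    (h2 : ∀ x ∈ S.M, C * S.r x = S.r x * C) : C ∈ (NK S).commutant := by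
  rw [VonNeumannAlgebra.mem_commutant_iff]
  intro A hA
  rw [NK_mem_iff, StarSubalgebra.mem_centralizer_iff] at hA
  have hC : C ∈ Set.centralizer ({A : K →L[ℂ] K | ∃ x ∈ S.M, A = S.l x} ∪
      {A : K →L[ℂ] K | ∃ y ∈ S.M, A = S.r y}) := by
    rintro B (⟨x, hx, rfl⟩ | ⟨x, hx, rfl⟩)
    · exact (h1 x hx).symm
    · exact (h2 x hx).symm
  exact (hA C hC).1.symm

theorem TL_mem {x : H →L[ℂ] H} (hx : x ∈ S.M) : S.T.L (S.ρ x) ∈ (NK S).commutant := by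
  refine mem_comm_iff _ (fun y hy => ?_) (fun y hy => S.T.LR_comm _ _)
  have h := VonNeumannAlgebra.mem_commutant_iff.1 (S.ρ_mem hx) y hy
  change S.T.L (S.ρ x) * S.T.L y = S.T.L y * S.T.L (S.ρ x)
  rw [← map_mul, ← map_mul, h]

theorem TR_mem {x : H →L[ℂ] H} (hx : x ∈ S.M) : S.T.R x ∈ (NK S).commutant := by
  refine mem_comm_iff _ (fun y hy => (S.T.LR_comm _ _).symm) (fun y hy => ?_)
  have h := VonNeumannAlgebra.mem_commutant_iff.1 (S.ρ_mem hy) x hx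
  change S.T.R x * S.T.R (S.ρ y) = S.T.R (S.ρ y) * S.T.R x
  rw [← map_mul, ← map_mul, h]

theorem bv_zero : Bv S (0 : K) := ⟨0, zero_mem _, rfl⟩

theorem bv_add {κ κ' : K} (h : Bv S κ) (h' : Bv S κ') : Bv S (κ + κ') := by
  obtain ⟨C, hC, rfl⟩ := h
  obtain ⟨C', hC', rfl⟩ := h'
  exact ⟨C + C', add_mem hC hC', rfl⟩

theorem bv_smul (c : ℂ) {κ : K} (h : Bv S κ) : Bv S (c • κ) := by
  obtain ⟨C, hC, rfl⟩ := h
  exact ⟨c • C, (NK S).commutant.toStarSubalgebra.toSubalgebra.smul_mem hC c, rfl⟩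

theorem bv_comm {C : K →L[ℂ] K} (hC : C ∈ (NK S).commutant) {κ : K} (h : Bv S κ) :
    Bv S (C κ) := by
  obtain ⟨C', hC', rfl⟩ := h
  exact ⟨C * C', mul_mem hC hC', rfl⟩

theorem bv_l {x : H →L[ℂ] H} (hx : x ∈ S.M) {κ : K} (h : Bv S κ) : Bv S (S.l x κ) := by
  obtain ⟨C, hC, rfl⟩ := h
  refine ⟨C * S.T.L (S.ρ x), mul_mem hC (TL_mem hx), ?_⟩
  rw [← cc_l hC hx, l_w0]
  change C (S.T.L (S.ρ x) (S.T.tp S.Ω S.Ω)) = C (S.T.tp (x S.Ω) S.Ω)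
  rw [S.T.L_tp, S.ρ_Ω hx]

theorem bv_r {x : H →L[ℂ] H} (hx : x ∈ S.M) {κ : K} (h : Bv S κ) : Bv S (S.r x κ) := by
  obtain ⟨C, hC, rfl⟩ := h
  refine ⟨C * S.T.R x, mul_mem hC (TR_mem hx), ?_⟩
  rw [← cc_r hC hx, r_w0 hx]
  change C (S.T.R x (S.T.tp S.Ω S.Ω)) = C (S.T.tp S.Ω (x S.Ω))
  rw [S.T.R_tp]

theorem exists_bv (S : Std H K) (κ : K) :
    ∃ g ∈ (NK S).commutant, (∀ ξ, g ξ = 0 → ξ = 0) ∧ Bv S (g κ) := by
  have hN : IsTV (NK S).toStarSubalgebra (w0 S) := isTV_NK S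
  have hG := opOf_affil (NK S) (w0 S) hN κ
  obtain ⟨P, hP, X, hX, hPinj, hPX⟩ :=
    exists_pair (NK S) (opOf (NK S) (w0 S) κ) hG.closed hG.inv hG.dense
  obtain ⟨g, hg, -, hgΩ, hginj⟩ := exists_right (NK S) (w0 S) hN P hP
  obtain ⟨C, hC, -, hCΩ, -⟩ := exists_right (NK S) (w0 S) hN X hX
  have h1 : (g (w0 S), g κ) ∈ opOf (NK S) (w0 S) κ :=
    Submodule.le_topologicalClosure _ (Submodule.subset_span ⟨g, hg, rfl⟩)
  have h2 := (opOf (NK S) (w0 S) κ).sub_mem h1 (hPX (w0 S))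
  have h3 : g κ = X (w0 S) := by
    have h4 : ((0 : K), g κ - X (w0 S)) ∈ opOf (NK S) (w0 S) κ := by
      have h5 : (g (w0 S), g κ) - (P (w0 S), X (w0 S)) = ((0 : K), g κ - X (w0 S)) := by
        rw [hgΩ, Prod.mk_sub_mk, sub_self]
      rwa [h5] at h2
    exact sub_eq_zero.1 (hG.sv _ h4)
  exact ⟨g, hg, hginj hPinj, C, hC, by rw [hCΩ, h3]⟩

end

end Pool.H62.MC
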