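import Pool.Agent.H62.MC.BvA
import Pool.Agent.H62.UC.Ext
import Pool.Agent.H62.UC.OreC
import Pool.Agent.H62.UC.OreB

/-!
# CONV: inner derivations are closable in measure

PROOF. `exists_pair (NK S) η` (closed, `Inv`, dense) gives `P, Q ∈ NK S`, `P` injective, with
`(P ζ, Q ζ) ∈ η` for all `ζ`, in particular `(P w0, Q w0) ∈ η`.  `exists_right` (UC/Comm or Jop, with
`isTV_NK S`): `B, C ∈ N'`, `B` injective, `B w0 = P w0`, `C w0 = Q w0`.  For `x ∈ D`: the pair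
`(B w0, l x (C w0) - r x (C w0))` is in the left side of `h`, so in `opOf (NK S) w0 (d x)`, which also
contains `(B w0, B (d x))` and is single valued (`opOf_affil`), hence `B (d x) = br S x (C w0)`.
Now let `x_n Ω → 0`, `f (d x_n) → ξ` (sequence from the closure).  `ore_left` in `N'` (trace vector of
`N'`: `isST_of (NK S) w0 (isTV_NK S)`, second component) for `A = B`, `X = f`: `P', Q' ∈ N'`, `P'`
injective, `P' f = Q' B`.  `P' (f (d x_n)) = Q' (B (d x_n)) = Q' (br S x_n (C w0))` and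
`br S x (C w0) = C (tp (x Ω) Ω - tp Ω (x Ω))` (`cc_l`, `cc_r`, `l_w0`, `r_w0`) tends to `0`; so
`P' ξ = 0`, `ξ = 0`.
-/

namespace Pool.H62.MC

open scoped InnerProductSpace TensorProduct ComplexConjugate
open Filter Topology Pool.H62.UC

noncomputable section

variable {H : Type*} [NormedAddCommGroup H] [InnerProductSpace ℂ H] [CompleteSpace H]
variable {K : Type*} [NormedAddCommGroup K] [InnerProductSpace ℂ K] [CompleteSpace K]

variable {S : Std H K}

theorem conv (D : StarSubalgebra ℂ (H →L[ℂ] H)) (hD : ∀ x ∈ D, x ∈ S.M) (d : D →ₗ[ℂ] K)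
    (η : Submodule ℂ (K × K)) (hη : Affil (NK S) η)
    (h : ∀ x : D, closure {p : K × K | ∃ q ∈ η, p = (q.1, br S (x : H →L[ℂ] H) q.2)} =
      (opOf (NK S) (w0 S) (d x) : Set (K × K)))
    {f : K →L[ℂ] K} (hf : f ∈ (NK S).commutant) (hfi : ∀ ξ, f ξ = 0 → ξ = 0)
    (ξ : K) (hξ : ((0 : H), ξ) ∈ closure (dGraph S D ((f : K →ₗ[ℂ] K) ∘ₗ d))) : ξ = 0 := by
  obtain ⟨P, hP, Q, hQ, hPi, hPQ⟩ := exists_pair (NK S) η hη.closed hη.inv hη.dense
  obtain ⟨B, hB, -, hBw, hBi⟩ := exists_right (NK S) (w0 S) (isTV_NK S) P hP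
  obtain ⟨C, hC, -, hCw, -⟩ := exists_right (NK S) (w0 S) (isTV_NK S) Q hQ
  have key : ∀ x : D, B (d x) =
      C (S.T.tp ((x : H →L[ℂ] H) S.Ω) S.Ω - S.T.tp S.Ω ((x : H →L[ℂ] H) S.Ω)) := by
    intro x
    have hx := hD _ x.2
    have h1 : (B (w0 S), br S (x : H →L[ℂ] H) (C (w0 S))) ∈ opOf (NK S) (w0 S) (d x) := by
      have h2 : (B (w0 S), br S (x : H →L[ℂ] H) (C (w0 S))) ∈
          closure {p : K × K | ∃ q ∈ η, p = (q.1, br S (x : H →L[ℂ] H) q.2)} := by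
        apply subset_closure
        refine ⟨(P (w0 S), Q (w0 S)), hPQ (w0 S), ?_⟩
        rw [hBw, hCw]
      rw [h x] at h2
      exact h2
    have h3 : (B (w0 S), B (d x)) ∈ opOf (NK S) (w0 S) (d x) := by
      apply Submodule.le_topologicalClosure
      apply Submodule.subset_span
      exact ⟨B, hB, rfl⟩
    have h4 := (opOf (NK S) (w0 S) (d x)).sub_mem h3 h1
    rw [Prod.mk_sub_mk, sub_self] at h4
    have h5 := (opOf_affil (NK S) (w0 S) (isTV_NK S) (d x)).sv _ h4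
    rw [sub_eq_zero.1 h5]
    unfold br
    rw [← cc_l hC hx, ← cc_r hC hx, l_w0, r_w0 hx, map_sub]
  obtain ⟨P', hP', Q', hQ', hPi', hPQ'⟩ := ore_left (NK S).commutant (w0 S)
    (isST_of (NK S) (w0 S) (isTV_NK S)).2 B f hB hf (hBi hPi)
  have hcl : IsClosed {q : H × K | P' q.2 = Q' (C (S.T.tp q.1 S.Ω - S.T.tp S.Ω q.1))} := by
    apply isClosed_eq
    · exact P'.continuous.comp continuous_snd
    · refine Q'.continuous.comp (C.continuous.comp ?_)
      refine Continuous.sub ?_ ?_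
      · exact (S.T.tp.flip S.Ω).continuous.comp continuous_fst
      · exact (S.T.tp S.Ω).continuous.comp continuous_fst
  have hsub : dGraph S D ((f : K →ₗ[ℂ] K) ∘ₗ d) ⊆
      {q : H × K | P' q.2 = Q' (C (S.T.tp q.1 S.Ω - S.T.tp S.Ω q.1))} := by
    rintro _ ⟨x, rfl⟩
    change P' (f (d x)) = Q' (C (S.T.tp ((x : H →L[ℂ] H) S.Ω) S.Ω -
      S.T.tp S.Ω ((x : H →L[ℂ] H) S.Ω)))
    rw [← key x]
    exact DFunLike.congr_fun hPQ' (d x)
  have h6 : P' ξ = Q' (C (S.T.tp (0 : H) S.Ω - S.T.tp S.Ω (0 : H))) :=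
    hcl.closure_subset_iff.2 hsub hξ
  apply hPi'
  rw [h6]
  simp

end

end Pool.H62.MC
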