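import Pool.Agent.H62.MC.Step

/-!
# CORE: a unitary with bounded derivative is in the kernel

PROOF. Let `ε > 0`, `C` from `UW`.  For `n ≥ 1` take `steps` with `τ = 1`: `(G, γ) ∈ Gr`,
`⟪γ, z_n⟫ = ⟪G Ω, η_n⟫` (`IsAdj`).  `UW` for `G` (`‖G‖ ≤ 1`): `(y, θ) ∈ Gr`, `‖y Ω - G Ω‖ ≤ ε`,
`‖θ‖ ≤ C`.  `⟪G Ω, η_n⟫ = ⟪y Ω, η_n⟫ - ⟪y Ω - G Ω, η_n⟫ = ⟪θ, z_n⟫ - ...`, so
`n ‖⟪ω, z⟫‖ ≤ 1 + C ‖z_n‖ + ε ‖η_n‖ ≤ 1 + |C| √(n ‖z‖² + 1) + ε (n ‖ζ‖ + 1)`.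
Divide by `n`, `n → ∞`: `‖⟪ω, z⟫‖ ≤ ε ‖ζ‖`; `ε → 0`.
-/

namespace Pool.H62.MC

open scoped InnerProductSpace TensorProduct ComplexConjugate
open Filter Topology Pool.H62.UC

noncomputable section

variable {H : Type*} [NormedAddCommGroup H] [InnerProductSpace ℂ H] [CompleteSpace H]
variable {K : Type*} [NormedAddCommGroup K] [InnerProductSpace ℂ K] [CompleteSpace K]

variable {S : Std H K} {Gr : Submodule ℂ ((H →L[ℂ] H) × K)}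

theorem core_bound (hmem : ∀ p ∈ Gr, p.1 ∈ S.M)
    (leib : ∀ p ∈ Gr, ∀ q ∈ Gr, (p.1 * q.1, S.l p.1 q.2 + S.r q.1 p.2) ∈ Gr)
    (h1 : ((1 : H →L[ℂ] H), (0 : K)) ∈ Gr)
    (F : Filter (H →L[ℂ] H)) [F.NeBot] (hF : Lett S Gr F)
    {w : H →L[ℂ] H} (hw : w ∈ UM S) {ω ω' : K} (hw1 : (w, ω) ∈ Gr) (hw2 : (star w, ω') ∈ Gr)
    (hb : Bv S ω') {z : K} {ζ : H} (hz : IsAdj S Gr z ζ) {ε C : ℝ} (hε : 0 < ε)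
    (hC : ∀ g ∈ S.M, ‖g‖ ≤ 1 → ∃ p ∈ Gr, ‖p.1 S.Ω - g S.Ω‖ ≤ ε ∧ ‖p.2‖ ≤ C) (m : ℕ) :
    (m : ℝ) ^ 2 * ‖⟪ω, z⟫_ℂ‖ ≤ 1 + |C| * (m * ‖z‖ + 1) + ε * ((m : ℝ) ^ 2 * ‖ζ‖ + 1) := by
  obtain ⟨G, hG, γ, γ', zn, ηn, hG1, -, -, hzn, hn1, hn2, hn3⟩ :=
    steps hmem leib h1 F hF hw hw1 hw2 hb hz (m ^ 2) 1 one_pos
  obtain ⟨p, hp, hp1, hp2⟩ := hC G hG.1 (UM_norm S hG)
  have e1 : ⟪γ, zn⟫_ℂ = ⟪p.2, zn⟫_ℂ - ⟪p.1 S.Ω - G S.Ω, ηn⟫_ℂ := by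
    have a1 := hzn _ hG1
    have a2 := hzn _ hp
    simp only at a1
    rw [inner_sub_left, a1, a2]
    ring
  have hz1 : ‖zn‖ ≤ m * ‖z‖ + 1 := by
    have h2 : (0 : ℝ) ≤ m * ‖z‖ := by positivity
    refine abs_le_of_sq_le_sq' ?_ (by linarith) |>.2
    push_cast at hn1
    nlinarith
  have e2 : ‖⟪p.2, zn⟫_ℂ‖ ≤ |C| * (m * ‖z‖ + 1) := by
    refine (norm_inner_le_norm _ _).trans ?_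
    exact mul_le_mul (hp2.trans (le_abs_self C)) hz1 (norm_nonneg _) (abs_nonneg _)
  have e3 : ‖⟪p.1 S.Ω - G S.Ω, ηn⟫_ℂ‖ ≤ ε * ((m : ℝ) ^ 2 * ‖ζ‖ + 1) := by
    refine (norm_inner_le_norm _ _).trans ?_
    push_cast at hn2
    exact mul_le_mul hp1 hn2 (norm_nonneg _) hε.le
  have e4 : ‖((m ^ 2 : ℕ) : ℂ) * ⟪ω, z⟫_ℂ‖ ≤ ‖⟪γ, zn⟫_ℂ‖ + 1 := by
    have h2 := norm_sub_norm_le (((m ^ 2 : ℕ) : ℂ) * ⟪ω, z⟫_ℂ) ⟪γ, zn⟫_ℂ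
    rw [norm_sub_rev] at h2
    linarith
  have e5 : ‖((m ^ 2 : ℕ) : ℂ) * ⟪ω, z⟫_ℂ‖ = (m : ℝ) ^ 2 * ‖⟪ω, z⟫_ℂ‖ := by
    rw [norm_mul, Complex.norm_natCast]
    push_cast
    rfl
  rw [e5, e1] at e4
  have e6 := norm_sub_le ⟪p.2, zn⟫_ℂ ⟪p.1 S.Ω - G S.Ω, ηn⟫_ℂ
  linarith

theorem core (hmem : ∀ p ∈ Gr, p.1 ∈ S.M)
    (leib : ∀ p ∈ Gr, ∀ q ∈ Gr, (p.1 * q.1, S.l p.1 q.2 + S.r q.1 p.2) ∈ Gr)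
    (h1 : ((1 : H →L[ℂ] H), (0 : K)) ∈ Gr) (hUW : UW S Gr)
    (F : Filter (H →L[ℂ] H)) [F.NeBot] (hF : Lett S Gr F)
    {w : H →L[ℂ] H} (hw : w ∈ UM S) {ω ω' : K} (hw1 : (w, ω) ∈ Gr) (hw2 : (star w, ω') ∈ Gr)
    (hb : Bv S ω') {z : K} {ζ : H} (hz : IsAdj S Gr z ζ) : ⟪ω, z⟫_ℂ = 0 := by
  have key : ∀ ε : ℝ, 0 < ε → ‖⟪ω, z⟫_ℂ‖ ≤ ε * ‖ζ‖ := by
    intro ε hε
    obtain ⟨C, hC⟩ := hUW ε hε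
    by_contra hcon
    push Not at hcon
    have hδ : 0 < ‖⟪ω, z⟫_ℂ‖ - ε * ‖ζ‖ := by linarith
    have hP : 0 ≤ 1 + |C| + ε := by positivity
    have hQ : 0 ≤ |C| * ‖z‖ := by positivity
    obtain ⟨m, hm⟩ := exists_nat_gt (((1 + |C| + ε) + |C| * ‖z‖) / (‖⟪ω, z⟫_ℂ‖ - ε * ‖ζ‖) + 1)
    have h2 := core_bound hmem leib h1 F hF hw hw1 hw2 hb hz hε hC m
    have h3 : 0 ≤ ((1 + |C| + ε) + |C| * ‖z‖) / (‖⟪ω, z⟫_ℂ‖ - ε * ‖ζ‖) :=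
      div_nonneg (add_nonneg hP hQ) hδ.le
    have hm1 : (1 : ℝ) ≤ m := by linarith
    have h4 : (1 + |C| + ε) + |C| * ‖z‖ < m * (‖⟪ω, z⟫_ℂ‖ - ε * ‖ζ‖) := by
      rw [← div_lt_iff₀ hδ]
      linarith
    have h5 := mul_lt_mul_of_pos_left h4 (show (0 : ℝ) < m by linarith)
    have h6 := mul_le_mul_of_nonneg_right hm1 hP
    have h7 : (m : ℝ) ^ 2 * ‖⟪ω, z⟫_ℂ‖ - ε * ((m : ℝ) ^ 2 * ‖ζ‖) =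
        m * (m * (‖⟪ω, z⟫_ℂ‖ - ε * ‖ζ‖)) := by ring
    have h8 : |C| * (m * ‖z‖ + 1) = m * (|C| * ‖z‖) + |C| := by ring
    linarith
  have h2 : ‖⟪ω, z⟫_ℂ‖ ≤ 0 := by
    by_contra hcon
    push Not at hcon
    have h3 : 0 < ‖ζ‖ + 1 := by positivity
    have h4 := key (‖⟪ω, z⟫_ℂ‖ / (2 * (‖ζ‖ + 1))) (by positivity)
    rw [div_mul_eq_mul_div, le_div_iff₀ (by positivity)] at h4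
    have h5 := norm_nonneg ζ
    nlinarith
  exact norm_le_zero_iff.1 h2

end

end Pool.H62.MC
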