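import Pool.Agent.H62.MC.StepE
import Pool.Agent.H62.MC.Core

/-!
# COREE: the kernel property, letters tending weakly to `e`

PROOF. Put `z' = z - P z`, `P = PP S e`: `⟪p.2, P z⟫ = ⟪P p.2, z⟫ = 0` for `p ∈ Gr` (`P` is self-adjoint:
`l e`, `r e` are commuting projections), so `IsAdj S Gr z' ζ`, `P z' = 0`, `⟪ω, z⟫ = ⟪ω, z'⟫`.  For `z'`
take `κ` from `stepsE`.  Let `ε > 0`, `C` from `UW`: for every `n`, `⟪γ, z_n⟫ = ⟪G Ω, η_n⟫` and with the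
`(y, θ) ∈ Gr` of `UW` for `G`: `⟪G Ω, η_n⟫ = ⟪θ, z_n⟫ - ⟪y Ω - G Ω, η_n⟫`, so
`n ‖⟪ω, z'⟫‖ ≤ 1 + |C| √(n ‖z'‖² + 1) + ε κ (n + 1)`.  Divide by `n`, `n → ∞` (see `core_bound` in
`MC/Core.lean`), `ε → 0`.
-/

namespace Pool.H62.MC

open scoped InnerProductSpace TensorProduct ComplexConjugate
open Filter Topology Pool.H62.UC

noncomputable section

variable {H : Type*} [NormedAddCommGroup H] [InnerProductSpace ℂ H] [CompleteSpace H]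
variable {K : Type*} [NormedAddCommGroup K] [InnerProductSpace ℂ K] [CompleteSpace K]

variable {S : Std H K} {Gr : Submodule ℂ ((H →L[ℂ] H) × K)} {e : H →L[ℂ] H}

theorem coreE_pp (he : Cen S e) (κ : K) : PP S e (PP S e κ) = PP S e κ := by
  have h1 : S.l e * S.l e = S.l e := by rw [← S.l_mul, he.proj.isIdempotentElem]
  have h2 : S.r e * S.r e = S.r e := by
    rw [← S.r_mul he.mem he.mem, he.proj.isIdempotentElem]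
  show S.l e (S.r e (S.l e (S.r e κ))) = S.l e (S.r e κ)
  rw [← S.lr_comm e e]
  have h3 : S.l e (S.l e (S.r e (S.r e κ))) = S.l e (S.r e (S.r e κ)) :=
    congrArg (fun A : K →L[ℂ] K => A (S.r e (S.r e κ))) h1
  have h4 : S.r e (S.r e κ) = S.r e κ := congrArg (fun A : K →L[ℂ] K => A κ) h2
  rw [h3, h4]

theorem coreE_adj (he : Cen S e) (x y : K) : ⟪PP S e x, y⟫_ℂ = ⟪x, PP S e y⟫_ℂ := by
  have h1 : star e = e := he.proj.isSelfAdjoint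
  have hl : star (S.l e) = S.l e := by rw [← S.l_star, h1]
  have hr : star (S.r e) = S.r e := by rw [← S.r_star he.mem, h1]
  have h2 : ∀ x y : K, ⟪S.l e x, y⟫_ℂ = ⟪x, S.l e y⟫_ℂ := by
    intro x y
    conv_lhs => rw [← hl]
    rw [ContinuousLinearMap.star_eq_adjoint, ContinuousLinearMap.adjoint_inner_left]
  have h3 : ∀ x y : K, ⟪S.r e x, y⟫_ℂ = ⟪x, S.r e y⟫_ℂ := by
    intro x y
    conv_lhs => rw [← hr]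
    rw [ContinuousLinearMap.star_eq_adjoint, ContinuousLinearMap.adjoint_inner_left]
  show ⟪S.l e (S.r e x), y⟫_ℂ = ⟪x, S.l e (S.r e y)⟫_ℂ
  rw [h2, h3, S.lr_comm]

theorem coreE_bound {G : H →L[ℂ] H} (hG : G ∈ UM S) {γ zn : K} {ηn : H} (hG1 : (G, γ) ∈ Gr)
    (hzn : IsAdj S Gr zn ηn) {ω z : K} {m : ℕ} {κ ε C : ℝ} (hε : 0 < ε)
    (hn1 : ‖zn‖ ^ 2 ≤ ((m ^ 2 : ℕ) : ℝ) * ‖z‖ ^ 2 + 1)
    (hn2 : ‖ηn‖ ≤ κ * (((m ^ 2 : ℕ) : ℝ) + 1))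
    (hn3 : ‖⟪γ, zn⟫_ℂ - ((m ^ 2 : ℕ) : ℂ) * ⟪ω, z⟫_ℂ‖ ≤ 1)
    (hC : ∀ g ∈ S.M, ‖g‖ ≤ 1 → ∃ p ∈ Gr, ‖p.1 S.Ω - g S.Ω‖ ≤ ε ∧ ‖p.2‖ ≤ C) :
    (m : ℝ) ^ 2 * ‖⟪ω, z⟫_ℂ‖ ≤ 1 + |C| * (m * ‖z‖ + 1) + ε * (κ * ((m : ℝ) ^ 2 + 1)) := by
  obtain ⟨p, hp, hp1, hp2⟩ := hC G hG.1 (UM_norm S hG)
  have e1 : ⟪γ, zn⟫_ℂ = ⟪p.2, zn⟫_ℂ - ⟪p.1 S.Ω - G S.Ω, ηn⟫_ℂ := by
    have a1 := hzn _ hG1
    have a2 := hzn _ hp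
    simp only at a1
    rw [inner_sub_left, a1, a2]
    ring
  have hz1 : ‖zn‖ ≤ m * ‖z‖ + 1 := by
    have h2 : (0 : ℝ) ≤ m * ‖z‖ := by positivity
    refine abs_le_of_sq_le_sq' ?_ (by linarith) |>.2
    push_cast at hn1
    nlinarith
  have e2 : ‖⟪p.2, zn⟫_ℂ‖ ≤ |C| * (m * ‖z‖ + 1) := by
    refine (norm_inner_le_norm _ _).trans ?_
    exact mul_le_mul (hp2.trans (le_abs_self C)) hz1 (norm_nonneg _) (abs_nonneg _)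
  have e3 : ‖⟪p.1 S.Ω - G S.Ω, ηn⟫_ℂ‖ ≤ ε * (κ * ((m : ℝ) ^ 2 + 1)) := by
    refine (norm_inner_le_norm _ _).trans ?_
    push_cast at hn2
    exact mul_le_mul hp1 hn2 (norm_nonneg _) hε.le
  have e4 : ‖((m ^ 2 : ℕ) : ℂ) * ⟪ω, z⟫_ℂ‖ ≤ ‖⟪γ, zn⟫_ℂ‖ + 1 := by
    have h2 := norm_sub_norm_le (((m ^ 2 : ℕ) : ℂ) * ⟪ω, z⟫_ℂ) ⟪γ, zn⟫_ℂ
    rw [norm_sub_rev] at h2
    linarith
  have e5 : ‖((m ^ 2 : ℕ) : ℂ) * ⟪ω, z⟫_ℂ‖ = (m : ℝ) ^ 2 * ‖⟪ω, z⟫_ℂ‖ := by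
    rw [norm_mul, Complex.norm_natCast]
    push_cast
    rfl
  rw [e5, e1] at e4
  have e6 := norm_sub_le ⟪p.2, zn⟫_ℂ ⟪p.1 S.Ω - G S.Ω, ηn⟫_ℂ
  linarith

theorem coreE_zero (he : Cen S e) (hmem : ∀ p ∈ Gr, p.1 ∈ S.M)
    (leib : ∀ p ∈ Gr, ∀ q ∈ Gr, (p.1 * q.1, S.l p.1 q.2 + S.r q.1 p.2) ∈ Gr)
    (h1 : ((1 : H →L[ℂ] H), (0 : K)) ∈ Gr) (hP : ∀ p ∈ Gr, PP S e p.2 = 0) (hUW : UW S Gr)
    (F : Filter (H →L[ℂ] H)) [F.NeBot] (hF : LettE S Gr e F)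
    {w : H →L[ℂ] H} (hw : w ∈ UM S) {ω ω' : K} (hw1 : (w, ω) ∈ Gr) (hw2 : (star w, ω') ∈ Gr)
    (hb : Bv S ω') {z : K} {ζ : H} (hz : IsAdj S Gr z ζ) (hzP : PP S e z = 0) :
    ⟪ω, z⟫_ℂ = 0 := by
  obtain ⟨κ, hκ⟩ := stepsE he hmem leib h1 hP F hF hw hw1 hw2 hb hz hzP
  have key : ∀ ε : ℝ, 0 < ε → ‖⟪ω, z⟫_ℂ‖ ≤ ε * |κ| := by
    intro ε hε
    obtain ⟨C, hC⟩ := hUW ε hε
    by_contra hcon
    push Not at hcon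
    have hδ : 0 < ‖⟪ω, z⟫_ℂ‖ - ε * |κ| := by linarith
    have hP : 0 ≤ 1 + |C| + ε * |κ| := by positivity
    have hQ : 0 ≤ |C| * ‖z‖ := by positivity
    obtain ⟨m, hm⟩ := exists_nat_gt
      (((1 + |C| + ε * |κ|) + |C| * ‖z‖) / (‖⟪ω, z⟫_ℂ‖ - ε * |κ|) + 1)
    obtain ⟨G, hG, γ, zn, ηn, hG1, hzn, hn1, hn2, hn3⟩ := hκ (m ^ 2)
    have h2 := coreE_bound hG hG1 hzn hε hn1 hn2 hn3 hC
    have h3 : 0 ≤ ((1 + |C| + ε * |κ|) + |C| * ‖z‖) / (‖⟪ω, z⟫_ℂ‖ - ε * |κ|) :=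
      div_nonneg (add_nonneg hP hQ) hδ.le
    have hm1 : (1 : ℝ) ≤ m := by linarith
    have h4 : (1 + |C| + ε * |κ|) + |C| * ‖z‖ < m * (‖⟪ω, z⟫_ℂ‖ - ε * |κ|) := by
      rw [← div_lt_iff₀ hδ]
      linarith
    have h5 := mul_lt_mul_of_pos_left h4 (show (0 : ℝ) < m by linarith)
    have h6 := mul_le_mul_of_nonneg_right hm1 hP
    have h7 : (m : ℝ) ^ 2 * ‖⟪ω, z⟫_ℂ‖ - (m : ℝ) ^ 2 * (ε * |κ|) =
        m * (m * (‖⟪ω, z⟫_ℂ‖ - ε * |κ|)) := by ring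
    have h8 : |C| * (m * ‖z‖ + 1) = m * (|C| * ‖z‖) + |C| := by ring
    have h9 : ε * (κ * ((m : ℝ) ^ 2 + 1)) ≤ (m : ℝ) ^ 2 * (ε * |κ|) + ε * |κ| := by
      have h10 : ε * ((m : ℝ) ^ 2 + 1) * κ ≤ ε * ((m : ℝ) ^ 2 + 1) * |κ| :=
        mul_le_mul_of_nonneg_left (le_abs_self κ) (by positivity)
      linarith
    linarith
  have h2 : ‖⟪ω, z⟫_ℂ‖ ≤ 0 := by
    by_contra hcon
    push Not at hcon
    have h3 : 0 < |κ| + 1 := by positivity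
    have h4 := key (‖⟪ω, z⟫_ℂ‖ / (2 * (|κ| + 1))) (by positivity)
    rw [div_mul_eq_mul_div, le_div_iff₀ (by positivity)] at h4
    have h5 := abs_nonneg κ
    nlinarith
  exact norm_le_zero_iff.1 h2

theorem coreE (he : Cen S e) (hmem : ∀ p ∈ Gr, p.1 ∈ S.M)
    (leib : ∀ p ∈ Gr, ∀ q ∈ Gr, (p.1 * q.1, S.l p.1 q.2 + S.r q.1 p.2) ∈ Gr)
    (h1 : ((1 : H →L[ℂ] H), (0 : K)) ∈ Gr) (hP : ∀ p ∈ Gr, PP S e p.2 = 0) (hUW : UW S Gr)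
    (F : Filter (H →L[ℂ] H)) [F.NeBot] (hF : LettE S Gr e F)
    {w : H →L[ℂ] H} (hw : w ∈ UM S) {ω ω' : K} (hw1 : (w, ω) ∈ Gr) (hw2 : (star w, ω') ∈ Gr)
    (hb : Bv S ω') {z : K} {ζ : H} (hz : IsAdj S Gr z ζ) : ⟪ω, z⟫_ℂ = 0 := by
  have hz' : IsAdj S Gr (z - PP S e z) ζ := by
    intro p hp
    rw [inner_sub_right, ← coreE_adj he, hP p hp, inner_zero_left, sub_zero]
    exact hz p hp
  have hzP : PP S e (z - PP S e z) = 0 := by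
    rw [map_sub, coreE_pp he, sub_self]
  have h2 := coreE_zero he hmem leib h1 hP hUW F hF hw hw1 hw2 hb hz' hzP
  rw [inner_sub_right, ← coreE_adj he, hP _ hw1, inner_zero_left, sub_zero] at h2
  exact h2

end

end Pool.H62.MC
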