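import Pool.Agent.H62.UC.Comm
import Pool.Agent.H62.UC.Nk
import Pool.Agent.H62.UC.JuncA

/-!
# MP_95f3e5_an, measure-closable derivations (note `/team-store/H62_95f3e5.md`): definitions

`S : Std H K`: finite von Neumann algebra `S.M` in standard form, `K = H ⊗ H`, `S.l x = x ⊗ 1`,
`S.r y = 1 ⊗ ρ y`, `NK S` the algebra generated by `S.l x`, `S.r y`.
-/

namespace Pool.H62.MC

open scoped InnerProductSpace TensorProduct ComplexConjugate
open Filter Topology Pool.H62.UC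

noncomputable section

variable {H : Type*} [NormedAddCommGroup H] [InnerProductSpace ℂ H] [CompleteSpace H]
variable {K : Type*} [NormedAddCommGroup K] [InnerProductSpace ℂ K] [CompleteSpace K]

/-- `Ω ⊗ Ω` -/
def w0 (S : Std H K) : K := S.T.tp S.Ω S.Ω

/-- bounded vectors: `κ = C w0` with `C` in the commutant of `NK S` -/
def Bv (S : Std H K) (κ : K) : Prop := ∃ C ∈ (NK S).commutant, C (w0 S) = κ

/-- the commutator `[x, κ]` -/
def br (S : Std H K) (x : H →L[ℂ] H) (κ : K) : K := S.l x κ - S.r x κ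

/-- `z` is in the domain of the adjoint of the derivation with graph `Gr`, with value `η` -/
def IsAdj (S : Std H K) (Gr : Submodule ℂ ((H →L[ℂ] H) × K)) (z : K) (η : H) : Prop :=
  ∀ p ∈ Gr, ⟪p.2, z⟫_ℂ = ⟪p.1 S.Ω, η⟫_ℂ

/-- Weak uniform approximation of the unit ball of `M` by elements of bounded derivative
(no bound for the operator norm). -/
def UW (S : Std H K) (Gr : Submodule ℂ ((H →L[ℂ] H) × K)) : Prop :=
  ∀ ε : ℝ, 0 < ε → ∃ C : ℝ, ∀ g ∈ S.M, ‖g‖ ≤ 1 →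
    ∃ p ∈ Gr, ‖p.1 S.Ω - g S.Ω‖ ≤ ε ∧ ‖p.2‖ ≤ C

/-- `F` is a filter of weakly null unitaries `v` of `M` with `(v, 0), (v*, 0)` in the graph. -/
structure Lett (S : Std H K) (Gr : Submodule ℂ ((H →L[ℂ] H) × K))
    (F : Filter (H →L[ℂ] H)) : Prop where
  mem : ∀ᶠ v in F, v ∈ UM S ∧ (v, (0 : K)) ∈ Gr ∧ (star v, (0 : K)) ∈ Gr
  null : ∀ ξ η : H, Tendsto (fun v : H →L[ℂ] H => ⟪η, v ξ⟫_ℂ) F (𝓝 0)

/-- `M` is diffuse: no minimal projection. -/
def Diffuse (S : Std H K) : Prop :=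
  ∀ p ∈ S.M, IsStarProjection p → p ≠ 0 → ∃ q ∈ S.M, IsStarProjection q ∧ q * p = q ∧ q ≠ 0 ∧ q ≠ p

/-- `a` has no eigenvectors -/
def NoEig (a : H →L[ℂ] H) : Prop := ∀ (c : ℂ) (ξ : H), a ξ = c • ξ → ξ = 0

variable {S : Std H K}

/-- commutation of `C ∈ N'` with `N` -/
theorem cc {C A : K →L[ℂ] K} (hC : C ∈ (NK S).commutant) (hA : A ∈ NK S) (κ : K) :
    C (A κ) = A (C κ) := by
  have h1 := VonNeumannAlgebra.mem_commutant_iff.1 hC A hA
  have h2 := congrArg (fun Z : K →L[ℂ] K => Z κ) h1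
  simpa using h2.symm

theorem cc_l {C : K →L[ℂ] K} (hC : C ∈ (NK S).commutant) {x : H →L[ℂ] H} (hx : x ∈ S.M) (κ : K) :
    C (S.l x κ) = S.l x (C κ) := cc hC (l_mem_NK S hx) κ

theorem cc_r {C : K →L[ℂ] K} (hC : C ∈ (NK S).commutant) {x : H →L[ℂ] H} (hx : x ∈ S.M) (κ : K) :
    C (S.r x κ) = S.r x (C κ) := cc hC (r_mem_NK S hx) κ

theorem l_w0 (x : H →L[ℂ] H) : S.l x (w0 S) = S.T.tp (x S.Ω) S.Ω := S.l_tp x _ _

theorem r_w0 {x : H →L[ℂ] H} (hx : x ∈ S.M) : S.r x (w0 S) = S.T.tp S.Ω (x S.Ω) := by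
  unfold w0
  rw [S.r_tp, S.ρ_Ω hx]

end

end Pool.H62.MC
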