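import Pool.Agent.H62.MC.Defs

/-!
# DEFSE: definitions for the version without the hypothesis that `M` is diffuse

`e` is the central projection on the atomic part of `M`, `P κ = l e (r e κ)`.
-/

namespace Pool.H62.MC

open scoped InnerProductSpace TensorProduct ComplexConjugate
open Filter Topology Pool.H62.UC

noncomputable section

variable {H : Type*} [NormedAddCommGroup H] [InnerProductSpace ℂ H] [CompleteSpace H]
variable {K : Type*} [NormedAddCommGroup K] [InnerProductSpace ℂ K] [CompleteSpace K]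

/-- the data of a central projection -/
structure Cen (S : Std H K) (e : H →L[ℂ] H) : Prop where
  proj : IsStarProjection e
  mem : e ∈ S.M
  central : ∀ x ∈ S.M, e * x = x * e

/-- `F` is a filter of unitaries `v` of `M` with `(v, 0), (v*, 0)` in the graph, tending weakly to the
central projection `e`. -/
structure LettE (S : Std H K) (Gr : Submodule ℂ ((H →L[ℂ] H) × K)) (e : H →L[ℂ] H)
    (F : Filter (H →L[ℂ] H)) : Prop where
  mem : ∀ᶠ v in F, v ∈ UM S ∧ (v, (0 : K)) ∈ Gr ∧ (star v, (0 : K)) ∈ Gr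
  null : ∀ ξ η : H, Tendsto (fun v : H →L[ℂ] H => ⟪η, v ξ⟫_ℂ) F (𝓝 ⟪η, e ξ⟫_ℂ)

/-- all eigenvectors of `a` are in the range of `e` -/
def NoEigE (e a : H →L[ℂ] H) : Prop := ∀ (c : ℂ) (ξ : H), a ξ = c • ξ → e ξ = ξ

/-- the projection `P = l e r e`, in the centre of `NK S` -/
def PP (S : Std H K) (e : H →L[ℂ] H) : K →L[ℂ] K := S.l e * S.r e

variable {S : Std H K} {e : H →L[ℂ] H}

theorem Cen.l_comm (h : Cen S e) : S.l e ∈ (NK S).commutant := by
  rw [VonNeumannAlgebra.mem_commutant_iff]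
  intro g hg
  have h1 : ∀ A : K →L[ℂ] K, A ∈ ({A : K →L[ℂ] K | ∃ x ∈ S.M, A = S.l x} ∪
      {A : K →L[ℂ] K | ∃ y ∈ S.M, A = S.r y}) → A * S.l e = S.l e * A := by
    rintro A (⟨x, hx, rfl⟩ | ⟨y, hy, rfl⟩)
    · rw [← S.l_mul, ← S.l_mul, h.central x hx]
    · ext κ
      exact (S.lr_comm e y κ).symm
  have h2 := ((NK_mem_iff S g).1 hg)
  rw [StarSubalgebra.mem_centralizer_iff] at h2
  exact (h2 (S.l e) (fun A hA => h1 A hA)).1.symm

theorem Cen.r_eq (h : Cen S e) : S.r e = S.T.R e := by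
  show S.T.R (S.ρ e) = S.T.R e
  rw [ρ_central S h.mem h.central]

theorem Cen.r_comm (h : Cen S e) : S.r e ∈ (NK S).commutant := by
  rw [VonNeumannAlgebra.mem_commutant_iff]
  intro g hg
  have h1 : ∀ A : K →L[ℂ] K, A ∈ ({A : K →L[ℂ] K | ∃ x ∈ S.M, A = S.l x} ∪
      {A : K →L[ℂ] K | ∃ y ∈ S.M, A = S.r y}) → A * S.r e = S.r e * A := by
    rintro A (⟨x, hx, rfl⟩ | ⟨y, hy, rfl⟩)
    · ext κ
      exact S.lr_comm x e κ
    · rw [← S.r_mul h.mem hy, ← S.r_mul hy h.mem, h.central y hy]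
  have h2 := ((NK_mem_iff S g).1 hg)
  rw [StarSubalgebra.mem_centralizer_iff] at h2
  exact (h2 (S.r e) (fun A hA => h1 A hA)).1.symm

theorem Cen.PP_comm (h : Cen S e) : PP S e ∈ (NK S).commutant := mul_mem h.l_comm h.r_comm

theorem Cen.PP_mem (h : Cen S e) : PP S e ∈ NK S :=
  mul_mem (l_mem_NK S h.mem) (r_mem_NK S h.mem)

end

end Pool.H62.MC
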