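import Pool.Agent.H62.MC.Defs
import Pool.Agent.H62.UC.Dec
import Pool.Agent.H62.UC.Atom

/-!
# DIFFA: eigenprojections and weak limits

`IsEs S a l Q`: `Q ∈ M`, `0 ≤ Q ≤ 1`, `a Q = l Q`.

PROOF. `exists_eigproj`: `p` = orthogonal projection on the closed subspace `ker (a - l)`; every
operator of `M'` commutes with `a`, so `M'` leaves the subspace invariant and `p ∈ M'' = M` (see the
use of `VonNeumannAlgebra.IsStarProjection.mem_iff` in UC/Atom.lean).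
`es_le`: `range Q ⊆ ker (a - l)`, so `p Q = Q`, and `Q p = Q` (adjoint), `Q = p Q p ≤ p`:
`⟪Ω, Q Ω⟫ = ⟪p Ω, Q (p Ω)⟫ ≤ ‖p Ω‖²` as `1 - Q ≥ 0`.
`es_eq`: if equality, `⟪p Ω, (1 - Q) p Ω⟫ = 0`, `1 - Q ≥ 0`, so `(1 - Q) p Ω = 0`, `Q Ω = Q p Ω = p Ω`,
`Q = p` (`S.sep`).
`es_limit`: `‖Q n‖ ≤ 1`; `deca_lim` (UC/Dec) along any ultrafilter `U ≤ atTop`
(`Ultrafilter.exists_le`), `|l n| ≤ ‖a_n‖` when `Q n ≠ 0` (eventually, `r n > 0`), and `‖a_n‖` is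
eventually bounded, so `l` converges along `U` (compactness).  `Q₀ ∈ M`: for `z ∈ M'`,
`⟪ζ, z Q₀ ω⟫ = lim ⟪z* ζ, Q_n ω⟫ = lim ⟪ζ, Q_n z ω⟫`; positivity of `Q₀`, `1 - Q₀`: limits of
`⟪ζ, Q_n ζ⟫`; `⟪ζ, a_n Q_n ω⟫ → ⟪ζ, a Q₀ ω⟫` because `a_n* ζ → a* ζ` in norm and `‖Q_n ω‖ ≤ ‖ω‖`.
-/

namespace Pool.H62.MC

open scoped InnerProductSpace TensorProduct ComplexConjugate
open Filter Topology Pool.H62.UC

noncomputable section

variable {H : Type*} [NormedAddCommGroup H] [InnerProductSpace ℂ H] [CompleteSpace H]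
variable {K : Type*} [NormedAddCommGroup K] [InnerProductSpace ℂ K] [CompleteSpace K]

/-- `Q ∈ M` is a positive contraction with `a Q = l Q` -/
structure IsEs (S : Std H K) (a : H →L[ℂ] H) (l : ℝ) (Q : H →L[ℂ] H) : Prop where
  mem : Q ∈ S.M
  pos : Q.IsPositive
  le : (1 - Q).IsPositive
  eq : a * Q = (l : ℂ) • Q

variable {S : Std H K}

omit [CompleteSpace H] in
theorem diffA_ker (a : H →L[ℂ] H) (l : ℝ) (ξ : H) :
    ξ ∈ (LinearMap.ker ((a - (l : ℂ) • (1 : H →L[ℂ] H) : H →L[ℂ] H) : H →ₗ[ℂ] H)) ↔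
      a ξ = (l : ℂ) • ξ := by
  rw [LinearMap.mem_ker]
  show a ξ - (l : ℂ) • ξ = 0 ↔ _
  exact sub_eq_zero

theorem exists_eigproj {a : H →L[ℂ] H} (haM : a ∈ S.M) (l : ℝ) :
    ∃ p ∈ S.M, IsStarProjection p ∧ a * p = (l : ℂ) • p ∧
      ∀ ξ : H, a ξ = (l : ℂ) • ξ → p ξ = ξ := by
  set V : Submodule ℂ H :=
    LinearMap.ker ((a - (l : ℂ) • (1 : H →L[ℂ] H) : H →L[ℂ] H) : H →ₗ[ℂ] H) with hV
  have hmem : ∀ ξ : H, ξ ∈ V ↔ a ξ = (l : ℂ) • ξ := diffA_ker a l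
  have hcl : IsClosed (V : Set H) :=
    ContinuousLinearMap.isClosed_ker (a - (l : ℂ) • (1 : H →L[ℂ] H) : H →L[ℂ] H)
  have : CompleteSpace V := hcl.completeSpace_coe
  refine ⟨V.starProjection, ?_, isStarProjection_starProjection, ?_, ?_⟩
  · refine atom_proj_mem S.M V fun y hy x hx => ?_
    rw [VonNeumannAlgebra.mem_commutant_iff] at hy
    rw [hmem] at hx ⊢
    have h1 : a (y x) = y (a x) := congrArg (fun A : H →L[ℂ] H => A x) (hy a haM)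
    rw [h1, hx, map_smul]
  · ext x
    exact (hmem _).1 (Submodule.starProjection_apply_mem V x)
  · intro ξ hξ
    exact Submodule.starProjection_eq_self_iff.2 ((hmem ξ).2 hξ)

theorem es_proj {a p : H →L[ℂ] H} {l : ℝ} (hp : p ∈ S.M) (hpp : IsStarProjection p)
    (he : a * p = (l : ℂ) • p) : IsEs S a l p :=
  ⟨hp, ContinuousLinearMap.IsPositive.of_isStarProjection hpp,
    ContinuousLinearMap.IsPositive.of_isStarProjection hpp.one_sub, he⟩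

omit [CompleteSpace H] in
/-- positive contractions: `‖A x‖² ≤ ⟪A x, x⟫` -/
theorem diffA_contr {A : H →L[ℂ] H} (h0 : A.IsPositive) (h1 : (1 - A).IsPositive) (x : H) :
    ‖A x‖ ^ 2 ≤ (⟪A x, x⟫_ℂ).re := by
  have e1 : 0 ≤ (⟪(1 - A) (A x), A x⟫_ℂ).re := h1.re_inner_nonneg_left (A x)
  have e2 : 0 ≤ (⟪A ((1 - A) x), (1 - A) x⟫_ℂ).re := h0.re_inner_nonneg_left ((1 - A) x)
  have s1 : ⟪A (A x), x⟫_ℂ = ⟪A x, A x⟫_ℂ := h0.inner_left_eq_inner_right (A x) x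
  have s2 : ⟪A (A x), A x⟫_ℂ = ⟪A x, A (A x)⟫_ℂ := h0.inner_left_eq_inner_right (A x) (A x)
  have d1 : (1 - A) (A x) = A x - A (A x) := rfl
  have d2 : (1 - A) x = x - A x := rfl
  rw [d1, inner_sub_left] at e1
  rw [d2, map_sub, inner_sub_left, inner_sub_right, inner_sub_right, s1] at e2
  have n1 : (⟪A x, A x⟫_ℂ).re = ‖A x‖ ^ 2 := by
    rw [inner_self_eq_norm_sq_to_K]
    norm_cast
  rw [Complex.sub_re, n1] at e1
  rw [Complex.sub_re, Complex.sub_re, Complex.sub_re, n1] at e2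
  linarith

omit [CompleteSpace H] in
theorem diffA_norm {A : H →L[ℂ] H} (h0 : A.IsPositive) (h1 : (1 - A).IsPositive) : ‖A‖ ≤ 1 := by
  refine ContinuousLinearMap.opNorm_le_bound _ zero_le_one fun x => ?_
  rw [one_mul]
  have h2 := diffA_contr h0 h1 x
  have h3 : (⟪A x, x⟫_ℂ).re ≤ ‖A x‖ * ‖x‖ :=
    (Complex.re_le_norm _).trans (norm_inner_le_norm _ _)
  by_cases h4 : ‖A x‖ = 0
  · rw [h4]; exact norm_nonneg _
  · have h5 : 0 < ‖A x‖ := lt_of_le_of_ne (norm_nonneg _) (Ne.symm h4)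
    nlinarith

theorem es_le {a p Q : H →L[ℂ] H} {l : ℝ} (hQ : IsEs S a l Q) (hpp : IsStarProjection p)
    (hp : ∀ ξ : H, a ξ = (l : ℂ) • ξ → p ξ = ξ) :
    p * Q = Q ∧ (⟪S.Ω, Q S.Ω⟫_ℂ).re ≤ ‖p S.Ω‖ ^ 2 := by
  have h1 : p * Q = Q := by
    ext ξ
    exact hp (Q ξ) (congrArg (fun A : H →L[ℂ] H => A ξ) hQ.eq)
  have hps : star p = p := hpp.isSelfAdjoint
  have hQs : star Q = Q := hQ.pos.isSelfAdjoint
  have h2 : Q * p = Q := by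
    have h3 := congrArg star h1
    rw [star_mul, hps, hQs] at h3
    exact h3
  refine ⟨h1, ?_⟩
  have h4 : ⟪S.Ω, Q S.Ω⟫_ℂ = ⟪p S.Ω, Q (p S.Ω)⟫_ℂ := by
    have h5 : Q S.Ω = p (Q (p S.Ω)) := by
      have h6 : p * (Q * p) = Q := by rw [h2, h1]
      exact (congrArg (fun A : H →L[ℂ] H => A S.Ω) h6).symm
    rw [h5, jop_inner_right, hps]
  rw [h4]
  have h8 : 0 ≤ (⟪p S.Ω, (1 - Q) (p S.Ω)⟫_ℂ).re := hQ.le.re_inner_nonneg_right (p S.Ω)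
  have h9 : (1 - Q) (p S.Ω) = p S.Ω - Q (p S.Ω) := rfl
  rw [h9, inner_sub_right, Complex.sub_re] at h8
  have n1 : (⟪p S.Ω, p S.Ω⟫_ℂ).re = ‖p S.Ω‖ ^ 2 := by
    rw [inner_self_eq_norm_sq_to_K]
    norm_cast
  linarith

theorem es_eq {a p Q : H →L[ℂ] H} {l : ℝ} (hQ : IsEs S a l Q) (hpM : p ∈ S.M)
    (hpp : IsStarProjection p) (hp : ∀ ξ : H, a ξ = (l : ℂ) • ξ → p ξ = ξ)
    (h : ‖p S.Ω‖ ^ 2 ≤ (⟪S.Ω, Q S.Ω⟫_ℂ).re) : Q = p := by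
  obtain ⟨h1, -⟩ := es_le hQ hpp hp
  have hps : star p = p := hpp.isSelfAdjoint
  have hQs : star Q = Q := hQ.pos.isSelfAdjoint
  have h2 : Q * p = Q := by
    have h3 := congrArg star h1
    rw [star_mul, hps, hQs] at h3
    exact h3
  have h4 : ⟪S.Ω, Q S.Ω⟫_ℂ = ⟪p S.Ω, Q (p S.Ω)⟫_ℂ := by
    have h5 : Q S.Ω = p (Q (p S.Ω)) := by
      have h6 : p * (Q * p) = Q := by rw [h2, h1]
      exact (congrArg (fun A : H →L[ℂ] H => A S.Ω) h6).symm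
    rw [h5, jop_inner_right, hps]
  have hA : (1 - (1 - Q)).IsPositive := by
    rw [sub_sub_cancel]
    exact hQ.pos
  have h5 := diffA_contr hQ.le hA (p S.Ω)
  have h9 : (1 - Q) (p S.Ω) = p S.Ω - Q (p S.Ω) := rfl
  have h10 : (⟪(1 - Q) (p S.Ω), p S.Ω⟫_ℂ).re = ‖p S.Ω‖ ^ 2 - (⟪S.Ω, Q S.Ω⟫_ℂ).re := by
    have n1 : (⟪p S.Ω, p S.Ω⟫_ℂ).re = ‖p S.Ω‖ ^ 2 := by
      rw [inner_self_eq_norm_sq_to_K]
      norm_cast
    rw [h9, inner_sub_left, Complex.sub_re, n1, h4, jop_inner_left, hQs]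
  have h11 : ‖(1 - Q) (p S.Ω)‖ ^ 2 ≤ 0 := by
    rw [h10] at h5
    linarith
  have h12 : (1 - Q) (p S.Ω) = 0 := by
    have h13 : ‖(1 - Q) (p S.Ω)‖ = 0 := by
      have := sq_nonneg ‖(1 - Q) (p S.Ω)‖
      exact pow_eq_zero_iff (two_ne_zero) |>.1 (le_antisymm h11 this)
    exact norm_eq_zero.1 h13
  have h14 : Q S.Ω = p S.Ω := by
    have h15 : Q (p S.Ω) = Q S.Ω := congrArg (fun A : H →L[ℂ] H => A S.Ω) h2
    rw [h9, h15] at h12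
    exact (sub_eq_zero.1 h12).symm
  have h16 : Q - p = 0 := by
    refine S.sep (sub_mem hQ.mem hpM) ?_
    show Q S.Ω - p S.Ω = 0
    rw [h14, sub_self]
  exact sub_eq_zero.1 h16

theorem es_limit {a : H →L[ℂ] H} {an : ℕ → H →L[ℂ] H} (hlim : Tendsto an atTop (𝓝 a))
    {l : ℕ → ℝ} {Q : ℕ → H →L[ℂ] H} (hQ : ∀ n, IsEs S (an n) (l n) (Q n)) {r : ℕ → ℝ} {r₀ : ℝ}
    (hr : Tendsto r atTop (𝓝 r₀)) (hr0 : 0 < r₀) (htr : ∀ n, r n ≤ (⟪S.Ω, Q n S.Ω⟫_ℂ).re) :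
    ∃ U : Ultrafilter ℕ, (U : Filter ℕ) ≤ atTop ∧ ∃ (l₀ : ℝ) (Q₀ : H →L[ℂ] H), IsEs S a l₀ Q₀ ∧
      Tendsto l U (𝓝 l₀) ∧ (∀ ζ ω : H, Tendsto (fun n => ⟪ζ, Q n ω⟫_ℂ) U (𝓝 ⟪ζ, Q₀ ω⟫_ℂ)) ∧
      r₀ ≤ (⟪S.Ω, Q₀ S.Ω⟫_ℂ).re := by
  have hU : ((Filter.hyperfilter ℕ : Ultrafilter ℕ) : Filter ℕ) ≤ atTop :=
    Nat.hyperfilter_le_atTop
  generalize Filter.hyperfilter ℕ = U at hU
  have hn : ∀ n, ‖Q n‖ ≤ 1 := fun n => diffA_norm (hQ n).pos (hQ n).le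
  obtain ⟨Q₀, hQ₀⟩ := deca_lim U Q hn
  have hw : ∀ ζ ω : H, Tendsto (fun n => ⟪ζ, Q n ω⟫_ℂ) (U : Filter ℕ) (𝓝 ⟪ζ, Q₀ ω⟫_ℂ) :=
    fun ζ ω => (tendsto_pi_nhds.1 hQ₀) (ζ, ω)
  -- the eigenvalues
  have hl : ∃ l₀ : ℝ, Tendsto l (U : Filter ℕ) (𝓝 l₀) := by
    have h1 : ∀ᶠ n in atTop, 0 < r n := hr.eventually (eventually_gt_nhds hr0)
    have h2 : ∀ᶠ n in atTop, ‖an n‖ < ‖a‖ + 1 :=
      hlim.norm.eventually (eventually_lt_nhds (by linarith))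
    have h3 : ∀ᶠ n in (U : Filter ℕ), l n ∈ Set.Icc (-(‖a‖ + 1)) (‖a‖ + 1) := by
      filter_upwards [hU h1, hU h2] with n hn1 hn2
      have h4 : Q n S.Ω ≠ 0 := by
        intro h
        have h5 := htr n
        rw [h, inner_zero_right, Complex.zero_re] at h5
        linarith
      have h5 : an n (Q n S.Ω) = (l n : ℂ) • Q n S.Ω :=
        congrArg (fun A : H →L[ℂ] H => A S.Ω) (hQ n).eq
      have h6 : |l n| * ‖Q n S.Ω‖ ≤ ‖an n‖ * ‖Q n S.Ω‖ := by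
        have h7 := (an n).le_opNorm (Q n S.Ω)
        rw [h5, norm_smul, Complex.norm_real, Real.norm_eq_abs] at h7
        exact h7
      have h7 : |l n| ≤ ‖an n‖ := le_of_mul_le_mul_right h6 (norm_pos_iff.2 h4)
      have h8 := abs_le.1 (h7.trans hn2.le)
      exact ⟨h8.1, h8.2⟩
    obtain ⟨l₀, -, h4⟩ := isCompact_iff_ultrafilter_le_nhds.1
      (isCompact_Icc (a := -(‖a‖ + 1)) (b := ‖a‖ + 1)) (U.map l)
      (le_principal_iff.2 h3)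
    exact ⟨l₀, h4⟩
  obtain ⟨l₀, hl₀⟩ := hl
  refine ⟨U, hU, l₀, Q₀, ⟨?_, ?_, ?_, ?_⟩, hl₀, hw, ?_⟩
  · -- membership
    rw [← S.M.commutant_commutant, VonNeumannAlgebra.mem_commutant_iff]
    intro z hz
    ext ω
    refine ext_inner_left ℂ fun ζ => ?_
    show ⟪ζ, z (Q₀ ω)⟫_ℂ = ⟪ζ, Q₀ (z ω)⟫_ℂ
    rw [jop_inner_right z]
    refine tendsto_nhds_unique (hw ((star z) ζ) ω) ?_
    refine (hw ζ (z ω)).congr fun n => ?_
    rw [← jop_inner_right z]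
    rw [VonNeumannAlgebra.mem_commutant_iff] at hz
    have h3 : Q n (z ω) = z (Q n ω) :=
      congrArg (fun T : H →L[ℂ] H => T ω) (hz (Q n) (hQ n).mem)
    rw [h3]
  · -- positivity
    rw [ContinuousLinearMap.isPositive_iff_complex]
    intro x
    have h1 : Tendsto (fun n => ⟪Q n x, x⟫_ℂ) (U : Filter ℕ) (𝓝 ⟪Q₀ x, x⟫_ℂ) := by
      have h2 := (Complex.continuous_conj.tendsto _).comp (hw x x)
      rw [inner_conj_symm] at h2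
      refine h2.congr fun n => ?_
      exact inner_conj_symm _ _
    have h3 : ∀ n, ((⟪Q n x, x⟫_ℂ).re : ℂ) = ⟪Q n x, x⟫_ℂ ∧ 0 ≤ (⟪Q n x, x⟫_ℂ).re := fun n =>
      (ContinuousLinearMap.isPositive_iff_complex _).1 (hQ n).pos x
    have h4 : Tendsto (fun n => (⟪Q n x, x⟫_ℂ).re) (U : Filter ℕ) (𝓝 (⟪Q₀ x, x⟫_ℂ).re) :=
      (Complex.continuous_re.tendsto _).comp h1
    refine ⟨?_, ge_of_tendsto' h4 fun n => (h3 n).2⟩
    refine tendsto_nhds_unique ?_ h1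
    refine ((Complex.continuous_ofReal.tendsto _).comp h4).congr fun n => ?_
    exact (h3 n).1
  · rw [ContinuousLinearMap.isPositive_iff_complex]
    intro x
    have h1 : Tendsto (fun n => ⟪(1 - Q n) x, x⟫_ℂ) (U : Filter ℕ) (𝓝 ⟪(1 - Q₀) x, x⟫_ℂ) := by
      have h2 := ((Complex.continuous_conj.tendsto _).comp (hw x x)).const_sub ⟪x, x⟫_ℂ
      rw [inner_conj_symm] at h2
      have h5 : ⟪(1 - Q₀) x, x⟫_ℂ = ⟪x, x⟫_ℂ - ⟪Q₀ x, x⟫_ℂ := inner_sub_left _ _ _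
      rw [h5]
      refine h2.congr fun n => ?_
      have h6 : ⟪(1 - Q n) x, x⟫_ℂ = ⟪x, x⟫_ℂ - ⟪Q n x, x⟫_ℂ := inner_sub_left _ _ _
      rw [h6]
      show ⟪x, x⟫_ℂ - conj ⟪x, Q n x⟫_ℂ = _
      rw [inner_conj_symm]
    have h3 : ∀ n, ((⟪(1 - Q n) x, x⟫_ℂ).re : ℂ) = ⟪(1 - Q n) x, x⟫_ℂ ∧
        0 ≤ (⟪(1 - Q n) x, x⟫_ℂ).re := fun n =>
      (ContinuousLinearMap.isPositive_iff_complex _).1 (hQ n).le x
    have h4 : Tendsto (fun n => (⟪(1 - Q n) x, x⟫_ℂ).re) (U : Filter ℕ)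
        (𝓝 (⟪(1 - Q₀) x, x⟫_ℂ).re) :=
      (Complex.continuous_re.tendsto _).comp h1
    refine ⟨?_, ge_of_tendsto' h4 fun n => (h3 n).2⟩
    refine tendsto_nhds_unique ?_ h1
    refine ((Complex.continuous_ofReal.tendsto _).comp h4).congr fun n => ?_
    exact (h3 n).1
  · -- the equation
    ext ω
    refine ext_inner_left ℂ fun ζ => ?_
    show ⟪ζ, a (Q₀ ω)⟫_ℂ = ⟪ζ, (l₀ : ℂ) • Q₀ ω⟫_ℂ
    rw [inner_smul_right, jop_inner_right a]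
    refine tendsto_nhds_unique (hw ((star a) ζ) ω) ?_
    have h1 : Tendsto (fun n => (l n : ℂ) * ⟪ζ, Q n ω⟫_ℂ) (U : Filter ℕ)
        (𝓝 ((l₀ : ℂ) * ⟪ζ, Q₀ ω⟫_ℂ)) :=
      ((Complex.continuous_ofReal.tendsto _).comp hl₀).mul (hw ζ ω)
    have h2 : Tendsto (fun n => ⟪ζ, (a - an n) (Q n ω)⟫_ℂ) (U : Filter ℕ) (𝓝 0) := by
      have h3 : Tendsto (fun n => ‖ζ‖ * (‖a - an n‖ * ‖ω‖)) (U : Filter ℕ) (𝓝 0) := by
        have h4 : Tendsto (fun n => ‖a - an n‖) atTop (𝓝 0) := by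
          have h5 := (hlim.const_sub a).norm
          rwa [sub_self, norm_zero] at h5
        have h5 := ((h4.mul_const ‖ω‖).const_mul ‖ζ‖).mono_left hU
        rwa [zero_mul, mul_zero] at h5
      refine squeeze_zero_norm (fun n => ?_) h3
      refine (norm_inner_le_norm _ _).trans (mul_le_mul_of_nonneg_left ?_ (norm_nonneg _))
      refine ((a - an n).le_opNorm _).trans (mul_le_mul_of_nonneg_left ?_ (norm_nonneg _))
      calc ‖Q n ω‖ ≤ ‖Q n‖ * ‖ω‖ := (Q n).le_opNorm _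
        _ ≤ 1 * ‖ω‖ := mul_le_mul_of_nonneg_right (hn n) (norm_nonneg _)
        _ = ‖ω‖ := one_mul _
    have h3 := h2.add h1
    rw [zero_add] at h3
    refine h3.congr fun n => ?_
    rw [← jop_inner_right a]
    have h5 : an n (Q n ω) = (l n : ℂ) • Q n ω :=
      congrArg (fun A : H →L[ℂ] H => A ω) (hQ n).eq
    have h6 : (a - an n) (Q n ω) = a (Q n ω) - an n (Q n ω) := rfl
    rw [h6, h5, inner_sub_right, inner_smul_right]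
    ring
  · have h1 : Tendsto (fun n => (⟪S.Ω, Q n S.Ω⟫_ℂ).re) (U : Filter ℕ)
        (𝓝 (⟪S.Ω, Q₀ S.Ω⟫_ℂ).re) :=
      (Complex.continuous_re.tendsto _).comp (hw S.Ω S.Ω)
    exact le_of_tendsto_of_tendsto' (hr.mono_left hU) h1 htr

end

end Pool.H62.MC
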