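import Mathlib

/-!
# DIFFB: Baire category

PROOF. The subtype `X` is complete, hence a Baire space; `A' n = Subtype.val ⁻¹' A n` is closed in it;
`frontier (A' n)` is closed with empty interior (`IsClosed.interior_frontier` or
`interior_frontier`), so `⋂ n, (frontier (A' n))ᶜ` is dense (`dense_iInter_of_isOpen`) and nonempty.
A point `q` of it which is in `A' n` is in `interior (A' n)`.
-/

namespace Pool.H62.MC

open Filter Topology

theorem baire_pt {E : Type*} [MetricSpace E] [CompleteSpace E] (X : Set E) (hX : IsClosed X)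
    (hne : X.Nonempty) (A : ℕ → Set E) (hA : ∀ n, IsClosed (A n)) :
    ∃ q ∈ X, ∀ n, q ∈ A n → ∃ ε : ℝ, 0 < ε ∧ ∀ q' ∈ X, dist q' q < ε → q' ∈ A n := by
  have : CompleteSpace X := hX.completeSpace_coe
  have : Nonempty X := hne.to_subtype
  have hA' : ∀ n, IsClosed ((Subtype.val : X → E) ⁻¹' A n) := fun n =>
    (hA n).preimage continuous_subtype_val
  have hd : Dense (⋂ n, (frontier ((Subtype.val : X → E) ⁻¹' A n))ᶜ) := by
    apply dense_iInter_of_isOpen
    · intro n
      exact isClosed_frontier.isOpen_compl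
    · intro n
      rw [← interior_eq_empty_iff_dense_compl]
      exact interior_frontier (hA' n)
  obtain ⟨q, hq⟩ := hd.nonempty
  refine ⟨q.1, q.2, fun n hn => ?_⟩
  have h1 : q ∉ frontier ((Subtype.val : X → E) ⁻¹' A n) := by
    have := Set.mem_iInter.1 hq n
    exact this
  have h2 : q ∈ interior ((Subtype.val : X → E) ⁻¹' A n) := by
    by_contra h3
    apply h1
    rw [(hA' n).frontier_eq]
    exact ⟨hn, h3⟩
  have h4 := mem_interior_iff_mem_nhds.1 h2
  obtain ⟨ε, hε, hb⟩ := Metric.mem_nhds_iff.1 h4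
  refine ⟨ε, hε, fun q' hq' hd' => ?_⟩
  have : (⟨q', hq'⟩ : X) ∈ Metric.ball q ε := by
    rw [Metric.mem_ball]
    exact hd'
  exact hb this

end Pool.H62.MC
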