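import Pool.Agent.H62.MC.DiffA

/-!
# DIFFC: perturbation of the largest eigenprojection

PROOF. Let `r n = δ - δ/(n+2)`, choose `t n ∈ (0, 1/(n+1))` small and `(l n, Q n)` for
`a + (t n) c` by `hseq`.  `es_limit`: ultrafilter `U`, `l₀`, `Q₀` with `IsEs S a l₀ Q₀`,
`δ ≤ re ⟪Ω, Q₀ Ω⟫`.  Let `p` be the eigenprojection (`exists_eigproj`) for `l₀`: `IsEs S a l₀ p`
(`es_proj`), so `‖p Ω‖² = ⟪Ω, p Ω⟫ ≤ δ` (`hmax`) and `Q₀ = p` (`es_eq`), `‖p Ω‖² = δ`.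
`Q n Ω → p Ω` in norm along `U`:
`‖Q_n Ω - p Ω‖² ≤ ⟪Ω, Q_n Ω⟫ - 2 re ⟪Q_n Ω, p Ω⟫ + ‖p Ω‖² → δ - 2 δ + δ` (`‖Q_n Ω‖² ≤ ⟪Ω, Q_n Ω⟫`:
`Q_n - Q_n² = Q_n^{1/2} (1 - Q_n) Q_n^{1/2} ≥ 0`, or `⟪Q Ω, (1-Q) Ω⟫ ≥ 0` as
`Q (1 - Q) = Q (1-Q) Q + (1-Q) Q (1-Q)`).
With `s_n = (l n - l₀)/t_n`: `p a = l₀ p` (adjoint, `a` self-adjoint), so
`0 = p (a + t_n c - l_n) Q_n Ω` gives `p c (Q_n Ω) = s_n • p (Q_n Ω)`.  Pairing with `p Ω`: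
`⟪p Ω, p c Q_n Ω⟫ = s_n ⟪p Ω, p Q_n Ω⟫`, where `⟪p Ω, p Q_n Ω⟫ → δ > 0`, so `s_n → μ := ⟪p Ω, c p Ω⟫/δ`
and `p c p Ω = μ • p Ω`, hence `p c p = μ • p` (`S.sep`).
-/

namespace Pool.H62.MC

open scoped InnerProductSpace TensorProduct ComplexConjugate
open Filter Topology Pool.H62.UC

noncomputable section

variable {H : Type*} [NormedAddCommGroup H] [InnerProductSpace ℂ H] [CompleteSpace H]
variable {K : Type*} [NormedAddCommGroup K] [InnerProductSpace ℂ K] [CompleteSpace K]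

variable {S : Std H K}

theorem diffc_sq {Q : H →L[ℂ] H} (hQ : Q.IsPositive) (hQ1 : (1 - Q).IsPositive) (ξ : H) :
    ‖Q ξ‖ ^ 2 ≤ (⟪ξ, Q ξ⟫_ℂ).re := by
  have h1 : 0 ≤ (⟪Q ξ, (1 - Q) (Q ξ)⟫_ℂ).re := hQ1.re_inner_nonneg_right (Q ξ)
  have h2 : 0 ≤ (⟪ξ - Q ξ, Q (ξ - Q ξ)⟫_ℂ).re := hQ.re_inner_nonneg_right (ξ - Q ξ)
  have h3 : ⟪ξ, Q (Q ξ)⟫_ℂ = ⟪Q ξ, Q ξ⟫_ℂ := (hQ.inner_left_eq_inner_right ξ (Q ξ)).symm
  have h4 : (⟪Q ξ, Q ξ⟫_ℂ).re = ‖Q ξ‖ ^ 2 := by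
    rw [inner_self_eq_norm_sq_to_K]
    norm_cast
  have h5 : (1 - Q) (Q ξ) = Q ξ - Q (Q ξ) := by simp
  rw [h5, inner_sub_right] at h1
  rw [map_sub, inner_sub_right, inner_sub_left, inner_sub_left, h3] at h2
  simp only [Complex.sub_re] at h1 h2
  rw [h4] at h1 h2
  linarith

theorem diffc_proj_inner {p : H →L[ℂ] H} (hpp : IsStarProjection p) (ξ ω : H) :
    ⟪p ξ, p ω⟫_ℂ = ⟪ξ, p ω⟫_ℂ ∧ ⟪p ξ, ω⟫_ℂ = ⟪ξ, p ω⟫_ℂ := by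
  have h1 : ∀ u w : H, ⟪p u, w⟫_ℂ = ⟪u, p w⟫_ℂ := by
    intro u w
    have h := ContinuousLinearMap.adjoint_inner_left p w u
    have h2 : ContinuousLinearMap.adjoint p = p := hpp.isSelfAdjoint
    rw [h2] at h
    exact h
  have h3 : p (p ω) = p ω := by
    have h := congrArg (fun Z : H →L[ℂ] H => Z ω) hpp.isIdempotentElem
    simpa using h
  refine ⟨?_, h1 ξ ω⟩
  rw [h1, h3]

theorem diffc_proj_norm {p : H →L[ℂ] H} (hpp : IsStarProjection p) (ξ : H) :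
    ⟪ξ, p ξ⟫_ℂ = ((‖p ξ‖ ^ 2 : ℝ) : ℂ) := by
  rw [← (diffc_proj_inner hpp ξ ξ).1, inner_self_eq_norm_sq_to_K]
  norm_cast

/-- `p a = l p` -/
theorem diffc_left {a p : H →L[ℂ] H} (hsa : IsSelfAdjoint a) (hpp : IsStarProjection p) {l : ℝ}
    (h : a * p = (l : ℂ) • p) : p * a = (l : ℂ) • p := by
  have h1 := congrArg star h
  rw [star_mul, star_smul, hsa.star_eq, hpp.isSelfAdjoint.star_eq] at h1
  rw [h1]
  congr 1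
  exact Complex.conj_ofReal l

/-- the perturbation identity -/
theorem diffc_alg {a c p Q : H →L[ℂ] H} {l₀ l t : ℝ} (ht : 0 < t)
    (hpa : p * a = (l₀ : ℂ) • p) (hQ : (a + (t : ℂ) • c) * Q = (l : ℂ) • Q) (ξ : H) :
    p (c (Q ξ)) = (((l - l₀) / t : ℝ) : ℂ) • p (Q ξ) := by
  have h1 := congrArg (fun Z : H →L[ℂ] H => p (Z ξ)) hQ
  simp only [ContinuousLinearMap.mul_apply, ContinuousLinearMap.add_apply,
    ContinuousLinearMap.smul_apply, map_add, map_smul] at h1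
  have h2 := congrArg (fun Z : H →L[ℂ] H => Z (Q ξ)) hpa
  simp only [ContinuousLinearMap.mul_apply, ContinuousLinearMap.smul_apply] at h2
  rw [h2] at h1
  have ht' : (t : ℂ) ≠ 0 := by exact_mod_cast ht.ne'
  have h3 : (t : ℂ) • p (c (Q ξ)) = ((l : ℂ) - (l₀ : ℂ)) • p (Q ξ) := by
    rw [sub_smul, ← h1]
    abel
  have h4 : p (c (Q ξ)) = (t : ℂ)⁻¹ • ((t : ℂ) • p (c (Q ξ))) := by
    rw [smul_smul, inv_mul_cancel₀ ht', one_smul]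
  rw [h4, h3, smul_smul]
  congr 1
  push_cast
  field_simp

theorem perturb {a c : H →L[ℂ] H} (haM : a ∈ S.M) (hsa : IsSelfAdjoint a) (hcM : c ∈ S.M)
    {δ : ℝ} (hδ : 0 < δ)
    (hmax : ∀ (l : ℝ) (Q : H →L[ℂ] H), IsEs S a l Q → (⟪S.Ω, Q S.Ω⟫_ℂ).re ≤ δ)
    (hseq : ∀ r : ℝ, r < δ → ∃ ε : ℝ, 0 < ε ∧ ∀ t : ℝ, 0 < t → t < ε →
      ∃ (l : ℝ) (Q : H →L[ℂ] H), IsEs S (a + (t : ℂ) • c) l Q ∧ r ≤ (⟪S.Ω, Q S.Ω⟫_ℂ).re) :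
    ∃ (l : ℝ) (p : H →L[ℂ] H), p ∈ S.M ∧ IsStarProjection p ∧ a * p = (l : ℂ) • p ∧
      (∀ ξ : H, a ξ = (l : ℂ) • ξ → p ξ = ξ) ∧ ‖p S.Ω‖ ^ 2 = δ ∧ ∃ μ : ℂ, p * c * p = μ • p := by
  classical
  have hrlt : ∀ n : ℕ, δ - δ / ((n : ℝ) + 2) < δ := by
    intro n
    have : 0 < δ / ((n : ℝ) + 2) := by positivity
    linarith
  choose ε hε hprop using fun n : ℕ => hseq _ (hrlt n)
  have htpos : ∀ n : ℕ, 0 < min (ε n / 2) (1 / ((n : ℝ) + 1)) := by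
    intro n
    have := hε n
    positivity
  have htlt : ∀ n : ℕ, min (ε n / 2) (1 / ((n : ℝ) + 1)) < ε n := by
    intro n
    have h1 := hε n
    have h2 := min_le_left (ε n / 2) (1 / ((n : ℝ) + 1))
    linarith
  choose l Q hQ hr using fun n : ℕ => hprop n _ (htpos n) (htlt n)
  set t : ℕ → ℝ := fun n => min (ε n / 2) (1 / ((n : ℝ) + 1)) with ht_def
  have ht0 : Tendsto t atTop (𝓝 0) := by
    refine squeeze_zero (fun n => (htpos n).le) (fun n => min_le_right _ _) ?_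
    exact tendsto_one_div_add_atTop_nhds_zero_nat
  have hlim : Tendsto (fun n => a + (t n : ℂ) • c) atTop (𝓝 a) := by
    have h1 : Tendsto (fun n => (t n : ℂ)) atTop (𝓝 ((0 : ℝ) : ℂ)) :=
      (Complex.continuous_ofReal.tendsto 0).comp ht0
    have h2 : Tendsto (fun n => a + (t n : ℂ) • c) atTop (𝓝 (a + ((0 : ℝ) : ℂ) • c)) :=
      tendsto_const_nhds.add (h1.smul_const c)
    simpa using h2
  have hrlim : Tendsto (fun n : ℕ => δ - δ / ((n : ℝ) + 2)) atTop (𝓝 δ) := by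
    have h1 : Tendsto (fun n : ℕ => δ / ((n : ℝ) + 2)) atTop (𝓝 0) :=
      Tendsto.div_atTop tendsto_const_nhds
        (tendsto_atTop_add_const_right _ _ tendsto_natCast_atTop_atTop)
    have h2 := (tendsto_const_nhds (x := δ)).sub h1
    simpa using h2
  obtain ⟨U, hU, l₀, Q₀, hQ₀, hl, hw, hre⟩ := es_limit hlim hQ hrlim hδ hr
  obtain ⟨p, hpM, hpp, hap, hpk⟩ := exists_eigproj haM l₀
  have hesp := es_proj hpM hpp hap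
  have hn1 : (⟪S.Ω, p S.Ω⟫_ℂ).re = ‖p S.Ω‖ ^ 2 := by
    rw [diffc_proj_norm hpp]
    exact Complex.ofReal_re _
  have hle1 : ‖p S.Ω‖ ^ 2 ≤ δ := by
    rw [← hn1]
    exact hmax l₀ p hesp
  have hle2 := (es_le hQ₀ hpp hpk).2
  have hnorm : ‖p S.Ω‖ ^ 2 = δ := le_antisymm hle1 (hre.trans hle2)
  have hQp : Q₀ = p := es_eq hQ₀ hpM hpp hpk (by rw [hnorm]; exact hre)
  subst hQp
  refine ⟨l₀, Q₀, hpM, hpp, hap, hpk, hnorm, ?_⟩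
  -- strong convergence
  have hw1 : Tendsto (fun n => (⟪S.Ω, Q n S.Ω⟫_ℂ).re) U (𝓝 δ) := by
    have h := (Complex.continuous_re.tendsto _).comp (hw S.Ω S.Ω)
    rw [hn1, hnorm] at h
    exact h
  have hw2 : Tendsto (fun n => (⟪Q₀ S.Ω, Q n S.Ω⟫_ℂ).re) U (𝓝 δ) := by
    have h := (Complex.continuous_re.tendsto _).comp (hw (Q₀ S.Ω) S.Ω)
    rw [(diffc_proj_inner hpp S.Ω S.Ω).1, hn1, hnorm] at h
    exact h
  have hstr : Tendsto (fun n => Q n S.Ω) U (𝓝 (Q₀ S.Ω)) := by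
    rw [tendsto_iff_norm_sub_tendsto_zero]
    have hsq : Tendsto (fun n => ‖Q n S.Ω - Q₀ S.Ω‖ ^ 2) U (𝓝 0) := by
      have hub : Tendsto (fun n => (⟪S.Ω, Q n S.Ω⟫_ℂ).re - 2 * (⟪Q₀ S.Ω, Q n S.Ω⟫_ℂ).re + δ) U
          (𝓝 0) := by
        have h := (hw1.sub (hw2.const_mul 2)).add_const δ
        have h0 : δ - 2 * δ + δ = 0 := by ring
        rw [h0] at h
        exact h
      refine squeeze_zero (fun n => by positivity) (fun n => ?_) hub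
      have h1 := diffc_sq (hQ n).pos (hQ n).le S.Ω
      have h2 : ‖Q n S.Ω - Q₀ S.Ω‖ ^ 2 =
          ‖Q n S.Ω‖ ^ 2 - 2 * (⟪Q₀ S.Ω, Q n S.Ω⟫_ℂ).re + ‖Q₀ S.Ω‖ ^ 2 := by
        have h := norm_sub_sq (𝕜 := ℂ) (Q n S.Ω) (Q₀ S.Ω)
        rw [h]
        have h3 : RCLike.re ⟪Q n S.Ω, Q₀ S.Ω⟫_ℂ = (⟪Q₀ S.Ω, Q n S.Ω⟫_ℂ).re := by
          exact inner_re_symm (𝕜 := ℂ) _ _
        rw [h3]
      rw [h2, hnorm]
      linarith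
    have h := hsq.sqrt
    simp only [Real.sqrt_zero] at h
    refine h.congr (fun n => ?_)
    exact Real.sqrt_sq (norm_nonneg _)
  have hpa := diffc_left hsa hpp hap
  set s : ℕ → ℂ := fun n => (((l n - l₀) / t n : ℝ) : ℂ) with hs_def
  have hkey : ∀ n, Q₀ (c (Q n S.Ω)) = s n • Q₀ (Q n S.Ω) := fun n =>
    diffc_alg (htpos n) hpa (hQ n).eq S.Ω
  have hL : Tendsto (fun n => Q₀ (c (Q n S.Ω))) U (𝓝 (Q₀ (c (Q₀ S.Ω)))) :=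
    ((Q₀.continuous.comp c.continuous).tendsto _).comp hstr
  have hPQ : Tendsto (fun n => Q₀ (Q n S.Ω)) U (𝓝 (Q₀ S.Ω)) := by
    have h := (Q₀.continuous.tendsto _).comp hstr
    have h3 : Q₀ (Q₀ S.Ω) = Q₀ S.Ω := by
      have h := congrArg (fun Z : H →L[ℂ] H => Z S.Ω) hpp.isIdempotentElem
      simpa using h
    rw [h3] at h
    exact h
  have hδC : (δ : ℂ) ≠ 0 := by exact_mod_cast hδ.ne'
  have hin : Tendsto (fun n => ⟪Q₀ S.Ω, Q₀ (Q n S.Ω)⟫_ℂ) U (𝓝 (δ : ℂ)) := by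
    have h := (tendsto_const_nhds (x := Q₀ S.Ω)).inner hPQ (𝕜 := ℂ)
    rw [(diffc_proj_inner hpp S.Ω S.Ω).1, diffc_proj_norm hpp, hnorm] at h
    exact h
  have hin2 : Tendsto (fun n => ⟪Q₀ S.Ω, Q₀ (c (Q n S.Ω))⟫_ℂ) U
      (𝓝 ⟪Q₀ S.Ω, Q₀ (c (Q₀ S.Ω))⟫_ℂ) :=
    (tendsto_const_nhds (x := Q₀ S.Ω)).inner hL (𝕜 := ℂ)
  have hs : Tendsto s U (𝓝 (⟪Q₀ S.Ω, Q₀ (c (Q₀ S.Ω))⟫_ℂ / (δ : ℂ))) := by
    have h := hin2.div hin hδC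
    refine h.congr' ?_
    have hne : ∀ᶠ n in (U : Filter ℕ), ⟪Q₀ S.Ω, Q₀ (Q n S.Ω)⟫_ℂ ≠ 0 :=
      hin.eventually_ne hδC
    filter_upwards [hne] with n hn
    simp only [Pi.div_apply]
    rw [hkey n, inner_smul_right]
    field_simp
  refine ⟨⟪Q₀ S.Ω, Q₀ (c (Q₀ S.Ω))⟫_ℂ / (δ : ℂ), ?_⟩
  have hlim2 : Tendsto (fun n => s n • Q₀ (Q n S.Ω)) U
      (𝓝 ((⟪Q₀ S.Ω, Q₀ (c (Q₀ S.Ω))⟫_ℂ / (δ : ℂ)) • Q₀ S.Ω)) := hs.smul hPQ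
  have hfin : Q₀ (c (Q₀ S.Ω)) = (⟪Q₀ S.Ω, Q₀ (c (Q₀ S.Ω))⟫_ℂ / (δ : ℂ)) • Q₀ S.Ω := by
    refine tendsto_nhds_unique hL (hlim2.congr (fun n => ?_))
    exact (hkey n).symm
  have hmem : Q₀ * c * Q₀ - (⟪Q₀ S.Ω, Q₀ (c (Q₀ S.Ω))⟫_ℂ / (δ : ℂ)) • Q₀ ∈ S.M :=
    sub_mem (mul_mem (mul_mem hpM hcM) hpM) (S.smul_mem _ hpM)
  have hz := S.sep hmem (by
    simp only [ContinuousLinearMap.sub_apply, ContinuousLinearMap.mul_apply,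
      ContinuousLinearMap.smul_apply]
    rw [← hfin, sub_self])
  exact sub_eq_zero.1 hz

end

end Pool.H62.MC
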