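import Pool.Agent.H62.MC.DefsE
import Pool.Agent.H62.MC.DiffC

/-!
# DIFFCE: perturbation of the largest eigenprojection below `1 - e`

PROOF. Copy of the proof of `perturb` (`MC/DiffC.lean`) with the following changes.
`es_limit` gives `Q₀`; `Q n * e = 0` passes to the weak limit: `⟪ζ, Q n (e ω)⟫ = 0`, so `Q₀ * e = 0`.
Let `p₀` be the eigenprojection of `a` for `l₀` (`exists_eigproj`) and `p = p₀ * (1 - e)` (a projection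
of `M`, `e` central), `a p = l₀ p`, `p e = 0`; if `e ξ = 0`, `a ξ = l₀ ξ` then `p ξ = p₀ ξ = ξ`.
`IsEs S a l₀ p` (`es_proj`), so `‖p Ω‖² ≤ δ` (`hmax`); `Q₀ = p₀ Q₀ = p Q₀` (`Q₀ = Q₀ (1-e) = (1-e) Q₀`), so
`⟪Ω, Q₀ Ω⟫ = ⟪p Ω, Q₀ p Ω⟫ ≤ ‖p Ω‖²`; equality, `(1 - Q₀) p Ω = 0`, `Q₀ Ω = Q₀ p Ω = p Ω`, `Q₀ = p`.
The rest is the same.
-/

namespace Pool.H62.MC

open scoped InnerProductSpace TensorProduct ComplexConjugate
open Filter Topology Pool.H62.UC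

noncomputable section

variable {H : Type*} [NormedAddCommGroup H] [InnerProductSpace ℂ H] [CompleteSpace H]
variable {K : Type*} [NormedAddCommGroup K] [InnerProductSpace ℂ K] [CompleteSpace K]

variable {S : Std H K} {e : H →L[ℂ] H}

/-- `es_le` with `p * Q = Q` as hypothesis -/
theorem diffce_le {a p Q : H →L[ℂ] H} {l : ℝ} (hQ : IsEs S a l Q) (hpp : IsStarProjection p)
    (h1 : p * Q = Q) : (⟪S.Ω, Q S.Ω⟫_ℂ).re ≤ ‖p S.Ω‖ ^ 2 := by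
  have hps : star p = p := hpp.isSelfAdjoint
  have hQs : star Q = Q := hQ.pos.isSelfAdjoint
  have h2 : Q * p = Q := by
    have h3 := congrArg star h1
    rw [star_mul, hps, hQs] at h3
    exact h3
  have h4 : ⟪S.Ω, Q S.Ω⟫_ℂ = ⟪p S.Ω, Q (p S.Ω)⟫_ℂ := by
    have h5 : Q S.Ω = p (Q (p S.Ω)) := by
      have h6 : p * (Q * p) = Q := by rw [h2, h1]
      exact (congrArg (fun A : H →L[ℂ] H => A S.Ω) h6).symm
    rw [h5, jop_inner_right, hps]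
  rw [h4]
  have h8 : 0 ≤ (⟪p S.Ω, (1 - Q) (p S.Ω)⟫_ℂ).re := hQ.le.re_inner_nonneg_right (p S.Ω)
  have h9 : (1 - Q) (p S.Ω) = p S.Ω - Q (p S.Ω) := rfl
  rw [h9, inner_sub_right, Complex.sub_re] at h8
  have n1 : (⟪p S.Ω, p S.Ω⟫_ℂ).re = ‖p S.Ω‖ ^ 2 := by
    rw [inner_self_eq_norm_sq_to_K]
    norm_cast
  linarith

/-- `es_eq` with `p * Q = Q` as hypothesis -/
theorem diffce_eq {a p Q : H →L[ℂ] H} {l : ℝ} (hQ : IsEs S a l Q) (hpM : p ∈ S.M)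
    (hpp : IsStarProjection p) (h1 : p * Q = Q)
    (h : ‖p S.Ω‖ ^ 2 ≤ (⟪S.Ω, Q S.Ω⟫_ℂ).re) : Q = p := by
  have hps : star p = p := hpp.isSelfAdjoint
  have hQs : star Q = Q := hQ.pos.isSelfAdjoint
  have h2 : Q * p = Q := by
    have h3 := congrArg star h1
    rw [star_mul, hps, hQs] at h3
    exact h3
  have h4 : ⟪S.Ω, Q S.Ω⟫_ℂ = ⟪p S.Ω, Q (p S.Ω)⟫_ℂ := by
    have h5 : Q S.Ω = p (Q (p S.Ω)) := by
      have h6 : p * (Q * p) = Q := by rw [h2, h1]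
      exact (congrArg (fun A : H →L[ℂ] H => A S.Ω) h6).symm
    rw [h5, jop_inner_right, hps]
  have hA : (1 - (1 - Q)).IsPositive := by
    rw [sub_sub_cancel]
    exact hQ.pos
  have h5 := diffA_contr hQ.le hA (p S.Ω)
  have h9 : (1 - Q) (p S.Ω) = p S.Ω - Q (p S.Ω) := rfl
  have h10 : (⟪(1 - Q) (p S.Ω), p S.Ω⟫_ℂ).re = ‖p S.Ω‖ ^ 2 - (⟪S.Ω, Q S.Ω⟫_ℂ).re := by
    have n1 : (⟪p S.Ω, p S.Ω⟫_ℂ).re = ‖p S.Ω‖ ^ 2 := by
      rw [inner_self_eq_norm_sq_to_K]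
      norm_cast
    rw [h9, inner_sub_left, Complex.sub_re, n1, h4, jop_inner_left, hQs]
  have h11 : ‖(1 - Q) (p S.Ω)‖ ^ 2 ≤ 0 := by
    rw [h10] at h5
    linarith
  have h12 : (1 - Q) (p S.Ω) = 0 := by
    have h13 : ‖(1 - Q) (p S.Ω)‖ = 0 := by
      have := sq_nonneg ‖(1 - Q) (p S.Ω)‖
      exact pow_eq_zero_iff (two_ne_zero) |>.1 (le_antisymm h11 this)
    exact norm_eq_zero.1 h13
  have h14 : Q S.Ω = p S.Ω := by
    have h15 : Q (p S.Ω) = Q S.Ω := congrArg (fun A : H →L[ℂ] H => A S.Ω) h2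
    rw [h9, h15] at h12
    exact (sub_eq_zero.1 h12).symm
  have h16 : Q - p = 0 := by
    refine S.sep (sub_mem hQ.mem hpM) ?_
    show Q S.Ω - p S.Ω = 0
    rw [h14, sub_self]
  exact sub_eq_zero.1 h16

/-- the eigenprojection of `a` below `1 - e` -/
theorem diffce_eigproj (he : Cen S e) {a : H →L[ℂ] H} (haM : a ∈ S.M) (l : ℝ) :
    ∃ p ∈ S.M, IsStarProjection p ∧ a * p = (l : ℂ) • p ∧ p * e = 0 ∧
      ∀ ξ : H, e ξ = 0 → a ξ = (l : ℂ) • ξ → p ξ = ξ := by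
  obtain ⟨p₀, hpM, hpp, hap, hpk⟩ := exists_eigproj haM l
  have hes : star e = e := he.proj.isSelfAdjoint
  have hee : e * e = e := he.proj.isIdempotentElem
  have hps : star p₀ = p₀ := hpp.isSelfAdjoint
  have hpi : p₀ * p₀ = p₀ := hpp.isIdempotentElem
  have hcm : e * p₀ = p₀ * e := he.central p₀ hpM
  have h1M : (1 : H →L[ℂ] H) ∈ S.M := one_mem _
  have h1e : (1 - e) * p₀ = p₀ * (1 - e) := by
    rw [sub_mul, mul_sub, one_mul, mul_one, hcm]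
  have hii : (1 - e) * (1 - e) = 1 - e := by
    rw [sub_mul, one_mul, mul_sub, mul_one, hee, sub_self, sub_zero]
  refine ⟨p₀ * (1 - e), mul_mem hpM (sub_mem h1M he.mem), ?_, ?_, ?_, ?_⟩
  · constructor
    · show p₀ * (1 - e) * (p₀ * (1 - e)) = p₀ * (1 - e)
      rw [mul_assoc, ← mul_assoc (1 - e) p₀ (1 - e), h1e, mul_assoc p₀ (1 - e) (1 - e), hii,
        ← mul_assoc, hpi]
    · show star (p₀ * (1 - e)) = p₀ * (1 - e)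
      rw [star_mul, star_sub, star_one, hes, hps, h1e]
  · rw [← mul_assoc, hap, smul_mul_assoc]
  · rw [mul_assoc, sub_mul, one_mul, hee, sub_self, mul_zero]
  · intro ξ h0 h1
    show p₀ (ξ - e ξ) = ξ
    rw [h0, sub_zero]
    exact hpk ξ h1

theorem perturbE (he : Cen S e) {a c : H →L[ℂ] H} (haM : a ∈ S.M) (hsa : IsSelfAdjoint a)
    (hcM : c ∈ S.M) {δ : ℝ} (hδ : 0 < δ)
    (hmax : ∀ (l : ℝ) (Q : H →L[ℂ] H), IsEs S a l Q → Q * e = 0 → (⟪S.Ω, Q S.Ω⟫_ℂ).re ≤ δ)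
    (hseq : ∀ r : ℝ, r < δ → ∃ ε : ℝ, 0 < ε ∧ ∀ t : ℝ, 0 < t → t < ε →
      ∃ (l : ℝ) (Q : H →L[ℂ] H), IsEs S (a + (t : ℂ) • c) l Q ∧ Q * e = 0 ∧
        r ≤ (⟪S.Ω, Q S.Ω⟫_ℂ).re) :
    ∃ (l : ℝ) (p : H →L[ℂ] H), p ∈ S.M ∧ IsStarProjection p ∧ a * p = (l : ℂ) • p ∧ p * e = 0 ∧
      (∀ ξ : H, e ξ = 0 → a ξ = (l : ℂ) • ξ → p ξ = ξ) ∧ ‖p S.Ω‖ ^ 2 = δ ∧
      ∃ μ : ℂ, p * c * p = μ • p := by
  classical
  have hrlt : ∀ n : ℕ, δ - δ / ((n : ℝ) + 2) < δ := by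
    intro n
    have : 0 < δ / ((n : ℝ) + 2) := by positivity
    linarith
  choose ε hε hprop using fun n : ℕ => hseq _ (hrlt n)
  have htpos : ∀ n : ℕ, 0 < min (ε n / 2) (1 / ((n : ℝ) + 1)) := by
    intro n
    have := hε n
    positivity
  have htlt : ∀ n : ℕ, min (ε n / 2) (1 / ((n : ℝ) + 1)) < ε n := by
    intro n
    have h1 := hε n
    have h2 := min_le_left (ε n / 2) (1 / ((n : ℝ) + 1))
    linarith
  choose l Q hQ hQe hr using fun n : ℕ => hprop n _ (htpos n) (htlt n)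
  set t : ℕ → ℝ := fun n => min (ε n / 2) (1 / ((n : ℝ) + 1)) with ht_def
  have ht0 : Tendsto t atTop (𝓝 0) := by
    refine squeeze_zero (fun n => (htpos n).le) (fun n => min_le_right _ _) ?_
    exact tendsto_one_div_add_atTop_nhds_zero_nat
  have hlim : Tendsto (fun n => a + (t n : ℂ) • c) atTop (𝓝 a) := by
    have h1 : Tendsto (fun n => (t n : ℂ)) atTop (𝓝 ((0 : ℝ) : ℂ)) :=
      (Complex.continuous_ofReal.tendsto 0).comp ht0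
    have h2 : Tendsto (fun n => a + (t n : ℂ) • c) atTop (𝓝 (a + ((0 : ℝ) : ℂ) • c)) :=
      tendsto_const_nhds.add (h1.smul_const c)
    simpa using h2
  have hrlim : Tendsto (fun n : ℕ => δ - δ / ((n : ℝ) + 2)) atTop (𝓝 δ) := by
    have h1 : Tendsto (fun n : ℕ => δ / ((n : ℝ) + 2)) atTop (𝓝 0) :=
      Tendsto.div_atTop tendsto_const_nhds
        (tendsto_atTop_add_const_right _ _ tendsto_natCast_atTop_atTop)
    have h2 := (tendsto_const_nhds (x := δ)).sub h1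
    simpa using h2
  obtain ⟨U, hU, l₀, Q₀, hQ₀, hl, hw, hre⟩ := es_limit hlim hQ hrlim hδ hr
  obtain ⟨p, hpM, hpp, hap, hpe, hpk⟩ := diffce_eigproj he haM l₀
  have hesp := es_proj hpM hpp hap
  have hQ0e : Q₀ * e = 0 := by
    ext ω
    show Q₀ (e ω) = 0
    have h1 : ∀ ζ : H, ⟪ζ, Q₀ (e ω)⟫_ℂ = 0 := by
      intro ζ
      have h2 := hw ζ (e ω)
      have h3 : (fun n => ⟪ζ, Q n (e ω)⟫_ℂ) = fun _ : ℕ => (0 : ℂ) := by
        funext n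
        have h4 : Q n (e ω) = 0 := congrArg (fun Z : H →L[ℂ] H => Z ω) (hQe n)
        rw [h4, inner_zero_right]
      rw [h3] at h2
      exact (tendsto_nhds_unique h2 tendsto_const_nhds)
    exact inner_self_eq_zero.1 (h1 (Q₀ (e ω)))
  have heQ0 : e * Q₀ = 0 := by rw [he.central Q₀ hQ₀.mem, hQ0e]
  have hpQ0 : p * Q₀ = Q₀ := by
    ext ω
    exact hpk (Q₀ ω) (congrArg (fun Z : H →L[ℂ] H => Z ω) heQ0)
      (congrArg (fun Z : H →L[ℂ] H => Z ω) hQ₀.eq)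
  have hn1 : (⟪S.Ω, p S.Ω⟫_ℂ).re = ‖p S.Ω‖ ^ 2 := by
    rw [diffc_proj_norm hpp]
    exact Complex.ofReal_re _
  have hle1 : ‖p S.Ω‖ ^ 2 ≤ δ := by
    rw [← hn1]
    exact hmax l₀ p hesp hpe
  have hle2 := diffce_le hQ₀ hpp hpQ0
  have hnorm : ‖p S.Ω‖ ^ 2 = δ := le_antisymm hle1 (hre.trans hle2)
  have hQp : Q₀ = p := diffce_eq hQ₀ hpM hpp hpQ0 (by rw [hnorm]; exact hre)
  subst hQp
  refine ⟨l₀, Q₀, hpM, hpp, hap, hpe, hpk, hnorm, ?_⟩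
  -- strong convergence
  have hw1 : Tendsto (fun n => (⟪S.Ω, Q n S.Ω⟫_ℂ).re) U (𝓝 δ) := by
    have h := (Complex.continuous_re.tendsto _).comp (hw S.Ω S.Ω)
    rw [hn1, hnorm] at h
    exact h
  have hw2 : Tendsto (fun n => (⟪Q₀ S.Ω, Q n S.Ω⟫_ℂ).re) U (𝓝 δ) := by
    have h := (Complex.continuous_re.tendsto _).comp (hw (Q₀ S.Ω) S.Ω)
    rw [(diffc_proj_inner hpp S.Ω S.Ω).1, hn1, hnorm] at h
    exact h
  have hstr : Tendsto (fun n => Q n S.Ω) U (𝓝 (Q₀ S.Ω)) := by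
    rw [tendsto_iff_norm_sub_tendsto_zero]
    have hsq : Tendsto (fun n => ‖Q n S.Ω - Q₀ S.Ω‖ ^ 2) U (𝓝 0) := by
      have hub : Tendsto (fun n => (⟪S.Ω, Q n S.Ω⟫_ℂ).re - 2 * (⟪Q₀ S.Ω, Q n S.Ω⟫_ℂ).re + δ) U
          (𝓝 0) := by
        have h := (hw1.sub (hw2.const_mul 2)).add_const δ
        have h0 : δ - 2 * δ + δ = 0 := by ring
        rw [h0] at h
        exact h
      refine squeeze_zero (fun n => by positivity) (fun n => ?_) hub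
      have h1 := diffc_sq (hQ n).pos (hQ n).le S.Ω
      have h2 : ‖Q n S.Ω - Q₀ S.Ω‖ ^ 2 =
          ‖Q n S.Ω‖ ^ 2 - 2 * (⟪Q₀ S.Ω, Q n S.Ω⟫_ℂ).re + ‖Q₀ S.Ω‖ ^ 2 := by
        have h := norm_sub_sq (𝕜 := ℂ) (Q n S.Ω) (Q₀ S.Ω)
        rw [h]
        have h3 : RCLike.re ⟪Q n S.Ω, Q₀ S.Ω⟫_ℂ = (⟪Q₀ S.Ω, Q n S.Ω⟫_ℂ).re := by
          exact inner_re_symm (𝕜 := ℂ) _ _
        rw [h3]
      rw [h2, hnorm]
      linarith
    have h := hsq.sqrt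
    simp only [Real.sqrt_zero] at h
    refine h.congr (fun n => ?_)
    exact Real.sqrt_sq (norm_nonneg _)
  have hpa := diffc_left hsa hpp hap
  set s : ℕ → ℂ := fun n => (((l n - l₀) / t n : ℝ) : ℂ) with hs_def
  have hkey : ∀ n, Q₀ (c (Q n S.Ω)) = s n • Q₀ (Q n S.Ω) := fun n =>
    diffc_alg (htpos n) hpa (hQ n).eq S.Ω
  have hL : Tendsto (fun n => Q₀ (c (Q n S.Ω))) U (𝓝 (Q₀ (c (Q₀ S.Ω)))) :=
    ((Q₀.continuous.comp c.continuous).tendsto _).comp hstr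
  have hPQ : Tendsto (fun n => Q₀ (Q n S.Ω)) U (𝓝 (Q₀ S.Ω)) := by
    have h := (Q₀.continuous.tendsto _).comp hstr
    have h3 : Q₀ (Q₀ S.Ω) = Q₀ S.Ω := by
      have h := congrArg (fun Z : H →L[ℂ] H => Z S.Ω) hpp.isIdempotentElem
      simpa using h
    rw [h3] at h
    exact h
  have hδC : (δ : ℂ) ≠ 0 := by exact_mod_cast hδ.ne'
  have hin : Tendsto (fun n => ⟪Q₀ S.Ω, Q₀ (Q n S.Ω)⟫_ℂ) U (𝓝 (δ : ℂ)) := by
    have h := (tendsto_const_nhds (x := Q₀ S.Ω)).inner hPQ (𝕜 := ℂ)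
    rw [(diffc_proj_inner hpp S.Ω S.Ω).1, diffc_proj_norm hpp, hnorm] at h
    exact h
  have hin2 : Tendsto (fun n => ⟪Q₀ S.Ω, Q₀ (c (Q n S.Ω))⟫_ℂ) U
      (𝓝 ⟪Q₀ S.Ω, Q₀ (c (Q₀ S.Ω))⟫_ℂ) :=
    (tendsto_const_nhds (x := Q₀ S.Ω)).inner hL (𝕜 := ℂ)
  have hs : Tendsto s U (𝓝 (⟪Q₀ S.Ω, Q₀ (c (Q₀ S.Ω))⟫_ℂ / (δ : ℂ))) := by
    have h := hin2.div hin hδC
    refine h.congr' ?_
    have hne : ∀ᶠ n in (U : Filter ℕ), ⟪Q₀ S.Ω, Q₀ (Q n S.Ω)⟫_ℂ ≠ 0 :=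
      hin.eventually_ne hδC
    filter_upwards [hne] with n hn
    simp only [Pi.div_apply]
    rw [hkey n, inner_smul_right]
    field_simp
  refine ⟨⟪Q₀ S.Ω, Q₀ (c (Q₀ S.Ω))⟫_ℂ / (δ : ℂ), ?_⟩
  have hlim2 : Tendsto (fun n => s n • Q₀ (Q n S.Ω)) U
      (𝓝 ((⟪Q₀ S.Ω, Q₀ (c (Q₀ S.Ω))⟫_ℂ / (δ : ℂ)) • Q₀ S.Ω)) := hs.smul hPQ
  have hfin : Q₀ (c (Q₀ S.Ω)) = (⟪Q₀ S.Ω, Q₀ (c (Q₀ S.Ω))⟫_ℂ / (δ : ℂ)) • Q₀ S.Ω := by
    refine tendsto_nhds_unique hL (hlim2.congr (fun n => ?_))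
    exact (hkey n).symm
  have hmem : Q₀ * c * Q₀ - (⟪Q₀ S.Ω, Q₀ (c (Q₀ S.Ω))⟫_ℂ / (δ : ℂ)) • Q₀ ∈ S.M :=
    sub_mem (mul_mem (mul_mem hpM hcM) hpM) (S.smul_mem _ hpM)
  have hz := S.sep hmem (by
    simp only [ContinuousLinearMap.sub_apply, ContinuousLinearMap.mul_apply,
      ContinuousLinearMap.smul_apply]
    rw [← hfin, sub_self])
  exact sub_eq_zero.1 hz

end

end Pool.H62.MC
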