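import Pool.Agent.H62.MC.DiffB
import Pool.Agent.H62.MC.DiffC
import Pool.Agent.H62.UC.CloseA

/-!
# DIFFD: an element without eigenvectors in the graph-norm closure of the self-adjoint part of `D`

PROOF. Let `X` be the closure in the statement; it is closed under addition and multiplication by
reals, its first components are self-adjoint elements of `M`.  For `r > 0` let
`A r = {q | ∃ l Q, IsEs S q.1 l Q ∧ r ≤ re ⟪Ω, Q Ω⟫}`, closed (`es_limit` with constant `r`).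
Apply `baire_pt` to an enumeration of the positive rationals `r`: `q₀ ∈ X` such that
`q₀ ∈ A r → ` a neighbourhood of `q₀` in `X` is in `A r`, `r ∈ ℚ`, `r > 0`.  Suppose `a = q₀.1` has an
eigenvector: the eigenvalue is real (`a` self-adjoint), the eigenprojection `p ≠ 0` has
`‖p Ω‖² > 0` (`S.sep`), so `δ := sup {r | q₀ ∈ A r} > 0`, `δ ≤ 1`; `hmax` of `perturb` holds by
definition of `sup`, `hseq` by the choice of `q₀` (for `r < δ` take a rational `r' ∈ (r, δ)`, `r' > 0`,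
`q₀ ∈ A r'`; `q₀ + t • (c, d c) ∈ X`).
The set `Λ` of real `l` with eigenprojection `p_l`, `‖p_l Ω‖² = δ`, is finite: for distinct
`l_1..l_k` in `Λ` the vectors `p_{l_i} Ω` are pairwise orthogonal (eigenvectors of a self-adjoint
operator), `⟪Ω, p_{l_i} Ω⟫ = δ`, so `k δ = ∑ ‖p_{l_i} Ω‖² ≤ ‖Ω‖² = 1` (Bessel or
`‖Ω - ∑ p Ω‖² ≥ 0`).  The real subspaces `V_l = {c ∈ D_sa : ∃ μ, p_l c p_l = μ p_l}` cover `D_sa`
(`perturb`), so one of them is everything (`Subspace.exists_eq_top_of_iUnion_eq_univ`); then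
`p c p ∈ ℂ p` for all `c ∈ D` (real and imaginary parts), and for all `x ∈ M`: `c_n Ω → x Ω` with
`c_n ∈ D`, `‖p (c_n - x) p Ω‖ ≤ ‖(c_n - x) Ω‖` (`S.norm_mul_right`), and `ℂ (p Ω)` is closed.  By
`Diffuse` there is `q ∈ M` with `q p = q = p q`, `q ≠ 0, p`: `q = p q p = μ p`, `μ² = μ`: contradiction.
-/

namespace Pool.H62.MC

open scoped InnerProductSpace TensorProduct ComplexConjugate
open Filter Topology Pool.H62.UC

noncomputable section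

variable {H : Type*} [NormedAddCommGroup H] [InnerProductSpace ℂ H] [CompleteSpace H]
variable {K : Type*} [NormedAddCommGroup K] [InnerProductSpace ℂ K] [CompleteSpace K]

variable {S : Std H K}

/-- the graph-norm closure of the self-adjoint part of `D` -/
def Xd (D : StarSubalgebra ℂ (H →L[ℂ] H)) (d : D →ₗ[ℂ] K) : Set ((H →L[ℂ] H) × K) :=
  closure {q | ∃ x : D, IsSelfAdjoint (x : H →L[ℂ] H) ∧ q = ((x : H →L[ℂ] H), d x)}

theorem Xd_mem {D : StarSubalgebra ℂ (H →L[ℂ] H)} (hD : ∀ x ∈ D, x ∈ S.M) {d : D →ₗ[ℂ] K}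
    {q : (H →L[ℂ] H) × K} (hq : q ∈ Xd D d) : q.1 ∈ S.M ∧ IsSelfAdjoint q.1 := by
  have h2 : IsClosed {x : H →L[ℂ] H | x ∈ S.M} := closea_isClosed S.M
  have h3 : IsClosed {x : H →L[ℂ] H | IsSelfAdjoint x} := isClosed_eq continuous_star continuous_id
  have h1 : IsClosed {q : (H →L[ℂ] H) × K | q.1 ∈ S.M ∧ IsSelfAdjoint q.1} :=
    (h2.preimage continuous_fst).inter (h3.preimage continuous_fst)
  have h4 : Xd D d ⊆ {q : (H →L[ℂ] H) × K | q.1 ∈ S.M ∧ IsSelfAdjoint q.1} := by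
    apply closure_minimal _ h1
    rintro q ⟨x, hx, rfl⟩
    exact ⟨hD _ x.2, hx⟩
  exact h4 hq

theorem diffD_add {D : StarSubalgebra ℂ (H →L[ℂ] H)} {d : D →ₗ[ℂ] K} {q : (H →L[ℂ] H) × K}
    (hq : q ∈ Xd D d) (c : D) (hc : IsSelfAdjoint (c : H →L[ℂ] H)) (t : ℝ) :
    q + (t : ℂ) • ((c : H →L[ℂ] H), d c) ∈ Xd D d := by
  have hf : Continuous fun q : (H →L[ℂ] H) × K => q + (t : ℂ) • ((c : H →L[ℂ] H), d c) :=
    continuous_id.add continuous_const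
  refine map_mem_closure (f := fun q : (H →L[ℂ] H) × K => q + (t : ℂ) • ((c : H →L[ℂ] H), d c))
    hf hq ?_
  rintro q ⟨x, hx, rfl⟩
  refine ⟨x + (t : ℂ) • c, ?_, ?_⟩
  · have h1 : IsSelfAdjoint ((t : ℂ) • (c : H →L[ℂ] H)) := by
      apply IsSelfAdjoint.smul _ hc
      rw [isSelfAdjoint_iff, Complex.star_def, Complex.conj_ofReal]
    have h2 := hx.add h1
    exact h2
  · rw [map_add, map_smul]
    rfl

theorem diffD_sa {p : H →L[ℂ] H} (hp : IsSelfAdjoint p) (x y : H) : ⟪x, p y⟫_ℂ = ⟪p x, y⟫_ℂ := by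
  have h := Std.basB_adj p x y
  rwa [hp.star_eq] at h

theorem diffD_idem {p : H →L[ℂ] H} (hp : IsStarProjection p) (x : H) : p (p x) = p x := by
  have h := congrArg (fun A : H →L[ℂ] H => A x) hp.isIdempotentElem.eq
  exact h

theorem diffD_tr {p : H →L[ℂ] H} (hp : IsStarProjection p) (x : H) :
    ⟪x, p x⟫_ℂ = ((‖p x‖ ^ 2 : ℝ) : ℂ) := by
  rw [← diffD_idem hp x, diffD_sa hp.isSelfAdjoint, diffD_idem hp x, inner_self_eq_norm_sq_to_K]
  norm_cast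

theorem diffD_le_one {a Q : H →L[ℂ] H} {l : ℝ} (hQ : IsEs S a l Q) :
    (⟪S.Ω, Q S.Ω⟫_ℂ).re ≤ 1 := by
  have h1 := hQ.le.inner_nonneg_right S.Ω
  have h2 : ⟪S.Ω, (1 - Q) S.Ω⟫_ℂ = 1 - ⟪S.Ω, Q S.Ω⟫_ℂ := by
    rw [sub_apply, inner_sub_right, one_apply_eq_self,
      inner_self_eq_norm_sq_to_K, S.tv.norm_one]
    norm_num
  rw [h2] at h1
  have h3 := (Complex.le_def.1 h1).1
  simp only [Complex.zero_re, Complex.sub_re, Complex.one_re] at h3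
  linarith

theorem diffD_closed {r : ℝ} (hr : 0 < r) :
    IsClosed {q : (H →L[ℂ] H) × K | ∃ (l : ℝ) (Q : H →L[ℂ] H), IsEs S q.1 l Q ∧
      r ≤ (⟪S.Ω, Q S.Ω⟫_ℂ).re} := by
  apply IsSeqClosed.isClosed
  intro x q hx hlim
  have hx' : ∀ n, ∃ (l : ℝ) (Q : H →L[ℂ] H), IsEs S (x n).1 l Q ∧ r ≤ (⟪S.Ω, Q S.Ω⟫_ℂ).re := hx
  choose l Q hQ hr' using hx'
  obtain ⟨U, -, l₀, Q₀, h1, -, -, h2⟩ := es_limit (S := S) ((continuous_fst.tendsto q).comp hlim)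
    (fun n => hQ n) (tendsto_const_nhds (x := r)) hr hr'
  exact ⟨l₀, Q₀, h1, h2⟩

theorem diffD_uniq {a p p' : H →L[ℂ] H} {l : ℝ} (hp : IsStarProjection p)
    (hp' : IsStarProjection p') (he : a * p = (l : ℂ) • p) (he' : a * p' = (l : ℂ) • p')
    (hu : ∀ ξ : H, a ξ = (l : ℂ) • ξ → p ξ = ξ) (hu' : ∀ ξ : H, a ξ = (l : ℂ) • ξ → p' ξ = ξ) :
    p = p' := by
  have h1 : p * p' = p' := by
    ext ξ
    exact hu _ (congrArg (fun A : H →L[ℂ] H => A ξ) he')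
  have h2 : p' * p = p := by
    ext ξ
    exact hu' _ (congrArg (fun A : H →L[ℂ] H => A ξ) he)
  have h3 := congrArg star h1
  rw [star_mul, hp.isSelfAdjoint.star_eq, hp'.isSelfAdjoint.star_eq, h2] at h3
  exact h3

theorem diffD_fin {a : H →L[ℂ] H} (hsa : IsSelfAdjoint a) {δ : ℝ} (hδ : 0 < δ) :
    {l : ℝ | ∃ p : H →L[ℂ] H, IsStarProjection p ∧ a * p = (l : ℂ) • p ∧
      ‖p S.Ω‖ ^ 2 = δ}.Finite := by
  by_contra hinf
  obtain ⟨n, hn⟩ := exists_nat_gt (1 / δ)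
  obtain ⟨t, ht, hc⟩ := Set.Infinite.exists_subset_card_eq hinf n
  have hex : ∀ l ∈ t, ∃ p : H →L[ℂ] H, IsStarProjection p ∧ a * p = (l : ℂ) • p ∧
      ‖p S.Ω‖ ^ 2 = δ := fun l hl => ht hl
  choose! p hp1 hp2 hp3 using hex
  have hA : ∀ l ∈ t, ∀ ξ : H, a (p l ξ) = (l : ℂ) • p l ξ := fun l hl ξ =>
    congrArg (fun A : H →L[ℂ] H => A ξ) (hp2 l hl)
  have horth : ∀ l ∈ t, ∀ l' ∈ t, l ≠ l' → ⟪p l S.Ω, p l' S.Ω⟫_ℂ = 0 := by
    intro l hl l' hl' hne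
    have h1 := diffD_sa hsa (p l S.Ω) (p l' S.Ω)
    rw [hA l hl, hA l' hl', inner_smul_right, inner_smul_left, Complex.conj_ofReal] at h1
    have h2 : ((l' : ℂ) - l) * ⟪p l S.Ω, p l' S.Ω⟫_ℂ = 0 := by
      rw [sub_mul, h1, sub_self]
    rcases mul_eq_zero.1 h2 with h3 | h3
    · exfalso
      apply hne
      have h4 : (l' : ℂ) = l := sub_eq_zero.1 h3
      exact (Complex.ofReal_injective h4).symm
    · exact h3
  have hself : ∀ l ∈ t, ⟪p l S.Ω, p l S.Ω⟫_ℂ = (δ : ℂ) := by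
    intro l hl
    rw [inner_self_eq_norm_sq_to_K, ← hp3 l hl]
    norm_cast
  have hΩ : ∀ l ∈ t, ⟪S.Ω, p l S.Ω⟫_ℂ = (δ : ℂ) := by
    intro l hl
    rw [diffD_tr (hp1 l hl), hp3 l hl]
  have h1 : ⟪∑ l ∈ t, p l S.Ω, ∑ l ∈ t, p l S.Ω⟫_ℂ = ((n * δ : ℝ) : ℂ) := by
    rw [sum_inner]
    have h2 : ∀ l ∈ t, ⟪p l S.Ω, ∑ l ∈ t, p l S.Ω⟫_ℂ = (δ : ℂ) := by
      intro l hl
      rw [inner_sum, Finset.sum_eq_single l (fun l' hl' hne => horth l hl l' hl' hne.symm)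
        (fun h => absurd hl h), hself l hl]
    rw [Finset.sum_congr rfl h2, Finset.sum_const, hc, nsmul_eq_mul]
    push_cast
    rfl
  have h2 : ⟪S.Ω, ∑ l ∈ t, p l S.Ω⟫_ℂ = ((n * δ : ℝ) : ℂ) := by
    rw [inner_sum, Finset.sum_congr rfl hΩ, Finset.sum_const, hc, nsmul_eq_mul]
    push_cast
    rfl
  have h3 := norm_inner_le_norm (𝕜 := ℂ) S.Ω (∑ l ∈ t, p l S.Ω)
  rw [h2, S.tv.norm_one, one_mul, Complex.norm_real] at h3
  have h4 : ‖∑ l ∈ t, p l S.Ω‖ ^ 2 = n * δ := by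
    apply Complex.ofReal_injective
    rw [← h1, inner_self_eq_norm_sq_to_K]
    norm_cast
  have h5 : 0 < (n : ℝ) * δ := by
    have : 0 < 1 / δ := by positivity
    have : (0 : ℝ) < n := this.trans hn
    positivity
  rw [Real.norm_of_nonneg h5.le] at h3
  have h6 : 1 < (n : ℝ) * δ := by
    rwa [div_lt_iff₀ hδ] at hn
  have h7 : ((n : ℝ) * δ) ^ 2 ≤ ‖∑ l ∈ t, p l S.Ω‖ ^ 2 := pow_le_pow_left₀ h5.le h3 2
  rw [h4] at h7
  nlinarith

theorem diffD_alg (hdif : Diffuse S) (D : StarSubalgebra ℂ (H →L[ℂ] H))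
    (hD : ∀ x ∈ D, x ∈ S.M) (hdense : Dense {ξ : H | ∃ x ∈ D, x S.Ω = ξ})
    {p : H →L[ℂ] H} (hpM : p ∈ S.M) (hpp : IsStarProjection p) (hp0 : p ≠ 0)
    (h : ∀ c ∈ D, IsSelfAdjoint c → ∃ μ : ℂ, p * c * p = μ • p) : False := by
  have hpn : ‖p‖ ≤ 1 := hpp.norm_le
  have h1 : ∀ c ∈ D, ∃ μ : ℂ, p * c * p = μ • p := by
    intro c hc
    obtain ⟨μ, hμ⟩ := h (c + star c) (add_mem hc (star_mem hc)) (by
      rw [isSelfAdjoint_iff, star_add, star_star, add_comm])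
    obtain ⟨ν, hν⟩ := h (Complex.I • (c - star c)) (D.smul_mem (sub_mem hc (star_mem hc)) _) (by
      rw [isSelfAdjoint_iff, star_smul, star_sub, star_star, Complex.star_def, Complex.conj_I,
        neg_smul, ← smul_neg, neg_sub])
    have e : c = (1 / 2 : ℂ) • (c + star c) + (-(Complex.I / 2)) • (Complex.I • (c - star c)) := by
      rw [smul_smul]
      have e1 : -(Complex.I / 2) * Complex.I = 1 / 2 := by
        have := Complex.I_mul_I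
        linear_combination (-1 / 2 : ℂ) * this
      rw [e1, ← smul_add, add_add_sub_cancel, ← two_smul ℂ c, smul_smul]
      norm_num
    refine ⟨1 / 2 * μ + -(Complex.I / 2) * ν, ?_⟩
    rw [e, mul_add, add_mul, mul_smul_comm, smul_mul_assoc, hμ, mul_smul_comm (-(Complex.I / 2)),
      smul_mul_assoc, hν, add_smul, smul_smul, smul_smul]
  have h2 : ∀ x ∈ S.M, ∃ μ : ℂ, p * x * p = μ • p := by
    intro x hx
    have hcl : IsClosed ((Submodule.span ℂ {p S.Ω} : Submodule ℂ H) : Set H) :=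
      Submodule.closed_of_finiteDimensional _
    have hmem : (p * x * p) S.Ω ∈ (Submodule.span ℂ {p S.Ω} : Submodule ℂ H) := by
      rw [← SetLike.mem_coe, ← hcl.closure_eq, Metric.mem_closure_iff]
      intro ε hε
      obtain ⟨ξ, ⟨c, hc, rfl⟩, hd⟩ := Metric.mem_closure_iff.1 (hdense (x S.Ω)) ε hε
      obtain ⟨μ, hμ⟩ := h1 c hc
      refine ⟨(p * c * p) S.Ω, ?_, ?_⟩
      · rw [hμ]
        exact Submodule.smul_mem _ _ (Submodule.mem_span_singleton_self _)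
      · rw [dist_eq_norm] at hd ⊢
        have e1 : (p * x * p) S.Ω - (p * c * p) S.Ω = p (((x - c) * p) S.Ω) := by
          rw [sub_mul, sub_apply, map_sub]
          rfl
        have e2 : x S.Ω - c S.Ω = (x - c) S.Ω := rfl
        rw [e1]
        rw [e2] at hd
        have h3 := p.le_opNorm (((x - c) * p) S.Ω)
        have h4 := S.norm_mul_right (sub_mem hx (hD c hc)) hpM
        have h5 := norm_nonneg ((x - c) S.Ω)
        have h6 := norm_nonneg (((x - c) * p) S.Ω)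
        have h7 := norm_nonneg p
        nlinarith [mul_le_mul_of_nonneg_right hpn h6, mul_le_mul_of_nonneg_left hpn h5]
    obtain ⟨μ, hμ⟩ := Submodule.mem_span_singleton.1 hmem
    refine ⟨μ, ?_⟩
    have h3 : p * x * p - μ • p ∈ S.M := sub_mem (mul_mem (mul_mem hpM hx) hpM) (S.smul_mem μ hpM)
    refine sub_eq_zero.1 (S.sep h3 ?_)
    rw [sub_apply, smul_apply, hμ, sub_self]
  obtain ⟨q, hqM, hqq, hqp, hq0, hqne⟩ := hdif p hpM hpp hp0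
  have hpq : p * q = q := by
    have h3 := congrArg star hqp
    rwa [star_mul, hpp.isSelfAdjoint.star_eq, hqq.isSelfAdjoint.star_eq] at h3
  obtain ⟨μ, hμ⟩ := h2 q hqM
  rw [hpq, hqp] at hμ
  have h3 := hqq.isIdempotentElem.eq
  rw [hμ, smul_mul_smul_comm, hpp.isIdempotentElem.eq] at h3
  have h4 : (μ * μ - μ) • p = 0 := by rw [sub_smul, h3, sub_self]
  rcases smul_eq_zero.1 h4 with h5 | h5
  · have h6 : μ * (μ - 1) = 0 := by linear_combination h5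
    rcases mul_eq_zero.1 h6 with h7 | h7
    · exact hq0 (by rw [hμ, h7, zero_smul])
    · exact hqne (by rw [hμ, sub_eq_zero.1 h7, one_smul])
  · exact hp0 h5

theorem exists_noeig (hdif : Diffuse S) (D : StarSubalgebra ℂ (H →L[ℂ] H))
    (hD : ∀ x ∈ D, x ∈ S.M) (hdense : Dense {ξ : H | ∃ x ∈ D, x S.Ω = ξ}) (d : D →ₗ[ℂ] K) :
    ∃ q ∈ Xd D d, NoEig q.1 := by
  have hne : (Xd D d).Nonempty := by
    refine ⟨(((0 : D) : H →L[ℂ] H), d 0), subset_closure ⟨0, ?_, rfl⟩⟩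
    exact IsSelfAdjoint.zero (H →L[ℂ] H)
  have hnn : Nonempty {r : ℚ // 0 < r} := ⟨⟨1, one_pos⟩⟩
  obtain ⟨e, he⟩ := exists_surjective_nat {r : ℚ // 0 < r}
  obtain ⟨q₀, hq₀, hb⟩ := baire_pt (Xd D d) isClosed_closure hne
    (fun n => {q | ∃ (l : ℝ) (Q : H →L[ℂ] H), IsEs S q.1 l Q ∧
      (((e n : ℚ) : ℝ)) ≤ (⟪S.Ω, Q S.Ω⟫_ℂ).re})
    (fun n => diffD_closed (by exact_mod_cast (e n).2))
  refine ⟨q₀, hq₀, ?_⟩
  intro z ξ hξ
  by_contra hξ0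
  obtain ⟨hqM, hsa⟩ := Xd_mem hD hq₀
  have hz : ((z.re : ℝ) : ℂ) = z := by
    have h1 := diffD_sa hsa ξ ξ
    rw [hξ, inner_smul_right, inner_smul_left] at h1
    have h2 : ⟪ξ, ξ⟫_ℂ ≠ 0 := by
      rw [Ne, inner_self_eq_zero]
      exact hξ0
    have h3 := mul_right_cancel₀ h2 h1
    exact Complex.conj_eq_iff_re.1 h3.symm
  obtain ⟨p₀, hp₀M, hp₀, hp₀e, hp₀u⟩ := exists_eigproj hqM z.re
  have hp₀0 : p₀ ≠ 0 := by
    intro h
    have h1 := hp₀u ξ (by rw [hz]; exact hξ)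
    rw [h] at h1
    exact hξ0 h1.symm
  obtain ⟨T, hT⟩ : ∃ T : Set ℝ, T = {r | ∃ (l : ℝ) (Q : H →L[ℂ] H), IsEs S q₀.1 l Q ∧
    r = (⟪S.Ω, Q S.Ω⟫_ℂ).re} := ⟨_, rfl⟩
  have hTb : BddAbove T := by
    refine ⟨1, ?_⟩
    intro r hr
    rw [hT] at hr
    obtain ⟨l, Q, hQ, rfl⟩ := hr
    exact diffD_le_one hQ
  have hT0 : ‖p₀ S.Ω‖ ^ 2 ∈ T := by
    rw [hT]
    refine ⟨z.re, p₀, es_proj hp₀M hp₀ hp₀e, ?_⟩
    rw [diffD_tr hp₀, Complex.ofReal_re]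
  have hpos : 0 < ‖p₀ S.Ω‖ ^ 2 := by
    have h1 : p₀ S.Ω ≠ 0 := fun h => hp₀0 (S.sep hp₀M h)
    have h2 := norm_pos_iff.2 h1
    positivity
  obtain ⟨δ, hδdef⟩ : ∃ δ : ℝ, δ = sSup T := ⟨_, rfl⟩
  have hδ : 0 < δ := by
    rw [hδdef]
    exact hpos.trans_le (le_csSup hTb hT0)
  have hmax : ∀ (l : ℝ) (Q : H →L[ℂ] H), IsEs S q₀.1 l Q → (⟪S.Ω, Q S.Ω⟫_ℂ).re ≤ δ := by
    intro l Q hQ
    rw [hδdef]
    apply le_csSup hTb
    rw [hT]
    exact ⟨l, Q, hQ, rfl⟩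
  have hseq : ∀ c : D, IsSelfAdjoint (c : H →L[ℂ] H) → ∀ r : ℝ, r < δ → ∃ ε : ℝ, 0 < ε ∧
      ∀ t : ℝ, 0 < t → t < ε → ∃ (l : ℝ) (Q : H →L[ℂ] H),
        IsEs S (q₀.1 + (t : ℂ) • (c : H →L[ℂ] H)) l Q ∧ r ≤ (⟪S.Ω, Q S.Ω⟫_ℂ).re := by
    intro c hc r hr
    have hm : max r 0 < sSup T := by
      rw [← hδdef]
      exact max_lt hr hδ
    obtain ⟨r₂, hr₂T, hr₂⟩ := exists_lt_of_lt_csSup ⟨_, hT0⟩ hm
    obtain ⟨s, hs1, hs2⟩ := exists_rat_btwn hr₂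
    have hs0 : (0 : ℝ) < s := (le_max_right r 0).trans_lt hs1
    obtain ⟨n, hn⟩ := he ⟨s, by exact_mod_cast hs0⟩
    have hn' : ((e n : ℚ) : ℝ) = s := by rw [hn]
    rw [hT] at hr₂T
    obtain ⟨l, Q, hQ, hrQ⟩ := hr₂T
    obtain ⟨ε, hε, hb'⟩ := hb n ⟨l, Q, hQ, by rw [hn', ← hrQ]; exact hs2.le⟩
    obtain ⟨w, hw⟩ : ∃ w : (H →L[ℂ] H) × K, w = ((c : H →L[ℂ] H), d c) := ⟨_, rfl⟩
    have hw1 : 0 < ‖w‖ + 1 := by
      have := norm_nonneg w
      linarith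
    refine ⟨ε / (‖w‖ + 1), div_pos hε hw1, fun t ht ht' => ?_⟩
    have hXt : q₀ + (t : ℂ) • w ∈ Xd D d := by
      rw [hw]
      exact diffD_add hq₀ c hc t
    obtain ⟨l', Q', hQ', hr'⟩ := hb' (q₀ + (t : ℂ) • w) hXt (by
      rw [dist_eq_norm, add_sub_cancel_left, norm_smul, Complex.norm_real,
        Real.norm_of_nonneg ht.le]
      have h1 : t * (‖w‖ + 1) < ε := (lt_div_iff₀ hw1).1 ht'
      nlinarith)
    refine ⟨l', Q', ?_, ?_⟩
    · rw [hw] at hQ'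
      exact hQ'
    · rw [hn'] at hr'
      exact (le_max_left r 0).trans (hs1.le.trans hr')
  have hfinite := diffD_fin (S := S) hsa hδ
  obtain ⟨Λ, hΛ⟩ : ∃ Λ : Set ℝ, Λ = {l : ℝ | ∃ p : H →L[ℂ] H, IsStarProjection p ∧
    q₀.1 * p = (l : ℂ) • p ∧ ‖p S.Ω‖ ^ 2 = δ} := ⟨_, rfl⟩
  rw [← hΛ] at hfinite
  have hfin : Finite Λ := hfinite.to_subtype
  have hep : ∀ l : ℝ, ∃ p : H →L[ℂ] H, p ∈ S.M ∧ IsStarProjection p ∧
      q₀.1 * p = (l : ℂ) • p ∧ ∀ ξ : H, q₀.1 ξ = (l : ℂ) • ξ → p ξ = ξ := fun l => by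
    obtain ⟨p, h1, h2, h3, h4⟩ := exists_eigproj hqM l
    exact ⟨p, h1, h2, h3, h4⟩
  choose P hPM hPP hPe hPu using hep
  let W : Submodule ℝ (H →L[ℂ] H) :=
    { carrier := {c | c ∈ D ∧ IsSelfAdjoint c}
      add_mem' := fun ha hb => ⟨add_mem ha.1 hb.1, ha.2.add hb.2⟩
      zero_mem' := ⟨zero_mem D, IsSelfAdjoint.zero _⟩
      smul_mem' := fun t x hx => by
        have h1 : t • x = (t : ℂ) • x := (Complex.coe_smul t x).symm
        refine ⟨?_, ?_⟩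
        · rw [h1]
          exact D.smul_mem hx.1 _
        · rw [h1]
          apply IsSelfAdjoint.smul _ hx.2
          rw [isSelfAdjoint_iff, Complex.star_def, Complex.conj_ofReal] }
  let V : Λ → Submodule ℝ W := fun l =>
    { carrier := {c | ∃ μ : ℂ, P l * (c : H →L[ℂ] H) * P l = μ • P l}
      add_mem' := by
        rintro a b ⟨μ, hμ⟩ ⟨ν, hν⟩
        refine ⟨μ + ν, ?_⟩
        rw [Submodule.coe_add, mul_add, add_mul, hμ, hν, add_smul]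
      zero_mem' := ⟨0, by rw [Submodule.coe_zero, mul_zero, zero_mul, zero_smul]⟩
      smul_mem' := by
        rintro t x ⟨μ, hμ⟩
        refine ⟨(t : ℂ) * μ, ?_⟩
        have h1 : ((t • x : W) : H →L[ℂ] H) = (t : ℂ) • (x : H →L[ℂ] H) := by
          rw [Submodule.coe_smul]
          exact (Complex.coe_smul t (x : H →L[ℂ] H)).symm
        rw [h1, mul_smul_comm, smul_mul_assoc, hμ, smul_smul] }
  have hcov : ⋃ l, (V l : Set W) = Set.univ := by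
    rw [Set.eq_univ_iff_forall]
    rintro ⟨c, hcD, hcs⟩
    obtain ⟨l, p, hpM, hpp, hpe, hpu, hpδ, μ, hμ⟩ := perturb hqM hsa (hD c hcD) hδ hmax
      (hseq ⟨c, hcD⟩ hcs)
    have hl : l ∈ Λ := by
      rw [hΛ]
      exact ⟨p, hpp, hpe, hpδ⟩
    have hPp : P l = p := diffD_uniq (hPP l) hpp (hPe l) hpe (hPu l) hpu
    refine Set.mem_iUnion.2 ⟨⟨l, hl⟩, μ, ?_⟩
    change P l * c * P l = μ • P l
    rw [hPp, hμ]
  obtain ⟨⟨l, hl⟩, hV⟩ := Subspace.exists_eq_top_of_iUnion_eq_univ hcov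
  have hP0 : P l ≠ 0 := by
    rw [hΛ] at hl
    obtain ⟨p, hpp, hpe, hpδ⟩ := hl
    intro h
    have h1 : p = 0 := by
      ext ξ
      have h2 := hPu l (p ξ) (congrArg (fun A : H →L[ℂ] H => A ξ) hpe)
      rw [h] at h2
      exact h2.symm
    rw [h1, zero_apply, norm_zero] at hpδ
    norm_num at hpδ
    exact hδ.ne hpδ
  refine diffD_alg hdif D hD hdense (hPM l) (hPP l) hP0 (fun c hcD hcs => ?_)
  have h1 : (⟨c, hcD, hcs⟩ : W) ∈ V ⟨l, hl⟩ := by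
    rw [hV]
    exact Submodule.mem_top
  exact h1

end

end Pool.H62.MC
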