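import Pool.Agent.H62.MC.DiffD
import Pool.Agent.H62.MC.DiffCE

/-!
# DIFFDE: an element whose eigenvectors are all in `e H`

PROOF. Copy of the proof of `exists_noeig` (`MC/DiffD.lean`) with
`A r = {q | ∃ l Q, IsEs S q.1 l Q ∧ Q * e = 0 ∧ r ≤ re ⟪Ω, Q Ω⟫}` (closed: `es_limit`, the condition
`Q * e = 0` passes to the weak limit) and `perturbE`.  If `NoEigE e q₀.1` fails then `a = q₀.1` has an
eigenvector `ξ` with `e ξ ≠ ξ`; `(1-e) ξ ≠ 0` is an eigenvector in `(1-e) H`, the eigenvalue is real and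
`p = p₀ (1-e) ≠ 0` (`p₀` the eigenprojection) has `‖p Ω‖² > 0`, `p e = 0`.  The argument gives a
projection `p ∈ M`, `p ≠ 0`, `p e = 0`, with `p x p ∈ ℂ p` for all `x ∈ M`
(the eigenprojections with `‖p_l Ω‖² = δ` have pairwise orthogonal vectors `p_l Ω`).
Contradiction: `p v_i* v_j p = c_ij p` with
`c_ij ‖p Ω‖² = ⟪p Ω, v_i* v_j p Ω⟫ = ⟪v_i p Ω, v_j p Ω⟫ → ⟪v_i p Ω, e p Ω⟫ = 0` as `j → ∞`.  For
`ξ_j = v_j p v_j* Ω`: `⟪Ω, ξ_j⟫ = ⟪Ω, p Ω⟫ = ‖p Ω‖² = δ` (trace), `‖ξ_j‖ ≤ 1`,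
`⟪ξ_i, ξ_j⟫ = ⟪Ω, v_i p v_i* v_j p v_j* Ω⟫ = c_ij ⟪Ω, v_i p v_j* Ω⟫ → 0` as `j → ∞`.  Choose a subsequence
(`N` of them, pairwise `|⟪ξ_i, ξ_j⟫| ≤ τ`): `δ² ≤ ‖(1/N) ∑ ξ‖² ≤ 1/N + τ`; contradiction for large `N`,
small `τ`.
-/

namespace Pool.H62.MC

open scoped InnerProductSpace TensorProduct ComplexConjugate
open Filter Topology Pool.H62.UC

noncomputable section

variable {H : Type*} [NormedAddCommGroup H] [InnerProductSpace ℂ H] [CompleteSpace H]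
variable {K : Type*} [NormedAddCommGroup K] [InnerProductSpace ℂ K] [CompleteSpace K]

variable {S : Std H K} {e : H →L[ℂ] H}

/-- a bounded sequence with `⟪ξ i, ξ j⟫ → 0` for each `i` is weakly null -/
theorem diffde_weak {ξ : ℕ → H} (hb : ∀ j, ‖ξ j‖ ≤ 1)
    (h0 : ∀ i, Tendsto (fun j => ⟪ξ i, ξ j⟫_ℂ) atTop (𝓝 0)) (η : H) :
    Tendsto (fun j => ⟪η, ξ j⟫_ℂ) atTop (𝓝 0) := by
  have h1 : ∀ η ∈ Submodule.span ℂ (Set.range ξ),
      Tendsto (fun j => ⟪η, ξ j⟫_ℂ) atTop (𝓝 0) := by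
    intro η hη
    refine Submodule.span_induction (p := fun η _ => Tendsto (fun j => ⟪η, ξ j⟫_ℂ) atTop (𝓝 0))
      ?_ ?_ ?_ ?_ hη
    · rintro _ ⟨i, rfl⟩
      exact h0 i
    · simp only [inner_zero_left]
      exact tendsto_const_nhds
    · intro x y _ _ hx hy
      have h := hx.add hy
      rw [add_zero] at h
      refine h.congr fun j => ?_
      rw [inner_add_left]
    · intro c x _ hx
      have h := hx.const_mul (conj c)
      rw [mul_zero] at h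
      refine h.congr fun j => ?_
      rw [inner_smul_left]
  obtain ⟨W, hW⟩ : ∃ W : Submodule ℂ H, W = (Submodule.span ℂ (Set.range ξ)).topologicalClosure :=
    ⟨_, rfl⟩
  have hWc : IsClosed (W : Set H) := by
    rw [hW]
    exact Submodule.isClosed_topologicalClosure _
  have : CompleteSpace W := hWc.completeSpace_coe
  have h2 : ∀ η ∈ W, Tendsto (fun j => ⟪η, ξ j⟫_ℂ) atTop (𝓝 0) := by
    intro η hη
    have hη' : η ∈ closure ((Submodule.span ℂ (Set.range ξ) : Submodule ℂ H) : Set H) := by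
      rw [hW] at hη
      exact hη
    rw [Metric.tendsto_nhds]
    intro ε hε
    obtain ⟨η', hη'1, hη'2⟩ := Metric.mem_closure_iff.1 hη' (ε / 2) (by positivity)
    have h3 := Metric.tendsto_nhds.1 (h1 η' hη'1) (ε / 2) (by positivity)
    filter_upwards [h3] with j hj
    rw [dist_zero_right] at hj ⊢
    have h4 : ⟪η, ξ j⟫_ℂ = ⟪η', ξ j⟫_ℂ + ⟪η - η', ξ j⟫_ℂ := by
      rw [← inner_add_left, add_sub_cancel]
    have h5 : ‖⟪η - η', ξ j⟫_ℂ‖ ≤ ‖η - η'‖ * 1 :=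
      (norm_inner_le_norm _ _).trans (mul_le_mul_of_nonneg_left (hb j) (norm_nonneg _))
    rw [dist_eq_norm] at hη'2
    rw [h4]
    have h6 := norm_add_le ⟪η', ξ j⟫_ℂ ⟪η - η', ξ j⟫_ℂ
    linarith
  have h3 : ∀ j, ξ j ∈ W := by
    intro j
    rw [hW]
    exact Submodule.le_topologicalClosure _ (Submodule.subset_span ⟨j, rfl⟩)
  refine (h2 (W.starProjection η) (W.starProjection_apply_mem η)).congr fun j => ?_
  have h4 : ⟪η - W.starProjection η, ξ j⟫_ℂ = 0 :=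
    Submodule.inner_left_of_mem_orthogonal (h3 j) (W.sub_starProjection_mem_orthogonal η)
  rw [inner_sub_left, sub_eq_zero] at h4
  exact h4.symm

theorem no_minimalE (he : Cen S e) (v : ℕ → H →L[ℂ] H) (hv : ∀ n, v n ∈ UM S)
    (hw : ∀ ζ ω : H, Tendsto (fun n => ⟪ζ, v n ω⟫_ℂ) atTop (𝓝 ⟪ζ, e ω⟫_ℂ))
    {p : H →L[ℂ] H} (hp : p ∈ S.M) (hpp : IsStarProjection p) (hpe : p * e = 0)
    (hmin : ∀ x ∈ S.M, ∃ μ : ℂ, p * x * p = μ • p) : p = 0 := by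
  by_contra hp0
  have hδ : 0 < ‖p S.Ω‖ ^ 2 := by
    have h1 : p S.Ω ≠ 0 := fun h => hp0 (S.sep hp h)
    have h2 := norm_pos_iff.2 h1
    positivity
  have hep : e * p = 0 := by rw [he.central p hp, hpe]
  have hsv : ∀ n, star (v n) * v n = 1 := fun n => (Unitary.mem_iff.1 (hv n).2).1
  choose c hc using fun i j : ℕ => hmin (star (v i) * v j) (mul_mem (star_mem (hv i).1) (hv j).1)
  have hpΩ : p (p S.Ω) = p S.Ω := diffD_idem hpp S.Ω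
  have hcδ : ∀ i j, ⟪v i (p S.Ω), v j (p S.Ω)⟫_ℂ = c i j * ((‖p S.Ω‖ ^ 2 : ℝ) : ℂ) := by
    intro i j
    have h1 : (p * (star (v i) * v j) * p) S.Ω = c i j • p S.Ω := by
      rw [hc i j]
      rfl
    have h2 : (p * (star (v i) * v j) * p) S.Ω = p ((star (v i)) (v j (p S.Ω))) := rfl
    rw [h2] at h1
    have h3 : ⟪v i (p S.Ω), v j (p S.Ω)⟫_ℂ = ⟪p S.Ω, p ((star (v i)) (v j (p S.Ω)))⟫_ℂ := by
      rw [diffD_sa hpp.isSelfAdjoint, hpΩ, Std.basB_adj]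
    rw [h3, h1, inner_smul_right, inner_self_eq_norm_sq_to_K]
    norm_cast
  have hclim : ∀ i, Tendsto (fun j => c i j) atTop (𝓝 0) := by
    intro i
    have h1 := hw (v i (p S.Ω)) (p S.Ω)
    have h2 : e (p S.Ω) = 0 := congrArg (fun A : H →L[ℂ] H => A S.Ω) hep
    rw [h2, inner_zero_right] at h1
    have h3 := h1.mul_const (((‖p S.Ω‖ ^ 2 : ℝ) : ℂ))⁻¹
    rw [zero_mul] at h3
    refine h3.congr fun j => ?_
    have h4 : (((‖p S.Ω‖ ^ 2 : ℝ)) : ℂ) ≠ 0 := by exact_mod_cast hδ.ne'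
    rw [hcδ, mul_assoc, mul_inv_cancel₀ h4, mul_one]
  have hpn : ‖p‖ ≤ 1 := hpp.norm_le
  have hvn : ∀ n, ‖v n‖ ≤ 1 := fun n => UM_norm S (hv n)
  have hvn' : ∀ n, ‖star (v n)‖ ≤ 1 := fun n => UM_norm S (UM_star S (hv n))
  have hb3 : ∀ i j, ‖(v i * p * star (v j)) S.Ω‖ ≤ 1 := by
    intro i j
    have h1 : (v i * p * star (v j)) S.Ω = v i (p ((star (v j)) S.Ω)) := rfl
    rw [h1]
    have h2 := (v i).le_opNorm (p ((star (v j)) S.Ω))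
    have h3 := p.le_opNorm ((star (v j)) S.Ω)
    have h4 := (star (v j)).le_opNorm S.Ω
    rw [S.tv.norm_one, mul_one] at h4
    have h5 := norm_nonneg ((star (v j)) S.Ω)
    have h6 := norm_nonneg (p ((star (v j)) S.Ω))
    have h7 := mul_le_mul_of_nonneg_right (hvn i) h6
    have h8 := mul_le_mul_of_nonneg_right hpn h5
    have h9 := hvn' j
    linarith
  have hself : ∀ i, star (v i * p * star (v i)) = v i * p * star (v i) := by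
    intro i
    rw [star_mul, star_star, star_mul, hpp.isSelfAdjoint.star_eq, mul_assoc]
  have hin : ∀ i j, ⟪(v i * p * star (v i)) S.Ω, (v j * p * star (v j)) S.Ω⟫_ℂ =
      c i j * ⟪S.Ω, (v i * p * star (v j)) S.Ω⟫_ℂ := by
    intro i j
    have h1 : v i * p * star (v i) * (v j * p * star (v j)) =
        v i * (p * (star (v i) * v j) * p) * star (v j) := by
      simp only [mul_assoc]
    have h2 : ⟪(v i * p * star (v i)) S.Ω, (v j * p * star (v j)) S.Ω⟫_ℂ =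
        ⟪S.Ω, (v i * p * star (v i) * (v j * p * star (v j))) S.Ω⟫_ℂ := by
      have h3 := Std.basB_adj (v i * p * star (v i)) S.Ω ((v j * p * star (v j)) S.Ω)
      rw [hself i] at h3
      exact h3.symm
    rw [h2, h1, hc i j, mul_smul_comm, smul_mul_assoc, smul_apply, inner_smul_right]
  have h0 : ∀ i, Tendsto (fun j => ⟪(v i * p * star (v i)) S.Ω, (v j * p * star (v j)) S.Ω⟫_ℂ)
      atTop (𝓝 0) := by
    intro i
    have h1 := (hclim i).norm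
    rw [norm_zero] at h1
    refine squeeze_zero_norm (fun j => ?_) h1
    rw [hin i j, norm_mul]
    have h2 : ‖⟪S.Ω, (v i * p * star (v j)) S.Ω⟫_ℂ‖ ≤ 1 := by
      refine (norm_inner_le_norm _ _).trans ?_
      rw [S.tv.norm_one, one_mul]
      exact hb3 i j
    calc ‖c i j‖ * ‖⟪S.Ω, (v i * p * star (v j)) S.Ω⟫_ℂ‖ ≤ ‖c i j‖ * 1 :=
          mul_le_mul_of_nonneg_left h2 (norm_nonneg _)
      _ = ‖c i j‖ := mul_one _
  have h1 := diffde_weak (ξ := fun j => (v j * p * star (v j)) S.Ω) (fun j => hb3 j j) h0 S.Ω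
  have h2 : ∀ j, ⟪S.Ω, (v j * p * star (v j)) S.Ω⟫_ℂ = ((‖p S.Ω‖ ^ 2 : ℝ) : ℂ) := by
    intro j
    rw [mul_assoc]
    have h3 := S.tv.trace (v j) (hv j).1 (p * star (v j)) (mul_mem hp (star_mem (hv j).1))
    rw [h3, mul_assoc, hsv j, mul_one]
    exact diffD_tr hpp S.Ω
  have h3 : Tendsto (fun j : ℕ => ((‖p S.Ω‖ ^ 2 : ℝ) : ℂ)) atTop (𝓝 0) := h1.congr h2
  have h4 := tendsto_nhds_unique h3 tendsto_const_nhds
  have h5 : ‖p S.Ω‖ ^ 2 = 0 := by exact_mod_cast h4.symm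
  exact hδ.ne' h5

theorem diffde_closed {r : ℝ} (hr : 0 < r) :
    IsClosed {q : (H →L[ℂ] H) × K | ∃ (l : ℝ) (Q : H →L[ℂ] H), IsEs S q.1 l Q ∧ Q * e = 0 ∧
      r ≤ (⟪S.Ω, Q S.Ω⟫_ℂ).re} := by
  apply IsSeqClosed.isClosed
  intro x q hx hlim
  have hx' : ∀ n, ∃ (l : ℝ) (Q : H →L[ℂ] H), IsEs S (x n).1 l Q ∧ Q * e = 0 ∧
      r ≤ (⟪S.Ω, Q S.Ω⟫_ℂ).re := hx
  choose l Q hQ hQe hr' using hx'
  obtain ⟨U, -, l₀, Q₀, h1, -, hw, h2⟩ := es_limit (S := S) ((continuous_fst.tendsto q).comp hlim)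
    (fun n => hQ n) (tendsto_const_nhds (x := r)) hr hr'
  refine ⟨l₀, Q₀, h1, ?_, h2⟩
  ext ω
  refine ext_inner_left ℂ fun ζ => ?_
  have h3 := hw ζ (e ω)
  have h4 : ∀ n, ⟪ζ, Q n (e ω)⟫_ℂ = 0 := by
    intro n
    have h5 : Q n (e ω) = 0 := congrArg (fun A : H →L[ℂ] H => A ω) (hQe n)
    rw [h5, inner_zero_right]
  have h5 : Tendsto (fun n : ℕ => (0 : ℂ)) (U : Filter ℕ) (𝓝 ⟪ζ, Q₀ (e ω)⟫_ℂ) := h3.congr h4
  have h6 := tendsto_nhds_unique h5 tendsto_const_nhds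
  show ⟪ζ, Q₀ (e ω)⟫_ℂ = ⟪ζ, (0 : H →L[ℂ] H) ω⟫_ℂ
  rw [h6, zero_apply, inner_zero_right]

theorem diffde_ev (he : Cen S e) {p : H →L[ℂ] H} (hp : p ∈ S.M) (hpe : p * e = 0) (ξ : H) :
    e (p ξ) = 0 := by
  have h1 : e * p = 0 := by rw [he.central p hp, hpe]
  exact congrArg (fun A : H →L[ℂ] H => A ξ) h1

theorem diffde_eigproj (he : Cen S e) {a : H →L[ℂ] H} (haM : a ∈ S.M) (l : ℝ) :
    ∃ p ∈ S.M, IsStarProjection p ∧ a * p = (l : ℂ) • p ∧ p * e = 0 ∧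
      ∀ ξ : H, e ξ = 0 → a ξ = (l : ℂ) • ξ → p ξ = ξ := by
  obtain ⟨p₀, hp₀M, hp₀, hp₀e, hp₀u⟩ := exists_eigproj haM l
  have h1e : (1 - e) ∈ S.M := sub_mem S.one_mem he.mem
  have hcomm : Commute p₀ (1 - e) := by
    show p₀ * (1 - e) = (1 - e) * p₀
    rw [mul_sub, sub_mul, mul_one, one_mul, he.central p₀ hp₀M]
  refine ⟨p₀ * (1 - e), mul_mem hp₀M h1e, hp₀.mul he.proj.one_sub hcomm, ?_, ?_, ?_⟩
  · rw [← mul_assoc, hp₀e, smul_mul_assoc]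
  · rw [mul_assoc, he.proj.one_sub_mul_self, mul_zero]
  · intro ξ h1 h2
    show p₀ ((1 - e) ξ) = ξ
    rw [sub_apply, one_apply_eq_self, h1, sub_zero]
    exact hp₀u ξ h2

theorem diffde_uniq (he : Cen S e) {a p p' : H →L[ℂ] H} {l : ℝ} (hpM : p ∈ S.M) (hp'M : p' ∈ S.M)
    (hp : IsStarProjection p) (hp' : IsStarProjection p') (hpe : p * e = 0) (hpe' : p' * e = 0)
    (hl : a * p = (l : ℂ) • p) (hl' : a * p' = (l : ℂ) • p')
    (hu : ∀ ξ : H, e ξ = 0 → a ξ = (l : ℂ) • ξ → p ξ = ξ)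
    (hu' : ∀ ξ : H, e ξ = 0 → a ξ = (l : ℂ) • ξ → p' ξ = ξ) : p = p' := by
  have h1 : p * p' = p' := by
    ext ξ
    exact hu _ (diffde_ev he hp'M hpe' ξ) (congrArg (fun A : H →L[ℂ] H => A ξ) hl')
  have h2 : p' * p = p := by
    ext ξ
    exact hu' _ (diffde_ev he hpM hpe ξ) (congrArg (fun A : H →L[ℂ] H => A ξ) hl)
  have h3 := congrArg star h1
  rw [star_mul, hp.isSelfAdjoint.star_eq, hp'.isSelfAdjoint.star_eq, h2] at h3
  exact h3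

theorem diffde_all (D : StarSubalgebra ℂ (H →L[ℂ] H))
    (hD : ∀ x ∈ D, x ∈ S.M) (hdense : Dense {ξ : H | ∃ x ∈ D, x S.Ω = ξ})
    {p : H →L[ℂ] H} (hpM : p ∈ S.M) (hpp : IsStarProjection p)
    (h : ∀ c ∈ D, IsSelfAdjoint c → ∃ μ : ℂ, p * c * p = μ • p) :
    ∀ x ∈ S.M, ∃ μ : ℂ, p * x * p = μ • p := by
  have hpn : ‖p‖ ≤ 1 := hpp.norm_le
  have h1 : ∀ c ∈ D, ∃ μ : ℂ, p * c * p = μ • p := by
    intro c hc
    obtain ⟨μ, hμ⟩ := h (c + star c) (add_mem hc (star_mem hc)) (by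
      rw [isSelfAdjoint_iff, star_add, star_star, add_comm])
    obtain ⟨ν, hν⟩ := h (Complex.I • (c - star c)) (D.smul_mem (sub_mem hc (star_mem hc)) _) (by
      rw [isSelfAdjoint_iff, star_smul, star_sub, star_star, Complex.star_def, Complex.conj_I,
        neg_smul, ← smul_neg, neg_sub])
    have e1 : c = (1 / 2 : ℂ) • (c + star c) + (-(Complex.I / 2)) • (Complex.I • (c - star c)) := by
      rw [smul_smul]
      have e1 : -(Complex.I / 2) * Complex.I = 1 / 2 := by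
        have := Complex.I_mul_I
        linear_combination (-1 / 2 : ℂ) * this
      rw [e1, ← smul_add, add_add_sub_cancel, ← two_smul ℂ c, smul_smul]
      norm_num
    refine ⟨1 / 2 * μ + -(Complex.I / 2) * ν, ?_⟩
    rw [e1, mul_add, add_mul, mul_smul_comm, smul_mul_assoc, hμ, mul_smul_comm (-(Complex.I / 2)),
      smul_mul_assoc, hν, add_smul, smul_smul, smul_smul]
  intro x hx
  have hcl : IsClosed ((Submodule.span ℂ {p S.Ω} : Submodule ℂ H) : Set H) :=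
    Submodule.closed_of_finiteDimensional _
  have hmem : (p * x * p) S.Ω ∈ (Submodule.span ℂ {p S.Ω} : Submodule ℂ H) := by
    rw [← SetLike.mem_coe, ← hcl.closure_eq, Metric.mem_closure_iff]
    intro ε hε
    obtain ⟨ξ, ⟨c, hc, rfl⟩, hd⟩ := Metric.mem_closure_iff.1 (hdense (x S.Ω)) ε hε
    obtain ⟨μ, hμ⟩ := h1 c hc
    refine ⟨(p * c * p) S.Ω, ?_, ?_⟩
    · rw [hμ]
      exact Submodule.smul_mem _ _ (Submodule.mem_span_singleton_self _)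
    · rw [dist_eq_norm] at hd ⊢
      have e1 : (p * x * p) S.Ω - (p * c * p) S.Ω = p (((x - c) * p) S.Ω) := by
        rw [sub_mul, sub_apply, map_sub]
        rfl
      have e2 : x S.Ω - c S.Ω = (x - c) S.Ω := rfl
      rw [e1]
      rw [e2] at hd
      have h3 := p.le_opNorm (((x - c) * p) S.Ω)
      have h4 := S.norm_mul_right (sub_mem hx (hD c hc)) hpM
      have h5 := norm_nonneg ((x - c) S.Ω)
      have h6 := norm_nonneg (((x - c) * p) S.Ω)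
      have h7 := norm_nonneg p
      nlinarith [mul_le_mul_of_nonneg_right hpn h6, mul_le_mul_of_nonneg_left hpn h5]
  obtain ⟨μ, hμ⟩ := Submodule.mem_span_singleton.1 hmem
  refine ⟨μ, ?_⟩
  have h3 : p * x * p - μ • p ∈ S.M := sub_mem (mul_mem (mul_mem hpM hx) hpM) (S.smul_mem μ hpM)
  refine sub_eq_zero.1 (S.sep h3 ?_)
  rw [sub_apply, smul_apply, hμ, sub_self]

theorem exists_noeigE (he : Cen S e) (v : ℕ → H →L[ℂ] H) (hv : ∀ n, v n ∈ UM S)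
    (hw : ∀ ζ ω : H, Tendsto (fun n => ⟪ζ, v n ω⟫_ℂ) atTop (𝓝 ⟪ζ, e ω⟫_ℂ))
    (D : StarSubalgebra ℂ (H →L[ℂ] H)) (hD : ∀ x ∈ D, x ∈ S.M)
    (hdense : Dense {ξ : H | ∃ x ∈ D, x S.Ω = ξ}) (d : D →ₗ[ℂ] K) :
    ∃ q ∈ Xd D d, NoEigE e q.1 := by
  have hne : (Xd D d).Nonempty := by
    refine ⟨(((0 : D) : H →L[ℂ] H), d 0), subset_closure ⟨0, ?_, rfl⟩⟩
    exact IsSelfAdjoint.zero (H →L[ℂ] H)
  have hnn : Nonempty {r : ℚ // 0 < r} := ⟨⟨1, one_pos⟩⟩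
  obtain ⟨en, hen⟩ := exists_surjective_nat {r : ℚ // 0 < r}
  obtain ⟨q₀, hq₀, hb⟩ := baire_pt (Xd D d) isClosed_closure hne
    (fun n => {q | ∃ (l : ℝ) (Q : H →L[ℂ] H), IsEs S q.1 l Q ∧ Q * e = 0 ∧
      (((en n : ℚ) : ℝ)) ≤ (⟪S.Ω, Q S.Ω⟫_ℂ).re})
    (fun n => diffde_closed (by exact_mod_cast (en n).2))
  refine ⟨q₀, hq₀, ?_⟩
  intro z ξ₀ hξ₀
  by_contra hξe
  obtain ⟨hqM, hsa⟩ := Xd_mem hD hq₀
  obtain ⟨ξ, hξdef⟩ : ∃ ξ : H, ξ = ξ₀ - e ξ₀ := ⟨_, rfl⟩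
  have hξ0 : ξ ≠ 0 := by
    rw [hξdef]
    intro h
    exact hξe (sub_eq_zero.1 h).symm
  have hξ : q₀.1 ξ = z • ξ := by
    have h1 : q₀.1 (e ξ₀) = e (q₀.1 ξ₀) :=
      (congrArg (fun A : H →L[ℂ] H => A ξ₀) (he.central q₀.1 hqM)).symm
    rw [hξdef, map_sub, h1, hξ₀, map_smul, smul_sub]
  have heξ : e ξ = 0 := by
    rw [hξdef, map_sub, diffD_idem he.proj, sub_self]
  have hz : ((z.re : ℝ) : ℂ) = z := by
    have h1 := diffD_sa hsa ξ ξ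
    rw [hξ, inner_smul_right, inner_smul_left] at h1
    have h2 : ⟪ξ, ξ⟫_ℂ ≠ 0 := by
      rw [Ne, inner_self_eq_zero]
      exact hξ0
    have h3 := mul_right_cancel₀ h2 h1
    exact Complex.conj_eq_iff_re.1 h3.symm
  obtain ⟨p₀, hp₀M, hp₀, hp₀l, hp₀e, hp₀u⟩ := diffde_eigproj he hqM z.re
  have hp₀0 : p₀ ≠ 0 := by
    intro h
    have h1 := hp₀u ξ heξ (by rw [hz]; exact hξ)
    rw [h] at h1
    exact hξ0 h1.symm
  obtain ⟨T, hT⟩ : ∃ T : Set ℝ, T = {r | ∃ (l : ℝ) (Q : H →L[ℂ] H), IsEs S q₀.1 l Q ∧ Q * e = 0 ∧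
    r = (⟪S.Ω, Q S.Ω⟫_ℂ).re} := ⟨_, rfl⟩
  have hTb : BddAbove T := by
    refine ⟨1, ?_⟩
    intro r hr
    rw [hT] at hr
    obtain ⟨l, Q, hQ, -, rfl⟩ := hr
    exact diffD_le_one hQ
  have hT0 : ‖p₀ S.Ω‖ ^ 2 ∈ T := by
    rw [hT]
    refine ⟨z.re, p₀, es_proj hp₀M hp₀ hp₀l, hp₀e, ?_⟩
    rw [diffD_tr hp₀, Complex.ofReal_re]
  have hpos : 0 < ‖p₀ S.Ω‖ ^ 2 := by
    have h1 : p₀ S.Ω ≠ 0 := fun h => hp₀0 (S.sep hp₀M h)
    have h2 := norm_pos_iff.2 h1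
    positivity
  obtain ⟨δ, hδdef⟩ : ∃ δ : ℝ, δ = sSup T := ⟨_, rfl⟩
  have hδ : 0 < δ := by
    rw [hδdef]
    exact hpos.trans_le (le_csSup hTb hT0)
  have hmax : ∀ (l : ℝ) (Q : H →L[ℂ] H), IsEs S q₀.1 l Q → Q * e = 0 →
      (⟪S.Ω, Q S.Ω⟫_ℂ).re ≤ δ := by
    intro l Q hQ hQe
    rw [hδdef]
    apply le_csSup hTb
    rw [hT]
    exact ⟨l, Q, hQ, hQe, rfl⟩
  have hseq : ∀ c : D, IsSelfAdjoint (c : H →L[ℂ] H) → ∀ r : ℝ, r < δ → ∃ ε : ℝ, 0 < ε ∧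
      ∀ t : ℝ, 0 < t → t < ε → ∃ (l : ℝ) (Q : H →L[ℂ] H),
        IsEs S (q₀.1 + (t : ℂ) • (c : H →L[ℂ] H)) l Q ∧ Q * e = 0 ∧
          r ≤ (⟪S.Ω, Q S.Ω⟫_ℂ).re := by
    intro c hc r hr
    have hm : max r 0 < sSup T := by
      rw [← hδdef]
      exact max_lt hr hδ
    obtain ⟨r₂, hr₂T, hr₂⟩ := exists_lt_of_lt_csSup ⟨_, hT0⟩ hm
    obtain ⟨s, hs1, hs2⟩ := exists_rat_btwn hr₂
    have hs0 : (0 : ℝ) < s := (le_max_right r 0).trans_lt hs1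
    obtain ⟨n, hn⟩ := hen ⟨s, by exact_mod_cast hs0⟩
    have hn' : ((en n : ℚ) : ℝ) = s := by rw [hn]
    rw [hT] at hr₂T
    obtain ⟨l, Q, hQ, hQe, hrQ⟩ := hr₂T
    obtain ⟨ε, hε, hb'⟩ := hb n ⟨l, Q, hQ, hQe, by rw [hn', ← hrQ]; exact hs2.le⟩
    obtain ⟨w, hw⟩ : ∃ w : (H →L[ℂ] H) × K, w = ((c : H →L[ℂ] H), d c) := ⟨_, rfl⟩
    have hw1 : 0 < ‖w‖ + 1 := by
      have := norm_nonneg w
      linarith
    refine ⟨ε / (‖w‖ + 1), div_pos hε hw1, fun t ht ht' => ?_⟩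
    have hXt : q₀ + (t : ℂ) • w ∈ Xd D d := by
      rw [hw]
      exact diffD_add hq₀ c hc t
    obtain ⟨l', Q', hQ', hQe', hr'⟩ := hb' (q₀ + (t : ℂ) • w) hXt (by
      rw [dist_eq_norm, add_sub_cancel_left, norm_smul, Complex.norm_real,
        Real.norm_of_nonneg ht.le]
      have h1 : t * (‖w‖ + 1) < ε := (lt_div_iff₀ hw1).1 ht'
      nlinarith)
    refine ⟨l', Q', ?_, hQe', ?_⟩
    · rw [hw] at hQ'
      exact hQ'
    · rw [hn'] at hr'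
      exact (le_max_left r 0).trans (hs1.le.trans hr')
  have hfinite := diffD_fin (S := S) hsa hδ
  obtain ⟨Λ, hΛ⟩ : ∃ Λ : Set ℝ, Λ = {l : ℝ | ∃ p : H →L[ℂ] H, p ∈ S.M ∧ IsStarProjection p ∧
    q₀.1 * p = (l : ℂ) • p ∧ p * e = 0 ∧ ‖p S.Ω‖ ^ 2 = δ} := ⟨_, rfl⟩
  have hΛfin : Λ.Finite := by
    refine hfinite.subset ?_
    intro l hl
    rw [hΛ] at hl
    obtain ⟨p, -, h2, h3, -, h5⟩ := hl
    exact ⟨p, h2, h3, h5⟩
  have hfin : Finite Λ := hΛfin.to_subtype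
  have hep : ∀ l : ℝ, ∃ p : H →L[ℂ] H, p ∈ S.M ∧ IsStarProjection p ∧
      q₀.1 * p = (l : ℂ) • p ∧ p * e = 0 ∧
      ∀ ξ : H, e ξ = 0 → q₀.1 ξ = (l : ℂ) • ξ → p ξ = ξ := fun l => by
    obtain ⟨p, h1, h2, h3, h4, h5⟩ := diffde_eigproj he hqM l
    exact ⟨p, h1, h2, h3, h4, h5⟩
  choose P hPM hPP hPl hPe hPu using hep
  let W : Submodule ℝ (H →L[ℂ] H) :=
    { carrier := {c | c ∈ D ∧ IsSelfAdjoint c}
      add_mem' := fun ha hb => ⟨add_mem ha.1 hb.1, ha.2.add hb.2⟩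
      zero_mem' := ⟨zero_mem D, IsSelfAdjoint.zero _⟩
      smul_mem' := fun t x hx => by
        have h1 : t • x = (t : ℂ) • x := (Complex.coe_smul t x).symm
        refine ⟨?_, ?_⟩
        · rw [h1]
          exact D.smul_mem hx.1 _
        · rw [h1]
          apply IsSelfAdjoint.smul _ hx.2
          rw [isSelfAdjoint_iff, Complex.star_def, Complex.conj_ofReal] }
  let V : Λ → Submodule ℝ W := fun l =>
    { carrier := {c | ∃ μ : ℂ, P l * (c : H →L[ℂ] H) * P l = μ • P l}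
      add_mem' := by
        rintro a b ⟨μ, hμ⟩ ⟨ν, hν⟩
        refine ⟨μ + ν, ?_⟩
        rw [Submodule.coe_add, mul_add, add_mul, hμ, hν, add_smul]
      zero_mem' := ⟨0, by rw [Submodule.coe_zero, mul_zero, zero_mul, zero_smul]⟩
      smul_mem' := by
        rintro t x ⟨μ, hμ⟩
        refine ⟨(t : ℂ) * μ, ?_⟩
        have h1 : ((t • x : W) : H →L[ℂ] H) = (t : ℂ) • (x : H →L[ℂ] H) := by
          rw [Submodule.coe_smul]
          exact (Complex.coe_smul t (x : H →L[ℂ] H)).symm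
        rw [h1, mul_smul_comm, smul_mul_assoc, hμ, smul_smul] }
  have hcov : ⋃ l, (V l : Set W) = Set.univ := by
    rw [Set.eq_univ_iff_forall]
    rintro ⟨c, hcD, hcs⟩
    obtain ⟨l, p, hpM, hpp, hpl, hpe, hpu, hpδ, μ, hμ⟩ := perturbE he hqM hsa (hD c hcD) hδ hmax
      (hseq ⟨c, hcD⟩ hcs)
    have hl : l ∈ Λ := by
      rw [hΛ]
      exact ⟨p, hpM, hpp, hpl, hpe, hpδ⟩
    have hPp : P l = p := diffde_uniq he (hPM l) hpM (hPP l) hpp (hPe l) hpe (hPl l) hpl (hPu l) hpu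
    refine Set.mem_iUnion.2 ⟨⟨l, hl⟩, μ, ?_⟩
    change P l * c * P l = μ • P l
    rw [hPp, hμ]
  obtain ⟨⟨l, hl⟩, hV⟩ := Subspace.exists_eq_top_of_iUnion_eq_univ hcov
  have hP0 : P l ≠ 0 := by
    rw [hΛ] at hl
    obtain ⟨p, hpM, hpp, hpl, hpe, hpδ⟩ := hl
    intro h
    have h1 : p = 0 := by
      ext ξ
      have h2 := hPu l (p ξ) (diffde_ev he hpM hpe ξ) (congrArg (fun A : H →L[ℂ] H => A ξ) hpl)
      rw [h] at h2
      exact h2.symm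
    rw [h1, zero_apply, norm_zero] at hpδ
    norm_num at hpδ
    exact hδ.ne hpδ
  refine hP0 (no_minimalE he v hv hw (hPM l) (hPP l) (hPe l) ?_)
  refine diffde_all D hD hdense (hPM l) (hPP l) (fun c hcD hcs => ?_)
  have h1 : (⟨c, hcD, hcs⟩ : W) ∈ V ⟨l, hl⟩ := by
    rw [hV]
    exact Submodule.mem_top
  exact h1

end

end Pool.H62.MC
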