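import Pool.Agent.H62.MC.BvA
import Pool.Agent.H62.UC.ExpD

/-!
# EXP: exponentials

PROOF. `exp_zero`: `exp_mem` (UC/ExpD) gives `(uexp s x, δ) ∈ Gr` with `‖δ‖ ≤ |s| * 0`.
`star_uexp`: `uexp_add`, `uexp_zero`, `uexp_unitary`: `star u` is the inverse of `u`.
`exp_bv`: let `ξ = C w0`, `C ∈ N'`.  Define `X 0 = 0`, `X (k+1) = X k * T.L (ρ x) + C * T.R (x^k)`, in
`N'` (`TL_mem`, `TR_mem`), with `(x^k, X k w0) ∈ Gr`: Leibniz for `x * x^k`:
`l x (X k w0) = X k (l x w0) = X k (tp (x Ω) Ω) = X k (T.L (ρ x) w0)`,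
`r (x^k) (C w0) = C (r (x^k) w0) = C (T.R (x^k) w0)`.  `‖X k‖ ≤ k ‖C‖ ‖x‖^(k-1)`, so
`Y = ∑ (I s)^k/k! X k` converges in operator norm and is in `N'` (closed); the partial sums
`(∑_{k<N} (I s)^k/k! x^k, (∑_{k<N} (I s)^k/k! X k) w0)` are in `Gr`, the first converge in norm to
`uexp s x` (`uexp_series`, bounded by `uexp_series_norm`); `BClosed.ext_mem`.
`der_zero`: `((I s)⁻¹ (uexp s x - 1), 0) ∈ Gr` for `s > 0`, `uexp_deriv` gives norm convergence to `x`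
along `s = 1/(n+1)`; `BClosed.ext_mem`.
-/

namespace Pool.H62.MC

open scoped InnerProductSpace TensorProduct ComplexConjugate
open Filter Topology Pool.H62.UC

noncomputable section

variable {H : Type*} [NormedAddCommGroup H] [InnerProductSpace ℂ H] [CompleteSpace H]
variable {K : Type*} [NormedAddCommGroup K] [InnerProductSpace ℂ K] [CompleteSpace K]

variable {S : Std H K} {Gr : Submodule ℂ ((H →L[ℂ] H) × K)}

/-- the operators `X k` -/
def exp_X (S : Std H K) (x : H →L[ℂ] H) (C : K →L[ℂ] K) : ℕ → (K →L[ℂ] K)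
  | 0 => 0
  | k + 1 => exp_X S x C k * S.T.L (S.ρ x) + C * S.T.R (x ^ k)

theorem exp_X_mem {x : H →L[ℂ] H} (hx : x ∈ S.M) {C : K →L[ℂ] K} (hC : C ∈ (NK S).commutant)
    (k : ℕ) : exp_X S x C k ∈ (NK S).commutant := by
  induction k with
  | zero => exact zero_mem _
  | succ k ih =>
    exact add_mem (mul_mem ih (TL_mem hx)) (mul_mem hC (TR_mem (pow_mem hx k)))

theorem exp_X_pow (hG : BClosed S Gr) (h1 : ((1 : H →L[ℂ] H), (0 : K)) ∈ Gr) {x : H →L[ℂ] H}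
    {C : K →L[ℂ] K} (hC : C ∈ (NK S).commutant) (hx : (x, C (w0 S)) ∈ Gr) (k : ℕ) :
    (x ^ k, exp_X S x C k (w0 S)) ∈ Gr := by
  have hxM : x ∈ S.M := hG.mem _ hx
  induction k with
  | zero =>
    rw [pow_zero]
    exact h1
  | succ k ih =>
    have h2 := hG.leib _ hx _ ih
    have h3 : S.l x (exp_X S x C k (w0 S)) = (exp_X S x C k * S.T.L (S.ρ x)) (w0 S) := by
      rw [← cc_l (exp_X_mem hxM hC k) hxM, l_w0]
      change _ = exp_X S x C k (S.T.L (S.ρ x) (S.T.tp S.Ω S.Ω))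
      rw [S.T.L_tp, S.ρ_Ω hxM]
    have h4 : S.r (x ^ k) (C (w0 S)) = (C * S.T.R (x ^ k)) (w0 S) := by
      rw [← cc_r hC (pow_mem hxM k), r_w0 (pow_mem hxM k)]
      change _ = C (S.T.R (x ^ k) (S.T.tp S.Ω S.Ω))
      rw [S.T.R_tp]
    have h5 : exp_X S x C (k + 1) (w0 S) =
        S.l x (exp_X S x C k (w0 S)) + S.r (x ^ k) (C (w0 S)) := by
      rw [h3, h4]
      rfl
    rw [h5, pow_succ']
    exact h2

theorem exp_pow_norm (x : H →L[ℂ] H) (k : ℕ) : ‖x ^ k‖ ≤ (1 + ‖x‖) ^ k := by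
  induction k with
  | zero =>
    rw [pow_zero, pow_zero]
    exact ContinuousLinearMap.norm_id_le
  | succ k ih =>
    rw [pow_succ, pow_succ]
    refine (norm_mul_le _ _).trans ?_
    refine mul_le_mul ih ?_ (norm_nonneg _) (by positivity)
    linarith

theorem exp_X_norm (x : H →L[ℂ] H) (C : K →L[ℂ] K) (k : ℕ) :
    ‖exp_X S x C k‖ ≤ ‖C‖ * (1 + ‖x‖ + ‖S.T.L (S.ρ x)‖) ^ k := by
  induction k with
  | zero =>
    have : exp_X S x C 0 = 0 := rfl
    rw [this, norm_zero]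
    positivity
  | succ k ih =>
    have h0 : exp_X S x C (k + 1) = exp_X S x C k * S.T.L (S.ρ x) + C * S.T.R (x ^ k) := rfl
    rw [h0]
    set M := 1 + ‖x‖ + ‖S.T.L (S.ρ x)‖ with hM
    have hx0 := norm_nonneg x
    have hL0 := norm_nonneg (S.T.L (S.ρ x))
    have hR : ‖S.T.R (x ^ k)‖ ≤ M ^ k := by
      refine (NonUnitalStarAlgHom.norm_apply_le S.T.R (x ^ k)).trans ?_
      refine (exp_pow_norm x k).trans ?_
      exact pow_le_pow_left₀ (by positivity) (by linarith) k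
    have h1 : ‖exp_X S x C k * S.T.L (S.ρ x)‖ ≤ ‖C‖ * M ^ k * ‖S.T.L (S.ρ x)‖ :=
      (norm_mul_le _ _).trans (mul_le_mul_of_nonneg_right ih hL0)
    have h2 : ‖C * S.T.R (x ^ k)‖ ≤ ‖C‖ * M ^ k :=
      (norm_mul_le _ _).trans (mul_le_mul_of_nonneg_left hR (norm_nonneg _))
    refine (norm_add_le _ _).trans ((add_le_add h1 h2).trans ?_)
    have h3 : ‖C‖ * M ^ k * ‖S.T.L (S.ρ x)‖ + ‖C‖ * M ^ k = ‖C‖ * M ^ k * (1 + ‖S.T.L (S.ρ x)‖) := by
      ring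
    rw [h3, pow_succ, ← mul_assoc]
    refine mul_le_mul_of_nonneg_left (by linarith) (by positivity)

theorem exp_zero (hG : BClosed S Gr) (h1 : ((1 : H →L[ℂ] H), (0 : K)) ∈ Gr) {x : H →L[ℂ] H}
    (hx : (x, (0 : K)) ∈ Gr) (hsa : IsSelfAdjoint x) (s : ℝ) : (uexp s x, (0 : K)) ∈ Gr := by
  obtain ⟨δ, hδ, hn⟩ := exp_mem hG h1 x 0 hx hsa s
  rw [norm_zero, mul_zero] at hn
  have h2 : δ = 0 := norm_le_zero_iff.1 hn
  rw [h2] at hδ
  exact hδ

theorem star_uexp {x : H →L[ℂ] H} (hsa : IsSelfAdjoint x) (s : ℝ) :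
    star (uexp s x) = uexp (-s) x := by
  have hu := uexp_unitary s x hsa
  have h1 : uexp s x * uexp (-s) x = 1 := by
    rw [← uexp_add, add_neg_cancel, uexp_zero]
  have h2 : star (uexp s x) * uexp s x = 1 := (Unitary.mem_iff.1 hu).1
  calc star (uexp s x) = star (uexp s x) * (uexp s x * uexp (-s) x) := by rw [h1, mul_one]
    _ = (star (uexp s x) * uexp s x) * uexp (-s) x := by rw [mul_assoc]
    _ = uexp (-s) x := by rw [h2, one_mul]

theorem exp_bv (hG : BClosed S Gr) (h1 : ((1 : H →L[ℂ] H), (0 : K)) ∈ Gr) {x : H →L[ℂ] H} {ξ : K}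
    (hx : (x, ξ) ∈ Gr) (hξ : Bv S ξ) (s : ℝ) : ∃ δ : K, (uexp s x, δ) ∈ Gr ∧ Bv S δ := by
  obtain ⟨C, hC, rfl⟩ := hξ
  have hxM : x ∈ S.M := hG.mem _ hx
  set c : ℕ → ℂ := fun k => (Complex.I * (s : ℂ)) ^ k / (k.factorial : ℂ) with hc
  have hcn : ∀ k, ‖c k‖ = |s| ^ k / (k.factorial : ℝ) := by
    intro k
    rw [hc]
    simp only [norm_div, norm_pow, norm_mul, Complex.norm_I, one_mul, Complex.norm_real,
      Real.norm_eq_abs, Complex.norm_natCast]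
  set M := 1 + ‖x‖ + ‖S.T.L (S.ρ x)‖ with hM
  have hsum : Summable (fun k => c k • exp_X S x C k) := by
    have hg : Summable (fun k : ℕ => ‖C‖ * ((|s| * M) ^ k / (k.factorial : ℝ))) :=
      (Real.summable_pow_div_factorial (|s| * M)).mul_left _
    refine Summable.of_norm_bounded hg fun k => ?_
    rw [norm_smul, hcn]
    refine (mul_le_mul_of_nonneg_left (exp_X_norm x C k) (by positivity)).trans (le_of_eq ?_)
    rw [mul_pow]
    ring
  set Y : K →L[ℂ] K := ∑' k, c k • exp_X S x C k with hY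
  have hlimY : Tendsto (fun N => ∑ k ∈ Finset.range N, c k • exp_X S x C k) atTop (𝓝 Y) :=
    hsum.hasSum.tendsto_sum_nat
  have hYm : Y ∈ (NK S).commutant := by
    refine expd_mem_of_tendsto (NK S).commutant _ _ (fun N => ?_) hlimY
    exact sum_mem fun k _ =>
      (NK S).commutant.toStarSubalgebra.toSubalgebra.smul_mem (exp_X_mem hxM hC k) (c k)
  refine ⟨Y (w0 S), ?_, Y, hYm, rfl⟩
  have hP : ∀ N, (∑ k ∈ Finset.range N, c k • x ^ k,
      (∑ k ∈ Finset.range N, c k • exp_X S x C k) (w0 S)) ∈ Gr := by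
    intro N
    have h2 : (∑ k ∈ Finset.range N, c k • x ^ k,
        (∑ k ∈ Finset.range N, c k • exp_X S x C k) (w0 S)) =
        ∑ k ∈ Finset.range N, c k • ((x ^ k, exp_X S x C k (w0 S)) : (H →L[ℂ] H) × K) := by
      rw [Prod.ext_iff, Prod.fst_sum, Prod.snd_sum]
      refine ⟨rfl, ?_⟩
      rw [_root_.sum_apply]
      rfl
    rw [h2]
    exact Submodule.sum_mem _ fun k _ => Submodule.smul_mem _ _ (exp_X_pow hG h1 hC hx k)
  have hlim := uexp_series s x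
  have hyM : uexp s x ∈ S.M :=
    expd_mem_of_tendsto S.M _ _ (fun N => hG.mem _ (hP N)) hlim
  refine (hG.ext_mem (fun N => ∑ k ∈ Finset.range N, c k • x ^ k)
    (fun N => (∑ k ∈ Finset.range N, c k • exp_X S x C k) (w0 S)) (uexp s x) (Y (w0 S))
    (Real.exp (|s| * ‖x‖)) hP (fun N => uexp_series_norm s x N) hyM ?_ ?_).1
  · exact ((ContinuousLinearMap.apply ℂ H S.Ω).continuous.tendsto _).comp hlim
  · exact ((ContinuousLinearMap.apply ℂ K (w0 S)).continuous.tendsto _).comp hlimY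

theorem der_zero (hG : BClosed S Gr) (h1 : ((1 : H →L[ℂ] H), (0 : K)) ∈ Gr) {x : H →L[ℂ] H}
    (hxM : x ∈ S.M) (h : ∀ s : ℝ, (uexp s x, (0 : K)) ∈ Gr) : (x, (0 : K)) ∈ Gr := by
  have hseq : Tendsto (fun n : ℕ => 1 / ((n : ℝ) + 1)) atTop (𝓝[>] 0) := by
    rw [tendsto_nhdsWithin_iff]
    refine ⟨tendsto_one_div_add_atTop_nhds_zero_nat, Eventually.of_forall fun n => ?_⟩
    rw [Set.mem_Ioi]
    positivity
  have hlim := (uexp_deriv x).comp hseq
  obtain ⟨B, hB⟩ := hlim.norm.bddAbove_range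
  refine (hG.ext_mem (fun n : ℕ =>
    ((Complex.I * ((1 / ((n : ℝ) + 1) : ℝ) : ℂ))⁻¹) • (uexp (1 / ((n : ℝ) + 1)) x - 1))
    (fun _ => 0) x 0 B ?_ ?_ hxM ?_ tendsto_const_nhds).1
  · intro k
    have h2 := Gr.smul_mem ((Complex.I * ((1 / ((k : ℝ) + 1) : ℝ) : ℂ))⁻¹)
      (Gr.sub_mem (h (1 / ((k : ℝ) + 1))) h1)
    rw [Prod.mk_sub_mk, sub_zero, Prod.smul_mk, smul_zero] at h2
    exact h2
  · intro k
    exact hB ⟨k, rfl⟩
  · exact ((ContinuousLinearMap.apply ℂ H S.Ω).continuous.tendsto _).comp hlim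

end

end Pool.H62.MC
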