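import Pool.Agent.H62.MC.DefsE
import Pool.Agent.H62.UC.Ext
import Pool.Agent.H62.UC.ExtM

/-!
# EXTU: boundedly closed relations (not necessarily single valued) extending a derivation
-/

namespace Pool.H62.MC

open scoped InnerProductSpace TensorProduct ComplexConjugate
open Filter Topology Pool.H62.UC

noncomputable section

variable {H : Type*} [NormedAddCommGroup H] [InnerProductSpace ℂ H] [CompleteSpace H]
variable {K : Type*} [NormedAddCommGroup K] [InnerProductSpace ℂ K] [CompleteSpace K]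

/-- a boundedly closed derivation which may be multivalued -/
structure BRel (S : Std H K) (Gr : Submodule ℂ ((H →L[ℂ] H) × K)) : Prop where
  mem : ∀ p ∈ Gr, p.1 ∈ S.M
  leib : ∀ p ∈ Gr, ∀ q ∈ Gr, (p.1 * q.1, S.l p.1 q.2 + S.r q.1 p.2) ∈ Gr
  closed : ∀ C : ℝ, IsClosed {q : H × K | ∃ p ∈ Gr, ‖p.1‖ ≤ C ∧ q = (p.1 S.Ω, p.2)}

theorem BRel.ext_mem {S : Std H K} {Gr : Submodule ℂ ((H →L[ℂ] H) × K)} (hG : BRel S Gr)
    (x : ℕ → H →L[ℂ] H) (ξ : ℕ → K) (y : H →L[ℂ] H) (η : K) (C : ℝ)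
    (h : ∀ k, (x k, ξ k) ∈ Gr) (hC : ∀ k, ‖x k‖ ≤ C) (hy : y ∈ S.M)
    (hx : Tendsto (fun k => x k S.Ω) atTop (𝓝 (y S.Ω))) (hξ : Tendsto ξ atTop (𝓝 η)) :
    (y, η) ∈ Gr := by
  have h1 : (y S.Ω, η) ∈ {q : H × K | ∃ p ∈ Gr, ‖p.1‖ ≤ C ∧ q = (p.1 S.Ω, p.2)} := by
    refine (hG.closed C).mem_of_tendsto (hx.prodMk_nhds hξ) ?_
    exact Filter.Eventually.of_forall fun k => ⟨(x k, ξ k), h k, hC k, rfl⟩
  obtain ⟨p, hp, -, hpe⟩ := h1
  have h2 : ((y, η) : (H →L[ℂ] H) × K) = p := ext_uniq S hy (hG.mem p hp) hpe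
  rw [h2]
  exact hp

theorem ext_existsU (S : Std H K) (D : StarSubalgebra ℂ (H →L[ℂ] H)) (hD : ∀ x ∈ D, x ∈ S.M)
    (d : D →ₗ[ℂ] K)
    (leib : ∀ x y : D, d (x * y) = S.l (x : H →L[ℂ] H) (d y) + S.r (y : H →L[ℂ] H) (d x)) :
    ∃ Gr : Submodule ℂ ((H →L[ℂ] H) × K), BRel S Gr ∧
      (∀ x : D, ((x : H →L[ℂ] H), d x) ∈ Gr) ∧
      (∀ p ∈ Gr, (p.1 S.Ω, p.2) ∈ closure (dGraph S D d)) := by
  obtain ⟨Gs, hGs⟩ : ∃ Gs : Submodule ℂ (H × K), (Gs : Set (H × K)) = dGraph S D d := by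
    refine ⟨⟨⟨⟨dGraph S D d, ?_⟩, ?_⟩, ?_⟩, rfl⟩
    · rintro a b ⟨x, rfl⟩ ⟨y, rfl⟩
      exact ⟨x + y, by simp⟩
    · exact ⟨0, by simp; rfl⟩
    · rintro c a ⟨x, rfl⟩
      exact ⟨c • x, by simp⟩
  have hcl : ∀ q : H × K, q ∈ Gs.topologicalClosure ↔ q ∈ closure (dGraph S D d) := by
    intro q
    rw [← hGs]
    exact Iff.rfl
  obtain ⟨Fam, hFam⟩ : ∃ Fam : Set (Submodule ℂ ((H →L[ℂ] H) × K)), Fam =
      {A | A ≤ extMax S Gs ∧ (∀ x : D, ((x : H →L[ℂ] H), d x) ∈ A) ∧ ExtBC S A} := ⟨_, rfl⟩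
  have hmemF : ∀ A, A ∈ Fam ↔ (A ≤ extMax S Gs ∧ (∀ x : D, ((x : H →L[ℂ] H), d x) ∈ A) ∧
      ExtBC S A) := by
    intro A; rw [hFam]; exact Iff.rfl
  have hgmax : ∀ x : D, ((x : H →L[ℂ] H), d x) ∈ extMax S Gs := by
    intro x
    refine ⟨hD x x.2, ?_⟩
    rw [hcl]
    exact subset_closure ⟨x, rfl⟩
  have hmaxF : extMax S Gs ∈ Fam := (hmemF _).2 ⟨le_rfl, hgmax, extMax_bc S Gs⟩
  obtain ⟨Gr, hGr⟩ : ∃ Gr, Gr = sInf Fam := ⟨_, rfl⟩
  have hmem : ∀ p, p ∈ Gr ↔ ∀ A ∈ Fam, p ∈ A := by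
    intro p; rw [hGr, Submodule.mem_sInf]
  have hle : ∀ A ∈ Fam, Gr ≤ A := fun A hA p hp => (hmem p).1 hp A hA
  have hGmax : Gr ≤ extMax S Gs := hle _ hmaxF
  have hgraph : ∀ x : D, ((x : H →L[ℂ] H), d x) ∈ Gr := by
    intro x
    rw [hmem]
    exact fun A hA => ((hmemF A).1 hA).2.1 x
  have hbc : ExtBC S Gr := by
    apply ext_seq S Gs Gr hGmax
    intro C u q hu hC hq h1 h2
    rw [hmem]
    intro A hA
    obtain ⟨hA1, _, hA3⟩ := (hmemF A).1 hA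
    exact ext_lim S Gs hA1 hA3 (fun k => hle A hA (hu k)) hC hq.1 h1 h2
  have hM : ∀ p ∈ Gr, p.1 ∈ S.M := fun p hp => (hGmax hp).1
  -- first step
  have hstep1 : ∀ x : D, Gr ≤ extL S Gs Gr ((x : H →L[ℂ] H), d x) := by
    intro x
    apply hle
    rw [hmemF]
    refine ⟨fun q hq => hq.1, ?_, ?_⟩
    · intro y
      refine ⟨hgmax y, ?_⟩
      have h1 : extMul S ((x : H →L[ℂ] H), d x) ((y : H →L[ℂ] H), d y) =
          (((x * y : D) : H →L[ℂ] H), d (x * y)) := by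
        unfold extMul
        rw [leib]
        rfl
      rw [h1]
      exact hgraph _
    · refine ext_seq S Gs (extL S Gs Gr ((x : H →L[ℂ] H), d x)) (fun q hq => hq.1) ?_
      intro C u q hu hC hq h1 h2
      refine ⟨hq, ?_⟩
      refine ext_lim S Gs hGmax hbc (C := ‖(x : H →L[ℂ] H)‖ * C) (fun k => (hu k).2) ?_
        (mul_mem (hD x x.2) hq.1) ?_ ?_
      · intro k
        exact (norm_mul_le _ _).trans (mul_le_mul_of_nonneg_left (hC k) (norm_nonneg _))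
      · have h3 := ((x : H →L[ℂ] H).continuous.tendsto (q.1 S.Ω)).comp h1
        exact h3
      · have h3 : Tendsto (fun k => S.l (x : H →L[ℂ] H) (u k).2) atTop
            (𝓝 (S.l (x : H →L[ℂ] H) q.2)) :=
          ((S.l (x : H →L[ℂ] H)).continuous.tendsto q.2).comp h2
        have h4 := S.r_tendsto (fun k => (hu k).1.1) hq.1 hC h1 (d x)
        exact h3.add h4
  have hstep2 : ∀ q ∈ Gr, Gr ≤ extR S Gs Gr q := by
    intro q hq
    apply hle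
    rw [hmemF]
    refine ⟨fun p hp => hp.1, ?_, ?_⟩
    · intro x
      exact ⟨hgmax x, (hstep1 x hq).2⟩
    · refine ext_seq S Gs (extR S Gs Gr q) (fun p hp => hp.1) ?_
      intro C u p hu hC hp h1 h2
      refine ⟨hp, ?_⟩
      refine ext_lim S Gs hGmax hbc (C := C * ‖q.1‖) (fun k => (hu k).2) ?_
        (mul_mem hp.1 (hM q hq)) ?_ ?_
      · intro k
        exact (norm_mul_le _ _).trans (mul_le_mul_of_nonneg_right (hC k) (norm_nonneg _))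
      · have h3 := ((S.ρ q.1).continuous.tendsto (p.1 S.Ω)).comp h1
        change Tendsto (fun k => ((u k).1 * q.1) S.Ω) atTop (𝓝 ((p.1 * q.1) S.Ω))
        rw [← S.ρ_apply p.1 hp.1 q.1 (hM q hq)]
        refine h3.congr fun k => ?_
        exact S.ρ_apply (u k).1 (hu k).1.1 q.1 (hM q hq)
      · have h3 : Tendsto (fun k => S.r q.1 (u k).2) atTop (𝓝 (S.r q.1 p.2)) :=
          ((S.r q.1).continuous.tendsto p.2).comp h2
        have h4 := S.l_tendsto (fun k => (hu k).1.1) hp.1 hC h1 q.2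
        exact h4.add h3
  refine ⟨Gr, ⟨hM, ?_, hbc⟩, hgraph, ?_⟩
  · intro p hp q hq
    exact (hstep2 q hq hp).2
  · intro p hp
    rw [← hcl]
    exact (hGmax hp).2

end

end Pool.H62.MC
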