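import Pool.Agent.H62.MC.Exp
import Pool.Agent.H62.MC.ExtU

/-!
# EXPU: exponentials for boundedly closed relations

PROOF. As in `MC/Exp.lean` (`exp_X`, `exp_X_mem`, `exp_X_norm`; the proofs of `exp_X_pow` and `exp_bv` use
only `mem`, `leib` and `BClosed.ext_mem`, to be replaced by `BRel.ext_mem`).
`exp_zeroU`: the case `C = 0`: `exp_X S x 0 k = 0` (induction), or directly `(x^k, 0) ∈ Gr` and the
partial sums of the series.
`exp_bvU`: `δ = Y (w0 S)`, `Y = ∑ c k • exp_X S x C k`, `c k = (I s)^k / k!`; the terms `k = 0, 1` are `0`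
and `(I s) • C` (`exp_X 1 = C * T.R 1 = C`), so
`‖δ - (I s) • ξ‖ ≤ ∑_{k ≥ 2} |s|^k M^k ‖C‖ / k! ≤ s² ‖C‖ ∑_{k ≥ 2} M^k / k! ≤ s² ‖C‖ exp M` for `|s| ≤ 1`,
`M = 1 + ‖x‖ + ‖T.L (ρ x)‖` (`‖w0‖ = 1`: `S.T.norm_tp`, `S.tv.norm_one`).
-/

namespace Pool.H62.MC

open scoped InnerProductSpace TensorProduct ComplexConjugate
open Filter Topology Pool.H62.UC

noncomputable section

variable {H : Type*} [NormedAddCommGroup H] [InnerProductSpace ℂ H] [CompleteSpace H]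
variable {K : Type*} [NormedAddCommGroup K] [InnerProductSpace ℂ K] [CompleteSpace K]

variable {S : Std H K} {Gr : Submodule ℂ ((H →L[ℂ] H) × K)}

/-- `exp_X_pow` for relations -/
theorem expu_X_pow (hG : BRel S Gr) (h1 : ((1 : H →L[ℂ] H), (0 : K)) ∈ Gr) {x : H →L[ℂ] H}
    {C : K →L[ℂ] K} (hC : C ∈ (NK S).commutant) (hx : (x, C (w0 S)) ∈ Gr) (k : ℕ) :
    (x ^ k, exp_X S x C k (w0 S)) ∈ Gr := by
  have hxM : x ∈ S.M := hG.mem _ hx
  induction k with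
  | zero =>
    rw [pow_zero]
    exact h1
  | succ k ih =>
    have h2 := hG.leib _ hx _ ih
    have h3 : S.l x (exp_X S x C k (w0 S)) = (exp_X S x C k * S.T.L (S.ρ x)) (w0 S) := by
      rw [← cc_l (exp_X_mem hxM hC k) hxM, l_w0]
      change _ = exp_X S x C k (S.T.L (S.ρ x) (S.T.tp S.Ω S.Ω))
      rw [S.T.L_tp, S.ρ_Ω hxM]
    have h4 : S.r (x ^ k) (C (w0 S)) = (C * S.T.R (x ^ k)) (w0 S) := by
      rw [← cc_r hC (pow_mem hxM k), r_w0 (pow_mem hxM k)]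
      change _ = C (S.T.R (x ^ k) (S.T.tp S.Ω S.Ω))
      rw [S.T.R_tp]
    have h5 : exp_X S x C (k + 1) (w0 S) =
        S.l x (exp_X S x C k (w0 S)) + S.r (x ^ k) (C (w0 S)) := by
      rw [h3, h4]
      rfl
    rw [h5, pow_succ']
    exact h2

/-- the coefficients of the exponential series -/
def expu_c (s : ℝ) (k : ℕ) : ℂ := (Complex.I * (s : ℂ)) ^ k / (k.factorial : ℂ)

theorem expu_c_norm (s : ℝ) (k : ℕ) : ‖expu_c s k‖ = |s| ^ k / (k.factorial : ℝ) := by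
  unfold expu_c
  simp only [norm_div, norm_pow, norm_mul, Complex.norm_I, one_mul, Complex.norm_real,
    Real.norm_eq_abs, Complex.norm_natCast]

theorem expu_summable (S : Std H K) (x : H →L[ℂ] H) (C : K →L[ℂ] K) (s : ℝ) :
    Summable (fun k => expu_c s k • exp_X S x C k) := by
  set M := 1 + ‖x‖ + ‖S.T.L (S.ρ x)‖ with hM
  have hg : Summable (fun k : ℕ => ‖C‖ * ((|s| * M) ^ k / (k.factorial : ℝ))) :=
    (Real.summable_pow_div_factorial (|s| * M)).mul_left _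
  refine Summable.of_norm_bounded hg fun k => ?_
  rw [norm_smul, expu_c_norm]
  refine (mul_le_mul_of_nonneg_left (exp_X_norm x C k) (by positivity)).trans (le_of_eq ?_)
  rw [mul_pow]
  ring

theorem expu_main (hG : BRel S Gr) (h1 : ((1 : H →L[ℂ] H), (0 : K)) ∈ Gr) {x : H →L[ℂ] H}
    {C : K →L[ℂ] K} (hC : C ∈ (NK S).commutant) (hx : (x, C (w0 S)) ∈ Gr) (s : ℝ) :
    (uexp s x, (∑' k, expu_c s k • exp_X S x C k) (w0 S)) ∈ Gr ∧
      (∑' k, expu_c s k • exp_X S x C k) ∈ (NK S).commutant := by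
  have hxM : x ∈ S.M := hG.mem _ hx
  have hsum := expu_summable S x C s
  set Y : K →L[ℂ] K := ∑' k, expu_c s k • exp_X S x C k with hY
  have hlimY : Tendsto (fun N => ∑ k ∈ Finset.range N, expu_c s k • exp_X S x C k) atTop (𝓝 Y) :=
    hsum.hasSum.tendsto_sum_nat
  have hYm : Y ∈ (NK S).commutant := by
    refine expd_mem_of_tendsto (NK S).commutant _ _ (fun N => ?_) hlimY
    exact sum_mem fun k _ =>
      (NK S).commutant.toStarSubalgebra.toSubalgebra.smul_mem (exp_X_mem hxM hC k) (expu_c s k)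
  refine ⟨?_, hYm⟩
  have hP : ∀ N, (∑ k ∈ Finset.range N, expu_c s k • x ^ k,
      (∑ k ∈ Finset.range N, expu_c s k • exp_X S x C k) (w0 S)) ∈ Gr := by
    intro N
    have h2 : (∑ k ∈ Finset.range N, expu_c s k • x ^ k,
        (∑ k ∈ Finset.range N, expu_c s k • exp_X S x C k) (w0 S)) =
        ∑ k ∈ Finset.range N,
          expu_c s k • ((x ^ k, exp_X S x C k (w0 S)) : (H →L[ℂ] H) × K) := by
      rw [Prod.ext_iff, Prod.fst_sum, Prod.snd_sum]
      refine ⟨rfl, ?_⟩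
      rw [_root_.sum_apply]
      rfl
    rw [h2]
    exact Submodule.sum_mem _ fun k _ => Submodule.smul_mem _ _ (expu_X_pow hG h1 hC hx k)
  have hlim := uexp_series s x
  have hyM : uexp s x ∈ S.M :=
    expd_mem_of_tendsto S.M _ _ (fun N => hG.mem _ (hP N)) hlim
  refine hG.ext_mem (fun N => ∑ k ∈ Finset.range N, expu_c s k • x ^ k)
    (fun N => (∑ k ∈ Finset.range N, expu_c s k • exp_X S x C k) (w0 S)) (uexp s x) (Y (w0 S))
    (Real.exp (|s| * ‖x‖)) hP (fun N => uexp_series_norm s x N) hyM ?_ ?_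
  · exact ((ContinuousLinearMap.apply ℂ H S.Ω).continuous.tendsto _).comp hlim
  · exact ((ContinuousLinearMap.apply ℂ K (w0 S)).continuous.tendsto _).comp hlimY

theorem expu_X_zero (x : H →L[ℂ] H) (k : ℕ) : exp_X S x 0 k = 0 := by
  induction k with
  | zero => rfl
  | succ k ih =>
    have h0 : exp_X S x 0 (k + 1) = exp_X S x 0 k * S.T.L (S.ρ x) + 0 * S.T.R (x ^ k) := rfl
    rw [h0, ih, zero_mul, zero_mul, add_zero]

theorem expu_X_one (x : H →L[ℂ] H) (C : K →L[ℂ] K) : exp_X S x C 1 = C := by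
  have h0 : exp_X S x C 1 = 0 * S.T.L (S.ρ x) + C * S.T.R (x ^ 0) := rfl
  rw [h0, zero_mul, zero_add, pow_zero, map_one, mul_one]

theorem exp_zeroU (hG : BRel S Gr) (h1 : ((1 : H →L[ℂ] H), (0 : K)) ∈ Gr) {x : H →L[ℂ] H}
    (hx : (x, (0 : K)) ∈ Gr) (s : ℝ) : (uexp s x, (0 : K)) ∈ Gr := by
  have h2 : (x, (0 : K →L[ℂ] K) (w0 S)) ∈ Gr := hx
  have h3 := (expu_main hG h1 (zero_mem _) h2 s).1
  have h4 : (fun k => expu_c s k • exp_X S x 0 k) = fun _ => (0 : K →L[ℂ] K) := by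
    funext k
    rw [expu_X_zero, smul_zero]
  rw [h4, tsum_zero] at h3
  exact h3

theorem exp_bvU (hG : BRel S Gr) (h1 : ((1 : H →L[ℂ] H), (0 : K)) ∈ Gr) {x : H →L[ℂ] H} {ξ : K}
    (hx : (x, ξ) ∈ Gr) (hξ : Bv S ξ) : ∃ C : ℝ, ∀ s : ℝ, |s| ≤ 1 →
      ∃ δ : K, (uexp s x, δ) ∈ Gr ∧ Bv S δ ∧ ‖δ - (Complex.I * (s : ℂ)) • ξ‖ ≤ C * s ^ 2 := by
  obtain ⟨C, hC, rfl⟩ := hξ
  set M := 1 + ‖x‖ + ‖S.T.L (S.ρ x)‖ with hM
  have hM0 : 0 ≤ M := by positivity
  have hGs : Summable (fun i : ℕ => M ^ (i + 2) / ((i + 2).factorial : ℝ)) :=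
    (summable_nat_add_iff 2).2 (Real.summable_pow_div_factorial M)
  refine ⟨‖C‖ * (∑' i : ℕ, M ^ (i + 2) / ((i + 2).factorial : ℝ)) * ‖w0 S‖, fun s hs => ?_⟩
  obtain ⟨h2, h3⟩ := expu_main hG h1 hC hx s
  refine ⟨_, h2, ⟨_, h3, rfl⟩, ?_⟩
  have hsum := expu_summable S x C s
  have hsplit := hsum.sum_add_tsum_nat_add 2
  have hr : ∑ i ∈ Finset.range 2, expu_c s i • exp_X S x C i = (Complex.I * (s : ℂ)) • C := by
    rw [Finset.sum_range_succ, Finset.sum_range_one, expu_X_one]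
    have h4 : exp_X S x C 0 = 0 := rfl
    rw [h4, smul_zero, zero_add]
    unfold expu_c
    rw [pow_one, Nat.factorial_one, Nat.cast_one, div_one]
  rw [hr] at hsplit
  have htail : ‖∑' i, expu_c s (i + 2) • exp_X S x C (i + 2)‖ ≤
      s ^ 2 * (‖C‖ * (∑' i : ℕ, M ^ (i + 2) / ((i + 2).factorial : ℝ))) := by
    refine tsum_of_norm_bounded ((hGs.hasSum.mul_left ‖C‖).mul_left (s ^ 2)) fun i => ?_
    rw [norm_smul, expu_c_norm]
    refine (mul_le_mul_of_nonneg_left (exp_X_norm x C (i + 2)) (by positivity)).trans ?_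
    have h5 : |s| ^ (i + 2) ≤ s ^ 2 := by
      rw [pow_add, sq_abs]
      exact mul_le_of_le_one_left (sq_nonneg s) (pow_le_one₀ (abs_nonneg s) hs)
    calc |s| ^ (i + 2) / ((i + 2).factorial : ℝ) * (‖C‖ * M ^ (i + 2))
        = |s| ^ (i + 2) * (‖C‖ * (M ^ (i + 2) / ((i + 2).factorial : ℝ))) := by ring
      _ ≤ s ^ 2 * (‖C‖ * (M ^ (i + 2) / ((i + 2).factorial : ℝ))) :=
        mul_le_mul_of_nonneg_right h5 (by positivity)
  have hdiff : (∑' k, expu_c s k • exp_X S x C k) (w0 S) - (Complex.I * (s : ℂ)) • C (w0 S) =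
      (∑' i, expu_c s (i + 2) • exp_X S x C (i + 2)) (w0 S) := by
    rw [← hsplit]
    change (Complex.I * (s : ℂ)) • C (w0 S) +
      (∑' i, expu_c s (i + 2) • exp_X S x C (i + 2)) (w0 S) - _ = _
    rw [add_sub_cancel_left]
  rw [hdiff]
  refine (ContinuousLinearMap.le_opNorm _ _).trans ?_
  refine (mul_le_mul_of_nonneg_right htail (norm_nonneg _)).trans (le_of_eq ?_)
  ring

end

end Pool.H62.MC
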