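import Pool.Agent.H62.MC.PairE
import Pool.Agent.H62.MC.Conv
import Pool.Agent.H62.UC.Final

/-!
# FINE: the theorem for von Neumann algebras given as sets, any finite von Neumann algebra
-/

namespace Pool.H62.MC

open scoped InnerProductSpace TensorProduct
open Filter Topology Pool.H62.UC

noncomputable section

variable {H : Type*} [NormedAddCommGroup H] [InnerProductSpace ℂ H] [CompleteSpace H]

theorem final_mcE (M : Set (H →L[ℂ] H)) (hs : ∀ x ∈ M, star x ∈ M)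
    (hc : Set.centralizer (Set.centralizer M) = M) (Ω : H) (h1 : ‖Ω‖ = 1)
    (h2 : ∀ x ∈ M, ∀ y ∈ M, ⟪Ω, (x * y) Ω⟫_ℂ = ⟪Ω, (y * x) Ω⟫_ℂ)
    (h3 : Dense {ξ : H | ∃ x ∈ M, x Ω = ξ})
    (ρ : (H →L[ℂ] H) → (H →L[ℂ] H)) (hρ : ∀ x ∈ M, ∀ y ∈ M, ρ y (x Ω) = (x * y) Ω)
    (D : StarSubalgebra ℂ (H →L[ℂ] H))
    (hD : Set.centralizer (Set.centralizer (D : Set (H →L[ℂ] H))) = M)
    (d : D →ₗ[ℂ] KK H)
    (leibniz : ∀ x y : D, d (x * y) = lact (x : H →L[ℂ] H) (d y) +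
      rleg (ρ (y : H →L[ℂ] H)) (d x))
    (S : ℝ → H →L[ℂ] H)
    (heat : Heat {q : H × KK H | ∃ x : D, q = ((x : H →L[ℂ] H) Ω, d x)} S)
    (unif : ∀ ε : ℝ, 0 < ε → ∃ t₀ : ℝ, 0 < t₀ ∧ ∀ t : ℝ, 0 < t → t ≤ t₀ → ∀ g ∈ M, ‖g‖ ≤ 1 →
      ‖S t (g Ω) - g Ω‖ ≤ ε) :
    (∃ η : Submodule ℂ (KK H × KK H), IsClosed (η : Set (KK H × KK H)) ∧
      (∀ u ∈ Set.centralizer (Set.centralizer (Set.centralizer (gens M ρ))), ∀ p ∈ η,
        (u p.1, u p.2) ∈ η) ∧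
      Dense {ζ : KK H | ∃ ω, (ζ, ω) ∈ η} ∧ (∀ ω : KK H, ((0 : KK H), ω) ∈ η → ω = 0) ∧
      ∀ x : D, closure {p : KK H × KK H | ∃ q ∈ η, p = (q.1, lact (x : H →L[ℂ] H) q.2 -
        rleg (ρ (x : H →L[ℂ] H)) q.2)} =
      closure {p : KK H × KK H | ∃ u ∈ Set.centralizer (Set.centralizer (Set.centralizer
        (gens M ρ))), p = (u ((Ω ⊗ₜ[ℂ] Ω : H ⊗[ℂ] H) : KK H), u (d x))}) ↔
    (∀ f ∈ Set.centralizer (Set.centralizer (Set.centralizer (gens M ρ))),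
      (∀ ξ, f ξ = 0 → ξ = 0) → ∀ ξ : KK H, ((0 : H), ξ) ∈
        closure {q : H × KK H | ∃ x : D, q = ((x : H →L[ℂ] H) Ω, f (d x))} → ξ = 0) := by
  obtain ⟨M', hM'⟩ := exists_vN M hs hc
  have tv : IsTV M'.toStarSubalgebra Ω := by
    refine ⟨h1, fun x hx y hy => h2 x ((hM' x).1 hx) y ((hM' y).1 hy), ?_⟩
    refine h3.mono ?_
    rintro ξ ⟨x, hx, rfl⟩
    exact ⟨x, (hM' x).2 hx, rfl⟩
  obtain ⟨T₀, hT1, hT2, hT3⟩ := exists_coarse (H := H)
  let T : Std H (KK H) :=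
    ⟨M', Ω, tv, T₀, ρ, fun x hx y hy => hρ x ((hM' x).1 hx) y ((hM' y).1 hy)⟩
  have hl : ∀ x, T.l x = lact x := hT2
  have hr : ∀ y, T.r y = rleg (ρ y) := fun y => hT3 _
  have hDM : ∀ x ∈ D, x ∈ M := by
    intro x hx
    rw [← hD]
    exact Set.subset_centralizer_centralizer hx
  have hDT : ∀ x ∈ D, x ∈ T.M := fun x hx => (hM' x).2 (hDM x hx)
  have hN : ∀ A : KK H →L[ℂ] KK H, A ∈ NK T ↔
      A ∈ Set.centralizer (Set.centralizer (gens M ρ)) := by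
    intro A
    have e1 : ({A : KK H →L[ℂ] KK H | ∃ x ∈ T.M, A = T.l x} ∪
      {A : KK H →L[ℂ] KK H | ∃ y ∈ T.M, A = T.r y}) = gens M ρ := by
      ext Z
      constructor
      · rintro (⟨x, hx, rfl⟩ | ⟨y, hy, rfl⟩)
        · exact Or.inl ⟨x, (hM' x).1 hx, hl x⟩
        · exact Or.inr ⟨y, (hM' y).1 hy, hr y⟩
      · rintro (⟨x, hx, rfl⟩ | ⟨y, hy, rfl⟩)
        · exact Or.inl ⟨x, (hM' x).2 hx, (hl x).symm⟩
        · exact Or.inr ⟨y, (hM' y).2 hy, (hr y).symm⟩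
    rw [NK_mem_iff, StarSubalgebra.mem_centralizer_iff, e1]
    constructor
    · intro h
      rw [Set.mem_centralizer_iff]
      exact fun m hm => (h m hm).1
    · intro h z hz
      rw [Set.mem_centralizer_iff] at h
      refine ⟨h z hz, h (star z) (star_centralizer _ ?_ hz)⟩
      intro Z hZ
      rw [← e1] at hZ ⊢
      exact NK_star_gen T Z hZ
  have hNc : ∀ u : KK H →L[ℂ] KK H, u ∈ (NK T).commutant ↔
      u ∈ Set.centralizer (Set.centralizer (Set.centralizer (gens M ρ))) := by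
    intro u
    rw [VonNeumannAlgebra.mem_commutant_iff, Set.mem_centralizer_iff]
    exact ⟨fun h m hm => h m ((hN m).2 hm), fun h m hm => h m ((hN m).1 hm)⟩
  have htp : T.T.tp T.Ω T.Ω = ((Ω ⊗ₜ[ℂ] Ω : H ⊗[ℂ] H) : KK H) := hT1 Ω Ω
  have h9 : ∀ x : D, (opOf (NK T) (T.T.tp T.Ω T.Ω) (d x) : Set (KK H × KK H)) =
      closure {p : KK H × KK H | ∃ u ∈ Set.centralizer (Set.centralizer (Set.centralizer
        (gens M ρ))), p = (u ((Ω ⊗ₜ[ℂ] Ω : H ⊗[ℂ] H) : KK H), u (d x))} := by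
    intro x
    rw [htp]
    unfold opOf
    rw [Submodule.topologicalClosure_coe]
    congr 1
    apply Set.Subset.antisymm
    · intro p hp
      obtain ⟨u, hu, rfl⟩ := opof_span _ _ _ p hp
      exact ⟨u, (hNc u).1 hu, rfl⟩
    · rintro p ⟨u, hu, rfl⟩
      exact Submodule.subset_span ⟨u, (hNc u).2 hu, rfl⟩
  have leib : ∀ x y : D, d (x * y) = T.l (x : H →L[ℂ] H) (d y) + T.r (y : H →L[ℂ] H) (d x) := by
    intro x y
    rw [hl, hr]
    exact leibniz x y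
  constructor
  · rintro ⟨η, e1, e2, e3, e4, e5⟩ f hf hfi ξ hξ
    refine conv (S := T) D hDT d η ⟨e1, fun u hu p hp => e2 u ((hNc u).1 hu) p hp, e3, e4⟩ ?_
      ((hNc f).2 hf) hfi ξ hξ
    intro x
    have h10 := e5 x
    rw [← h9 x] at h10
    rw [← hl, ← hr] at h10
    exact h10
  · intro hcl
    obtain ⟨A, hA, β, B, hB, c, hAi, hBi, hAc, hx⟩ := mc_pairE (S := T) D hDT
      (by
        intro Z hZ
        have h4 : Z ∈ Set.centralizer M := by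
          rw [← hD, Set.centralizer_centralizer_centralizer]
          exact Set.mem_centralizer_iff.2 hZ
        rw [VonNeumannAlgebra.mem_commutant_iff]
        intro g hg
        exact h4 g ((hM' g).1 hg))
      d leib (fun f hf hfi ξ hξ => hcl f ((hNc f).1 hf) hfi ξ hξ)
      S heat (by
        intro ε hε
        obtain ⟨t₀, ht₀, h5⟩ := unif ε hε
        exact ⟨t₀, ht₀, fun t ht htt g hg hg1 => h5 t ht htt g ((hM' g).1 hg) hg1⟩)
    obtain ⟨η, hη, hη'⟩ := aff (NK T) (T.T.tp T.Ω T.Ω) (isTV_NK T) A hA hAi B hB hBi β c hAc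
    refine ⟨η, hη.closed, fun u hu p hp => hη.inv u ((hNc u).2 hu) p hp, hη.dense, hη.sv,
      fun x => ?_⟩
    have hTx : lact (x : H →L[ℂ] H) - rleg (ρ (x : H →L[ℂ] H)) ∈ NK T := by
      have h6 := l_mem_NK T ((hM' x).2 (hDM x x.2))
      have h7 := r_mem_NK T ((hM' x).2 (hDM x x.2))
      rw [hl] at h6
      rw [hr] at h7
      exact sub_mem h6 h7
    have h8 := hη' _ hTx (d x) (by rw [hx x, hl, hr]; rfl)
    rw [← h9, ← h8]
    rfl

end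

end Pool.H62.MC
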