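import Pool.Agent.H62.MC.Defs
import Pool.Agent.H62.UC.Tcomp

/-!
# INJ: `l a - r a` is injective if the self-adjoint `a` has no eigenvectors

PROOF. `exists_J S.M.toStarSubalgebra S.Ω S.tv` gives the conjugation `J` (`J (x Ω) = x* Ω` on `M`),
`exists_hs` (UC/Tcomp) the compact operator `k = T κ`, `⟪ζ, k ω⟫ = ⟪tp ζ (J ω), κ⟫`.
`T (l a κ) = a k`: `⟪tp ζ (J ω), l a κ⟫ = ⟪tp (a ζ) (J ω), κ⟫`.  `T (r a κ) = k a`:
`⟪tp ζ (J ω), r a κ⟫ = ⟪tp ζ (ρ(a) (J ω)), κ⟫` (`ρ(a)` self-adjoint: `S.ρ_star`) and `ρ(a) J ω = J (a ω)`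
(for `ω = x Ω`: `ρ(a) x* Ω = x* a Ω = (a x)* Ω = J (a x Ω)`; density, continuity).  So `a k = k a`, also
`a k* = k* a`, and `k* k` is a compact self-adjoint operator commuting with `a`.  If `κ ≠ 0` then
`k ≠ 0` (`ext_inner` of `Coarse`, `J` is surjective: `J J = 1`), so `k* k ≠ 0`, and it has an
eigenvector for some `μ ≠ 0` (`ContinuousLinearMap.orthogonalComplement_iSup_eigenspaces_eq_bot`,
see UC/Atom.lean); the eigenspace is finite dimensional
(`ContinuousLinearMap.finite_dimensional_eigenspace`) and invariant under `a`, so `a` has an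
eigenvector in it (`Module.End.exists_eigenvalue`), contradiction.
-/

namespace Pool.H62.MC

open scoped InnerProductSpace TensorProduct ComplexConjugate
open Filter Topology Pool.H62.UC

noncomputable section

variable {H : Type*} [NormedAddCommGroup H] [InnerProductSpace ℂ H] [CompleteSpace H]
variable {K : Type*} [NormedAddCommGroup K] [InnerProductSpace ℂ K] [CompleteSpace K]

variable {S : Std H K}

theorem inj_eig {P : H →L[ℂ] H} (hP : IsCompactOperator P) (hsa : IsSelfAdjoint P) (h0 : P ≠ 0) :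
    ∃ (μ : ℂ) (v : H), μ ≠ 0 ∧ v ≠ 0 ∧ P v = μ • v := by
  by_contra hcon
  push Not at hcon
  apply h0
  have h1 : (⨆ μ, Module.End.eigenspace (P : Module.End ℂ H) μ) ≤
      LinearMap.ker (P : H →ₗ[ℂ] H) := by
    refine iSup_le fun μ => ?_
    intro x hx
    have hx' : P x = μ • x := Module.End.mem_eigenspace_iff.1 hx
    rw [LinearMap.mem_ker]
    change P x = 0
    by_cases hμ : μ = 0
    · rw [hx', hμ, zero_smul]
    · by_cases hx0 : x = 0
      · rw [hx0, map_zero]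
      · exact absurd hx' (hcon μ x hμ hx0)
  have h2 := ContinuousLinearMap.orthogonalComplement_iSup_eigenspaces_eq_bot hP
    hsa.isSymmetric
  have h3 : (LinearMap.ker (P : H →ₗ[ℂ] H))ᗮ = ⊥ := by
    rw [eq_bot_iff, ← h2]
    exact Submodule.orthogonal_le h1
  have hNc : IsClosed ((LinearMap.ker (P : H →ₗ[ℂ] H) : Submodule ℂ H) : Set H) := P.isClosed_ker
  have h4 : LinearMap.ker (P : H →ₗ[ℂ] H) = ⊤ := by
    have h5 := Submodule.orthogonal_orthogonal_eq_closure (LinearMap.ker (P : H →ₗ[ℂ] H))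
    rw [h3, Submodule.bot_orthogonal_eq_top, hNc.submodule_topologicalClosure_eq] at h5
    exact h5.symm
  ext x
  have h5 : x ∈ LinearMap.ker (P : H →ₗ[ℂ] H) := by
    rw [h4]
    exact Submodule.mem_top
  exact LinearMap.mem_ker.1 h5

theorem inj_of_noeig {a : H →L[ℂ] H} (haM : a ∈ S.M) (hsa : IsSelfAdjoint a) (hne : NoEig a)
    {κ : K} (h : S.l a κ = S.r a κ) : κ = 0 := by
  obtain ⟨J, hadd, hsmul, hnorm, hJJ, hJin, hJdc, -⟩ := exists_J S.M.toStarSubalgebra S.Ω S.tv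
  have hJM : ∀ x ∈ S.M, J (x S.Ω) = (star x) S.Ω := fun x hx =>
    hJdc x (Set.subset_centralizer_centralizer hx)
  have hJc : Continuous J := TCOMP_conj_left J hadd hnorm
  have hJl : ∀ x ∈ S.M, ∀ ω, J (x ω) = S.ρ (star x) (J ω) := by
    intro x hx ω
    refine S.tv.cyclic.induction (P := fun ω => J (x ω) = S.ρ (star x) (J ω)) ?_ ?_ ω
    · rintro ξ ⟨y, hy, rfl⟩
      have h1 : x (y S.Ω) = (x * y) S.Ω := rfl
      rw [h1, hJM _ (mul_mem hx hy), hJM _ hy, S.ρ_apply _ (star_mem hy) _ (star_mem hx),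
        star_mul]
    · exact isClosed_eq (hJc.comp x.continuous) ((S.ρ (star x)).continuous.comp hJc)
  obtain ⟨T, hT1, hT2, hT3⟩ := exists_hs S J hadd hsmul hnorm
  have has : star a = a := hsa
  obtain ⟨k, hk⟩ : ∃ k, k = T κ := ⟨_, rfl⟩
  have hki : ∀ ζ ω, ⟪ζ, k ω⟫_ℂ = ⟪S.T.tp ζ (J ω), κ⟫_ℂ := by
    intro ζ ω
    rw [hk]
    exact hT2 κ ζ ω
  have hcomm : a * k = k * a := by
    refine ContinuousLinearMap.ext fun ω => ext_inner_left ℂ fun ζ => ?_
    change ⟪ζ, a (k ω)⟫_ℂ = ⟪ζ, k (a ω)⟫_ℂ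
    have e1 : ⟪ζ, a (k ω)⟫_ℂ = ⟪a ζ, k ω⟫_ℂ := by
      rw [jop_inner_left, has]
    have e2 : ⟪S.T.tp (a ζ) (J ω), κ⟫_ℂ = ⟪S.T.tp ζ (J ω), S.l a κ⟫_ℂ := by
      have h1 : S.T.tp (a ζ) (J ω) = S.l a (S.T.tp ζ (J ω)) := (S.T.L_tp a ζ (J ω)).symm
      rw [h1, jop_inner_left, ← S.l_star, has]
    have e3 : ⟪S.T.tp ζ (J (a ω)), κ⟫_ℂ = ⟪S.T.tp ζ (J ω), S.r a κ⟫_ℂ := by
      have h1 : S.T.tp ζ (J (a ω)) = S.r a (S.T.tp ζ (J ω)) := by
        rw [hJl a haM, has]
        exact (S.T.R_tp (S.ρ a) ζ (J ω)).symm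
      rw [h1, jop_inner_left, ← S.r_star haM, has]
    rw [e1, hki, hki, e2, e3, h]
  have hcs : star k * a = a * star k := by
    have h1 := congrArg star hcomm
    rw [star_mul, star_mul, has] at h1
    exact h1
  have hPc : a * (star k * k) = (star k * k) * a := by
    rw [← mul_assoc, ← hcs, mul_assoc, hcomm, mul_assoc]
  by_contra hκ
  have hk0 : k ≠ 0 := by
    intro h0
    apply hκ
    refine S.T.ext_inner κ 0 fun b c => ?_
    have h1 := hki b (J c)
    rw [h0, hJJ] at h1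
    rw [← h1]
    simp
  have hP0 : star k * k ≠ 0 := by
    intro h0
    apply hk0
    have h1 := CStarRing.norm_star_mul_self (x := k)
    rw [h0, norm_zero] at h1
    exact norm_eq_zero.1 (mul_self_eq_zero.1 h1.symm)
  have hkc : IsCompactOperator k := by
    rw [hk]
    exact hT3 κ
  have hPK : IsCompactOperator (star k * k : H →L[ℂ] H) := hkc.clm_comp (star k)
  obtain ⟨μ, v, hμ, hv0, hv⟩ := inj_eig hPK (IsSelfAdjoint.star_mul_self k) hP0
  have hfd : FiniteDimensional ℂ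
      (Module.End.eigenspace ((star k * k : H →L[ℂ] H) : Module.End ℂ H) μ) :=
    ContinuousLinearMap.finite_dimensional_eigenspace hPK μ hμ
  obtain ⟨E, hE⟩ : ∃ E, E = Module.End.eigenspace ((star k * k : H →L[ℂ] H) : Module.End ℂ H) μ :=
    ⟨_, rfl⟩
  rw [← hE] at hfd
  have hvE : v ∈ E := by
    rw [hE]
    exact Module.End.mem_eigenspace_iff.2 hv
  have hinv : ∀ x ∈ E, (a : H →ₗ[ℂ] H) x ∈ E := by
    intro x hx
    rw [hE] at hx ⊢
    have hx' : (star k * k) x = μ • x := Module.End.mem_eigenspace_iff.1 hx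
    refine Module.End.mem_eigenspace_iff.2 ?_
    change (star k * k) (a x) = μ • a x
    have h2 : (star k * k) (a x) = a ((star k * k) x) :=
      (congrArg (fun A : H →L[ℂ] H => A x) hPc).symm
    rw [h2, hx', map_smul]
  have hnt : Nontrivial E := ⟨⟨⟨v, hvE⟩, 0, fun h0 => hv0 (congrArg Subtype.val h0)⟩⟩
  obtain ⟨c, hc⟩ := Module.End.exists_eigenvalue ((a : H →ₗ[ℂ] H).restrict hinv)
  obtain ⟨w, hw⟩ := hc.exists_hasEigenvector
  have hw1 : (a : H →ₗ[ℂ] H).restrict hinv w = c • w := hw.apply_eq_smul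
  have hw2 : a (w : H) = c • (w : H) := congrArg Subtype.val hw1
  exact hw.2 (Subtype.ext (hne c w hw2))

end

end Pool.H62.MC
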