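import Pool.Agent.H62.MC.DefsE
import Pool.Agent.H62.MC.Inj

/-!
# INJE: `l a - r a` is injective on `(1 - P) K` if all eigenvectors of `a` are in `e H`

PROOF. As in `MC/Inj.lean` (copy and adapt): it suffices to treat `κ` with `l (1-e) κ = κ` (then `κ = 0`)
and `κ` with `r (1-e) κ = κ`: `l (1-e) κ` and `r (1-e) κ` satisfy the same relation
(`e` is central).  Let `k = T κ` be the compact operator of `exists_hs`, `a k = k a`.  If
`l (1-e) κ = κ` then `(1-e) k = k`; `k k*` is compact, self-adjoint, commutes with `a`, and if `k ≠ 0`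
it has an eigenvector for some `μ ≠ 0`, the eigenspace is finite dimensional, `a`-invariant, and
contained in the range of `k`, so in `(1-e) H`; `a` has an eigenvector `ξ ≠ 0` in it, `e ξ = 0 ≠ ξ`,
contradiction.  If `r (1-e) κ = κ` then `k (1-e) = k` (`ρ(1-e) J = J (1-e)`), use `k* k`.
-/

namespace Pool.H62.MC

open scoped InnerProductSpace TensorProduct ComplexConjugate
open Filter Topology Pool.H62.UC

noncomputable section

variable {H : Type*} [NormedAddCommGroup H] [InnerProductSpace ℂ H] [CompleteSpace H]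
variable {K : Type*} [NormedAddCommGroup K] [InnerProductSpace ℂ K] [CompleteSpace K]

variable {S : Std H K} {e : H →L[ℂ] H}

/-- a compact self-adjoint operator that commutes with `a` and is zero on the range of `e` is zero -/
theorem injE_op {a : H →L[ℂ] H} (hne : NoEigE e a) {P : H →L[ℂ] H} (hP : IsCompactOperator P)
    (hsa : IsSelfAdjoint P) (hPc : a * P = P * a) (heP : e * P = 0) : P = 0 := by
  by_contra hP0
  obtain ⟨μ, v, hμ, hv0, hv⟩ := inj_eig hP hsa hP0
  have hfd : FiniteDimensional ℂ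
      (Module.End.eigenspace ((P : H →L[ℂ] H) : Module.End ℂ H) μ) :=
    ContinuousLinearMap.finite_dimensional_eigenspace hP μ hμ
  obtain ⟨E, hE⟩ : ∃ E, E = Module.End.eigenspace ((P : H →L[ℂ] H) : Module.End ℂ H) μ :=
    ⟨_, rfl⟩
  rw [← hE] at hfd
  have hvE : v ∈ E := by
    rw [hE]
    exact Module.End.mem_eigenspace_iff.2 hv
  have hEP : ∀ x ∈ E, P x = μ • x := by
    intro x hx
    rw [hE] at hx
    exact Module.End.mem_eigenspace_iff.1 hx
  have hinv : ∀ x ∈ E, (a : H →ₗ[ℂ] H) x ∈ E := by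
    intro x hx
    have hx' : P x = μ • x := hEP x hx
    rw [hE]
    refine Module.End.mem_eigenspace_iff.2 ?_
    change P (a x) = μ • a x
    have h2 : P (a x) = a (P x) := (congrArg (fun A : H →L[ℂ] H => A x) hPc).symm
    rw [h2, hx', map_smul]
  have hnt : Nontrivial E := ⟨⟨⟨v, hvE⟩, 0, fun h0 => hv0 (congrArg Subtype.val h0)⟩⟩
  obtain ⟨c, hc⟩ := Module.End.exists_eigenvalue ((a : H →ₗ[ℂ] H).restrict hinv)
  obtain ⟨w, hw⟩ := hc.exists_hasEigenvector
  have hw1 : (a : H →ₗ[ℂ] H).restrict hinv w = c • w := hw.apply_eq_smul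
  have hw2 : a (w : H) = c • (w : H) := congrArg Subtype.val hw1
  have hw3 : e (w : H) = (w : H) := hne c w hw2
  have hw4 : P (w : H) = μ • (w : H) := hEP w w.2
  have hw5 : e (P (w : H)) = 0 := congrArg (fun A : H →L[ℂ] H => A (w : H)) heP
  rw [hw4, map_smul, hw3, smul_eq_zero] at hw5
  exact hw.2 (Subtype.ext (hw5.resolve_left hμ))

/-- the compact operators of the vectors of `K` -/
theorem injE_data (S : Std H K) : ∃ T : K → H →L[ℂ] H, (∀ κ, IsCompactOperator (T κ)) ∧
    (∀ κ, T κ = 0 → κ = 0) ∧ (∀ x κ, T (S.l x κ) = x * T κ) ∧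
    (∀ y ∈ S.M, ∀ κ, T (S.r y κ) = T κ * y) := by
  obtain ⟨J, hadd, hsmul, hnorm, hJJ, hJin, hJdc, -⟩ := exists_J S.M.toStarSubalgebra S.Ω S.tv
  have hJM : ∀ x ∈ S.M, J (x S.Ω) = (star x) S.Ω := fun x hx =>
    hJdc x (Set.subset_centralizer_centralizer hx)
  have hJc : Continuous J := TCOMP_conj_left J hadd hnorm
  have hJl : ∀ x ∈ S.M, ∀ ω, J (x ω) = S.ρ (star x) (J ω) := by
    intro x hx ω
    refine S.tv.cyclic.induction (P := fun ω => J (x ω) = S.ρ (star x) (J ω)) ?_ ?_ ω
    · rintro ξ ⟨y, hy, rfl⟩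
      have h1 : x (y S.Ω) = (x * y) S.Ω := rfl
      rw [h1, hJM _ (mul_mem hx hy), hJM _ hy, S.ρ_apply _ (star_mem hy) _ (star_mem hx),
        star_mul]
    · exact isClosed_eq (hJc.comp x.continuous) ((S.ρ (star x)).continuous.comp hJc)
  obtain ⟨T, hT1, hT2, hT3⟩ := exists_hs S J hadd hsmul hnorm
  refine ⟨fun κ => T κ, hT3, ?_, ?_, ?_⟩
  · intro κ h0
    refine S.T.ext_inner κ 0 fun b c => ?_
    have h1 := hT2 κ b (J c)
    have h0' : T κ = 0 := h0
    rw [h0', hJJ] at h1
    rw [← h1]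
    simp
  · intro x κ
    refine ContinuousLinearMap.ext fun ω => ext_inner_left ℂ fun ζ => ?_
    change ⟪ζ, T (S.l x κ) ω⟫_ℂ = ⟪ζ, x (T κ ω)⟫_ℂ
    have e1 : ⟪ζ, x (T κ ω)⟫_ℂ = ⟪star x ζ, T κ ω⟫_ℂ := by
      rw [jop_inner_left, star_star]
    have e2 : ⟪S.T.tp (star x ζ) (J ω), κ⟫_ℂ = ⟪S.T.tp ζ (J ω), S.l x κ⟫_ℂ := by
      have h1 : S.T.tp (star x ζ) (J ω) = S.l (star x) (S.T.tp ζ (J ω)) :=
        (S.T.L_tp (star x) ζ (J ω)).symm
      rw [h1, jop_inner_left, ← S.l_star, star_star]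
    rw [e1, hT2, hT2, e2]
  · intro y hy κ
    refine ContinuousLinearMap.ext fun ω => ext_inner_left ℂ fun ζ => ?_
    change ⟪ζ, T (S.r y κ) ω⟫_ℂ = ⟪ζ, T κ (y ω)⟫_ℂ
    have e3 : ⟪S.T.tp ζ (J (y ω)), κ⟫_ℂ = ⟪S.T.tp ζ (J ω), S.r y κ⟫_ℂ := by
      have h1 : S.T.tp ζ (J (y ω)) = S.r (star y) (S.T.tp ζ (J ω)) := by
        rw [hJl y hy]
        exact (S.T.R_tp (S.ρ (star y)) ζ (J ω)).symm
      rw [h1, jop_inner_left, ← S.r_star (star_mem hy), star_star]
    rw [hT2, hT2, e3]

theorem injE_alg {R : Type*} [Ring R] {a f k l : R} (h1 : f * a = a * f) (h2 : a * k = k * a)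
    (h3 : l * a = a * l) : a * ((f * k) * (l * f)) = ((f * k) * (l * f)) * a := by
  calc a * ((f * k) * (l * f)) = (a * f) * k * (l * f) := by simp only [mul_assoc]
    _ = f * (a * k) * (l * f) := by rw [← h1]; simp only [mul_assoc]
    _ = f * k * (a * l) * f := by rw [h2]; simp only [mul_assoc]
    _ = f * k * l * (a * f) := by rw [← h3]; simp only [mul_assoc]
    _ = ((f * k) * (l * f)) * a := by rw [← h1]; simp only [mul_assoc]

/-- the left case -/
theorem injE_left {a f : H →L[ℂ] H} (hf : star f = f) (hef : e * f = 0) (hca : f * a = a * f)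
    (has : star a = a) (hne : NoEigE e a) {k : H →L[ℂ] H} (hk : IsCompactOperator k)
    (hcomm : a * k = k * a) : f * k = 0 := by
  have hcs : star k * a = a * star k := by
    have h1 := congrArg star hcomm
    rw [star_mul, star_mul, has] at h1
    exact h1
  have hkc : IsCompactOperator (f * k : H →L[ℂ] H) := hk.clm_comp f
  have hPK : IsCompactOperator ((f * k) * star (f * k) : H →L[ℂ] H) :=
    hkc.comp_clm (star (f * k))
  have hPc : a * ((f * k) * star (f * k)) = ((f * k) * star (f * k)) * a := by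
    rw [star_mul, hf]
    exact injE_alg hca hcomm hcs
  have heP : e * ((f * k) * star (f * k)) = 0 := by
    rw [← mul_assoc, ← mul_assoc, hef, zero_mul, zero_mul]
  have hP := injE_op hne hPK (IsSelfAdjoint.mul_star_self _) hPc heP
  have h1 := CStarRing.norm_self_mul_star (x := f * k)
  rw [hP, norm_zero] at h1
  exact norm_eq_zero.1 (mul_self_eq_zero.1 h1.symm)

/-- the right case -/
theorem injE_right {a f : H →L[ℂ] H} (hf : star f = f) (hef : e * f = 0) (hca : f * a = a * f)
    (has : star a = a) (hne : NoEigE e a) {k : H →L[ℂ] H} (hk : IsCompactOperator k)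
    (hcomm : a * k = k * a) : k * f = 0 := by
  have hcs : star k * a = a * star k := by
    have h1 := congrArg star hcomm
    rw [star_mul, star_mul, has] at h1
    exact h1
  have hkc : IsCompactOperator (k * f : H →L[ℂ] H) := hk.comp_clm f
  have hPK : IsCompactOperator (star (k * f) * (k * f) : H →L[ℂ] H) :=
    hkc.clm_comp (star (k * f))
  have hPc : a * (star (k * f) * (k * f)) = (star (k * f) * (k * f)) * a := by
    rw [star_mul, hf]
    exact injE_alg hca hcs.symm hcomm.symm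
  have heP : e * (star (k * f) * (k * f)) = 0 := by
    rw [star_mul, hf, ← mul_assoc, ← mul_assoc, ← mul_assoc, hef, zero_mul, zero_mul, zero_mul]
  have hP := injE_op hne hPK (IsSelfAdjoint.star_mul_self _) hPc heP
  have h1 := CStarRing.norm_star_mul_self (x := k * f)
  rw [hP, norm_zero] at h1
  exact norm_eq_zero.1 (mul_self_eq_zero.1 h1.symm)

theorem inj_of_noeigE (he : Cen S e) {a : H →L[ℂ] H} (haM : a ∈ S.M) (hsa : IsSelfAdjoint a)
    (hne : NoEigE e a) {κ : K} (h : S.l a κ = S.r a κ) :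
    S.l (1 - e) κ = 0 ∧ S.r (1 - e) κ = 0 := by
  obtain ⟨T, hTc, hT0, hTl, hTr⟩ := injE_data S
  have has : star a = a := hsa
  have hes : star e = e := he.proj.isSelfAdjoint
  have hee : e * e = e := he.proj.isIdempotentElem
  have h1e : star (1 - e) = 1 - e := by rw [star_sub, star_one, hes]
  have hea : e * a = a * e := he.central a haM
  have hca : (1 - e) * a = a * (1 - e) := by
    rw [sub_mul, mul_sub, one_mul, mul_one, hea]
  have he0 : e * (1 - e) = 0 := by rw [mul_sub, mul_one, hee, sub_self]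
  have hcomm : a * T κ = T κ * a := by
    rw [← hTl, ← hTr a haM, h]
  have h1m : (1 - e : H →L[ℂ] H) ∈ S.M := sub_mem (one_mem _) he.mem
  constructor
  · apply hT0
    rw [hTl]
    exact injE_left h1e he0 hca has hne (hTc κ) hcomm
  · apply hT0
    rw [hTr _ h1m]
    exact injE_right h1e he0 hca has hne (hTc κ) hcomm

end

end Pool.H62.MC
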