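import Pool.Agent.H62.MC.Exp
import Pool.Agent.H62.UC.Tcomp

/-!
# LETTA: weakly null exponentials

PROOF. `lett_finite`: let `J` be the conjugation (`exists_J S.M.toStarSubalgebra S.Ω S.tv`), for
`v = uexp s a`: `|⟪η, v ξ⟫|² = ⟪tp η (J η), l v (r v* (tp ξ (J ξ)))⟫` because
`⟪J η, ρ(v*) J ξ⟫ = ⟪J η, J (v ξ)⟫ = ⟪v ξ, η⟫` (`ρ(v*) J ω = J (v ω)`, as in INJ: on `ω = x Ω`, density).
Let `E = PiLp 2 (fun _ : Fin n => K)`, `s = {(l v (r v* (tp (ξ i) (J (ξ i)))))_i : v = uexp t a}`, and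
let `v₀` be the element of `TCOMP_min` (UC/Tcomp) for `s`; it is fixed by the componentwise
contractions `l u r u*`, `u = uexp t a`, (`s` is invariant: `uexp_add`, `r` antimultiplicative), so
each component satisfies `l u κ = r u κ` for `u = uexp t a`, all `t`; derivative at `0`
(`uexp_deriv`) gives `l a κ = r a κ`, so `κ = 0`: `v₀ = 0`.  If `∑ |⟪η i, v (ξ i)⟫|² ≥ τ²` for all
`v`, then `s` is in the closed convex set `{x | τ² ≤ re ∑ ⟪tp (η i) (J (η i)), x i⟫}`, which would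
contain `0`: contradiction.
`exists_lett`: `F = ⨅ (q : (H × H) × {τ : ℝ // 0 < τ}), 𝓟 {v | (∃ t, v = uexp t a) ∧ ‖⟪q.1.2, v q.1.1⟫‖ < τ}`;
`F.NeBot` by `lett_finite` (finite intersections are nonempty); membership: `uexp_mem`,
`uexp_unitary`, `star_uexp`.
-/

namespace Pool.H62.MC

open scoped InnerProductSpace TensorProduct ComplexConjugate
open Filter Topology Pool.H62.UC

noncomputable section

variable {H : Type*} [NormedAddCommGroup H] [InnerProductSpace ℂ H] [CompleteSpace H]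
variable {K : Type*} [NormedAddCommGroup K] [InnerProductSpace ℂ K] [CompleteSpace K]

variable {S : Std H K} {Gr : Submodule ℂ ((H →L[ℂ] H) × K)}

theorem lettA_mem (S : Std H K) {x : H →L[ℂ] H} (hx : x ∈ S.M) (θ : ℝ) : uexp θ x ∈ S.M := by
  rw [← VonNeumannAlgebra.commutant_commutant S.M, VonNeumannAlgebra.mem_commutant_iff]
  intro g hg
  rw [VonNeumannAlgebra.mem_commutant_iff] at hg
  have h1 : Commute g ((Complex.I * (θ : ℂ)) • x) := by
    refine Commute.smul_right ?_ _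
    exact (hg x hx).symm
  exact h1.exp_right

theorem lettA_J (S : Std H K) : ∃ J : H → H, (∀ ζ ω, ⟪J ζ, J ω⟫_ℂ = ⟪ω, ζ⟫_ℂ) ∧
    ∀ x ∈ S.M, ∀ ω, J (x ω) = S.ρ (star x) (J ω) := by
  obtain ⟨J, hadd, -, hnorm, -, hJin, hJdc, -⟩ := exists_J S.M.toStarSubalgebra S.Ω S.tv
  have hJM : ∀ x ∈ S.M, J (x S.Ω) = (star x) S.Ω := fun x hx =>
    hJdc x (Set.subset_centralizer_centralizer hx)
  have hJc : Continuous J := TCOMP_conj_left J hadd hnorm
  refine ⟨J, hJin, fun x hx ω => ?_⟩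
  refine S.tv.cyclic.induction (P := fun ω => J (x ω) = S.ρ (star x) (J ω)) ?_ ?_ ω
  · rintro ξ ⟨y, hy, rfl⟩
    have h1 : x (y S.Ω) = (x * y) S.Ω := rfl
    rw [h1, hJM _ (mul_mem hx hy), hJM _ hy, S.ρ_apply _ (star_mem hy) _ (star_mem hx),
      star_mul]
  · exact isClosed_eq (hJc.comp x.continuous) ((S.ρ (star x)).continuous.comp hJc)

theorem lettA_comm {a : H →L[ℂ] H} (haM : a ∈ S.M) (κ : K)
    (h : ∀ t : ℝ, S.l (uexp t a) κ = S.r (uexp t a) κ) : S.l a κ = S.r a κ := by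
  have h1 : Tendsto (fun θ : ℝ => 2 * ‖((Complex.I * (θ : ℂ))⁻¹) • (uexp θ a - 1) - a‖ * ‖κ‖)
      (𝓝[>] 0) (𝓝 (2 * 0 * ‖κ‖)) :=
    ((tendsto_iff_norm_sub_tendsto_zero.1 (uexp_deriv a)).const_mul 2).mul_const ‖κ‖
  rw [mul_zero, zero_mul] at h1
  have h2 : ∀ θ : ℝ, ‖S.l a κ - S.r a κ‖ ≤
      2 * ‖((Complex.I * (θ : ℂ))⁻¹) • (uexp θ a - 1) - a‖ * ‖κ‖ := by
    intro θ
    set x : H →L[ℂ] H := ((Complex.I * (θ : ℂ))⁻¹) • (uexp θ a - 1) with hx
    have hu : uexp θ a ∈ S.M := lettA_mem S haM θ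
    have hxM : x ∈ S.M := S.smul_mem _ (sub_mem hu S.one_mem)
    have e1 : S.l x κ = S.r x κ := by
      rw [hx, S.l_smul, S.r_smul _ (sub_mem hu S.one_mem), S.l_sub, S.r_sub hu S.one_mem,
        S.l_one, S.r_one]
      change ((Complex.I * (θ : ℂ))⁻¹) • (S.l (uexp θ a) κ - κ) =
        ((Complex.I * (θ : ℂ))⁻¹) • (S.r (uexp θ a) κ - κ)
      rw [h θ]
    have e2 : S.l a κ - S.r a κ = S.r (x - a) κ - S.l (x - a) κ := by
      rw [S.r_sub hxM haM, S.l_sub]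
      change _ = (S.r x κ - S.r a κ) - (S.l x κ - S.l a κ)
      rw [e1]
      abel
    have e3 : ‖S.r (x - a) κ‖ ≤ ‖x - a‖ * ‖κ‖ :=
      (S.r (x - a)).le_of_opNorm_le (S.r_norm_le (sub_mem hxM haM)) κ
    have e4 : ‖S.l (x - a) κ‖ ≤ ‖x - a‖ * ‖κ‖ :=
      (S.l (x - a)).le_of_opNorm_le (S.l_norm_le (x - a)) κ
    rw [e2]
    refine (norm_sub_le _ _).trans ?_
    linarith
  have h3 : ‖S.l a κ - S.r a κ‖ ≤ 0 := ge_of_tendsto' h1 h2
  exact sub_eq_zero.1 (norm_le_zero_iff.1 h3)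

theorem lettA_U (A : K →L[ℂ] K) (hA : ∀ κ, ‖A κ‖ ≤ ‖κ‖) (n : ℕ) :
    ∃ U : PiLp 2 (fun _ : Fin n => K) →L[ℂ] PiLp 2 (fun _ : Fin n => K),
      (∀ x, ‖U x‖ ≤ ‖x‖) ∧ ∀ x i, U x i = A (x i) := by
  let U₀ : PiLp 2 (fun _ : Fin n => K) →ₗ[ℂ] PiLp 2 (fun _ : Fin n => K) :=
    { toFun := fun x => WithLp.toLp 2 (fun i => A (x i))
      map_add' := fun x y => by
        ext i
        change A (x i + y i) = A (x i) + A (y i)
        exact map_add _ _ _
      map_smul' := fun c x => by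
        ext i
        change A (c • x i) = c • A (x i)
        exact map_smul _ _ _ }
  have hU₀ : ∀ x i, U₀ x i = A (x i) := fun x i => rfl
  have hn : ∀ x, ‖U₀ x‖ ≤ ‖x‖ := by
    intro x
    have h1 : ‖U₀ x‖ ^ 2 ≤ ‖x‖ ^ 2 := by
      rw [PiLp.norm_sq_eq_of_L2, PiLp.norm_sq_eq_of_L2]
      refine Finset.sum_le_sum fun i _ => ?_
      rw [hU₀]
      exact pow_le_pow_left₀ (norm_nonneg _) (hA _) 2
    exact (pow_le_pow_iff_left₀ (norm_nonneg _) (norm_nonneg _) two_ne_zero).1 h1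
  refine ⟨U₀.mkContinuous 1 (fun x => by rw [one_mul]; exact hn x), hn, hU₀⟩

theorem lett_finite {a : H →L[ℂ] H} (haM : a ∈ S.M) (hsa : IsSelfAdjoint a)
    (hinj : ∀ κ : K, S.l a κ = S.r a κ → κ = 0) (n : ℕ) (ξ η : Fin n → H) {τ : ℝ} (hτ : 0 < τ) :
    ∃ t : ℝ, ∀ i, ‖⟪η i, uexp t a (ξ i)⟫_ℂ‖ < τ := by
  obtain ⟨J, hJin, hJl⟩ := lettA_J S
  by_contra hcon
  push Not at hcon
  set κ : ℝ → PiLp 2 (fun _ : Fin n => K) := fun t =>
    WithLp.toLp 2 (fun i => S.T.tp (uexp t a (ξ i)) (J (uexp t a (ξ i)))) with hκ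
  have hκi : ∀ t i, κ t i = S.T.tp (uexp t a (ξ i)) (J (uexp t a (ξ i))) := fun t i => rfl
  obtain ⟨v, hmem, hfix⟩ := TCOMP_min (Set.range κ) ⟨κ 0, 0, rfl⟩
  have huU : ∀ t : ℝ, uexp t a ∈ UM S := fun t => ⟨lettA_mem S haM t, uexp_unitary t a hsa⟩
  -- the vector `v` is zero
  have hfx : ∀ (t : ℝ) i, S.l (uexp t a) (S.r (star (uexp t a)) (v i)) = v i := by
    intro t i
    have hu := huU t
    obtain ⟨U, hU1, hU2⟩ := lettA_U (S.l (uexp t a) * S.r (star (uexp t a))) (by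
      intro k
      have g1 : ‖S.l (uexp t a) (S.r (star (uexp t a)) k)‖ ≤ 1 * ‖S.r (star (uexp t a)) k‖ :=
        (S.l (uexp t a)).le_of_opNorm_le ((S.l_norm_le _).trans (UM_norm S hu)) _
      have g2 : ‖S.r (star (uexp t a)) k‖ ≤ 1 * ‖k‖ :=
        (S.r (star (uexp t a))).le_of_opNorm_le
          ((S.r_norm_le (star_mem hu.1)).trans (UM_norm S (UM_star S hu))) _
      rw [one_mul] at g1 g2
      exact g1.trans g2) n
    have h1 := hfix U hU1 (by
      rintro x ⟨s, rfl⟩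
      refine ⟨t + s, ?_⟩
      ext i
      rw [hU2, hκi, hκi, uexp_add]
      change _ = S.l (uexp t a) (S.r (star (uexp t a))
        (S.T.tp (uexp s a (ξ i)) (J (uexp s a (ξ i)))))
      rw [S.r_tp, S.l_tp, ← hJl _ hu.1]
      rfl)
    have h2 := congrArg (fun x : PiLp 2 (fun _ : Fin n => K) => x i) h1
    simp only [hU2] at h2
    exact h2
  have hv0 : ∀ i, v i = 0 := by
    intro i
    refine hinj _ (lettA_comm haM _ fun t => ?_)
    have hu := huU t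
    have h1 := hfx (-t) i
    rw [← star_uexp hsa t, star_star] at h1
    have h2 : S.l (uexp t a) (S.l (star (uexp t a)) (S.r (uexp t a) (v i))) =
        S.r (uexp t a) (v i) := by
      have e : S.l (uexp t a) (S.l (star (uexp t a)) (S.r (uexp t a) (v i))) =
        (S.l (uexp t a) * S.l (star (uexp t a))) (S.r (uexp t a) (v i)) := rfl
      rw [e, ← S.l_mul, (Unitary.mem_iff.1 hu.2).2, S.l_one]
      rfl
    rw [h1] at h2
    exact h2
  -- the contradiction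
  have key : v ∈ {x : PiLp 2 (fun _ : Fin n => K) |
      τ ^ 2 ≤ ∑ i, (⟪S.T.tp (η i) (J (η i)), x i⟫_ℂ).re} := by
    refine hmem _ ?_ ?_ ?_
    · intro x hx y hy c d hc hd hcd
      simp only [Set.mem_ofPred_eq] at hx hy ⊢
      have e1 : ∀ i, (⟪S.T.tp (η i) (J (η i)), (c • x + d • y) i⟫_ℂ).re =
          c * (⟪S.T.tp (η i) (J (η i)), x i⟫_ℂ).re +
            d * (⟪S.T.tp (η i) (J (η i)), y i⟫_ℂ).re := by
        intro i
        have e2 : (c • x + d • y) i = (c : ℂ) • x i + (d : ℂ) • y i := rfl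
        rw [e2, inner_add_right, inner_smul_right, inner_smul_right, Complex.add_re,
          Complex.re_ofReal_mul, Complex.re_ofReal_mul]
      simp only [e1]
      rw [Finset.sum_add_distrib, ← Finset.mul_sum, ← Finset.mul_sum]
      have h1 : τ ^ 2 = c * τ ^ 2 + d * τ ^ 2 := by
        rw [← add_mul, hcd, one_mul]
      rw [h1]
      exact add_le_add (mul_le_mul_of_nonneg_left hx hc) (mul_le_mul_of_nonneg_left hy hd)
    · refine isClosed_le continuous_const (continuous_finsetSum _ fun i _ => ?_)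
      apply Complex.continuous_re.comp
      exact Continuous.inner continuous_const (PiLp.continuous_apply 2 _ i)
    · rintro x ⟨t, rfl⟩
      simp only [Set.mem_ofPred_eq]
      have hterm : ∀ i, (⟪S.T.tp (η i) (J (η i)), κ t i⟫_ℂ).re = ‖⟪η i, uexp t a (ξ i)⟫_ℂ‖ ^ 2 := by
        intro i
        rw [hκi, S.T.inner_tp, hJin, ← inner_conj_symm (uexp t a (ξ i)) (η i), Complex.mul_conj,
          Complex.ofReal_re, Complex.normSq_eq_norm_sq]
      simp only [hterm]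
      obtain ⟨i, hi⟩ := hcon t
      refine (pow_le_pow_left₀ hτ.le hi 2).trans ?_
      exact Finset.single_le_sum (f := fun i => ‖⟪η i, uexp t a (ξ i)⟫_ℂ‖ ^ 2)
        (fun i _ => sq_nonneg _) (Finset.mem_univ i)
  simp only [Set.mem_ofPred_eq, hv0, inner_zero_right, Complex.zero_re,
    Finset.sum_const_zero] at key
  have : 0 < τ ^ 2 := by positivity
  linarith

theorem exists_lett {a : H →L[ℂ] H} (haM : a ∈ S.M) (hsa : IsSelfAdjoint a)
    (hinj : ∀ κ : K, S.l a κ = S.r a κ → κ = 0) (hGr : ∀ s : ℝ, (uexp s a, (0 : K)) ∈ Gr) :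
    ∃ F : Filter (H →L[ℂ] H), F.NeBot ∧ Lett S Gr F := by
  let g : ℝ → (H × H → ℂ) := fun t q => ⟪q.2, uexp t a q.1⟫_ℂ
  have hg : NeBot (comap g (𝓝 0)) := by
    refine comap_neBot fun s hs => ?_
    rw [nhds_pi, mem_pi] at hs
    obtain ⟨I, hI, t, ht, hsub⟩ := hs
    have h1 : ∀ᶠ τ : ℝ in 𝓝[>] 0, ∀ q ∈ I, Metric.ball (0 : ℂ) τ ⊆ t q := by
      rw [eventually_all_finite hI]
      intro q _
      obtain ⟨ε, hε, hb⟩ := Metric.mem_nhds_iff.1 (ht q)
      filter_upwards [mem_nhdsWithin_of_mem_nhds (Iio_mem_nhds hε)] with τ hτ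
      exact (Metric.ball_subset_ball (le_of_lt hτ)).trans hb
    obtain ⟨τ, h2, hτ⟩ := (h1.and self_mem_nhdsWithin).exists
    let e := hI.toFinset.equivFin
    obtain ⟨r, hr⟩ := lett_finite haM hsa hinj hI.toFinset.card
      (fun i => (e.symm i).1.1) (fun i => (e.symm i).1.2) (Set.mem_Ioi.1 hτ)
    refine ⟨r, hsub fun q hq => h2 q hq ?_⟩
    have h3 := hr (e ⟨q, hI.mem_toFinset.2 hq⟩)
    rw [Equiv.symm_apply_apply] at h3
    rw [mem_ball_zero_iff]
    exact h3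
  refine ⟨map (fun t : ℝ => uexp t a) (comap g (𝓝 0)), inferInstance, ?_, ?_⟩
  · rw [eventually_map]
    refine Eventually.of_forall fun t => ⟨⟨lettA_mem S haM t, uexp_unitary t a hsa⟩, hGr t, ?_⟩
    rw [star_uexp hsa]
    exact hGr (-t)
  · intro ξ η
    rw [tendsto_map'_iff]
    have h1 : Tendsto (fun x : H × H → ℂ => x (ξ, η)) (𝓝 0) (𝓝 ((0 : H × H → ℂ) (ξ, η))) :=
      (continuous_apply (ξ, η)).tendsto 0
    exact h1.comp tendsto_comap

end

end Pool.H62.MC
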