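import Pool.Agent.H62.MC.DefsE
import Pool.Agent.H62.MC.LettA

/-!
# LETTEX: exponentials tending weakly to `e`

PROOF. `lett_finiteE`: copy of `lett_finite` (`MC/LettA.lean`): the vectors `ξ i` are in `(1-e) H`, so the
`tp (ξ i) (J (ξ i))` and the whole closed convex hull satisfy `l (1-e) κ = κ`
(`l (1-e)` commutes with `l v`, `r v*`: central), and the fixed vectors `κ` are zero by
`hinj`: `κ = l (1-e) κ = 0`.
`exists_lettE`: first, for finitely many pairs `(ξ i, η i)` and `τ > 0` there is `t` with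
`‖⟪η i, uexp t a (ξ i)⟫ - ⟪η i, e (ξ i)⟫‖ < τ` for all `i`.  Choose inductively
`t_0, t_1, ...` such that for all `l < k` and all `i`:
`‖⟪η i, uexp (t_k) a (uexp (-t_l) a ((1-e) (ξ i)))⟫‖ < τ/2` (`lett_finiteE` for the vectors
`uexp (-t_l) a ((1-e) (ξ i))`, `l < k`, `(1-e)` central; `exists_seq_of_forall_finset_exists` as in
UC/DecB.lean, or strong recursion).  By `hcomp` the sequence `uexp (t_k) a (e Ω)` has a convergent
subsequence, so for every `δ > 0` there are `l < k` with `‖uexp (t_k) a (e Ω) - uexp (t_l) a (e Ω)‖ < δ`.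
Put `t = t_k - t_l`: `u = uexp t a` satisfies `‖u e Ω - e Ω‖ < δ` (`uexp_add`, unitary), and for
`x ∈ M`: `u e - e ∈ M`, `‖(u e - e) x Ω‖ ≤ ‖x‖ ‖(u e - e) Ω‖` (`S.norm_mul_right`), so for given `ξ i`
(approximated by `x_i Ω`, `‖u e - e‖ ≤ 2`) and small `δ`: `‖(u e - e) ξ i‖` is small
(`S.small_of` in UC/BasC.lean is this statement).  Then
`⟪η, u ξ⟫ - ⟪η, e ξ⟫ = ⟪η, u (1-e) ξ⟫ + ⟪η, (u e - e) ξ⟫`.
Then `F = ⨅ q, 𝓟 {...}` as in `exists_lett`.
-/

namespace Pool.H62.MC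

open scoped InnerProductSpace TensorProduct ComplexConjugate
open Filter Topology Pool.H62.UC

noncomputable section

variable {H : Type*} [NormedAddCommGroup H] [InnerProductSpace ℂ H] [CompleteSpace H]
variable {K : Type*} [NormedAddCommGroup K] [InnerProductSpace ℂ K] [CompleteSpace K]

variable {S : Std H K} {Gr : Submodule ℂ ((H →L[ℂ] H) × K)} {e : H →L[ℂ] H}

theorem lett_finiteE (he : Cen S e) {a : H →L[ℂ] H} (haM : a ∈ S.M) (hsa : IsSelfAdjoint a)
    (hinj : ∀ κ : K, S.l a κ = S.r a κ → S.l (1 - e) κ = 0) (n : ℕ) (ξ η : Fin n → H)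
    (hξ : ∀ i, e (ξ i) = 0) {τ : ℝ} (hτ : 0 < τ) :
    ∃ t : ℝ, ∀ i, ‖⟪η i, uexp t a (ξ i)⟫_ℂ‖ < τ := by
  obtain ⟨J, hJin, hJl⟩ := lettA_J S
  by_contra hcon
  push Not at hcon
  set κ : ℝ → PiLp 2 (fun _ : Fin n => K) := fun t =>
    WithLp.toLp 2 (fun i => S.T.tp (uexp t a (ξ i)) (J (uexp t a (ξ i)))) with hκ
  have hκi : ∀ t i, κ t i = S.T.tp (uexp t a (ξ i)) (J (uexp t a (ξ i))) := fun t i => rfl
  obtain ⟨v, hmem, hfix⟩ := TCOMP_min (Set.range κ) ⟨κ 0, 0, rfl⟩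
  have huU : ∀ t : ℝ, uexp t a ∈ UM S := fun t => ⟨lettA_mem S haM t, uexp_unitary t a hsa⟩
  -- the vector `v` is zero
  have hfx : ∀ (t : ℝ) i, S.l (uexp t a) (S.r (star (uexp t a)) (v i)) = v i := by
    intro t i
    have hu := huU t
    obtain ⟨U, hU1, hU2⟩ := lettA_U (S.l (uexp t a) * S.r (star (uexp t a))) (by
      intro k
      have g1 : ‖S.l (uexp t a) (S.r (star (uexp t a)) k)‖ ≤ 1 * ‖S.r (star (uexp t a)) k‖ :=
        (S.l (uexp t a)).le_of_opNorm_le ((S.l_norm_le _).trans (UM_norm S hu)) _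
      have g2 : ‖S.r (star (uexp t a)) k‖ ≤ 1 * ‖k‖ :=
        (S.r (star (uexp t a))).le_of_opNorm_le
          ((S.r_norm_le (star_mem hu.1)).trans (UM_norm S (UM_star S hu))) _
      rw [one_mul] at g1 g2
      exact g1.trans g2) n
    have h1 := hfix U hU1 (by
      rintro x ⟨s, rfl⟩
      refine ⟨t + s, ?_⟩
      ext i
      rw [hU2, hκi, hκi, uexp_add]
      change _ = S.l (uexp t a) (S.r (star (uexp t a))
        (S.T.tp (uexp s a (ξ i)) (J (uexp s a (ξ i)))))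
      rw [S.r_tp, S.l_tp, ← hJl _ hu.1]
      rfl)
    have h2 := congrArg (fun x : PiLp 2 (fun _ : Fin n => K) => x i) h1
    simp only [hU2] at h2
    exact h2
  -- the vectors are in the range of `l (1 - e)`
  have hv1 : v ∈ {x : PiLp 2 (fun _ : Fin n => K) | ∀ i, S.l (1 - e) (x i) = x i} := by
    refine hmem _ ?_ ?_ ?_
    · intro x hx y hy c d hc hd hcd i
      have e2 : (c • x + d • y) i = (c : ℂ) • x i + (d : ℂ) • y i := rfl
      rw [e2, map_add, map_smul, map_smul, hx i, hy i]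
    · simp only [Set.ofPred_forall]
      refine isClosed_iInter fun i => ?_
      exact isClosed_eq ((S.l (1 - e)).continuous.comp (PiLp.continuous_apply 2 _ i))
        (PiLp.continuous_apply 2 _ i)
    · rintro x ⟨t, rfl⟩ i
      have h1 : e (uexp t a (ξ i)) = 0 := by
        have h2 := congrArg (fun A : H →L[ℂ] H => A (ξ i)) (he.central _ (huU t).1)
        change e (uexp t a (ξ i)) = uexp t a (e (ξ i)) at h2
        rw [h2, hξ i, map_zero]
      have h3 : (1 - e) (uexp t a (ξ i)) = uexp t a (ξ i) := by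
        change uexp t a (ξ i) - e (uexp t a (ξ i)) = _
        rw [h1, sub_zero]
      rw [hκi, S.l_tp, h3]
  have hv0 : ∀ i, v i = 0 := by
    intro i
    rw [← hv1 i]
    refine hinj _ (lettA_comm haM _ fun t => ?_)
    have hu := huU t
    have h1 := hfx (-t) i
    rw [← star_uexp hsa t, star_star] at h1
    have h2 : S.l (uexp t a) (S.l (star (uexp t a)) (S.r (uexp t a) (v i))) =
        S.r (uexp t a) (v i) := by
      have e : S.l (uexp t a) (S.l (star (uexp t a)) (S.r (uexp t a) (v i))) =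
        (S.l (uexp t a) * S.l (star (uexp t a))) (S.r (uexp t a) (v i)) := rfl
      rw [e, ← S.l_mul, (Unitary.mem_iff.1 hu.2).2, S.l_one]
      rfl
    rw [h1] at h2
    exact h2
  -- the contradiction
  have key : v ∈ {x : PiLp 2 (fun _ : Fin n => K) |
      τ ^ 2 ≤ ∑ i, (⟪S.T.tp (η i) (J (η i)), x i⟫_ℂ).re} := by
    refine hmem _ ?_ ?_ ?_
    · intro x hx y hy c d hc hd hcd
      simp only [Set.mem_ofPred_eq] at hx hy ⊢
      have e1 : ∀ i, (⟪S.T.tp (η i) (J (η i)), (c • x + d • y) i⟫_ℂ).re =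
          c * (⟪S.T.tp (η i) (J (η i)), x i⟫_ℂ).re +
            d * (⟪S.T.tp (η i) (J (η i)), y i⟫_ℂ).re := by
        intro i
        have e2 : (c • x + d • y) i = (c : ℂ) • x i + (d : ℂ) • y i := rfl
        rw [e2, inner_add_right, inner_smul_right, inner_smul_right, Complex.add_re,
          Complex.re_ofReal_mul, Complex.re_ofReal_mul]
      simp only [e1]
      rw [Finset.sum_add_distrib, ← Finset.mul_sum, ← Finset.mul_sum]
      have h1 : τ ^ 2 = c * τ ^ 2 + d * τ ^ 2 := by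
        rw [← add_mul, hcd, one_mul]
      rw [h1]
      exact add_le_add (mul_le_mul_of_nonneg_left hx hc) (mul_le_mul_of_nonneg_left hy hd)
    · refine isClosed_le continuous_const (continuous_finsetSum _ fun i _ => ?_)
      apply Complex.continuous_re.comp
      exact Continuous.inner continuous_const (PiLp.continuous_apply 2 _ i)
    · rintro x ⟨t, rfl⟩
      simp only [Set.mem_ofPred_eq]
      have hterm : ∀ i, (⟪S.T.tp (η i) (J (η i)), κ t i⟫_ℂ).re = ‖⟪η i, uexp t a (ξ i)⟫_ℂ‖ ^ 2 := by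
        intro i
        rw [hκi, S.T.inner_tp, hJin, ← inner_conj_symm (uexp t a (ξ i)) (η i), Complex.mul_conj,
          Complex.ofReal_re, Complex.normSq_eq_norm_sq]
      simp only [hterm]
      obtain ⟨i, hi⟩ := hcon t
      refine (pow_le_pow_left₀ hτ.le hi 2).trans ?_
      exact Finset.single_le_sum (f := fun i => ‖⟪η i, uexp t a (ξ i)⟫_ℂ‖ ^ 2)
        (fun i _ => sq_nonneg _) (Finset.mem_univ i)
  simp only [Set.mem_ofPred_eq, hv0, inner_zero_right, Complex.zero_re,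
    Finset.sum_const_zero] at key
  have : 0 < τ ^ 2 := by positivity
  linarith

/-- `e` commutes with the exponentials and `e (1 - e) = 0` -/
theorem lettEx_zero (he : Cen S e) {a : H →L[ℂ] H} (haM : a ∈ S.M) (t : ℝ) (ω : H) :
    e (uexp t a ((1 - e) ω)) = 0 := by
  have h2 := congrArg (fun A : H →L[ℂ] H => A ((1 - e) ω)) (he.central _ (lettA_mem S haM t))
  change e (uexp t a ((1 - e) ω)) = uexp t a (e ((1 - e) ω)) at h2
  have h3 : e ((1 - e) ω) = 0 := by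
    change e (ω - e ω) = 0
    rw [map_sub]
    have h4 := congrArg (fun A : H →L[ℂ] H => A ω) he.proj.isIdempotentElem
    change e (e ω) = e ω at h4
    rw [h4, sub_self]
  rw [h2, h3, map_zero]

theorem lettEx_norm (he : Cen S e) : ‖e‖ ≤ 1 := by
  have h1 : ‖e‖ * ‖e‖ = ‖e‖ := by
    have h2 := CStarRing.norm_star_mul_self (x := e)
    rw [he.proj.isSelfAdjoint.star_eq, he.proj.isIdempotentElem.eq] at h2
    exact h2.symm
  by_contra h3
  push Not at h3
  nlinarith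

/-- the finite version -/
theorem lettEx_finite (he : Cen S e) {a : H →L[ℂ] H} (haM : a ∈ S.M) (hsa : IsSelfAdjoint a)
    (hinj : ∀ κ : K, S.l a κ = S.r a κ → S.l (1 - e) κ = 0)
    (hcomp : IsCompact (closure {ξ : H | ∃ u ∈ UM S, u (e S.Ω) = ξ}))
    (n : ℕ) (ξ η : Fin n → H) {τ : ℝ} (hτ : 0 < τ) :
    ∃ t : ℝ, ∀ i, ‖⟪η i, uexp t a (ξ i)⟫_ℂ - ⟪η i, e (ξ i)⟫_ℂ‖ < τ := by
  have huU : ∀ t : ℝ, uexp t a ∈ UM S := fun t => ⟨lettA_mem S haM t, uexp_unitary t a hsa⟩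
  -- the number `δ`
  have h1 : ∀ᶠ δ : ℝ in 𝓝[>] 0, ∀ i, ∀ x ∈ S.M, ‖x‖ ≤ 2 → ‖x S.Ω‖ ≤ δ →
      ‖x (ξ i)‖ ≤ τ / (2 * (‖η i‖ + 1)) := by
    rw [eventually_all]
    intro i
    obtain ⟨δ, hδ, h2⟩ := S.small_of 2 (ξ i)
      (show 0 < τ / (2 * (‖η i‖ + 1)) from by positivity)
    filter_upwards [mem_nhdsWithin_of_mem_nhds (Iio_mem_nhds hδ)] with δ' hδ' x hx hx2 hxΩ
    exact h2 x hx hx2 (hxΩ.trans (le_of_lt hδ'))
  obtain ⟨δ, h2, hδ⟩ := (h1.and self_mem_nhdsWithin).exists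
  have hδ0 : 0 < δ := hδ
  -- the sequence
  obtain ⟨f, -, hf⟩ := exists_seq_of_forall_finset_exists (fun _ : ℝ => True)
    (fun s t : ℝ => ∀ i, ‖⟪η i, uexp t a (uexp (-s) a ((1 - e) (ξ i)))⟫_ℂ‖ < τ / 2) (by
      intro s _
      let ee := (Fintype.equivFin ({x // x ∈ s} × Fin n))
      obtain ⟨t, ht⟩ := lett_finiteE he haM hsa hinj _
        (fun j => uexp (-((ee.symm j).1 : ℝ)) a ((1 - e) (ξ (ee.symm j).2)))
        (fun j => η (ee.symm j).2) (fun j => lettEx_zero he haM _ _)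
        (show (0 : ℝ) < τ / 2 from by positivity)
      refine ⟨t, trivial, fun x hx i => ?_⟩
      have h3 := ht (ee (⟨x, hx⟩, i))
      simp only [Equiv.symm_apply_apply] at h3
      exact h3)
  -- compactness
  obtain ⟨z, -, φ, hφ, hz⟩ := hcomp.tendsto_subseq (x := fun k => uexp (f k) a (e S.Ω))
    (fun k => subset_closure ⟨_, huU (f k), rfl⟩)
  have hc := hz.cauchySeq
  obtain ⟨N, hN⟩ := Metric.cauchySeq_iff.1 hc δ hδ0
  have hN1 : dist (uexp (f (φ (N + 1))) a (e S.Ω)) (uexp (f (φ N)) a (e S.Ω)) < δ :=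
    hN (N + 1) (Nat.le_succ N) N le_rfl
  have hr := hf (φ N) (φ (N + 1)) (hφ (Nat.lt_succ_self N))
  generalize f (φ N) = s at hN1 hr
  generalize f (φ (N + 1)) = t at hN1 hr
  refine ⟨t + -s, fun i => ?_⟩
  have hu := huU (t + -s)
  -- the small element of `M`
  have hxM : uexp (t + -s) a * e - e ∈ S.M := sub_mem (mul_mem hu.1 he.mem) he.mem
  have hx2 : ‖uexp (t + -s) a * e - e‖ ≤ 2 := by
    have g1 : ‖uexp (t + -s) a * e‖ ≤ 1 := by
      refine (norm_mul_le _ _).trans ?_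
      exact mul_le_one₀ (UM_norm S hu) (norm_nonneg _) (lettEx_norm he)
    have g2 := lettEx_norm he
    refine (norm_sub_le _ _).trans ?_
    linarith
  have hxΩ : ‖(uexp (t + -s) a * e - e) S.Ω‖ ≤ δ := by
    have g1 : uexp s a ((uexp (t + -s) a * e - e) S.Ω) =
        uexp t a (e S.Ω) - uexp s a (e S.Ω) := by
      change uexp s a (uexp (t + -s) a (e S.Ω) - e S.Ω) = _
      rw [map_sub]
      have g2 : uexp s a (uexp (t + -s) a (e S.Ω)) = (uexp s a * uexp (t + -s) a) (e S.Ω) := rfl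
      rw [g2, ← uexp_add, show s + (t + -s) = t from by ring]
    have g3 : ‖uexp s a ((uexp (t + -s) a * e - e) S.Ω)‖ = ‖(uexp (t + -s) a * e - e) S.Ω‖ :=
      ContinuousLinearMap.norm_map_of_mem_unitary (huU s).2 _
    rw [← g3, g1, ← dist_eq_norm]
    exact hN1.le
  have hsm := h2 i _ hxM hx2 hxΩ
  have h5 : ⟪η i, uexp (t + -s) a (ξ i)⟫_ℂ - ⟪η i, e (ξ i)⟫_ℂ =
      ⟪η i, uexp t a (uexp (-s) a ((1 - e) (ξ i)))⟫_ℂ +
        ⟪η i, (uexp (t + -s) a * e - e) (ξ i)⟫_ℂ := by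
    have g1 : uexp t a (uexp (-s) a ((1 - e) (ξ i))) =
        uexp (t + -s) a (ξ i) - uexp (t + -s) a (e (ξ i)) := by
      have g2 : uexp t a (uexp (-s) a ((1 - e) (ξ i))) =
        (uexp t a * uexp (-s) a) ((1 - e) (ξ i)) := rfl
      rw [g2, ← uexp_add]
      change uexp (t + -s) a (ξ i - e (ξ i)) = _
      rw [map_sub]
    have g3 : (uexp (t + -s) a * e - e) (ξ i) = uexp (t + -s) a (e (ξ i)) - e (ξ i) := rfl
    rw [g1, g3, inner_sub_right, inner_sub_right]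
    ring
  have h6 : ‖⟪η i, (uexp (t + -s) a * e - e) (ξ i)⟫_ℂ‖ ≤ τ / 2 := by
    refine (norm_inner_le_norm _ _).trans ?_
    refine (mul_le_mul_of_nonneg_left hsm (norm_nonneg _)).trans ?_
    have g1 : 0 ≤ ‖η i‖ := norm_nonneg _
    rw [mul_div_assoc', div_le_div_iff₀ (by positivity) (by norm_num)]
    nlinarith
  rw [h5]
  refine (norm_add_le _ _).trans_lt ?_
  have h7 := hr i
  linarith

theorem exists_lettE (he : Cen S e) {a : H →L[ℂ] H} (haM : a ∈ S.M) (hsa : IsSelfAdjoint a)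
    (hinj : ∀ κ : K, S.l a κ = S.r a κ → S.l (1 - e) κ = 0)
    (hcomp : IsCompact (closure {ξ : H | ∃ u ∈ UM S, u (e S.Ω) = ξ}))
    (hGr : ∀ s : ℝ, (uexp s a, (0 : K)) ∈ Gr) :
    ∃ F : Filter (H →L[ℂ] H), F.NeBot ∧ LettE S Gr e F := by
  let g : ℝ → (H × H → ℂ) := fun t q => ⟪q.2, uexp t a q.1⟫_ℂ
  let y : H × H → ℂ := fun q => ⟪q.2, e q.1⟫_ℂ
  have hg : NeBot (comap g (𝓝 y)) := by
    refine comap_neBot fun s hs => ?_
    rw [nhds_pi, mem_pi] at hs
    obtain ⟨I, hI, t, ht, hsub⟩ := hs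
    have h1 : ∀ᶠ τ : ℝ in 𝓝[>] 0, ∀ q ∈ I, Metric.ball (y q) τ ⊆ t q := by
      rw [eventually_all_finite hI]
      intro q _
      obtain ⟨ε, hε, hb⟩ := Metric.mem_nhds_iff.1 (ht q)
      filter_upwards [mem_nhdsWithin_of_mem_nhds (Iio_mem_nhds hε)] with τ hτ
      exact (Metric.ball_subset_ball (le_of_lt hτ)).trans hb
    obtain ⟨τ, h2, hτ⟩ := (h1.and self_mem_nhdsWithin).exists
    let ee := hI.toFinset.equivFin
    obtain ⟨r, hr⟩ := lettEx_finite he haM hsa hinj hcomp hI.toFinset.card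
      (fun i => (ee.symm i).1.1) (fun i => (ee.symm i).1.2) (Set.mem_Ioi.1 hτ)
    refine ⟨r, hsub fun q hq => h2 q hq ?_⟩
    have h3 := hr (ee ⟨q, hI.mem_toFinset.2 hq⟩)
    rw [Equiv.symm_apply_apply] at h3
    rw [mem_ball_iff_norm]
    exact h3
  refine ⟨map (fun t : ℝ => uexp t a) (comap g (𝓝 y)), inferInstance, ?_, ?_⟩
  · rw [eventually_map]
    refine Eventually.of_forall fun t => ⟨⟨lettA_mem S haM t, uexp_unitary t a hsa⟩, hGr t, ?_⟩
    rw [star_uexp hsa]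
    exact hGr (-t)
  · intro ξ η
    rw [tendsto_map'_iff]
    have h1 : Tendsto (fun x : H × H → ℂ => x (ξ, η)) (𝓝 y) (𝓝 (y (ξ, η))) :=
      (continuous_apply (ξ, η)).tendsto y
    exact h1.comp tendsto_comap

end

end Pool.H62.MC
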