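import Pool.Agent.H62.MC.PairM
import Pool.Agent.H62.MC.CoreE
import Pool.Agent.H62.MC.InjE
import Pool.Agent.H62.MC.LettEx
import Pool.Agent.H62.MC.DiffDE
import Pool.Agent.H62.UC.Fin2

/-!
# PAIRE: a fraction implementing a measure-closable derivation, any finite `M`
-/

namespace Pool.H62.MC

open scoped InnerProductSpace TensorProduct ComplexConjugate
open Filter Topology Pool.H62.UC

noncomputable section

variable {H : Type*} [NormedAddCommGroup H] [InnerProductSpace ℂ H] [CompleteSpace H]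
variable {K : Type*} [NormedAddCommGroup K] [InnerProductSpace ℂ K] [CompleteSpace K]

variable {S : Std H K} {e : H →L[ℂ] H}

theorem br_closure (D : StarSubalgebra ℂ (H →L[ℂ] H)) (hD : ∀ x ∈ D, x ∈ S.M) (d : D →ₗ[ℂ] K)
    {A : K →L[ℂ] K} {β : K} (hA : ∀ x : D, A (d x) = br S (x : H →L[ℂ] H) β) :
    ∀ q ∈ Xd D d, A q.2 = br S q.1 β := by
  intro q hq
  have hqM := (Xd_mem hD hq).1
  obtain ⟨u, hu, hlim⟩ := mem_closure_iff_seq_limit.1 hq
  choose x hx using hu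
  have hlim1 : Tendsto (fun n => (x n : H →L[ℂ] H)) atTop (𝓝 q.1) := by
    have h1 := (continuous_fst.tendsto _).comp hlim
    refine h1.congr fun n => ?_
    simp [(hx n).2]
  have hlim2 : Tendsto (fun n => d (x n)) atTop (𝓝 q.2) := by
    have h1 := (continuous_snd.tendsto _).comp hlim
    refine h1.congr fun n => ?_
    simp [(hx n).2]
  have h1 := (A.continuous.tendsto _).comp hlim2
  have h2 := thetaA_cont (fun n => hD _ (x n).2) hqM hlim1 β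
  refine tendsto_nhds_unique h1 (h2.congr fun n => ?_)
  exact (hA (x n)).symm

theorem PP_PP (he : Cen S e) (κ : K) : PP S e (PP S e κ) = PP S e κ := by
  have h1 : S.l e * S.l e = S.l e := by rw [← S.l_mul, he.proj.isIdempotentElem]
  have h2 : S.r e * S.r e = S.r e := by
    rw [← S.r_mul he.mem he.mem, he.proj.isIdempotentElem]
  show S.l e (S.r e (S.l e (S.r e κ))) = S.l e (S.r e κ)
  rw [← S.lr_comm e e]
  have h3 : S.l e (S.l e (S.r e (S.r e κ))) = S.l e (S.r e (S.r e κ)) :=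
    congrArg (fun A : K →L[ℂ] K => A (S.r e (S.r e κ))) h1
  have h4 : S.r e (S.r e κ) = S.r e κ := congrArg (fun A : K →L[ℂ] K => A κ) h2
  rw [h3, h4]

theorem bv_br {κ : K} {x : H →L[ℂ] H} (hx : x ∈ S.M) (h : Bv S κ) : Bv S (br S x κ) := by
  unfold br
  rw [sub_eq_add_neg, ← neg_one_smul ℂ (S.r _ _)]
  exact bv_add (bv_l hx h) (bv_smul _ (bv_r hx h))

theorem br_add (x : H →L[ℂ] H) (κ κ' : K) : br S x (κ + κ') = br S x κ + br S x κ' := by
  unfold br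
  rw [map_add, map_add]
  abel

theorem br_sub (x : H →L[ℂ] H) (κ κ' : K) : br S x (κ - κ') = br S x κ - br S x κ' := by
  unfold br
  rw [map_sub, map_sub]
  abel

theorem theta_mainE (he : Cen S e)
    (hcomp : IsCompact (closure {ξ : H | ∃ u ∈ UM S, u (e S.Ω) = ξ}))
    (D : StarSubalgebra ℂ (H →L[ℂ] H)) (hD : ∀ x ∈ D, x ∈ S.M)
    (hdense : Dense {ξ : H | ∃ x ∈ D, x S.Ω = ξ}) (d : D →ₗ[ℂ] K)
    (leib : ∀ x y : D, d (x * y) = S.l (x : H →L[ℂ] H) (d y) + S.r (y : H →L[ℂ] H) (d x))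
    (hcl : MClos S D d)
    (happ : ∀ ε : ℝ, 0 < ε → ∃ C : ℝ, ∀ g ∈ S.M, ‖g‖ ≤ 1 →
      ∃ x : D, ‖(x : H →L[ℂ] H) S.Ω - g S.Ω‖ ≤ ε ∧ ‖d x‖ ≤ C)
    {q : (H →L[ℂ] H) × K} (hq : q ∈ Xd D d) (hne : NoEigE e q.1)
    {B : K →L[ℂ] K} (hB : B ∈ (NK S).commutant) (hBi : ∀ ξ, B ξ = 0 → ξ = 0) {c : K}
    (hBc : PP S e (B q.2 - br S q.1 c) = B q.2 - br S q.1 c)
    {A3 : K →L[ℂ] K} (hA3 : A3 ∈ (NK S).commutant)
    (kA3 : ∀ κ, A3 κ = 0 → S.l e (S.r e κ) = 0) {β3 : K}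
    (q3 : ∀ x : D, A3 (d x) = br S (x : H →L[ℂ] H) β3)
    (b : D) (hb : IsSelfAdjoint (b : H →L[ℂ] H)) :
    PP S e (B (d b) - br S (b : H →L[ℂ] H) c) = B (d b) - br S (b : H →L[ℂ] H) c := by
  obtain ⟨haM, hsa⟩ := Xd_mem hD hq
  have hbM := hD b b.2
  obtain ⟨g1, hg1, hg1i, hg1b⟩ := exists_bv S c
  obtain ⟨g2, hg2, hg2i, hg2b⟩ := exists_bv S (g1 (B (d b)))
  obtain ⟨g3, hg3, hg3i, hg3b⟩ := exists_bv S β3
  obtain ⟨P, hPdef⟩ : ∃ P, P = PP S e := ⟨_, rfl⟩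
  have hPN : P ∈ NK S := hPdef ▸ he.PP_mem
  have hPC : P ∈ (NK S).commutant := hPdef ▸ he.PP_comm
  have hPP : ∀ κ, P (P κ) = P κ := by
    intro κ
    rw [hPdef]
    exact PP_PP he κ
  rw [← hPdef] at hBc ⊢
  obtain ⟨g, hgdef⟩ : ∃ g, g = g2 * g1 := ⟨_, rfl⟩
  have hg : g ∈ (NK S).commutant := hgdef ▸ mul_mem hg2 hg1
  have hgi : ∀ ξ, g ξ = 0 → ξ = 0 := by
    intro ξ hξ
    rw [hgdef] at hξ
    exact hg1i _ (hg2i _ hξ)
  have hgc : Bv S (g c) := by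
    rw [hgdef]
    exact bv_comm hg2 hg1b
  have hgb : Bv S (g (B (d b))) := by
    rw [hgdef]
    exact hg2b
  obtain ⟨f, hfdef⟩ : ∃ f, f = (1 - P) * (g * B) + P * (g3 * A3) := ⟨_, rfl⟩
  have hQ : (1 - P) ∈ (NK S).commutant := sub_mem (one_mem _) hPC
  have hf : f ∈ (NK S).commutant := by
    rw [hfdef]
    exact add_mem (mul_mem hQ (mul_mem hg hB)) (mul_mem hPC (mul_mem hg3 hA3))
  have hfa : ∀ κ, f κ = (g (B κ) - P (g (B κ))) + P (g3 (A3 κ)) := by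
    intro κ
    rw [hfdef]
    rfl
  have hPf : ∀ κ, P (f κ) = g3 (A3 (P κ)) := by
    intro κ
    rw [hfa, map_add, map_sub, hPP, hPP, sub_self, zero_add, ← cc hg3 hPN, ← cc hA3 hPN]
  have hQf : ∀ κ, f κ - P (f κ) = g (B (κ - P κ)) := by
    intro κ
    rw [hPf, hfa, map_sub, map_sub, cc hB hPN, cc hg hPN, cc hA3 hPN, cc hg3 hPN]
    abel
  have hfi : ∀ ξ, f ξ = 0 → ξ = 0 := by
    intro ξ hξ
    have h1 := hPf ξ
    rw [hξ, map_zero] at h1
    have h2 : S.l e (S.r e (P ξ)) = 0 := kA3 _ (hg3i _ h1.symm)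
    have h3 : P ξ = 0 := by
      rw [← hPP ξ]
      nth_rewrite 1 [hPdef]
      exact h2
    have h4 := hQf ξ
    rw [hξ, map_zero, sub_zero, h3, sub_zero] at h4
    exact hBi _ (hgi _ h4.symm)
  obtain ⟨e0, he0def⟩ : ∃ e0, e0 = (g c - P (g c)) + P (g3 β3) := ⟨_, rfl⟩
  have he0 : Bv S e0 := by
    have h1 : Bv S ((1 - P) (g c)) := bv_comm hQ hgc
    rw [he0def]
    exact bv_add h1 (bv_comm hPC hg3b)
  have hPe0 : P e0 = P (g3 β3) := by
    rw [he0def, map_add, map_sub, hPP, hPP, sub_self, zero_add]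
  obtain ⟨Gr, hG, hGd, hUW, hadj, h1, hX, hE⟩ := theta_gr' D hD hdense d leib hf
    (hcl _ hf hfi) happ he0
  -- the derivatives are in `(1 - P) K`
  have hP0 : ∀ p ∈ Gr, PP S e p.2 = 0 := by
    refine hE _ fun x => ?_
    have hxM := hD x x.2
    rw [← hPdef, map_sub, hPf, cc hA3 hPN, q3, cc hg3 hPN, br_comm hg3 hxM, br_comm hPC hxM,
      br_comm hPC hxM, hPe0, sub_self]
  -- `(a, 0)` is in the graph
  have ha3 : A3 q.2 = br S q.1 β3 := br_closure D hD d q3 q hq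
  have ha0 : (q.1, (0 : K)) ∈ Gr := by
    refine hX q hq ?_
    have h2 : B q.2 - P (B q.2) = br S q.1 c - P (br S q.1 c) := by
      have h3 := hBc
      rw [map_sub] at h3
      have h4 : B q.2 - P (B q.2) - (br S q.1 c - P (br S q.1 c)) =
          (B q.2 - br S q.1 c) - (P (B q.2) - P (br S q.1 c)) := by abel
      rw [← sub_eq_zero, h4, h3, sub_self]
    rw [hfa, ha3, he0def, br_add, br_sub, ← cc hg hPN, ← map_sub, h2, map_sub,
      br_comm hg haM, cc hg hPN, br_comm hg haM, br_comm hg3 haM, br_comm hPC haM,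
      br_comm hPC haM]
  obtain ⟨F, hFn, hF⟩ := exists_lettE he haM hsa
    (fun κ hκ => (inj_of_noeigE he haM hsa hne hκ).1) hcomp
    (fun s => exp_zero hG h1 ha0 hsa s)
  -- the derivative of `b` is a bounded vector
  have hb1 := hGd b
  have hbv : Bv S (f (d b) - br S (b : H →L[ℂ] H) e0) := by
    have h2 : Bv S (f (d b)) := by
      rw [hfa]
      have h3 : Bv S ((1 - P) (g (B (d b)))) := bv_comm hQ hgb
      have h4 : Bv S (P (g3 (A3 (d b)))) := by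
        rw [q3, br_comm hg3 hbM]
        exact bv_comm hPC (bv_br hbM hg3b)
      exact bv_add h3 h4
    rw [sub_eq_add_neg, ← neg_one_smul ℂ (br S _ _)]
    exact bv_add h2 (bv_smul _ (bv_br hbM he0))
  have hexp : ∀ s : ℝ, (uexp s (b : H →L[ℂ] H), (0 : K)) ∈ Gr := by
    intro s
    obtain ⟨ω, hω, -⟩ := exp_bv hG h1 hb1 hbv s
    obtain ⟨ω', hω', hωb⟩ := exp_bv hG h1 hb1 hbv (-s)
    have hw : uexp s (b : H →L[ℂ] H) ∈ UM S := ⟨uexp_mem S _ hbM s, uexp_unitary s _ hb⟩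
    rw [← star_uexp hb] at hω'
    have h0 : ω = 0 := hadj ω fun z ζ hz =>
      coreE he hG.mem hG.leib h1 hP0 hUW F hF hw hω hω' hωb hz
    rw [h0] at hω
    exact hω
  have hb0 := der_zero hG h1 hbM hexp
  have h3 := Gr.sub_mem hb1 hb0
  rw [Prod.mk_sub_mk, sub_self, sub_zero] at h3
  have h4 := hG.sv _ h3
  have h5 : f (d b) - P (f (d b)) = br S (b : H →L[ℂ] H) e0 - P (br S (b : H →L[ℂ] H) e0) := by
    rw [sub_eq_zero.1 h4]
  rw [hQf, br_comm hPC hbM, hPe0, he0def, br_add, add_sub_cancel_right, br_sub, ← br_comm hPC hbM,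
    ← br_comm hg hbM, ← cc hg hPN, ← map_sub] at h5
  have h6 : B (d b - P (d b)) = br S (b : H →L[ℂ] H) c - P (br S (b : H →L[ℂ] H) c) := by
    refine sub_eq_zero.1 (hgi _ ?_)
    rw [map_sub, h5, sub_self]
  rw [map_sub, cc hB hPN] at h6
  have h7 : B (d b) - br S (b : H →L[ℂ] H) c - P (B (d b) - br S (b : H →L[ℂ] H) c) = 0 := by
    rw [map_sub]
    have h8 : B (d b) - br S (b : H →L[ℂ] H) c - (P (B (d b)) - P (br S (b : H →L[ℂ] H) c)) =
        (B (d b) - P (B (d b))) - (br S (b : H →L[ℂ] H) c - P (br S (b : H →L[ℂ] H) c)) := by abel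
    rw [h8, h6, sub_self]
  exact (sub_eq_zero.1 h7).symm

theorem mc_pairE (D : StarSubalgebra ℂ (H →L[ℂ] H)) (hD : ∀ x ∈ D, x ∈ S.M)
    (hgen : ∀ T : H →L[ℂ] H, (∀ x ∈ D, x * T = T * x) → T ∈ S.M.commutant)
    (d : D →ₗ[ℂ] K)
    (leib : ∀ x y : D, d (x * y) = S.l (x : H →L[ℂ] H) (d y) + S.r (y : H →L[ℂ] H) (d x))
    (hcl : MClos S D d)
    (St : ℝ → H →L[ℂ] H) (hH : Heat (dGraph S D d) St)
    (hun : ∀ ε : ℝ, 0 < ε → ∃ t₀ : ℝ, 0 < t₀ ∧ ∀ t : ℝ, 0 < t → t ≤ t₀ → ∀ g ∈ S.M, ‖g‖ ≤ 1 →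
      ‖St t (g S.Ω) - g S.Ω‖ ≤ ε) :
    ∃ A ∈ NK S, ∃ β : K, ∃ B ∈ (NK S).commutant, ∃ c : K, (∀ ξ, A ξ = 0 → ξ = 0) ∧
      (∀ ξ, B ξ = 0 → ξ = 0) ∧ A c = B β ∧ ∀ x : D, B (d x) = S.l x c - S.r x c := by
  have hdense := dense_of_gen S D hgen
  have closable : ∀ ξ : K, ((0 : H), ξ) ∈ closure (dGraph S D d) → ξ = 0 := by
    intro ξ hξ
    refine hcl 1 (one_mem _) (fun ξ h => h) ξ ?_
    exact hξ
  obtain ⟨Gr, hG, hd, -⟩ := ext_exists S D hD d leib closable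
  obtain ⟨e, hep, heM, hec, ⟨F, hF, hFw⟩, hcomp⟩ := dec_ultra S
  obtain ⟨v, hv, hw⟩ := dec_seq S e hep heM hec F hF hFw
  have he : Cen S e := ⟨hep, heM, hec⟩
  set P0 : Set ((H →L[ℂ] H) × K) := {p | ∃ x : D, p = ((x : H →L[ℂ] H), d x)} with hP0
  have hd1 : d 1 = 0 := by
    have h := leib 1 1
    have e1 : ((1 : D) : H →L[ℂ] H) = 1 := rfl
    rw [mul_one, e1, Std.l_one, Std.r_one] at h
    simpa using h
  have h10 : ((1 : H →L[ℂ] H), (0 : K)) ∈ Gr := by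
    have h := hd 1
    rw [hd1] at h
    exact h
  obtain ⟨T, hT, hTp, hTM, hTc, hTe, hker⟩ := central_compact S e hep heM hec hcomp
  obtain ⟨z, hz, hzM, hzc, -, hzf, hzt⟩ := atoms S e hep heM hec T hT hTp hTM hTc hTe hker
  have hblk : ∀ k, ∃ w ∈ S.M, (∀ x ∈ S.M, w * x = x * w) ∧ w.IsPositive ∧
      (∀ ξ, w ξ = 0 → z k ξ = 0) ∧
      ∃ η : K, ∀ x : D, S.r w (S.l (z k) (S.r (z k) (d x))) =
        S.l (x : H →L[ℂ] H) η - S.r (x : H →L[ℂ] H) η := by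
    intro k
    refine blk S (z k) (hz k) (hzM k) (hzc k) (hzf k) D hD hgen hdense d leib ?_
    intro x hx
    exact loc_star S Gr hG h10 (z k) (hz k) (hzM k) (hzc k) x (d x) (d (star x)) (hd x)
      (hd (star x)) hx
  choose w hwM hwc hwp hwk η hη using hblk
  obtain ⟨A3, hA3, hA3', kA3, β3, q3⟩ := at_block S e hep heM hec z w η hz hzM hzc hzt hwM hwc hwp
    hwk P0 (by rintro k p ⟨x, rfl⟩; exact hη k x)
  obtain ⟨q, hq, hne⟩ := exists_noeigE he v hv hw D hD hdense d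
  obtain ⟨haM, hsa⟩ := Xd_mem hD hq
  obtain ⟨P, hPdef⟩ : ∃ P, P = PP S e := ⟨_, rfl⟩
  have hPN : P ∈ NK S := hPdef ▸ he.PP_mem
  have hPC : P ∈ (NK S).commutant := hPdef ▸ he.PP_comm
  have hPP : ∀ κ, P (P κ) = P κ := by
    intro κ
    rw [hPdef]
    exact PP_PP he κ
  obtain ⟨A, hAdef⟩ : ∃ A, A = (S.l q.1 - S.r q.1) * (1 - P) + P := ⟨_, rfl⟩
  have hTa : S.l q.1 - S.r q.1 ∈ NK S := sub_mem (l_mem_NK S haM) (r_mem_NK S haM)
  have hA : A ∈ NK S := by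
    rw [hAdef]
    exact add_mem (mul_mem hTa (sub_mem (one_mem _) hPN)) hPN
  have hAa : ∀ κ, A κ = br S q.1 (κ - P κ) + P κ := by
    intro κ
    rw [hAdef]
    rfl
  have hPbr : ∀ x ∈ S.M, ∀ κ, P (br S x (κ - P κ)) = 0 := by
    intro x hx κ
    rw [br_comm hPC hx, map_sub, hPP, sub_self]
    unfold br
    rw [map_zero, map_zero, sub_zero]
  have hAi : ∀ ξ, A ξ = 0 → ξ = 0 := by
    intro ξ hξ
    have h1 := congrArg P (hAa ξ)
    rw [hξ, map_zero, map_add, hPbr _ haM, zero_add, hPP] at h1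
    have h2 := hAa ξ
    rw [hξ, ← h1, add_zero, sub_zero] at h2
    obtain ⟨h3, h4⟩ := inj_of_noeigE he haM hsa hne (sub_eq_zero.1 h2.symm)
    have h5 : ξ = S.l e ξ := by
      rw [S.l_sub, S.l_one] at h3
      exact sub_eq_zero.1 h3
    have h6 : ξ = S.r e ξ := by
      rw [S.r_sub S.one_mem heM, S.r_one] at h4
      exact sub_eq_zero.1 h4
    have h7 : ξ = P ξ := by
      rw [hPdef]
      show ξ = S.l e (S.r e ξ)
      rw [← h6]
      exact h5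
    rw [h7, ← h1]
  obtain ⟨B, hB, c, hBi, hBc⟩ := frac (NK S) (S.T.tp S.Ω S.Ω) (isTV_NK S) A hA hAi q.2
  have happ : ∀ ε : ℝ, 0 < ε → ∃ C : ℝ, ∀ g ∈ S.M, ‖g‖ ≤ 1 →
      ∃ x : D, ‖(x : H →L[ℂ] H) S.Ω - g S.Ω‖ ≤ ε ∧ ‖d x‖ ≤ C := by
    intro ε hε
    obtain ⟨C, hC⟩ := heat_approx S (dGraph S D d) St hH hun ε hε
    refine ⟨C, fun g hg hg1 => ?_⟩
    obtain ⟨p, ⟨x, rfl⟩, hp1, hp2⟩ := hC g hg hg1
    exact ⟨x, hp1, hp2⟩
  have hBc' : P (B q.2 - br S q.1 c) = B q.2 - br S q.1 c := by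
    rw [← hBc, hAa, br_sub]
    have h1 : br S q.1 c - br S q.1 (P c) + P c - br S q.1 c = P c - br S q.1 (P c) := by abel
    rw [h1, map_sub, hPP, ← br_comm hPC haM, hPP]
  have hsaD : ∀ b : D, IsSelfAdjoint (b : H →L[ℂ] H) →
      P (B (d b) - br S (b : H →L[ℂ] H) c) = B (d b) - br S (b : H →L[ℂ] H) c := by
    intro b hb
    rw [hPdef] at hBc' ⊢
    exact theta_mainE he hcomp D hD hdense d leib hcl happ hq hne hB hBi hBc' hA3' kA3
      (fun x => q3 _ ⟨x, rfl⟩) b hb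
  have hall : ∀ x : D, P (B (d x) - br S (x : H →L[ℂ] H) c) = B (d x) - br S (x : H →L[ℂ] H) c := by
    intro x
    set x1 : D := x + star x with hx1
    set x2 : D := Complex.I • (x - star x) with hx2
    have e1 : IsSelfAdjoint (x1 : H →L[ℂ] H) := by
      rw [isSelfAdjoint_iff]
      show star ((x : H →L[ℂ] H) + star (x : H →L[ℂ] H)) = (x : H →L[ℂ] H) + star (x : H →L[ℂ] H)
      rw [star_add, star_star, add_comm]
    have e2 : IsSelfAdjoint (x2 : H →L[ℂ] H) := by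
      rw [isSelfAdjoint_iff]
      show star (Complex.I • ((x : H →L[ℂ] H) - star (x : H →L[ℂ] H))) =
        Complex.I • ((x : H →L[ℂ] H) - star (x : H →L[ℂ] H))
      rw [star_smul, star_sub, star_star]
      simp only [Complex.star_def, Complex.conj_I, neg_smul, smul_sub]
      abel
    have hx : x = (2⁻¹ : ℂ) • x1 + (-(Complex.I / 2) : ℂ) • x2 := by
      rw [hx1, hx2, smul_smul]
      have h1 : (-(Complex.I / 2) * Complex.I : ℂ) = 2⁻¹ := by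
        have := Complex.I_mul_I
        linear_combination (-(1/2) : ℂ) * this
      rw [h1, smul_add, smul_sub]
      have h2 : (2⁻¹ : ℂ) • x + (2⁻¹ : ℂ) • x = x := by
        rw [← add_smul]; norm_num
      calc x = (2⁻¹ : ℂ) • x + (2⁻¹ : ℂ) • x := h2.symm
        _ = _ := by abel
    have f1 := hsaD x1 e1
    have f2 := hsaD x2 e2
    have hM1 := hD x1 x1.2
    have hM2 := hD x2 x2.2
    have hxc : (x : H →L[ℂ] H) = (2⁻¹ : ℂ) • (x1 : H →L[ℂ] H) +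
        (-(Complex.I / 2) : ℂ) • (x2 : H →L[ℂ] H) := congrArg (fun y : D => (y : H →L[ℂ] H)) hx
    have hdx : d x = (2⁻¹ : ℂ) • d x1 + (-(Complex.I / 2) : ℂ) • d x2 := by
      conv_lhs => rw [hx]
      rw [map_add, map_smul, map_smul]
    have hsum : B (d x) - br S (x : H →L[ℂ] H) c =
        (2⁻¹ : ℂ) • (B (d x1) - br S (x1 : H →L[ℂ] H) c) +
        (-(Complex.I / 2) : ℂ) • (B (d x2) - br S (x2 : H →L[ℂ] H) c) := by
      rw [hdx, map_add, map_smul, map_smul, hxc]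
      unfold br
      rw [S.l_add, S.l_smul, S.l_smul,
        S.r_add (S.smul_mem _ hM1) (S.smul_mem _ hM2), S.r_smul _ hM1, S.r_smul _ hM2]
      simp only [add_apply, smul_apply, smul_sub]
      abel
    rw [hsum, map_add, map_smul, map_smul, f1, f2]
  -- `l (1 - e)` and `r (1 - e)` kill the range of `P`
  have hl0 : ∀ κ, P κ = κ → S.l (1 - e) κ = 0 := by
    intro κ hκ
    rw [← hκ, hPdef]
    show S.l (1 - e) (S.l e (S.r e κ)) = 0
    have h1 : S.l (1 - e) * S.l e = 0 := by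
      rw [← S.l_mul, sub_mul, one_mul, hep.isIdempotentElem, sub_self]
      exact map_zero S.T.L
    exact congrArg (fun A : K →L[ℂ] K => A (S.r e κ)) h1
  have hr0 : ∀ κ, P κ = κ → S.r (1 - e) κ = 0 := by
    intro κ hκ
    rw [← hκ, hPdef]
    show S.r (1 - e) (S.l e (S.r e κ)) = 0
    have h1 : S.r (1 - e) * S.r e = 0 := by
      rw [← S.r_mul heM (S.M.toStarSubalgebra.sub_mem S.one_mem heM), mul_sub, mul_one,
        hep.isIdempotentElem, sub_self]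
      have h2 := S.r_smul (0 : ℂ) S.one_mem
      rwa [zero_smul, zero_smul] at h2
    rw [← S.lr_comm]
    have h2 : S.r (1 - e) (S.r e κ) = 0 := congrArg (fun A : K →L[ℂ] K => A κ) h1
    rw [h2, map_zero]
  obtain ⟨A', hA', β', B', hB', c', hAi', hBi', hAc', hx'⟩ := combine S e hep heM hec P0
    (by rintro p ⟨x, rfl⟩; exact hD x x.2)
    ⟨A, hA, q.2, B, hB, c, hAi, hBi, hBc, by rintro p ⟨x, rfl⟩; exact hl0 _ (hall x)⟩
    ⟨A, hA, q.2, B, hB, c, hAi, hBi, hBc, by rintro p ⟨x, rfl⟩; exact hr0 _ (hall x)⟩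
    ⟨A3, hA3, hA3', kA3, β3, q3⟩
  exact ⟨A', hA', β', B', hB', c', hAi', hBi', hAc', fun x => hx' _ ⟨x, rfl⟩⟩

end

end Pool.H62.MC
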