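import Pool.Agent.H62.MC.ThetaA
import Pool.Agent.H62.MC.Inj
import Pool.Agent.H62.MC.LettA
import Pool.Agent.H62.MC.Core
import Pool.Agent.H62.UC.Heat
import Pool.Agent.H62.UC.Fin1

/-!
# PAIRM: a fraction implementing a measure-closable derivation
-/

namespace Pool.H62.MC

open scoped InnerProductSpace TensorProduct ComplexConjugate
open Filter Topology Pool.H62.UC

noncomputable section

variable {H : Type*} [NormedAddCommGroup H] [InnerProductSpace ℂ H] [CompleteSpace H]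
variable {K : Type*} [NormedAddCommGroup K] [InnerProductSpace ℂ K] [CompleteSpace K]

variable {S : Std H K}

/-- closability of `f ∘ d` for all injective `f` in the commutant -/
def MClos (S : Std H K) (D : StarSubalgebra ℂ (H →L[ℂ] H)) (d : D →ₗ[ℂ] K) : Prop :=
  ∀ f ∈ (NK S).commutant, (∀ ξ, f ξ = 0 → ξ = 0) →
    ∀ ξ : K, ((0 : H), ξ) ∈ closure (dGraph S D ((f : K →ₗ[ℂ] K) ∘ₗ d)) → ξ = 0

theorem theta_main (D : StarSubalgebra ℂ (H →L[ℂ] H)) (hD : ∀ x ∈ D, x ∈ S.M)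
    (hdense : Dense {ξ : H | ∃ x ∈ D, x S.Ω = ξ}) (d : D →ₗ[ℂ] K)
    (leib : ∀ x y : D, d (x * y) = S.l (x : H →L[ℂ] H) (d y) + S.r (y : H →L[ℂ] H) (d x))
    (hcl : MClos S D d)
    (happ : ∀ ε : ℝ, 0 < ε → ∃ C : ℝ, ∀ g ∈ S.M, ‖g‖ ≤ 1 →
      ∃ x : D, ‖(x : H →L[ℂ] H) S.Ω - g S.Ω‖ ≤ ε ∧ ‖d x‖ ≤ C)
    {q : (H →L[ℂ] H) × K} (hq : q ∈ Xd D d) (hne : NoEig q.1)
    {B : K →L[ℂ] K} (hB : B ∈ (NK S).commutant) (hBi : ∀ ξ, B ξ = 0 → ξ = 0) {c : K}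
    (hBc : B q.2 = br S q.1 c) (b : D) (hb : IsSelfAdjoint (b : H →L[ℂ] H)) :
    B (d b) = br S (b : H →L[ℂ] H) c := by
  obtain ⟨haM, hsa⟩ := Xd_mem hD hq
  have hbM := hD b b.2
  obtain ⟨g1, hg1, hg1i, hg1b⟩ := exists_bv S c
  obtain ⟨g2, hg2, hg2i, hg2b⟩ := exists_bv S (g1 (B (d b)))
  have hg : g2 * g1 ∈ (NK S).commutant := mul_mem hg2 hg1
  have he : Bv S (g2 (g1 c)) := bv_comm hg2 hg1b
  have hf : g2 * g1 * B ∈ (NK S).commutant := mul_mem hg hB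
  have hfi : ∀ ξ, (g2 * g1 * B) ξ = 0 → ξ = 0 := fun ξ hξ => hBi _ (hg1i _ (hg2i _ hξ))
  obtain ⟨Gr, hG, hGd, hUW, hadj, h1, hX⟩ := theta_gr D hD hdense d leib hf
    (hcl _ hf hfi) happ he
  -- `(a, 0)` is in the graph
  have ha0 : (q.1, (0 : K)) ∈ Gr := by
    refine hX q hq ?_
    show g2 (g1 (B q.2)) = br S q.1 (g2 (g1 c))
    rw [hBc, br_comm hg1 haM, br_comm hg2 haM]
  obtain ⟨F, hFn, hF⟩ := exists_lett haM hsa (fun κ hκ => inj_of_noeig haM hsa hne hκ)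
    (fun s => exp_zero hG h1 ha0 hsa s)
  -- the derivative of `b` is a bounded vector
  have hb1 := hGd b
  have hbv : Bv S ((g2 * g1 * B) (d b) - br S (b : H →L[ℂ] H) (g2 (g1 c))) := by
    have h2 : Bv S ((-1 : ℂ) • br S (b : H →L[ℂ] H) (g2 (g1 c))) := by
      refine bv_smul _ ?_
      unfold br
      rw [sub_eq_add_neg, ← neg_one_smul ℂ (S.r _ _)]
      exact bv_add (bv_l hbM he) (bv_smul _ (bv_r hbM he))
    rw [sub_eq_add_neg, ← neg_one_smul ℂ (br S _ _)]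
    exact bv_add hg2b h2
  have hexp : ∀ s : ℝ, (uexp s (b : H →L[ℂ] H), (0 : K)) ∈ Gr := by
    intro s
    obtain ⟨ω, hω, -⟩ := exp_bv hG h1 hb1 hbv s
    obtain ⟨ω', hω', hωb⟩ := exp_bv hG h1 hb1 hbv (-s)
    have hw : uexp s (b : H →L[ℂ] H) ∈ UM S := ⟨uexp_mem S _ hbM s, uexp_unitary s _ hb⟩
    rw [← star_uexp hb] at hω'
    have h0 : ω = 0 := hadj ω fun z ζ hz =>
      core hG.mem hG.leib h1 hUW F hF hw hω hω' hωb hz
    rw [h0] at hω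
    exact hω
  have hb0 := der_zero hG h1 hbM hexp
  have h3 := Gr.sub_mem hb1 hb0
  rw [Prod.mk_sub_mk, sub_self, sub_zero] at h3
  have h4 := hG.sv _ h3
  have h5 : g2 (g1 (B (d b) - br S (b : H →L[ℂ] H) c)) = 0 := by
    rw [map_sub, map_sub, br_comm hg1 hbM, br_comm hg2 hbM]
    exact h4
  exact sub_eq_zero.1 (hg1i _ (hg2i _ h5))

theorem mc_pair (hdif : Diffuse S) (D : StarSubalgebra ℂ (H →L[ℂ] H)) (hD : ∀ x ∈ D, x ∈ S.M)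
    (hgen : ∀ T : H →L[ℂ] H, (∀ x ∈ D, x * T = T * x) → T ∈ S.M.commutant)
    (d : D →ₗ[ℂ] K)
    (leib : ∀ x y : D, d (x * y) = S.l (x : H →L[ℂ] H) (d y) + S.r (y : H →L[ℂ] H) (d x))
    (hcl : MClos S D d)
    (St : ℝ → H →L[ℂ] H) (hH : Heat (dGraph S D d) St)
    (hun : ∀ ε : ℝ, 0 < ε → ∃ t₀ : ℝ, 0 < t₀ ∧ ∀ t : ℝ, 0 < t → t ≤ t₀ → ∀ g ∈ S.M, ‖g‖ ≤ 1 →
      ‖St t (g S.Ω) - g S.Ω‖ ≤ ε) :
    ∃ A ∈ NK S, ∃ β : K, ∃ B ∈ (NK S).commutant, ∃ c : K, (∀ ξ, A ξ = 0 → ξ = 0) ∧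
      (∀ ξ, B ξ = 0 → ξ = 0) ∧ A c = B β ∧ ∀ x : D, B (d x) = S.l x c - S.r x c := by
  have hdense := dense_of_gen S D hgen
  obtain ⟨q, hq, hne⟩ := exists_noeig hdif D hD hdense d
  obtain ⟨haM, hsa⟩ := Xd_mem hD hq
  have hA : S.l q.1 - S.r q.1 ∈ NK S := sub_mem (l_mem_NK S haM) (r_mem_NK S haM)
  have hAi : ∀ ξ, (S.l q.1 - S.r q.1) ξ = 0 → ξ = 0 := by
    intro ξ hξ
    refine inj_of_noeig haM hsa hne ?_
    exact sub_eq_zero.1 hξ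
  obtain ⟨B, hB, c, hBi, hBc⟩ := frac (NK S) (S.T.tp S.Ω S.Ω) (isTV_NK S) _ hA hAi q.2
  refine ⟨_, hA, q.2, B, hB, c, hAi, hBi, hBc, ?_⟩
  have happ : ∀ ε : ℝ, 0 < ε → ∃ C : ℝ, ∀ g ∈ S.M, ‖g‖ ≤ 1 →
      ∃ x : D, ‖(x : H →L[ℂ] H) S.Ω - g S.Ω‖ ≤ ε ∧ ‖d x‖ ≤ C := by
    intro ε hε
    obtain ⟨C, hC⟩ := heat_approx S (dGraph S D d) St hH hun ε hε
    refine ⟨C, fun g hg hg1 => ?_⟩
    obtain ⟨p, ⟨x, rfl⟩, hp1, hp2⟩ := hC g hg hg1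
    exact ⟨x, hp1, hp2⟩
  have hsaD : ∀ b : D, IsSelfAdjoint (b : H →L[ℂ] H) → B (d b) = br S (b : H →L[ℂ] H) c :=
    fun b hb => theta_main D hD hdense d leib hcl happ hq hne hB hBi hBc.symm b hb
  intro x
  -- real and imaginary parts
  set x1 : D := x + star x with hx1
  set x2 : D := Complex.I • (x - star x) with hx2
  have e1 : IsSelfAdjoint (x1 : H →L[ℂ] H) := by
    rw [isSelfAdjoint_iff]
    show star ((x : H →L[ℂ] H) + star (x : H →L[ℂ] H)) = (x : H →L[ℂ] H) + star (x : H →L[ℂ] H)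
    rw [star_add, star_star, add_comm]
  have e2 : IsSelfAdjoint (x2 : H →L[ℂ] H) := by
    rw [isSelfAdjoint_iff]
    show star (Complex.I • ((x : H →L[ℂ] H) - star (x : H →L[ℂ] H))) =
      Complex.I • ((x : H →L[ℂ] H) - star (x : H →L[ℂ] H))
    rw [star_smul, star_sub, star_star]
    simp only [Complex.star_def, Complex.conj_I, neg_smul, smul_sub]
    abel
  have hx : x = (2⁻¹ : ℂ) • x1 + (-(Complex.I / 2) : ℂ) • x2 := by
    rw [hx1, hx2, smul_smul]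
    have h1 : (-(Complex.I / 2) * Complex.I : ℂ) = 2⁻¹ := by
      have := Complex.I_mul_I
      linear_combination (-(1/2) : ℂ) * this
    rw [h1, smul_add, smul_sub]
    have h2 : (2⁻¹ : ℂ) • x + (2⁻¹ : ℂ) • x = x := by
      rw [← add_smul]; norm_num
    calc x = (2⁻¹ : ℂ) • x + (2⁻¹ : ℂ) • x := h2.symm
      _ = _ := by abel
  have f1 := hsaD x1 e1
  have f2 := hsaD x2 e2
  have hM1 := hD x1 x1.2
  have hM2 := hD x2 x2.2
  have hxc : (x : H →L[ℂ] H) = (2⁻¹ : ℂ) • (x1 : H →L[ℂ] H) +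
      (-(Complex.I / 2) : ℂ) • (x2 : H →L[ℂ] H) := congrArg (fun y : D => (y : H →L[ℂ] H)) hx
  have hd : d x = (2⁻¹ : ℂ) • d x1 + (-(Complex.I / 2) : ℂ) • d x2 := by
    conv_lhs => rw [hx]
    rw [map_add, map_smul, map_smul]
  rw [hd, map_add, map_smul, map_smul, f1, f2, hxc, S.l_add, S.l_smul, S.l_smul,
    S.r_add (S.smul_mem _ hM1) (S.smul_mem _ hM2), S.r_smul _ hM1, S.r_smul _ hM2]
  unfold br
  simp only [ContinuousLinearMap.add_apply, ContinuousLinearMap.smul_apply, smul_sub]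
  abel

end

end Pool.H62.MC
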