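import Pool.Agent.H62.MC.BvA
import Pool.Agent.H62.MC.DiffD
import Pool.Agent.H62.UC.Ext
import Pool.Agent.H62.UC.ExtM

/-!
# THETAA: the derivation `θ x = f (d x) - [x, e]`

PROOF. Let `e = E w0`, `E ∈ N'` (`Bv`), and `θ : D →ₗ K`, `θ x = f (d x) - br S x e`.
* `br_norm`: `l x (E w0) = E (tp (x Ω) Ω)`, `r x (E w0) = E (tp Ω (x Ω))` (`cc_l`, `cc_r`, `l_w0`,
  `r_w0`), norms `≤ ‖E‖ ‖x Ω‖` (`norm_tp`, `‖Ω‖ = 1`).  So `‖br S x e‖ ≤ C ‖x Ω‖` with `C = 2 ‖E‖`.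
* Leibniz: `f` commutes with `l x`, `r y` (`cc_l`, `cc_r`); `br` is a derivation (`S.l_mul`,
  `S.r_mul`, `S.lr_comm`).
* closable: if `x_n Ω → 0`, `θ x_n → ξ` then `br S x_n e → 0`, so `f (d x_n) → ξ`, `ξ = 0` (`hcl`).
* `Gr` from `ext_exists` for `θ`, with `(p.1 Ω, p.2) ∈ closure (dGraph S D θ)` for `p ∈ Gr`.
* `UW`: for `x` from `happ`: `‖θ x‖ ≤ ‖f‖ C + 2 ‖E‖ (1 + ε)` (`‖x Ω‖ ≤ ‖g Ω‖ + ε ≤ 1 + ε`,
  `S.norm_le_norm`).
* adjoint domain: let `κ` be orthogonal to all `z` of the adjoint domain.  Let `G0` be the submodule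
  `dGraph S D θ` of `WithLp 2 (H × K)`.  If `(u, z) ⟂ G0` then `⟪θ x, z⟫ = ⟪x Ω, -u⟫` for `x ∈ D`, hence
  `IsAdj S Gr z (-u)` (closure, continuity), so `⟪κ, z⟫ = 0`: `(0, κ) ⟂ G0ᗮ`, so
  `(0, κ) ∈ closure G0` (`Submodule.orthogonal_orthogonal_eq_closure`), `κ = 0` by closability.
* `(1, 0) ∈ Gr`: `d 1 = 0` (Leibniz), `br S 1 e = 0`.
* last item: `q = lim (x_n, d x_n)`, `x_n ∈ D`, in norm; `(x_n, θ x_n) ∈ Gr`,
  `θ x_n → f q.2 - br S q.1 e = 0` (`l`, `r` are norm continuous: `S.l_sub`, `S.l_norm_le`,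
  `S.r_sub`, `S.r_norm_le`), `‖x_n‖` bounded; `BClosed.ext_mem`.
-/

namespace Pool.H62.MC

open scoped InnerProductSpace TensorProduct ComplexConjugate
open Filter Topology Pool.H62.UC

noncomputable section

variable {H : Type*} [NormedAddCommGroup H] [InnerProductSpace ℂ H] [CompleteSpace H]
variable {K : Type*} [NormedAddCommGroup K] [InnerProductSpace ℂ K] [CompleteSpace K]

variable {S : Std H K}

theorem br_norm {e : K} (he : Bv S e) : ∃ C : ℝ, 0 ≤ C ∧ ∀ x ∈ S.M, ‖br S x e‖ ≤ C * ‖x S.Ω‖ := by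
  obtain ⟨C0, hC0, rfl⟩ := he
  refine ⟨‖C0‖ * 2, by positivity, fun x hx => ?_⟩
  unfold br
  rw [← cc_l hC0 hx, ← cc_r hC0 hx, l_w0, r_w0 hx, ← map_sub]
  refine (C0.le_opNorm _).trans ?_
  rw [mul_assoc]
  refine mul_le_mul_of_nonneg_left ?_ (norm_nonneg _)
  refine (norm_sub_le _ _).trans ?_
  rw [S.T.norm_tp, S.T.norm_tp, S.tv.norm_one, mul_one, one_mul, two_mul]

theorem br_comm {C : K →L[ℂ] K} (hC : C ∈ (NK S).commutant) {x : H →L[ℂ] H} (hx : x ∈ S.M)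
    (κ : K) : C (br S x κ) = br S x (C κ) := by
  unfold br
  rw [map_sub, cc_l hC hx, cc_r hC hx]

/-- the commutator with `e` as a linear map on `D` -/
def thetaA_br (S : Std H K) (D : StarSubalgebra ℂ (H →L[ℂ] H)) (hD : ∀ x ∈ D, x ∈ S.M) (e : K) :
    D →ₗ[ℂ] K where
  toFun x := br S (x : H →L[ℂ] H) e
  map_add' x y := by
    have h1 : ((x + y : D) : H →L[ℂ] H) = (x : H →L[ℂ] H) + (y : H →L[ℂ] H) := rfl
    unfold br
    rw [h1, S.l_add, S.r_add (hD x x.2) (hD y y.2)]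
    simp only [add_apply]
    abel
  map_smul' c x := by
    have h1 : ((c • x : D) : H →L[ℂ] H) = c • (x : H →L[ℂ] H) := rfl
    unfold br
    rw [h1, S.l_smul, S.r_smul c (hD x x.2)]
    simp only [smul_apply, RingHom.id_apply, smul_sub]

theorem thetaA_leib (x y : H →L[ℂ] H) (hx : x ∈ S.M) (hy : y ∈ S.M) (e : K) :
    br S (x * y) e = S.l x (br S y e) + S.r y (br S x e) := by
  unfold br
  rw [S.l_mul, S.r_mul hx hy, map_sub, map_sub, S.lr_comm x y e]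
  change S.l x (S.l y e) - S.r y (S.r x e) = _
  abel

theorem thetaA_cont {ι : Type*} {F : Filter ι} {x : ι → H →L[ℂ] H} {y : H →L[ℂ] H}
    (hx : ∀ i, x i ∈ S.M) (hy : y ∈ S.M) (h : Tendsto x F (𝓝 y)) (e : K) :
    Tendsto (fun i => br S (x i) e) F (𝓝 (br S y e)) := by
  rw [tendsto_iff_norm_sub_tendsto_zero]
  have h1 : Tendsto (fun i => 2 * ‖e‖ * ‖x i - y‖) F (𝓝 0) := by
    have h2 := (tendsto_iff_norm_sub_tendsto_zero.1 h).const_mul (2 * ‖e‖)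
    rwa [mul_zero] at h2
  refine squeeze_zero (fun i => norm_nonneg _) (fun i => ?_) h1
  have h3 : br S (x i) e - br S y e = S.l (x i - y) e - S.r (x i - y) e := by
    unfold br
    rw [S.l_sub, S.r_sub (hx i) hy]
    simp only [sub_apply]
    abel
  rw [h3]
  refine (norm_sub_le _ _).trans ?_
  have h4 : ‖S.l (x i - y) e‖ ≤ ‖x i - y‖ * ‖e‖ :=
    ((S.l (x i - y)).le_opNorm e).trans (mul_le_mul_of_nonneg_right (S.l_norm_le _) (norm_nonneg _))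
  have h5 : ‖S.r (x i - y) e‖ ≤ ‖x i - y‖ * ‖e‖ :=
    ((S.r (x i - y)).le_opNorm e).trans
      (mul_le_mul_of_nonneg_right (S.r_norm_le (sub_mem (hx i) hy)) (norm_nonneg _))
  linarith

/-- density of the domain of the adjoint of a closable map -/
theorem thetaA_adj (D : StarSubalgebra ℂ (H →L[ℂ] H)) (th : D →ₗ[ℂ] K)
    (hcl : ∀ ξ : K, ((0 : H), ξ) ∈ closure (dGraph S D th) → ξ = 0)
    (Gr : Submodule ℂ ((H →L[ℂ] H) × K))
    (hGr : ∀ p ∈ Gr, (p.1 S.Ω, p.2) ∈ closure (dGraph S D th)) (κ : K)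
    (hκ : ∀ (z : K) (ζ : H), IsAdj S Gr z ζ → ⟪κ, z⟫_ℂ = 0) : κ = 0 := by
  obtain ⟨G0, hG0⟩ : ∃ G0 : Submodule ℂ (WithLp 2 (H × K)), ∀ v : WithLp 2 (H × K),
      v ∈ G0 ↔ (v.fst, v.snd) ∈ dGraph S D th := by
    refine ⟨⟨⟨⟨{v | (v.fst, v.snd) ∈ dGraph S D th}, ?_⟩, ?_⟩, ?_⟩, fun v => Iff.rfl⟩
    · rintro a b ⟨x, hx⟩ ⟨y, hy⟩
      refine ⟨x + y, ?_⟩
      rw [Prod.mk.injEq] at hx hy
      rw [WithLp.add_fst, WithLp.add_snd, hx.1, hx.2, hy.1, hy.2]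
      simp
    · exact ⟨0, by simp⟩
    · rintro c a ⟨x, hx⟩
      refine ⟨c • x, ?_⟩
      rw [Prod.mk.injEq] at hx
      rw [WithLp.smul_fst, WithLp.smul_snd, hx.1, hx.2]
      simp
  have hcls : ∀ v : WithLp 2 (H × K), v ∈ G0.topologicalClosure →
      (v.fst, v.snd) ∈ closure (dGraph S D th) := by
    intro v hv
    have hc : Continuous fun v : WithLp 2 (H × K) => (v.fst, v.snd) :=
      (WithLp.prod_continuous_ofLp 2 H K)
    have h1 : v ∈ closure (G0 : Set (WithLp 2 (H × K))) := hv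
    exact map_mem_closure (f := fun v : WithLp 2 (H × K) => (v.fst, v.snd)) hc h1
      (fun w hw => (hG0 w).1 hw)
  apply hcl κ
  have hgoal : WithLp.toLp 2 ((0 : H), κ) ∈ G0.topologicalClosure := by
    rw [← Submodule.orthogonal_orthogonal_eq_closure, Submodule.mem_orthogonal]
    intro v hv
    rw [Submodule.mem_orthogonal] at hv
    have hv1 : ∀ x : D, ⟪(x : H →L[ℂ] H) S.Ω, v.fst⟫_ℂ + ⟪th x, v.snd⟫_ℂ = 0 := by
      intro x
      have h1 := hv (WithLp.toLp 2 ((x : H →L[ℂ] H) S.Ω, th x)) ((hG0 _).2 ⟨x, rfl⟩)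
      rw [WithLp.prod_inner_apply] at h1
      exact h1
    have hadj : IsAdj S Gr v.snd (-v.fst) := by
      intro p hp
      have hcl2 : IsClosed {q : H × K | ⟪q.2, v.snd⟫_ℂ = ⟪q.1, -v.fst⟫_ℂ} := by
        refine isClosed_eq ?_ ?_
        · exact (continuous_snd.inner continuous_const)
        · exact (continuous_fst.inner continuous_const)
      have hsub : dGraph S D th ⊆ {q : H × K | ⟪q.2, v.snd⟫_ℂ = ⟪q.1, -v.fst⟫_ℂ} := by
        rintro _ ⟨x, rfl⟩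
        change ⟪th x, v.snd⟫_ℂ = ⟪(x : H →L[ℂ] H) S.Ω, -v.fst⟫_ℂ
        rw [inner_neg_right]
        exact eq_neg_of_add_eq_zero_right (hv1 x)
      exact hcl2.closure_subset_iff.2 hsub (hGr p hp)
    have h2 := hκ v.snd _ hadj
    rw [WithLp.prod_inner_apply]
    change ⟪v.fst, (0 : H)⟫_ℂ + ⟪v.snd, κ⟫_ℂ = 0
    rw [inner_zero_right, zero_add, ← inner_conj_symm, h2, map_zero]
  exact hcls _ hgoal

theorem theta_gr' (D : StarSubalgebra ℂ (H →L[ℂ] H)) (hD : ∀ x ∈ D, x ∈ S.M)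
    (hdense : Dense {ξ : H | ∃ x ∈ D, x S.Ω = ξ}) (d : D →ₗ[ℂ] K)
    (leib : ∀ x y : D, d (x * y) = S.l (x : H →L[ℂ] H) (d y) + S.r (y : H →L[ℂ] H) (d x))
    {f : K →L[ℂ] K} (hf : f ∈ (NK S).commutant)
    (hcl : ∀ ξ : K, ((0 : H), ξ) ∈ closure (dGraph S D ((f : K →ₗ[ℂ] K) ∘ₗ d)) → ξ = 0)
    (happ : ∀ ε : ℝ, 0 < ε → ∃ C : ℝ, ∀ g ∈ S.M, ‖g‖ ≤ 1 →
      ∃ x : D, ‖(x : H →L[ℂ] H) S.Ω - g S.Ω‖ ≤ ε ∧ ‖d x‖ ≤ C)
    {e : K} (he : Bv S e) :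
    ∃ Gr : Submodule ℂ ((H →L[ℂ] H) × K), BClosed S Gr ∧
      (∀ x : D, ((x : H →L[ℂ] H), f (d x) - br S (x : H →L[ℂ] H) e) ∈ Gr) ∧ UW S Gr ∧
      (∀ κ : K, (∀ (z : K) (ζ : H), IsAdj S Gr z ζ → ⟪κ, z⟫_ℂ = 0) → κ = 0) ∧
      ((1 : H →L[ℂ] H), (0 : K)) ∈ Gr ∧
      (∀ q ∈ Xd D d, f q.2 = br S q.1 e → (q.1, (0 : K)) ∈ Gr) ∧
      (∀ E : K →L[ℂ] K, (∀ x : D, E (f (d x) - br S (x : H →L[ℂ] H) e) = 0) →
        ∀ p ∈ Gr, E p.2 = 0) := by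
  obtain ⟨C1, hC1, hbr⟩ := br_norm he
  obtain ⟨th, hth⟩ : ∃ th : D →ₗ[ℂ] K, ∀ x : D, th x = f (d x) - br S (x : H →L[ℂ] H) e :=
    ⟨(f : K →ₗ[ℂ] K) ∘ₗ d - thetaA_br S D hD e, fun x => rfl⟩
  have hleib : ∀ x y : D,
      th (x * y) = S.l (x : H →L[ℂ] H) (th y) + S.r (y : H →L[ℂ] H) (th x) := by
    intro x y
    have h1 : ((x * y : D) : H →L[ℂ] H) = (x : H →L[ℂ] H) * (y : H →L[ℂ] H) := rfl
    rw [hth, hth, hth, leib, h1, thetaA_leib _ _ (hD x x.2) (hD y y.2), map_add,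
      cc_l hf (hD x x.2), cc_r hf (hD y y.2), map_sub, map_sub]
    abel
  have hclos : ∀ ξ : K, ((0 : H), ξ) ∈ closure (dGraph S D th) → ξ = 0 := by
    intro ξ hξ
    obtain ⟨u, hu, hlim⟩ := mem_closure_iff_seq_limit.1 hξ
    choose x hx using hu
    have hlim1 : Tendsto (fun n => (x n : H →L[ℂ] H) S.Ω) atTop (𝓝 0) := by
      have h1 := (continuous_fst.tendsto _).comp hlim
      refine h1.congr fun n => ?_
      simp [hx n]
    have hlim2 : Tendsto (fun n => th (x n)) atTop (𝓝 ξ) := by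
      have h1 := (continuous_snd.tendsto _).comp hlim
      refine h1.congr fun n => ?_
      simp [hx n]
    have hlim3 : Tendsto (fun n => br S (x n : H →L[ℂ] H) e) atTop (𝓝 0) := by
      rw [tendsto_zero_iff_norm_tendsto_zero]
      have h1 : Tendsto (fun n => C1 * ‖(x n : H →L[ℂ] H) S.Ω‖) atTop (𝓝 0) := by
        have h2 := (tendsto_zero_iff_norm_tendsto_zero.1 hlim1).const_mul C1
        rwa [mul_zero] at h2
      exact squeeze_zero (fun n => norm_nonneg _) (fun n => hbr _ (hD _ (x n).2)) h1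
    have hlim4 : Tendsto (fun n => f (d (x n))) atTop (𝓝 ξ) := by
      have h1 := hlim2.add hlim3
      rw [add_zero] at h1
      refine h1.congr fun n => ?_
      rw [hth, sub_add_cancel]
    apply hcl ξ
    refine mem_closure_iff_seq_limit.2
      ⟨fun n => ((x n : H →L[ℂ] H) S.Ω, f (d (x n))), fun n => ⟨x n, rfl⟩, ?_⟩
    exact hlim1.prodMk_nhds hlim4
  obtain ⟨Gr, hGr1, hGr2, hGr3⟩ := ext_exists S D hD th hleib hclos
  refine ⟨Gr, hGr1, fun x => by rw [← hth]; exact hGr2 x, ?_, ?_, ?_, ?_, ?_⟩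
  · intro ε hε
    obtain ⟨C0, hC0⟩ := happ ε hε
    refine ⟨‖f‖ * C0 + C1 * (1 + ε), fun g hg hg1 => ?_⟩
    obtain ⟨x, hx1, hx2⟩ := hC0 g hg hg1
    refine ⟨((x : H →L[ℂ] H), th x), hGr2 x, hx1, ?_⟩
    change ‖th x‖ ≤ _
    rw [hth]
    refine (norm_sub_le _ _).trans ?_
    have h1 : ‖f (d x)‖ ≤ ‖f‖ * C0 :=
      (f.le_opNorm _).trans (mul_le_mul_of_nonneg_left hx2 (norm_nonneg _))
    have h2 : ‖(x : H →L[ℂ] H) S.Ω‖ ≤ 1 + ε := by
      have h3 : (x : H →L[ℂ] H) S.Ω = ((x : H →L[ℂ] H) S.Ω - g S.Ω) + g S.Ω := by abel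
      have h4 := norm_add_le ((x : H →L[ℂ] H) S.Ω - g S.Ω) (g S.Ω)
      rw [← h3] at h4
      have h5 := S.norm_le_norm g
      linarith
    have h6 : ‖br S (x : H →L[ℂ] H) e‖ ≤ C1 * (1 + ε) :=
      (hbr _ (hD _ x.2)).trans (mul_le_mul_of_nonneg_left h2 hC1)
    linarith
  · exact fun κ hκ => thetaA_adj D th hclos Gr hGr3 κ hκ
  · have hd1 : d 1 = 0 := by
      have h1 := leib 1 1
      rw [mul_one] at h1
      have h2 : ((1 : D) : H →L[ℂ] H) = 1 := rfl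
      rw [h2, S.l_one, S.r_one] at h1
      have h3 : d 1 = d 1 + d 1 := h1
      simpa using h3
    have h1 := hGr2 1
    rw [hth, hd1, map_zero] at h1
    have h2 : ((1 : D) : H →L[ℂ] H) = 1 := rfl
    have h3 : br S (1 : H →L[ℂ] H) e = 0 := by
      unfold br
      rw [S.l_one, S.r_one, sub_self]
    rw [h2, h3, sub_zero] at h1
    exact h1
  · intro q hq hqe
    have hqM := (Xd_mem hD hq).1
    obtain ⟨u, hu, hlim⟩ := mem_closure_iff_seq_limit.1 hq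
    choose x hx using hu
    have hlim1 : Tendsto (fun n => (x n : H →L[ℂ] H)) atTop (𝓝 q.1) := by
      have h1 := (continuous_fst.tendsto _).comp hlim
      refine h1.congr fun n => ?_
      simp [(hx n).2]
    have hlim2 : Tendsto (fun n => d (x n)) atTop (𝓝 q.2) := by
      have h1 := (continuous_snd.tendsto _).comp hlim
      refine h1.congr fun n => ?_
      simp [(hx n).2]
    have hlim3 : Tendsto (fun n => th (x n)) atTop (𝓝 0) := by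
      have h1 := ((f.continuous.tendsto _).comp hlim2).sub
        (thetaA_cont (fun n => hD _ (x n).2) hqM hlim1 e)
      rw [hqe, sub_self] at h1
      refine h1.congr fun n => ?_
      rw [hth]
      rfl
    have hlim4 : Tendsto (fun n => (x n : H →L[ℂ] H) S.Ω) atTop (𝓝 (q.1 S.Ω)) :=
      ((ContinuousLinearMap.apply ℂ H S.Ω).continuous.tendsto _).comp hlim1
    obtain ⟨C, hC⟩ : ∃ C : ℝ, ∀ n, ‖(x n : H →L[ℂ] H)‖ ≤ C := by
      obtain ⟨C, hC⟩ := (Metric.isBounded_range_of_tendsto _ hlim1).exists_norm_le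
      exact ⟨C, fun n => hC _ ⟨n, rfl⟩⟩
    exact (hGr1.ext_mem (fun n => (x n : H →L[ℂ] H)) (fun n => th (x n)) q.1 0 C
      (fun n => hGr2 (x n)) hC hqM hlim4 hlim3).1
  · intro E hE p hp
    have hcl2 : IsClosed {q : H × K | E q.2 = 0} :=
      isClosed_eq (E.continuous.comp continuous_snd) continuous_const
    have hsub : dGraph S D th ⊆ {q : H × K | E q.2 = 0} := by
      rintro _ ⟨x, rfl⟩
      change E (th x) = 0
      rw [hth]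
      exact hE x
    exact hcl2.closure_subset_iff.2 hsub (hGr3 p hp)

theorem theta_gr (D : StarSubalgebra ℂ (H →L[ℂ] H)) (hD : ∀ x ∈ D, x ∈ S.M)
    (hdense : Dense {ξ : H | ∃ x ∈ D, x S.Ω = ξ}) (d : D →ₗ[ℂ] K)
    (leib : ∀ x y : D, d (x * y) = S.l (x : H →L[ℂ] H) (d y) + S.r (y : H →L[ℂ] H) (d x))
    {f : K →L[ℂ] K} (hf : f ∈ (NK S).commutant)
    (hcl : ∀ ξ : K, ((0 : H), ξ) ∈ closure (dGraph S D ((f : K →ₗ[ℂ] K) ∘ₗ d)) → ξ = 0)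
    (happ : ∀ ε : ℝ, 0 < ε → ∃ C : ℝ, ∀ g ∈ S.M, ‖g‖ ≤ 1 →
      ∃ x : D, ‖(x : H →L[ℂ] H) S.Ω - g S.Ω‖ ≤ ε ∧ ‖d x‖ ≤ C)
    {e : K} (he : Bv S e) :
    ∃ Gr : Submodule ℂ ((H →L[ℂ] H) × K), BClosed S Gr ∧
      (∀ x : D, ((x : H →L[ℂ] H), f (d x) - br S (x : H →L[ℂ] H) e) ∈ Gr) ∧ UW S Gr ∧
      (∀ κ : K, (∀ (z : K) (ζ : H), IsAdj S Gr z ζ → ⟪κ, z⟫_ℂ = 0) → κ = 0) ∧
      ((1 : H →L[ℂ] H), (0 : K)) ∈ Gr ∧
      (∀ q ∈ Xd D d, f q.2 = br S q.1 e → (q.1, (0 : K)) ∈ Gr) := by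
  obtain ⟨Gr, h1, h2, h3, h4, h5, h6, -⟩ := theta_gr' D hD hdense d leib hf hcl happ he
  exact ⟨Gr, h1, h2, h3, h4, h5, h6⟩

end

end Pool.H62.MC
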