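import Pool.Agent.H62.MC.ExtU
import Pool.Agent.H62.MC.ThetaA

/-!
# THETAU: the derivation `θ x = f (d x) - [x, e]`, without closability
-/

namespace Pool.H62.MC

open scoped InnerProductSpace TensorProduct ComplexConjugate
open Filter Topology Pool.H62.UC

noncomputable section

variable {H : Type*} [NormedAddCommGroup H] [InnerProductSpace ℂ H] [CompleteSpace H]
variable {K : Type*} [NormedAddCommGroup K] [InnerProductSpace ℂ K] [CompleteSpace K]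

variable {S : Std H K}

/-- a vector orthogonal to the domain of the adjoint is in the closure of the graph over `0` -/
theorem thetaU_adj (D : StarSubalgebra ℂ (H →L[ℂ] H)) (th : D →ₗ[ℂ] K)
    (Gr : Submodule ℂ ((H →L[ℂ] H) × K))
    (hGr : ∀ p ∈ Gr, (p.1 S.Ω, p.2) ∈ closure (dGraph S D th)) (κ : K)
    (hκ : ∀ (z : K) (ζ : H), IsAdj S Gr z ζ → ⟪κ, z⟫_ℂ = 0) :
    ((0 : H), κ) ∈ closure (dGraph S D th) := by
  obtain ⟨G0, hG0⟩ : ∃ G0 : Submodule ℂ (WithLp 2 (H × K)), ∀ v : WithLp 2 (H × K),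
      v ∈ G0 ↔ (v.fst, v.snd) ∈ dGraph S D th := by
    refine ⟨⟨⟨⟨{v | (v.fst, v.snd) ∈ dGraph S D th}, ?_⟩, ?_⟩, ?_⟩, fun v => Iff.rfl⟩
    · rintro a b ⟨x, hx⟩ ⟨y, hy⟩
      refine ⟨x + y, ?_⟩
      rw [Prod.mk.injEq] at hx hy
      rw [WithLp.add_fst, WithLp.add_snd, hx.1, hx.2, hy.1, hy.2]
      simp
    · exact ⟨0, by simp⟩
    · rintro c a ⟨x, hx⟩
      refine ⟨c • x, ?_⟩
      rw [Prod.mk.injEq] at hx
      rw [WithLp.smul_fst, WithLp.smul_snd, hx.1, hx.2]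
      simp
  have hcls : ∀ v : WithLp 2 (H × K), v ∈ G0.topologicalClosure →
      (v.fst, v.snd) ∈ closure (dGraph S D th) := by
    intro v hv
    have hc : Continuous fun v : WithLp 2 (H × K) => (v.fst, v.snd) :=
      (WithLp.prod_continuous_ofLp 2 H K)
    have h1 : v ∈ closure (G0 : Set (WithLp 2 (H × K))) := hv
    exact map_mem_closure (f := fun v : WithLp 2 (H × K) => (v.fst, v.snd)) hc h1
      (fun w hw => (hG0 w).1 hw)
  have hgoal : WithLp.toLp 2 ((0 : H), κ) ∈ G0.topologicalClosure := by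
    rw [← Submodule.orthogonal_orthogonal_eq_closure, Submodule.mem_orthogonal]
    intro v hv
    rw [Submodule.mem_orthogonal] at hv
    have hv1 : ∀ x : D, ⟪(x : H →L[ℂ] H) S.Ω, v.fst⟫_ℂ + ⟪th x, v.snd⟫_ℂ = 0 := by
      intro x
      have h1 := hv (WithLp.toLp 2 ((x : H →L[ℂ] H) S.Ω, th x)) ((hG0 _).2 ⟨x, rfl⟩)
      rw [WithLp.prod_inner_apply] at h1
      exact h1
    have hadj : IsAdj S Gr v.snd (-v.fst) := by
      intro p hp
      have hcl2 : IsClosed {q : H × K | ⟪q.2, v.snd⟫_ℂ = ⟪q.1, -v.fst⟫_ℂ} := by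
        refine isClosed_eq ?_ ?_
        · exact (continuous_snd.inner continuous_const)
        · exact (continuous_fst.inner continuous_const)
      have hsub : dGraph S D th ⊆ {q : H × K | ⟪q.2, v.snd⟫_ℂ = ⟪q.1, -v.fst⟫_ℂ} := by
        rintro _ ⟨x, rfl⟩
        change ⟪th x, v.snd⟫_ℂ = ⟪(x : H →L[ℂ] H) S.Ω, -v.fst⟫_ℂ
        rw [inner_neg_right]
        exact eq_neg_of_add_eq_zero_right (hv1 x)
      exact hcl2.closure_subset_iff.2 hsub (hGr p hp)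
    have h2 := hκ v.snd _ hadj
    rw [WithLp.prod_inner_apply]
    change ⟪v.fst, (0 : H)⟫_ℂ + ⟪v.snd, κ⟫_ℂ = 0
    rw [inner_zero_right, zero_add, ← inner_conj_symm, h2, map_zero]
  exact hcls _ hgoal

theorem theta_grU (D : StarSubalgebra ℂ (H →L[ℂ] H)) (hD : ∀ x ∈ D, x ∈ S.M)
    (d : D →ₗ[ℂ] K)
    (leib : ∀ x y : D, d (x * y) = S.l (x : H →L[ℂ] H) (d y) + S.r (y : H →L[ℂ] H) (d x))
    {f : K →L[ℂ] K} (hf : f ∈ (NK S).commutant)
    (happ : ∀ ε : ℝ, 0 < ε → ∃ C : ℝ, ∀ g ∈ S.M, ‖g‖ ≤ 1 →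
      ∃ x : D, ‖(x : H →L[ℂ] H) S.Ω - g S.Ω‖ ≤ ε ∧ ‖d x‖ ≤ C)
    {e : K} (he : Bv S e) :
    ∃ Gr : Submodule ℂ ((H →L[ℂ] H) × K), BRel S Gr ∧
      (∀ x : D, ((x : H →L[ℂ] H), f (d x) - br S (x : H →L[ℂ] H) e) ∈ Gr) ∧ UW S Gr ∧
      (∀ κ : K, (∀ (z : K) (ζ : H), IsAdj S Gr z ζ → ⟪κ, z⟫_ℂ = 0) →
        ((0 : H), κ) ∈ closure (dGraph S D ((f : K →ₗ[ℂ] K) ∘ₗ d))) ∧
      ((1 : H →L[ℂ] H), (0 : K)) ∈ Gr ∧
      (∀ q ∈ Xd D d, f q.2 = br S q.1 e → (q.1, (0 : K)) ∈ Gr) ∧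
      (∀ E : K →L[ℂ] K, (∀ x : D, E (f (d x) - br S (x : H →L[ℂ] H) e) = 0) →
        ∀ p ∈ Gr, E p.2 = 0) := by
  obtain ⟨C1, hC1, hbr⟩ := br_norm he
  obtain ⟨th, hth⟩ : ∃ th : D →ₗ[ℂ] K, ∀ x : D, th x = f (d x) - br S (x : H →L[ℂ] H) e :=
    ⟨(f : K →ₗ[ℂ] K) ∘ₗ d - thetaA_br S D hD e, fun x => rfl⟩
  have hleib : ∀ x y : D,
      th (x * y) = S.l (x : H →L[ℂ] H) (th y) + S.r (y : H →L[ℂ] H) (th x) := by
    intro x y
    have h1 : ((x * y : D) : H →L[ℂ] H) = (x : H →L[ℂ] H) * (y : H →L[ℂ] H) := rfl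
    rw [hth, hth, hth, leib, h1, thetaA_leib _ _ (hD x x.2) (hD y y.2), map_add,
      cc_l hf (hD x x.2), cc_r hf (hD y y.2), map_sub, map_sub]
    abel
  have hclos : ∀ ξ : K, ((0 : H), ξ) ∈ closure (dGraph S D th) →
      ((0 : H), ξ) ∈ closure (dGraph S D ((f : K →ₗ[ℂ] K) ∘ₗ d)) := by
    intro ξ hξ
    obtain ⟨u, hu, hlim⟩ := mem_closure_iff_seq_limit.1 hξ
    choose x hx using hu
    have hlim1 : Tendsto (fun n => (x n : H →L[ℂ] H) S.Ω) atTop (𝓝 0) := by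
      have h1 := (continuous_fst.tendsto _).comp hlim
      refine h1.congr fun n => ?_
      simp [hx n]
    have hlim2 : Tendsto (fun n => th (x n)) atTop (𝓝 ξ) := by
      have h1 := (continuous_snd.tendsto _).comp hlim
      refine h1.congr fun n => ?_
      simp [hx n]
    have hlim3 : Tendsto (fun n => br S (x n : H →L[ℂ] H) e) atTop (𝓝 0) := by
      rw [tendsto_zero_iff_norm_tendsto_zero]
      have h1 : Tendsto (fun n => C1 * ‖(x n : H →L[ℂ] H) S.Ω‖) atTop (𝓝 0) := by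
        have h2 := (tendsto_zero_iff_norm_tendsto_zero.1 hlim1).const_mul C1
        rwa [mul_zero] at h2
      exact squeeze_zero (fun n => norm_nonneg _) (fun n => hbr _ (hD _ (x n).2)) h1
    have hlim4 : Tendsto (fun n => f (d (x n))) atTop (𝓝 ξ) := by
      have h1 := hlim2.add hlim3
      rw [add_zero] at h1
      refine h1.congr fun n => ?_
      rw [hth, sub_add_cancel]
    refine mem_closure_iff_seq_limit.2
      ⟨fun n => ((x n : H →L[ℂ] H) S.Ω, f (d (x n))), fun n => ⟨x n, rfl⟩, ?_⟩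
    exact hlim1.prodMk_nhds hlim4
  obtain ⟨Gr, hGr1, hGr2, hGr3⟩ := ext_existsU S D hD th hleib
  refine ⟨Gr, hGr1, fun x => by rw [← hth]; exact hGr2 x, ?_, ?_, ?_, ?_, ?_⟩
  · intro ε hε
    obtain ⟨C0, hC0⟩ := happ ε hε
    refine ⟨‖f‖ * C0 + C1 * (1 + ε), fun g hg hg1 => ?_⟩
    obtain ⟨x, hx1, hx2⟩ := hC0 g hg hg1
    refine ⟨((x : H →L[ℂ] H), th x), hGr2 x, hx1, ?_⟩
    change ‖th x‖ ≤ _
    rw [hth]
    refine (norm_sub_le _ _).trans ?_
    have h1 : ‖f (d x)‖ ≤ ‖f‖ * C0 :=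
      (f.le_opNorm _).trans (mul_le_mul_of_nonneg_left hx2 (norm_nonneg _))
    have h2 : ‖(x : H →L[ℂ] H) S.Ω‖ ≤ 1 + ε := by
      have h3 : (x : H →L[ℂ] H) S.Ω = ((x : H →L[ℂ] H) S.Ω - g S.Ω) + g S.Ω := by abel
      have h4 := norm_add_le ((x : H →L[ℂ] H) S.Ω - g S.Ω) (g S.Ω)
      rw [← h3] at h4
      have h5 := S.norm_le_norm g
      linarith
    have h6 : ‖br S (x : H →L[ℂ] H) e‖ ≤ C1 * (1 + ε) :=
      (hbr _ (hD _ x.2)).trans (mul_le_mul_of_nonneg_left h2 hC1)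
    linarith
  · exact fun κ hκ => hclos κ (thetaU_adj D th Gr hGr3 κ hκ)
  · have hd1 : d 1 = 0 := by
      have h1 := leib 1 1
      rw [mul_one] at h1
      have h2 : ((1 : D) : H →L[ℂ] H) = 1 := rfl
      rw [h2, S.l_one, S.r_one] at h1
      have h3 : d 1 = d 1 + d 1 := h1
      simpa using h3
    have h1 := hGr2 1
    rw [hth, hd1, map_zero] at h1
    have h2 : ((1 : D) : H →L[ℂ] H) = 1 := rfl
    have h3 : br S (1 : H →L[ℂ] H) e = 0 := by
      unfold br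
      rw [S.l_one, S.r_one, sub_self]
    rw [h2, h3, sub_zero] at h1
    exact h1
  · intro q hq hqe
    have hqM := (Xd_mem hD hq).1
    obtain ⟨u, hu, hlim⟩ := mem_closure_iff_seq_limit.1 hq
    choose x hx using hu
    have hlim1 : Tendsto (fun n => (x n : H →L[ℂ] H)) atTop (𝓝 q.1) := by
      have h1 := (continuous_fst.tendsto _).comp hlim
      refine h1.congr fun n => ?_
      simp [(hx n).2]
    have hlim2 : Tendsto (fun n => d (x n)) atTop (𝓝 q.2) := by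
      have h1 := (continuous_snd.tendsto _).comp hlim
      refine h1.congr fun n => ?_
      simp [(hx n).2]
    have hlim3 : Tendsto (fun n => th (x n)) atTop (𝓝 0) := by
      have h1 := ((f.continuous.tendsto _).comp hlim2).sub
        (thetaA_cont (fun n => hD _ (x n).2) hqM hlim1 e)
      rw [hqe, sub_self] at h1
      refine h1.congr fun n => ?_
      rw [hth]
      rfl
    have hlim4 : Tendsto (fun n => (x n : H →L[ℂ] H) S.Ω) atTop (𝓝 (q.1 S.Ω)) :=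
      ((ContinuousLinearMap.apply ℂ H S.Ω).continuous.tendsto _).comp hlim1
    obtain ⟨C, hC⟩ : ∃ C : ℝ, ∀ n, ‖(x n : H →L[ℂ] H)‖ ≤ C := by
      obtain ⟨C, hC⟩ := (Metric.isBounded_range_of_tendsto _ hlim1).exists_norm_le
      exact ⟨C, fun n => hC _ ⟨n, rfl⟩⟩
    exact hGr1.ext_mem (fun n => (x n : H →L[ℂ] H)) (fun n => th (x n)) q.1 0 C
      (fun n => hGr2 (x n)) hC hqM hlim4 hlim3
  · intro E hE p hp
    have hcl2 : IsClosed {q : H × K | E q.2 = 0} :=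
      isClosed_eq (E.continuous.comp continuous_snd) continuous_const
    have hsub : dGraph S D th ⊆ {q : H × K | E q.2 = 0} := by
      rintro _ ⟨x, rfl⟩
      change E (th x) = 0
      rw [hth]
      exact hE x
    exact hcl2.closure_subset_iff.2 hsub (hGr3 p hp)

end

end Pool.H62.MC
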