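import Pool.Agent.H62.MC.PairE
import Pool.Agent.H62.MC.ThetaU
import Pool.Agent.H62.MC.ExpU
import Pool.Agent.H62.UC.OreB
import Pool.Agent.H62.UC.Jop

/-!
# PAIRU: a fraction implementing a closable derivation up to closure in measure, any finite `M`
-/

namespace Pool.H62.MC

open scoped InnerProductSpace TensorProduct ComplexConjugate
open Filter Topology Pool.H62.UC

noncomputable section

variable {H : Type*} [NormedAddCommGroup H] [InnerProductSpace ℂ H] [CompleteSpace H]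
variable {K : Type*} [NormedAddCommGroup K] [InnerProductSpace ℂ K] [CompleteSpace K]

variable {S : Std H K} {e : H →L[ℂ] H}

/-- the closure of the graph is a linear space -/
theorem pairu_lin (D : StarSubalgebra ℂ (H →L[ℂ] H)) (d : D →ₗ[ℂ] K) {p q : H × K}
    (hp : p ∈ closure (dGraph S D d)) (hq : q ∈ closure (dGraph S D d)) (a b : ℂ) :
    a • p + b • q ∈ closure (dGraph S D d) := by
  obtain ⟨Gs, hGs⟩ : ∃ Gs : Submodule ℂ (H × K), (Gs : Set (H × K)) = dGraph S D d := by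
    refine ⟨⟨⟨⟨dGraph S D d, ?_⟩, ?_⟩, ?_⟩, rfl⟩
    · rintro a b ⟨x, rfl⟩ ⟨y, rfl⟩
      exact ⟨x + y, by simp⟩
    · exact ⟨0, by simp; rfl⟩
    · rintro c a ⟨x, rfl⟩
      exact ⟨c • x, by simp⟩
  rw [← hGs] at hp hq ⊢
  exact Gs.topologicalClosure.add_mem (Gs.topologicalClosure.smul_mem a hp)
    (Gs.topologicalClosure.smul_mem b hq)

/-- enlarge the denominator -/
theorem pairu_mul (D : StarSubalgebra ℂ (H →L[ℂ] H)) (d : D →ₗ[ℂ] K) (B g h : K →L[ℂ] K)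
    {κ : K} (hg : ((0 : H), g κ) ∈ closure (dGraph S D (((g * B : K →L[ℂ] K) : K →ₗ[ℂ] K) ∘ₗ d))) :
    ((0 : H), (h * g) κ) ∈
      closure (dGraph S D (((h * g * B : K →L[ℂ] K) : K →ₗ[ℂ] K) ∘ₗ d)) := by
  have hc : Continuous fun v : H × K => (v.1, h v.2) :=
    continuous_fst.prodMk (h.continuous.comp continuous_snd)
  exact map_mem_closure (f := fun v : H × K => (v.1, h v.2)) hc hg (by
    rintro _ ⟨x, rfl⟩
    exact ⟨x, rfl⟩)

theorem theta_mainU (he : Cen S e)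
    (hcomp : IsCompact (closure {ξ : H | ∃ u ∈ UM S, u (e S.Ω) = ξ}))
    (D : StarSubalgebra ℂ (H →L[ℂ] H)) (hD : ∀ x ∈ D, x ∈ S.M) (d : D →ₗ[ℂ] K)
    (leib : ∀ x y : D, d (x * y) = S.l (x : H →L[ℂ] H) (d y) + S.r (y : H →L[ℂ] H) (d x))
    (happ : ∀ ε : ℝ, 0 < ε → ∃ C : ℝ, ∀ g ∈ S.M, ‖g‖ ≤ 1 →
      ∃ x : D, ‖(x : H →L[ℂ] H) S.Ω - g S.Ω‖ ≤ ε ∧ ‖d x‖ ≤ C)
    {q : (H →L[ℂ] H) × K} (hq : q ∈ Xd D d) (hne : NoEigE e q.1)
    {B : K →L[ℂ] K} (hB : B ∈ (NK S).commutant) (hBi : ∀ ξ, B ξ = 0 → ξ = 0) {c : K}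
    (hPB : ∀ x : D, PP S e (B (d x)) = PP S e (br S (x : H →L[ℂ] H) c))
    (hBa : B q.2 = br S q.1 c)
    (b : D) (hb : IsSelfAdjoint (b : H →L[ℂ] H)) :
    ∃ g ∈ (NK S).commutant, (∀ ξ, g ξ = 0 → ξ = 0) ∧
      ((0 : H), g (B (d b) - br S (b : H →L[ℂ] H) c)) ∈
        closure (dGraph S D (((g * B : K →L[ℂ] K) : K →ₗ[ℂ] K) ∘ₗ d)) := by
  obtain ⟨haM, hsa⟩ := Xd_mem hD hq
  have hbM := hD b b.2
  obtain ⟨g1, hg1, hg1i, hg1b⟩ := exists_bv S c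
  obtain ⟨g2, hg2, hg2i, hg2b⟩ := exists_bv S (g1 (B (d b)))
  have hPC : PP S e ∈ (NK S).commutant := he.PP_comm
  obtain ⟨g, hgdef⟩ : ∃ g, g = g2 * g1 := ⟨_, rfl⟩
  have hg : g ∈ (NK S).commutant := hgdef ▸ mul_mem hg2 hg1
  have hgi : ∀ ξ, g ξ = 0 → ξ = 0 := by
    intro ξ hξ
    rw [hgdef] at hξ
    exact hg1i _ (hg2i _ hξ)
  have hgc : Bv S (g c) := by
    rw [hgdef]
    exact bv_comm hg2 hg1b
  have hgb : Bv S (g (B (d b))) := by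
    rw [hgdef]
    exact hg2b
  have hf : g * B ∈ (NK S).commutant := mul_mem hg hB
  obtain ⟨Gr, hG, hGd, hUW, hadj, h1, hX, hE⟩ := theta_grU D hD d leib hf happ hgc
  -- the derivatives are in `(1 - P) K`
  have hP0 : ∀ p ∈ Gr, PP S e p.2 = 0 := by
    refine hE _ fun x => ?_
    have hxM := hD x x.2
    show PP S e (g (B (d x)) - br S (x : H →L[ℂ] H) (g c)) = 0
    rw [← br_comm hg hxM, ← map_sub, ← cc hg he.PP_mem, map_sub, hPB, sub_self, map_zero]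
  -- `(a, 0)` is in the graph
  have ha0 : (q.1, (0 : K)) ∈ Gr := by
    refine hX q hq ?_
    show g (B q.2) = _
    rw [hBa, br_comm hg haM]
  obtain ⟨F, hFn, hF⟩ := exists_lettE he haM hsa
    (fun κ hκ => (inj_of_noeigE he haM hsa hne hκ).1) hcomp
    (fun s => exp_zeroU hG h1 ha0 s)
  -- the derivative of `b` is a bounded vector
  have hb1 := hGd b
  have hbv : Bv S ((g * B) (d b) - br S (b : H →L[ℂ] H) (g c)) := by
    rw [sub_eq_add_neg, ← neg_one_smul ℂ (br S _ _)]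
    exact bv_add hgb (bv_smul _ (bv_br hbM hgc))
  obtain ⟨C, hC⟩ := exp_bvU hG h1 hb1 hbv
  obtain ⟨θ, hθ⟩ : ∃ θ, θ = (g * B) (d b) - br S (b : H →L[ℂ] H) (g c) := ⟨_, rfl⟩
  rw [← hθ] at hC
  have hmem : ∀ s : ℝ, |s| ≤ 1 → ∃ δ : K, ‖δ - (Complex.I * (s : ℂ)) • θ‖ ≤ C * s ^ 2 ∧
      ((0 : H), δ) ∈ closure (dGraph S D (((g * B : K →L[ℂ] K) : K →ₗ[ℂ] K) ∘ₗ d)) := by
    intro s hs
    obtain ⟨δ, h2, -, h3⟩ := hC s hs
    obtain ⟨δ', h4, h5, -⟩ := hC (-s) (by rwa [abs_neg])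
    rw [← star_uexp hb] at h4
    refine ⟨δ, h3, hadj δ fun z ζ hz => ?_⟩
    exact coreE he hG.mem hG.leib h1 hP0 hUW F hF ⟨uexp_mem S _ hbM s, uexp_unitary s _ hb⟩
      h2 h4 h5 hz
  have hmem2 : ∀ s : ℝ, 0 < s → s ≤ 1 → ∃ δ : K, ‖δ - θ‖ ≤ C * s ∧
      ((0 : H), δ) ∈ closure (dGraph S D (((g * B : K →L[ℂ] K) : K →ₗ[ℂ] K) ∘ₗ d)) := by
    intro s hs0 hs1
    obtain ⟨δ, h2, h3⟩ := hmem s (by rw [abs_of_pos hs0]; exact hs1)
    have hI : (Complex.I * (s : ℂ)) ≠ 0 :=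
      mul_ne_zero Complex.I_ne_zero (Complex.ofReal_ne_zero.2 hs0.ne')
    refine ⟨(Complex.I * (s : ℂ))⁻¹ • δ, ?_, ?_⟩
    · have h4 : (Complex.I * (s : ℂ))⁻¹ • δ - θ =
          (Complex.I * (s : ℂ))⁻¹ • (δ - (Complex.I * (s : ℂ)) • θ) := by
        rw [smul_sub, smul_smul, inv_mul_cancel₀ hI, one_smul]
      rw [h4, norm_smul, norm_inv, norm_mul, Complex.norm_I, one_mul, Complex.norm_real,
        Real.norm_eq_abs, abs_of_pos hs0, inv_mul_le_iff₀ hs0]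
      calc ‖δ - (Complex.I * (s : ℂ)) • θ‖ ≤ C * s ^ 2 := h2
        _ = s * (C * s) := by ring
    · have h4 := pairu_lin D _ h3 h3 (Complex.I * (s : ℂ))⁻¹ 0
      rw [zero_smul, add_zero] at h4
      have h5 : (Complex.I * (s : ℂ))⁻¹ • ((0 : H), δ) =
          ((0 : H), (Complex.I * (s : ℂ))⁻¹ • δ) := by
        rw [Prod.smul_mk, smul_zero]
      rw [h5] at h4
      exact h4
  refine ⟨g, hg, hgi, ?_⟩
  have hfin : ((0 : H), θ) ∈ closure (dGraph S D (((g * B : K →L[ℂ] K) : K →ₗ[ℂ] K) ∘ₗ d)) := by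
    rw [← isClosed_closure.closure_eq, Metric.mem_closure_iff]
    intro ε hε
    obtain ⟨s, hs0, hs1, hs2⟩ : ∃ s : ℝ, 0 < s ∧ s ≤ 1 ∧ C * s < ε := by
      refine ⟨min 1 (ε / (|C| + 1) / 2), by positivity, min_le_left _ _, ?_⟩
      have h2 : C * min 1 (ε / (|C| + 1) / 2) ≤ (|C| + 1) * (ε / (|C| + 1) / 2) := by
        refine mul_le_mul ((le_abs_self C).trans (by linarith)) (min_le_right _ _) (by positivity)
          (by positivity)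
      have h3 : (|C| + 1) * (ε / (|C| + 1) / 2) = ε / 2 := by
        have : |C| + 1 ≠ 0 := by positivity
        field_simp
      linarith
    obtain ⟨δ, h2, h3⟩ := hmem2 s hs0 hs1
    refine ⟨((0 : H), δ), h3, ?_⟩
    rw [dist_comm, dist_eq_norm, Prod.mk_sub_mk, sub_self, Prod.norm_mk, norm_zero,
      max_eq_right (norm_nonneg _)]
    exact h2.trans_lt hs2
  have h2 : g (B (d b) - br S (b : H →L[ℂ] H) c) = θ := by
    rw [hθ, map_sub, br_comm hg hbM]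
    rfl
  rw [h2]
  exact hfin

/-- the vectors `κ` such that `g κ` is in the closure of `g B d` over `0`, for an injective `g` -/
theorem pairu_comb (D : StarSubalgebra ℂ (H →L[ℂ] H)) (d : D →ₗ[ℂ] K) (B : K →L[ℂ] K)
    {κ1 κ2 : K}
    (h1 : ∃ g ∈ (NK S).commutant, (∀ ξ, g ξ = 0 → ξ = 0) ∧
      ((0 : H), g κ1) ∈ closure (dGraph S D (((g * B : K →L[ℂ] K) : K →ₗ[ℂ] K) ∘ₗ d)))
    (h2 : ∃ g ∈ (NK S).commutant, (∀ ξ, g ξ = 0 → ξ = 0) ∧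
      ((0 : H), g κ2) ∈ closure (dGraph S D (((g * B : K →L[ℂ] K) : K →ₗ[ℂ] K) ∘ₗ d)))
    (a b : ℂ) :
    ∃ g ∈ (NK S).commutant, (∀ ξ, g ξ = 0 → ξ = 0) ∧
      ((0 : H), g (a • κ1 + b • κ2)) ∈
        closure (dGraph S D (((g * B : K →L[ℂ] K) : K →ₗ[ℂ] K) ∘ₗ d)) := by
  obtain ⟨g1, hg1, hg1i, k1⟩ := h1
  obtain ⟨g2, hg2, hg2i, k2⟩ := h2
  obtain ⟨P, hP, Q, hQ, hPi, hPQ⟩ := ore_left (NK S).commutant (w0 S)
    (isST_of (NK S) (w0 S) (isTV_NK S)).2 g2 g1 hg2 hg1 hg2i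
  have m1 := pairu_mul D d B g1 P k1
  have m2 := pairu_mul D d B g2 Q k2
  rw [← hPQ] at m2
  refine ⟨P * g1, mul_mem hP hg1, fun ξ hξ => hg1i _ (hPi _ hξ), ?_⟩
  have h3 := pairu_lin D _ m1 m2 a b
  have h4 : a • ((0 : H), (P * g1) κ1) + b • ((0 : H), (P * g1) κ2) =
      ((0 : H), (P * g1) (a • κ1 + b • κ2)) := by
    rw [map_add, map_smul, map_smul, Prod.smul_mk, Prod.smul_mk, Prod.mk_add_mk, smul_zero,
      smul_zero, add_zero]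
  rw [h4] at h3
  exact h3

theorem mc_pairU (D : StarSubalgebra ℂ (H →L[ℂ] H)) (hD : ∀ x ∈ D, x ∈ S.M)
    (hgen : ∀ T : H →L[ℂ] H, (∀ x ∈ D, x * T = T * x) → T ∈ S.M.commutant)
    (d : D →ₗ[ℂ] K)
    (leib : ∀ x y : D, d (x * y) = S.l (x : H →L[ℂ] H) (d y) + S.r (y : H →L[ℂ] H) (d x))
    (closable : ∀ ξ : K, ((0 : H), ξ) ∈ closure (dGraph S D d) → ξ = 0)
    (St : ℝ → H →L[ℂ] H) (hH : Heat (dGraph S D d) St)
    (hun : ∀ ε : ℝ, 0 < ε → ∃ t₀ : ℝ, 0 < t₀ ∧ ∀ t : ℝ, 0 < t → t ≤ t₀ → ∀ g ∈ S.M, ‖g‖ ≤ 1 →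
      ‖St t (g S.Ω) - g S.Ω‖ ≤ ε) :
    ∃ A ∈ NK S, ∃ β : K, ∃ B ∈ (NK S).commutant, ∃ c : K, (∀ ξ, A ξ = 0 → ξ = 0) ∧
      (∀ ξ, B ξ = 0 → ξ = 0) ∧ A c = B β ∧ ∀ x : D, ∃ g ∈ (NK S).commutant,
        (∀ ξ, g ξ = 0 → ξ = 0) ∧ ((0 : H), g (B (d x) - br S (x : H →L[ℂ] H) c)) ∈
          closure (dGraph S D (((g * B : K →L[ℂ] K) : K →ₗ[ℂ] K) ∘ₗ d)) := by
  have hdense := dense_of_gen S D hgen
  obtain ⟨Gr, hG, hd, -⟩ := ext_exists S D hD d leib closable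
  obtain ⟨e, hep, heM, hec, ⟨F, hF, hFw⟩, hcomp⟩ := dec_ultra S
  obtain ⟨v, hv, hw⟩ := dec_seq S e hep heM hec F hF hFw
  have he : Cen S e := ⟨hep, heM, hec⟩
  set P0 : Set ((H →L[ℂ] H) × K) := {p | ∃ x : D, p = ((x : H →L[ℂ] H), d x)} with hP0
  have hd1 : d 1 = 0 := by
    have h := leib 1 1
    have e1 : ((1 : D) : H →L[ℂ] H) = 1 := rfl
    rw [mul_one, e1, Std.l_one, Std.r_one] at h
    simpa using h
  have h10 : ((1 : H →L[ℂ] H), (0 : K)) ∈ Gr := by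
    have h := hd 1
    rw [hd1] at h
    exact h
  obtain ⟨T, hT, hTp, hTM, hTc, hTe, hker⟩ := central_compact S e hep heM hec hcomp
  obtain ⟨z, hz, hzM, hzc, -, hzf, hzt⟩ := atoms S e hep heM hec T hT hTp hTM hTc hTe hker
  have hblk : ∀ k, ∃ w ∈ S.M, (∀ x ∈ S.M, w * x = x * w) ∧ w.IsPositive ∧
      (∀ ξ, w ξ = 0 → z k ξ = 0) ∧
      ∃ η : K, ∀ x : D, S.r w (S.l (z k) (S.r (z k) (d x))) =
        S.l (x : H →L[ℂ] H) η - S.r (x : H →L[ℂ] H) η := by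
    intro k
    refine blk S (z k) (hz k) (hzM k) (hzc k) (hzf k) D hD hgen hdense d leib ?_
    intro x hx
    exact loc_star S Gr hG h10 (z k) (hz k) (hzM k) (hzc k) x (d x) (d (star x)) (hd x)
      (hd (star x)) hx
  choose w hwM hwc hwp hwk η hη using hblk
  obtain ⟨A3, hA3, hA3', kA3, β3, q3⟩ := at_block S e hep heM hec z w η hz hzM hzc hzt hwM hwc hwp
    hwk P0 (by rintro k p ⟨x, rfl⟩; exact hη k x)
  have q3' : ∀ x : D, A3 (d x) = br S (x : H →L[ℂ] H) β3 := fun x => q3 _ ⟨x, rfl⟩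
  obtain ⟨q, hq, hne⟩ := exists_noeigE he v hv hw D hD hdense d
  obtain ⟨haM, hsa⟩ := Xd_mem hD hq
  obtain ⟨P, hPdef⟩ : ∃ P, P = PP S e := ⟨_, rfl⟩
  have hPN : P ∈ NK S := hPdef ▸ he.PP_mem
  have hPC : P ∈ (NK S).commutant := hPdef ▸ he.PP_comm
  have hPP : ∀ κ, P (P κ) = P κ := by
    intro κ
    rw [hPdef]
    exact PP_PP he κ
  have hQN : (1 - P) ∈ NK S := sub_mem (one_mem _) hPN
  have hQC : (1 - P) ∈ (NK S).commutant := sub_mem (one_mem _) hPC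
  have hTa : S.l q.1 - S.r q.1 ∈ NK S := sub_mem (l_mem_NK S haM) (r_mem_NK S haM)
  have hPbr : ∀ x ∈ S.M, ∀ κ, P (br S x (κ - P κ)) = 0 := by
    intro x hx κ
    rw [br_comm hPC hx, map_sub, hPP, sub_self]
    unfold br
    rw [map_zero, map_zero, sub_zero]
  -- a fraction for `q.2` on `(1 - P) K`
  obtain ⟨A0, hA0def⟩ : ∃ A, A = (S.l q.1 - S.r q.1) * (1 - P) + P := ⟨_, rfl⟩
  have hA0 : A0 ∈ NK S := by
    rw [hA0def]
    exact add_mem (mul_mem hTa hQN) hPN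
  have hA0a : ∀ κ, A0 κ = br S q.1 (κ - P κ) + P κ := by
    intro κ
    rw [hA0def]
    rfl
  have hA0i : ∀ ξ, A0 ξ = 0 → ξ = 0 := by
    intro ξ hξ
    have h1 := congrArg P (hA0a ξ)
    rw [hξ, map_zero, map_add, hPbr _ haM, zero_add, hPP] at h1
    have h2 := hA0a ξ
    rw [hξ, ← h1, add_zero, sub_zero] at h2
    obtain ⟨h3, h4⟩ := inj_of_noeigE he haM hsa hne (sub_eq_zero.1 h2.symm)
    have h5 : ξ = S.l e ξ := by
      rw [S.l_sub, S.l_one] at h3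
      exact sub_eq_zero.1 h3
    have h6 : ξ = S.r e ξ := by
      rw [S.r_sub S.one_mem heM, S.r_one] at h4
      exact sub_eq_zero.1 h4
    have h7 : ξ = P ξ := by
      rw [hPdef]
      show ξ = S.l e (S.r e ξ)
      rw [← h6]
      exact h5
    rw [h7, ← h1]
  obtain ⟨B0, hB0, c0, hB0i, hB0c⟩ :=
    frac (NK S) (S.T.tp S.Ω S.Ω) (isTV_NK S) A0 hA0 hA0i q.2
  have happ : ∀ ε : ℝ, 0 < ε → ∃ C : ℝ, ∀ g ∈ S.M, ‖g‖ ≤ 1 →
      ∃ x : D, ‖(x : H →L[ℂ] H) S.Ω - g S.Ω‖ ≤ ε ∧ ‖d x‖ ≤ C := by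
    intro ε hε
    obtain ⟨C, hC⟩ := heat_approx S (dGraph S D d) St hH hun ε hε
    refine ⟨C, fun g hg hg1 => ?_⟩
    obtain ⟨p, ⟨x, rfl⟩, hp1, hp2⟩ := hC g hg hg1
    exact ⟨x, hp1, hp2⟩
  -- the fraction
  obtain ⟨A, hAdef⟩ : ∃ A, A = (1 - P) * A0 + P * A3 := ⟨_, rfl⟩
  obtain ⟨B, hBdef⟩ : ∃ B, B = (1 - P) * B0 + P * A3 := ⟨_, rfl⟩
  obtain ⟨c, hcdef⟩ : ∃ c, c = (c0 - P c0) + P β3 := ⟨_, rfl⟩
  obtain ⟨β, hβdef⟩ : ∃ β, β = (q.2 - P q.2) + P β3 := ⟨_, rfl⟩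
  have hA : A ∈ NK S := by
    rw [hAdef]
    exact add_mem (mul_mem hQN hA0) (mul_mem hPN hA3)
  have hB : B ∈ (NK S).commutant := by
    rw [hBdef]
    exact add_mem (mul_mem hQC hB0) (mul_mem hPC hA3')
  have hAa : ∀ κ, A κ = A0 (κ - P κ) + A3 (P κ) := by
    intro κ
    have h1 : A κ = (A0 κ - P (A0 κ)) + P (A3 κ) := by
      rw [hAdef]
      rfl
    rw [h1, cc hPC hA0, map_sub, cc hPC hA3]
  have hBa : ∀ κ, B κ = B0 (κ - P κ) + A3 (P κ) := by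
    intro κ
    have h1 : B κ = (B0 κ - P (B0 κ)) + P (A3 κ) := by
      rw [hBdef]
      rfl
    rw [h1, ← cc hB0 hPN, map_sub, ← cc hA3' hPN]
  have hAP : ∀ κ, P (A κ) = A3 (P κ) := by
    intro κ
    rw [hAa, map_add, cc hPC hA0, map_sub, hPP, sub_self, map_zero, zero_add, cc hPC hA3, hPP]
  have hBP : ∀ κ, P (B κ) = A3 (P κ) := by
    intro κ
    rw [hBa, map_add, ← cc hB0 hPN, map_sub, hPP, sub_self, map_zero, zero_add, ← cc hA3' hPN,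
      hPP]
  have hinj : ∀ ξ, A3 (P ξ) = 0 → P ξ = 0 := by
    intro ξ h
    have h2 : S.l e (S.r e (P ξ)) = 0 := kA3 _ h
    rw [← hPP ξ]
    nth_rewrite 1 [hPdef]
    exact h2
  have hAi : ∀ ξ, A ξ = 0 → ξ = 0 := by
    intro ξ hξ
    have h1 := hAP ξ
    rw [hξ, map_zero] at h1
    have h3 := hinj ξ h1.symm
    have h4 := hAa ξ
    rw [hξ, h3, map_zero, sub_zero, add_zero] at h4
    exact hA0i _ h4.symm
  have hBi : ∀ ξ, B ξ = 0 → ξ = 0 := by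
    intro ξ hξ
    have h1 := hBP ξ
    rw [hξ, map_zero] at h1
    have h3 := hinj ξ h1.symm
    have h4 := hBa ξ
    rw [hξ, h3, map_zero, sub_zero, add_zero] at h4
    exact hB0i _ h4.symm
  have hAc : A c = B β := by
    have h1 : c - P c = c0 - P c0 := by
      rw [hcdef, map_add, map_sub, hPP, hPP]
      abel
    have h2 : P c = P β3 := by
      rw [hcdef, map_add, map_sub, hPP, hPP]
      abel
    have h3 : β - P β = q.2 - P q.2 := by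
      rw [hβdef, map_add, map_sub, hPP, hPP]
      abel
    have h4 : P β = P β3 := by
      rw [hβdef, map_add, map_sub, hPP, hPP]
      abel
    rw [hAa, hBa, h1, h2, h3, h4, map_sub, map_sub, hB0c, ← cc hPC hA0, hB0c, cc hB0 hPN]
  have hPB : ∀ x : D, PP S e (B (d x)) = PP S e (br S (x : H →L[ℂ] H) c) := by
    intro x
    have hxM := hD x x.2
    rw [← hPdef, hBP, ← cc hPC hA3, q3', br_comm hPC hxM, br_comm hPC hxM, hcdef, map_add,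
      map_sub, hPP, hPP, sub_self, zero_add]
  have hBq : B q.2 = br S q.1 c := by
    have ha3 : A3 q.2 = br S q.1 β3 := br_closure D hD d q3' q hq
    have h1 : B0 (q.2 - P q.2) = br S q.1 (c0 - P c0) := by
      have h2 : A0 (c0 - P c0) = br S q.1 (c0 - P c0) := by
        rw [hA0a, map_sub, hPP, sub_self, add_zero, sub_zero]
      rw [← h2, map_sub, map_sub, hB0c, ← cc hPC hA0, hB0c, cc hB0 hPN]
    rw [hBa, h1, ← cc hPC hA3, ha3, br_comm hPC haM, hcdef, br_add]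
  refine ⟨A, hA, β, B, hB, c, hAi, hBi, hAc, ?_⟩
  have hsaD : ∀ b : D, IsSelfAdjoint (b : H →L[ℂ] H) → ∃ g ∈ (NK S).commutant,
        (∀ ξ, g ξ = 0 → ξ = 0) ∧ ((0 : H), g (B (d b) - br S (b : H →L[ℂ] H) c)) ∈
          closure (dGraph S D (((g * B : K →L[ℂ] K) : K →ₗ[ℂ] K) ∘ₗ d)) := by
    intro b hb
    exact theta_mainU he hcomp D hD d leib happ hq hne hB hBi hPB hBq b hb
  intro x
  set x1 : D := x + star x with hx1
  set x2 : D := Complex.I • (x - star x) with hx2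
  have e1 : IsSelfAdjoint (x1 : H →L[ℂ] H) := by
    rw [isSelfAdjoint_iff]
    show star ((x : H →L[ℂ] H) + star (x : H →L[ℂ] H)) = (x : H →L[ℂ] H) + star (x : H →L[ℂ] H)
    rw [star_add, star_star, add_comm]
  have e2 : IsSelfAdjoint (x2 : H →L[ℂ] H) := by
    rw [isSelfAdjoint_iff]
    show star (Complex.I • ((x : H →L[ℂ] H) - star (x : H →L[ℂ] H))) =
      Complex.I • ((x : H →L[ℂ] H) - star (x : H →L[ℂ] H))
    rw [star_smul, star_sub, star_star]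
    simp only [Complex.star_def, Complex.conj_I, neg_smul, smul_sub]
    abel
  have hx : x = (2⁻¹ : ℂ) • x1 + (-(Complex.I / 2) : ℂ) • x2 := by
    rw [hx1, hx2, smul_smul]
    have h1 : (-(Complex.I / 2) * Complex.I : ℂ) = 2⁻¹ := by
      have := Complex.I_mul_I
      linear_combination (-(1/2) : ℂ) * this
    rw [h1, smul_add, smul_sub]
    have h2 : (2⁻¹ : ℂ) • x + (2⁻¹ : ℂ) • x = x := by
      rw [← add_smul]; norm_num
    calc x = (2⁻¹ : ℂ) • x + (2⁻¹ : ℂ) • x := h2.symm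
      _ = _ := by abel
  have f1 := hsaD x1 e1
  have f2 := hsaD x2 e2
  have hM1 := hD x1 x1.2
  have hM2 := hD x2 x2.2
  have hxc : (x : H →L[ℂ] H) = (2⁻¹ : ℂ) • (x1 : H →L[ℂ] H) +
      (-(Complex.I / 2) : ℂ) • (x2 : H →L[ℂ] H) := congrArg (fun y : D => (y : H →L[ℂ] H)) hx
  have hdx : d x = (2⁻¹ : ℂ) • d x1 + (-(Complex.I / 2) : ℂ) • d x2 := by
    conv_lhs => rw [hx]
    rw [map_add, map_smul, map_smul]
  have hsum : B (d x) - br S (x : H →L[ℂ] H) c =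
      (2⁻¹ : ℂ) • (B (d x1) - br S (x1 : H →L[ℂ] H) c) +
      (-(Complex.I / 2) : ℂ) • (B (d x2) - br S (x2 : H →L[ℂ] H) c) := by
    rw [hdx, map_add, map_smul, map_smul, hxc]
    unfold br
    rw [S.l_add, S.l_smul, S.l_smul,
      S.r_add (S.smul_mem _ hM1) (S.smul_mem _ hM2), S.r_smul _ hM1, S.r_smul _ hM2]
    simp only [add_apply, smul_apply, smul_sub]
    abel
  rw [hsum]
  exact pairu_comb D d B f1 f2 _ _

end

end Pool.H62.MC
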