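import Pool.Agent.H62.MC.Defs

/-!
# SLICE: slices and matrix coefficients along weakly null unitaries

PROOF. `slice_left`: for `κ = tp c d`: `adjoint (tp a) (tp c d) = ⟪a, c⟫ • d` (test with `⟪e, ·⟫`,
`ContinuousLinearMap.adjoint_inner_right`, `inner_tp`), with `a = v* h`: `⟪v* h, c⟫ = ⟪h, v c⟫ → 0`.
The set of `κ` for which the claim holds is a closed subspace: `‖adjoint (tp a) κ‖ ≤ ‖a‖ ‖κ‖`
(`norm_tp`), `‖v* h‖ ≤ ‖h‖` eventually.  Use `Coarse.induction`.
`slice_right`: same with `tp.flip`: `adjoint (tp.flip b) (tp c d) = ⟪b, d⟫ • c`.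
`cross_null`: for `κ₁ = tp a b`, `κ₂ = tp c d`:
`⟪tp a b, l v (r v* (tp c d))⟫ = ⟪a, v c⟫ ⟪b, ρ(v*) d⟫`, the first factor tends to `0`, the second is
bounded by `‖b‖ ‖d‖` (`S.ρ_norm_le`).  Closed in `κ₂` for fixed `κ₁ = tp a b`, then in `κ₁`
(`‖l v (r v* κ)‖ ≤ ‖κ‖`).
-/

namespace Pool.H62.MC

open scoped InnerProductSpace TensorProduct ComplexConjugate
open Filter Topology Pool.H62.UC

noncomputable section

variable {H : Type*} [NormedAddCommGroup H] [InnerProductSpace ℂ H] [CompleteSpace H]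
variable {K : Type*} [NormedAddCommGroup K] [InnerProductSpace ℂ K] [CompleteSpace K]

variable {S : Std H K}

theorem slice_closed {V : Type*} [NormedAddCommGroup V] {ι : Type*} {F : Filter ι}
    (T : ι → K → V) (C : ℝ) (hT : ∀ᶠ i in F, ∀ x y, ‖T i x‖ ≤ ‖T i y‖ + C * ‖x - y‖) :
    IsClosed {x : K | Tendsto (fun i => ‖T i x‖) F (𝓝 0)} := by
  refine isClosed_of_closure_subset fun x hx => ?_
  show Tendsto (fun i => ‖T i x‖) F (𝓝 0)
  rw [Metric.tendsto_nhds]
  intro ε hε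
  have hC : 0 < |C| + 1 := by positivity
  obtain ⟨y, hy, hxy⟩ := Metric.mem_closure_iff.1 hx (ε / (2 * (|C| + 1))) (by positivity)
  have h1 : ∀ᶠ i in F, dist ‖T i y‖ 0 < ε / 2 := Metric.tendsto_nhds.1 hy _ (by positivity)
  filter_upwards [h1, hT] with i hi hTi
  rw [Real.dist_eq, sub_zero, abs_norm] at hi ⊢
  have h2 := hTi x y
  rw [dist_eq_norm] at hxy
  have h3 : C * ‖x - y‖ ≤ (|C| + 1) * (ε / (2 * (|C| + 1))) := by
    have h5 : C ≤ |C| + 1 := (le_abs_self C).trans (by linarith)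
    refine (mul_le_mul_of_nonneg_right h5 (norm_nonneg _)).trans ?_
    exact mul_le_mul_of_nonneg_left hxy.le hC.le
  have h4 : (|C| + 1) * (ε / (2 * (|C| + 1))) = ε / 2 := by field_simp
  rw [h4] at h3
  linarith

theorem slice_left_norm (a : H) (κ : K) :
    ‖(ContinuousLinearMap.adjoint (S.T.tp a)) κ‖ ≤ ‖a‖ * ‖κ‖ := by
  refine (ContinuousLinearMap.le_opNorm _ _).trans (mul_le_mul_of_nonneg_right ?_ (norm_nonneg _))
  rw [LinearIsometryEquiv.norm_map]
  refine ContinuousLinearMap.opNorm_le_bound _ (norm_nonneg _) fun b => ?_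
  rw [S.T.norm_tp]

theorem slice_right_norm (b : H) (κ : K) :
    ‖(ContinuousLinearMap.adjoint (S.T.tp.flip b)) κ‖ ≤ ‖b‖ * ‖κ‖ := by
  refine (ContinuousLinearMap.le_opNorm _ _).trans (mul_le_mul_of_nonneg_right ?_ (norm_nonneg _))
  rw [LinearIsometryEquiv.norm_map]
  refine ContinuousLinearMap.opNorm_le_bound _ (norm_nonneg _) fun a => ?_
  rw [ContinuousLinearMap.flip_apply, S.T.norm_tp, mul_comm]

theorem slice_left_tp (a c d : H) :
    (ContinuousLinearMap.adjoint (S.T.tp a)) (S.T.tp c d) = ⟪a, c⟫_ℂ • d := by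
  refine ext_inner_left ℂ fun e => ?_
  rw [ContinuousLinearMap.adjoint_inner_right, S.T.inner_tp, inner_smul_right]

theorem slice_right_tp (b c d : H) :
    (ContinuousLinearMap.adjoint (S.T.tp.flip b)) (S.T.tp c d) = ⟪b, d⟫_ℂ • c := by
  refine ext_inner_left ℂ fun e => ?_
  rw [ContinuousLinearMap.adjoint_inner_right, ContinuousLinearMap.flip_apply, S.T.inner_tp,
    inner_smul_right, mul_comm]

theorem slice_star (v : H →L[ℂ] H) (h c : H) : ⟪(star v) h, c⟫_ℂ = ⟪h, v c⟫_ℂ := by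
  rw [ContinuousLinearMap.star_eq_adjoint, ContinuousLinearMap.adjoint_inner_left]

theorem slice_bd {v : H →L[ℂ] H} (hv : v ∈ UM S) (h : H) : ‖(star v) h‖ ≤ ‖h‖ := by
  refine (ContinuousLinearMap.le_opNorm _ _).trans ?_
  have h1 := UM_norm S (UM_star S hv)
  calc ‖star v‖ * ‖h‖ ≤ 1 * ‖h‖ := mul_le_mul_of_nonneg_right h1 (norm_nonneg _)
    _ = ‖h‖ := one_mul _

theorem slice_left {F : Filter (H →L[ℂ] H)} (hF : ∀ᶠ v in F, v ∈ UM S)
    (hn : ∀ ξ η : H, Tendsto (fun v : H →L[ℂ] H => ⟪η, v ξ⟫_ℂ) F (𝓝 0)) (h : H) (κ : K) :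
    Tendsto (fun v : H →L[ℂ] H => ‖(ContinuousLinearMap.adjoint (S.T.tp ((star v) h))) κ‖) F
      (𝓝 0) := by
  refine S.T.induction (fun κ => Tendsto (fun v : H →L[ℂ] H =>
    ‖(ContinuousLinearMap.adjoint (S.T.tp ((star v) h))) κ‖) F (𝓝 0)) ?_ ?_ ?_ ?_ κ
  · intro c d
    simp only [slice_left_tp, slice_star, norm_smul]
    have h1 := (hn c h).norm.mul_const ‖d‖
    rwa [norm_zero, zero_mul] at h1
  · intro x y hx hy
    have h1 := hx.add hy
    rw [add_zero] at h1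
    refine squeeze_zero (fun v => norm_nonneg _) (fun v => ?_) h1
    rw [map_add]
    exact norm_add_le _ _
  · intro c x hx
    have h1 := hx.const_mul ‖c‖
    rw [mul_zero] at h1
    refine h1.congr fun v => ?_
    rw [map_smul, norm_smul]
  · refine slice_closed (fun v : H →L[ℂ] H => fun κ =>
      (ContinuousLinearMap.adjoint (S.T.tp ((star v) h))) κ) ‖h‖ ?_
    filter_upwards [hF] with v hv x y
    have h1 : (ContinuousLinearMap.adjoint (S.T.tp ((star v) h))) x =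
        (ContinuousLinearMap.adjoint (S.T.tp ((star v) h))) y +
        (ContinuousLinearMap.adjoint (S.T.tp ((star v) h))) (x - y) := by
      rw [← map_add, add_sub_cancel]
    rw [h1]
    refine (norm_add_le _ _).trans (add_le_add_right ?_ _)
    exact (slice_left_norm _ _).trans (mul_le_mul_of_nonneg_right (slice_bd hv h) (norm_nonneg _))

theorem slice_right {F : Filter (H →L[ℂ] H)} (hF : ∀ᶠ v in F, v ∈ UM S)
    (hn : ∀ ξ η : H, Tendsto (fun v : H →L[ℂ] H => ⟪η, v ξ⟫_ℂ) F (𝓝 0)) (h : H) (κ : K) :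
    Tendsto (fun v : H →L[ℂ] H => ‖(ContinuousLinearMap.adjoint (S.T.tp.flip ((star v) h))) κ‖) F
      (𝓝 0) := by
  refine S.T.induction (fun κ => Tendsto (fun v : H →L[ℂ] H =>
    ‖(ContinuousLinearMap.adjoint (S.T.tp.flip ((star v) h))) κ‖) F (𝓝 0)) ?_ ?_ ?_ ?_ κ
  · intro c d
    simp only [slice_right_tp, slice_star, norm_smul]
    have h1 := (hn d h).norm.mul_const ‖c‖
    rwa [norm_zero, zero_mul] at h1
  · intro x y hx hy
    have h1 := hx.add hy
    rw [add_zero] at h1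
    refine squeeze_zero (fun v => norm_nonneg _) (fun v => ?_) h1
    rw [map_add]
    exact norm_add_le _ _
  · intro c x hx
    have h1 := hx.const_mul ‖c‖
    rw [mul_zero] at h1
    refine h1.congr fun v => ?_
    rw [map_smul, norm_smul]
  · refine slice_closed (fun v : H →L[ℂ] H => fun κ =>
      (ContinuousLinearMap.adjoint (S.T.tp.flip ((star v) h))) κ) ‖h‖ ?_
    filter_upwards [hF] with v hv x y
    have h1 : (ContinuousLinearMap.adjoint (S.T.tp.flip ((star v) h))) x =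
        (ContinuousLinearMap.adjoint (S.T.tp.flip ((star v) h))) y +
        (ContinuousLinearMap.adjoint (S.T.tp.flip ((star v) h))) (x - y) := by
      rw [← map_add, add_sub_cancel]
    rw [h1]
    refine (norm_add_le _ _).trans (add_le_add_right ?_ _)
    exact (slice_right_norm _ _).trans (mul_le_mul_of_nonneg_right (slice_bd hv h) (norm_nonneg _))

theorem slice_lr {v : H →L[ℂ] H} (hv : v ∈ UM S) (κ : K) : ‖S.l v (S.r (star v) κ)‖ ≤ ‖κ‖ := by
  have h1 : ‖S.l v‖ ≤ 1 := (S.l_norm_le v).trans (UM_norm S hv)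
  have h2 : ‖S.r (star v)‖ ≤ 1 := (S.r_norm_le (star_mem hv.1)).trans (UM_norm S (UM_star S hv))
  calc ‖S.l v (S.r (star v) κ)‖ ≤ ‖S.l v‖ * ‖S.r (star v) κ‖ := ContinuousLinearMap.le_opNorm _ _
    _ ≤ 1 * ‖S.r (star v) κ‖ := mul_le_mul_of_nonneg_right h1 (norm_nonneg _)
    _ = ‖S.r (star v) κ‖ := one_mul _
    _ ≤ ‖S.r (star v)‖ * ‖κ‖ := ContinuousLinearMap.le_opNorm _ _
    _ ≤ 1 * ‖κ‖ := mul_le_mul_of_nonneg_right h2 (norm_nonneg _)
    _ = ‖κ‖ := one_mul _

theorem cross_null {F : Filter (H →L[ℂ] H)} (hF : ∀ᶠ v in F, v ∈ UM S)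
    (hn : ∀ ξ η : H, Tendsto (fun v : H →L[ℂ] H => ⟪η, v ξ⟫_ℂ) F (𝓝 0)) (κ₁ κ₂ : K) :
    Tendsto (fun v : H →L[ℂ] H => ⟪κ₁, S.l v (S.r (star v) κ₂)⟫_ℂ) F (𝓝 0) := by
  refine tendsto_zero_iff_norm_tendsto_zero.2 ?_
  refine S.T.induction (fun κ₁ => Tendsto (fun v : H →L[ℂ] H =>
    ‖⟪κ₁, S.l v (S.r (star v) κ₂)⟫_ℂ‖) F (𝓝 0)) ?_ ?_ ?_ ?_ κ₁
  · intro a b
    refine S.T.induction (fun κ₂ => Tendsto (fun v : H →L[ℂ] H =>
      ‖⟪S.T.tp a b, S.l v (S.r (star v) κ₂)⟫_ℂ‖) F (𝓝 0)) ?_ ?_ ?_ ?_ κ₂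
    · intro c d
      have h1 := (hn c a).norm.mul_const (‖b‖ * ‖d‖)
      rw [norm_zero, zero_mul] at h1
      refine squeeze_zero' (Eventually.of_forall fun v => norm_nonneg _) ?_ h1
      filter_upwards [hF] with v hv
      rw [S.r_tp, S.l_tp, S.T.inner_tp, norm_mul]
      refine mul_le_mul_of_nonneg_left ?_ (norm_nonneg _)
      refine (norm_inner_le_norm _ _).trans (mul_le_mul_of_nonneg_left ?_ (norm_nonneg _))
      have h2 : ‖S.ρ (star v)‖ ≤ 1 :=
        (S.ρ_norm_le (star_mem hv.1)).trans (UM_norm S (UM_star S hv))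
      calc ‖S.ρ (star v) d‖ ≤ ‖S.ρ (star v)‖ * ‖d‖ := ContinuousLinearMap.le_opNorm _ _
        _ ≤ 1 * ‖d‖ := mul_le_mul_of_nonneg_right h2 (norm_nonneg _)
        _ = ‖d‖ := one_mul _
    · intro x y hx hy
      have h1 := hx.add hy
      rw [add_zero] at h1
      refine squeeze_zero (fun v => norm_nonneg _) (fun v => ?_) h1
      rw [map_add, map_add, inner_add_right]
      exact norm_add_le _ _
    · intro c x hx
      have h1 := hx.const_mul ‖c‖
      rw [mul_zero] at h1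
      refine h1.congr fun v => ?_
      rw [map_smul, map_smul, inner_smul_right, norm_mul]
    · refine slice_closed (fun v : H →L[ℂ] H => fun κ =>
        ⟪S.T.tp a b, S.l v (S.r (star v) κ)⟫_ℂ) ‖S.T.tp a b‖ ?_
      filter_upwards [hF] with v hv x y
      have h1 : ⟪S.T.tp a b, S.l v (S.r (star v) x)⟫_ℂ = ⟪S.T.tp a b, S.l v (S.r (star v) y)⟫_ℂ +
          ⟪S.T.tp a b, S.l v (S.r (star v) (x - y))⟫_ℂ := by
        rw [← inner_add_right, ← map_add, ← map_add, add_sub_cancel]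
      rw [h1]
      refine (norm_add_le _ _).trans (add_le_add_right ?_ _)
      exact (norm_inner_le_norm _ _).trans
        (mul_le_mul_of_nonneg_left (slice_lr hv _) (norm_nonneg _))
  · intro x y hx hy
    have h1 := hx.add hy
    rw [add_zero] at h1
    refine squeeze_zero (fun v => norm_nonneg _) (fun v => ?_) h1
    rw [inner_add_left]
    exact norm_add_le _ _
  · intro c x hx
    have h1 := hx.const_mul ‖c‖
    rw [mul_zero] at h1
    refine h1.congr fun v => ?_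
    rw [inner_smul_left, norm_mul, RCLike.norm_conj]
  · refine slice_closed (fun v : H →L[ℂ] H => fun κ =>
      ⟪κ, S.l v (S.r (star v) κ₂)⟫_ℂ) ‖κ₂‖ ?_
    filter_upwards [hF] with v hv x y
    have h1 : ⟪x, S.l v (S.r (star v) κ₂)⟫_ℂ = ⟪y, S.l v (S.r (star v) κ₂)⟫_ℂ +
        ⟪x - y, S.l v (S.r (star v) κ₂)⟫_ℂ := by
      rw [← inner_add_left, add_sub_cancel]
    rw [h1]
    refine (norm_add_le _ _).trans (add_le_add_right ?_ _)
    refine (norm_inner_le_norm _ _).trans ?_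
    rw [mul_comm]
    exact mul_le_mul_of_nonneg_right (slice_lr hv _) (norm_nonneg _)

end

end Pool.H62.MC
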