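import Pool.Agent.H62.MC.DefsE
import Pool.Agent.H62.MC.Slice

/-!
# SLICEE: slices and matrix coefficients along unitaries tending weakly to `e`

PROOF (compare `MC/Slice.lean`, the case `e = 0`).  `rho_null`: `⟪η, ρ v ξ⟫ → ⟪η, e ξ⟫`: for
`ξ = x Ω`, `x ∈ M`: `ρ v (x Ω) = x v Ω`, `⟪η, x v Ω⟫ = ⟪x* η, v Ω⟫ → ⟪x* η, e Ω⟫ = ⟪η, x e Ω⟫ = ⟪η, e x Ω⟫`;
closed in `ξ` (`‖ρ v‖ ≤ 1`), density of `M Ω`.  `rho_star_null`: the same for `ρ (v*)`:
`⟪η, ρ(v*) ξ⟫ = conj ⟪ξ, ρ(v) η⟫` (`S.ρ_star`) and `e* = e`.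
`slice_leftE`: for `κ = tp c d`: `adjoint (tp a) (tp c d) = ⟪a, c⟫ • d`, with `a = v* h`:
`⟪v* h, c⟫ = ⟪h, v c⟫ → ⟪h, e c⟫ = ⟪e h, c⟫`; closed subspace in `κ` by the bounds `slice_left_norm`.
`slice_rightE` likewise.
`crossE`: on `κ₁ = tp a b`, `κ₂ = tp c d`: `⟪a, v c⟫ ⟪b, ρ(v*) d⟫ → ⟪a, e c⟫ ⟪b, e d⟫` and
`l e (r e (tp c d)) = tp (e c) (ρ e d)`, `ρ e = e` (`ρ_central`); closed subspace in `κ₂`, then in `κ₁`.
`crossE'`: the same with `T.L (ρ v*)`, `T.R v`: `⟪a, ρ(v*) c⟫ ⟪b, v d⟫ → ⟪a, e c⟫ ⟪b, e d⟫`.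
-/

namespace Pool.H62.MC

open scoped InnerProductSpace TensorProduct ComplexConjugate
open Filter Topology Pool.H62.UC

noncomputable section

variable {H : Type*} [NormedAddCommGroup H] [InnerProductSpace ℂ H] [CompleteSpace H]
variable {K : Type*} [NormedAddCommGroup K] [InnerProductSpace ℂ K] [CompleteSpace K]

variable {S : Std H K} {e : H →L[ℂ] H}

theorem sliceE_e_norm (he : Cen S e) : ‖e‖ ≤ 1 := he.proj.norm_le

theorem sliceE_e_le (he : Cen S e) (ξ : H) : ‖e ξ‖ ≤ ‖ξ‖ := by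
  refine (ContinuousLinearMap.le_opNorm _ _).trans ?_
  calc ‖e‖ * ‖ξ‖ ≤ 1 * ‖ξ‖ := mul_le_mul_of_nonneg_right (sliceE_e_norm he) (norm_nonneg _)
    _ = ‖ξ‖ := one_mul _

theorem sliceE_e_adj (he : Cen S e) (a b : H) : ⟪e a, b⟫_ℂ = ⟪a, e b⟫_ℂ := by
  have h1 : star e = e := he.proj.isSelfAdjoint
  conv_lhs => rw [← h1]
  exact slice_star e a b

theorem sliceE_app (he : Cen S e) {x : H →L[ℂ] H} (hx : x ∈ S.M) (ξ : H) : e (x ξ) = x (e ξ) := by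
  have h1 := congrArg (fun A : H →L[ℂ] H => A ξ) (he.central x hx)
  exact h1

theorem sliceE_rho_le {v : H →L[ℂ] H} (hv : v ∈ UM S) (ξ : H) : ‖S.ρ v ξ‖ ≤ ‖ξ‖ := by
  refine (ContinuousLinearMap.le_opNorm _ _).trans ?_
  have h2 : ‖S.ρ v‖ ≤ 1 := (S.ρ_norm_le hv.1).trans (UM_norm S hv)
  calc ‖S.ρ v‖ * ‖ξ‖ ≤ 1 * ‖ξ‖ := mul_le_mul_of_nonneg_right h2 (norm_nonneg _)
    _ = ‖ξ‖ := one_mul _

/-- additive families are Lipschitz -/
theorem sliceE_lip {X V : Type*} [NormedAddCommGroup X] [NormedAddCommGroup V] (T : X → V) (C : ℝ)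
    (hadd : ∀ x y, T (x + y) = T x + T y) (hb : ∀ x, ‖T x‖ ≤ C * ‖x‖) (x y : X) :
    ‖T x‖ ≤ ‖T y‖ + C * ‖x - y‖ := by
  have h1 : T x = T y + T (x - y) := by rw [← hadd, add_sub_cancel]
  rw [h1]
  exact (norm_add_le _ _).trans (add_le_add_right (hb _) _)

theorem rho_null (he : Cen S e) {F : Filter (H →L[ℂ] H)} (hF : ∀ᶠ v in F, v ∈ UM S)
    (hn : ∀ ξ η : H, Tendsto (fun v : H →L[ℂ] H => ⟪η, v ξ⟫_ℂ) F (𝓝 ⟪η, e ξ⟫_ℂ)) (ξ η : H) :
    Tendsto (fun v : H →L[ℂ] H => ⟪η, S.ρ v ξ⟫_ℂ) F (𝓝 ⟪η, e ξ⟫_ℂ) := by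
  refine tendsto_iff_norm_sub_tendsto_zero.2 ?_
  have hcl : IsClosed {ξ : H | Tendsto (fun v : H →L[ℂ] H =>
      ‖⟪η, S.ρ v ξ⟫_ℂ - ⟪η, e ξ⟫_ℂ‖) F (𝓝 0)} := by
    refine slice_closed (fun v : H →L[ℂ] H => fun ξ : H => ⟪η, S.ρ v ξ⟫_ℂ - ⟪η, e ξ⟫_ℂ)
      (‖η‖ + ‖η‖) ?_
    filter_upwards [hF] with v hv x y
    refine sliceE_lip (fun ξ : H => ⟪η, S.ρ v ξ⟫_ℂ - ⟪η, e ξ⟫_ℂ) (‖η‖ + ‖η‖) ?_ ?_ x y
    · intro x y
      simp only [map_add, inner_add_right]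
      ring
    · intro x
      refine (norm_sub_le _ _).trans ?_
      rw [add_mul]
      refine add_le_add ?_ ?_
      · exact (norm_inner_le_norm _ _).trans
          (mul_le_mul_of_nonneg_left (sliceE_rho_le hv x) (norm_nonneg _))
      · exact (norm_inner_le_norm _ _).trans
          (mul_le_mul_of_nonneg_left (sliceE_e_le he x) (norm_nonneg _))
  have hsub : {ξ : H | ∃ x ∈ S.M.toStarSubalgebra, x S.Ω = ξ} ⊆ {ξ : H | Tendsto
      (fun v : H →L[ℂ] H => ‖⟪η, S.ρ v ξ⟫_ℂ - ⟪η, e ξ⟫_ℂ‖) F (𝓝 0)} := by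
    rintro _ ⟨x, hx, rfl⟩
    show Tendsto (fun v : H →L[ℂ] H => ‖⟪η, S.ρ v (x S.Ω)⟫_ℂ - ⟪η, e (x S.Ω)⟫_ℂ‖) F (𝓝 0)
    have hxM : x ∈ S.M := hx
    have h1 := tendsto_iff_norm_sub_tendsto_zero.1 (hn S.Ω ((star x) η))
    refine h1.congr' ?_
    filter_upwards [hF] with v hv
    rw [S.ρ_apply x hxM v hv.1, slice_star, slice_star, sliceE_app he hxM]
    rfl
  exact (hcl.closure_subset_iff.2 hsub) (S.tv.cyclic ξ)

theorem rho_star_null (he : Cen S e) {F : Filter (H →L[ℂ] H)} (hF : ∀ᶠ v in F, v ∈ UM S)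
    (hn : ∀ ξ η : H, Tendsto (fun v : H →L[ℂ] H => ⟪η, v ξ⟫_ℂ) F (𝓝 ⟪η, e ξ⟫_ℂ)) (ξ η : H) :
    Tendsto (fun v : H →L[ℂ] H => ⟪η, S.ρ (star v) ξ⟫_ℂ) F (𝓝 ⟪η, e ξ⟫_ℂ) := by
  have h1 := (Complex.continuous_conj.tendsto _).comp (rho_null he hF hn η ξ)
  rw [inner_conj_symm, sliceE_e_adj he] at h1
  refine h1.congr' ?_
  filter_upwards [hF] with v hv
  show conj ⟪ξ, S.ρ v η⟫_ℂ = _
  rw [inner_conj_symm, S.ρ_star hv.1, ContinuousLinearMap.star_eq_adjoint,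
    ContinuousLinearMap.adjoint_inner_right]

theorem slice_leftE (he : Cen S e) {F : Filter (H →L[ℂ] H)} (hF : ∀ᶠ v in F, v ∈ UM S)
    (hn : ∀ ξ η : H, Tendsto (fun v : H →L[ℂ] H => ⟪η, v ξ⟫_ℂ) F (𝓝 ⟪η, e ξ⟫_ℂ)) (h : H) (κ : K) :
    Tendsto (fun v : H →L[ℂ] H => ‖(ContinuousLinearMap.adjoint (S.T.tp ((star v) h))) κ -
      (ContinuousLinearMap.adjoint (S.T.tp (e h))) κ‖) F (𝓝 0) := by
  refine S.T.induction (fun κ => Tendsto (fun v : H →L[ℂ] H =>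
    ‖(ContinuousLinearMap.adjoint (S.T.tp ((star v) h))) κ -
      (ContinuousLinearMap.adjoint (S.T.tp (e h))) κ‖) F (𝓝 0)) ?_ ?_ ?_ ?_ κ
  · intro c d
    simp only [slice_left_tp, slice_star, sliceE_e_adj he, ← sub_smul, norm_smul]
    have h1 := (tendsto_iff_norm_sub_tendsto_zero.1 (hn c h)).mul_const ‖d‖
    rwa [zero_mul] at h1
  · intro x y hx hy
    have h1 := hx.add hy
    rw [add_zero] at h1
    refine squeeze_zero (fun v => norm_nonneg _) (fun v => ?_) h1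
    rw [map_add, map_add, add_sub_add_comm]
    exact norm_add_le _ _
  · intro c x hx
    have h1 := hx.const_mul ‖c‖
    rw [mul_zero] at h1
    refine h1.congr fun v => ?_
    rw [map_smul, map_smul, ← smul_sub, norm_smul]
  · refine slice_closed (fun v : H →L[ℂ] H => fun κ =>
      (ContinuousLinearMap.adjoint (S.T.tp ((star v) h))) κ -
      (ContinuousLinearMap.adjoint (S.T.tp (e h))) κ) (‖h‖ + ‖h‖) ?_
    filter_upwards [hF] with v hv x y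
    refine sliceE_lip (fun κ => (ContinuousLinearMap.adjoint (S.T.tp ((star v) h))) κ -
      (ContinuousLinearMap.adjoint (S.T.tp (e h))) κ) (‖h‖ + ‖h‖) ?_ ?_ x y
    · intro x y
      simp only [map_add]
      abel
    · intro x
      refine (norm_sub_le _ _).trans ?_
      rw [add_mul]
      refine add_le_add ?_ ?_
      · exact (slice_left_norm _ _).trans
          (mul_le_mul_of_nonneg_right (slice_bd hv h) (norm_nonneg _))
      · exact (slice_left_norm _ _).trans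
          (mul_le_mul_of_nonneg_right (sliceE_e_le he h) (norm_nonneg _))

theorem slice_rightE (he : Cen S e) {F : Filter (H →L[ℂ] H)} (hF : ∀ᶠ v in F, v ∈ UM S)
    (hn : ∀ ξ η : H, Tendsto (fun v : H →L[ℂ] H => ⟪η, v ξ⟫_ℂ) F (𝓝 ⟪η, e ξ⟫_ℂ)) (h : H) (κ : K) :
    Tendsto (fun v : H →L[ℂ] H => ‖(ContinuousLinearMap.adjoint (S.T.tp.flip ((star v) h))) κ -
      (ContinuousLinearMap.adjoint (S.T.tp.flip (e h))) κ‖) F (𝓝 0) := by
  refine S.T.induction (fun κ => Tendsto (fun v : H →L[ℂ] H =>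
    ‖(ContinuousLinearMap.adjoint (S.T.tp.flip ((star v) h))) κ -
      (ContinuousLinearMap.adjoint (S.T.tp.flip (e h))) κ‖) F (𝓝 0)) ?_ ?_ ?_ ?_ κ
  · intro c d
    simp only [slice_right_tp, slice_star, sliceE_e_adj he, ← sub_smul, norm_smul]
    have h1 := (tendsto_iff_norm_sub_tendsto_zero.1 (hn d h)).mul_const ‖c‖
    rwa [zero_mul] at h1
  · intro x y hx hy
    have h1 := hx.add hy
    rw [add_zero] at h1
    refine squeeze_zero (fun v => norm_nonneg _) (fun v => ?_) h1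
    rw [map_add, map_add, add_sub_add_comm]
    exact norm_add_le _ _
  · intro c x hx
    have h1 := hx.const_mul ‖c‖
    rw [mul_zero] at h1
    refine h1.congr fun v => ?_
    rw [map_smul, map_smul, ← smul_sub, norm_smul]
  · refine slice_closed (fun v : H →L[ℂ] H => fun κ =>
      (ContinuousLinearMap.adjoint (S.T.tp.flip ((star v) h))) κ -
      (ContinuousLinearMap.adjoint (S.T.tp.flip (e h))) κ) (‖h‖ + ‖h‖) ?_
    filter_upwards [hF] with v hv x y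
    refine sliceE_lip (fun κ => (ContinuousLinearMap.adjoint (S.T.tp.flip ((star v) h))) κ -
      (ContinuousLinearMap.adjoint (S.T.tp.flip (e h))) κ) (‖h‖ + ‖h‖) ?_ ?_ x y
    · intro x y
      simp only [map_add]
      abel
    · intro x
      refine (norm_sub_le _ _).trans ?_
      rw [add_mul]
      refine add_le_add ?_ ?_
      · exact (slice_right_norm _ _).trans
          (mul_le_mul_of_nonneg_right (slice_bd hv h) (norm_nonneg _))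
      · exact (slice_right_norm _ _).trans
          (mul_le_mul_of_nonneg_right (sliceE_e_le he h) (norm_nonneg _))

/-- weak convergence of contractions of `K`, from simple tensors -/
theorem sliceE_gen {F : Filter (H →L[ℂ] H)} (A : (H →L[ℂ] H) → K →L[ℂ] K) (B : K →L[ℂ] K)
    (hA : ∀ᶠ v in F, ∀ κ, ‖A v κ‖ ≤ ‖κ‖)
    (h : ∀ a b c d : H, Tendsto (fun v : H →L[ℂ] H => ⟪S.T.tp a b, A v (S.T.tp c d)⟫_ℂ) F
      (𝓝 ⟪S.T.tp a b, B (S.T.tp c d)⟫_ℂ)) (κ₁ κ₂ : K) :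
    Tendsto (fun v : H →L[ℂ] H => ⟪κ₁, A v κ₂⟫_ℂ) F (𝓝 ⟪κ₁, B κ₂⟫_ℂ) := by
  refine tendsto_iff_norm_sub_tendsto_zero.2 ?_
  refine S.T.induction (fun κ₁ => Tendsto (fun v : H →L[ℂ] H =>
    ‖⟪κ₁, A v κ₂⟫_ℂ - ⟪κ₁, B κ₂⟫_ℂ‖) F (𝓝 0)) ?_ ?_ ?_ ?_ κ₁
  · intro a b
    refine S.T.induction (fun κ₂ => Tendsto (fun v : H →L[ℂ] H =>
      ‖⟪S.T.tp a b, A v κ₂⟫_ℂ - ⟪S.T.tp a b, B κ₂⟫_ℂ‖) F (𝓝 0)) ?_ ?_ ?_ ?_ κ₂
    · intro c d
      exact tendsto_iff_norm_sub_tendsto_zero.1 (h a b c d)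
    · intro x y hx hy
      have h1 := hx.add hy
      rw [add_zero] at h1
      refine squeeze_zero (fun v => norm_nonneg _) (fun v => ?_) h1
      rw [map_add, map_add, inner_add_right, inner_add_right, add_sub_add_comm]
      exact norm_add_le _ _
    · intro c x hx
      have h1 := hx.const_mul ‖c‖
      rw [mul_zero] at h1
      refine h1.congr fun v => ?_
      rw [map_smul, map_smul, inner_smul_right, inner_smul_right, ← mul_sub, norm_mul]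
    · refine slice_closed (fun v : H →L[ℂ] H => fun κ =>
        ⟪S.T.tp a b, A v κ⟫_ℂ - ⟪S.T.tp a b, B κ⟫_ℂ)
        (‖S.T.tp a b‖ + ‖S.T.tp a b‖ * ‖B‖) ?_
      filter_upwards [hA] with v hv x y
      refine sliceE_lip (fun κ => ⟪S.T.tp a b, A v κ⟫_ℂ - ⟪S.T.tp a b, B κ⟫_ℂ)
        (‖S.T.tp a b‖ + ‖S.T.tp a b‖ * ‖B‖) ?_ ?_ x y
      · intro x y
        simp only [map_add, inner_add_right]
        ring
      · intro x
        refine (norm_sub_le _ _).trans ?_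
        rw [add_mul, mul_assoc]
        refine add_le_add ?_ ?_
        · exact (norm_inner_le_norm _ _).trans
            (mul_le_mul_of_nonneg_left (hv x) (norm_nonneg _))
        · exact (norm_inner_le_norm _ _).trans
            (mul_le_mul_of_nonneg_left (ContinuousLinearMap.le_opNorm _ _) (norm_nonneg _))
  · intro x y hx hy
    have h1 := hx.add hy
    rw [add_zero] at h1
    refine squeeze_zero (fun v => norm_nonneg _) (fun v => ?_) h1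
    rw [inner_add_left, inner_add_left, add_sub_add_comm]
    exact norm_add_le _ _
  · intro c x hx
    have h1 := hx.const_mul ‖c‖
    rw [mul_zero] at h1
    refine h1.congr fun v => ?_
    rw [inner_smul_left, inner_smul_left, ← mul_sub, norm_mul, RCLike.norm_conj]
  · refine slice_closed (fun v : H →L[ℂ] H => fun κ =>
      ⟪κ, A v κ₂⟫_ℂ - ⟪κ, B κ₂⟫_ℂ) (‖κ₂‖ + ‖B κ₂‖) ?_
    filter_upwards [hA] with v hv x y
    refine sliceE_lip (fun κ => ⟪κ, A v κ₂⟫_ℂ - ⟪κ, B κ₂⟫_ℂ) (‖κ₂‖ + ‖B κ₂‖) ?_ ?_ x y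
    · intro x y
      simp only [inner_add_left]
      ring
    · intro x
      refine (norm_sub_le _ _).trans ?_
      rw [add_mul]
      refine add_le_add ?_ ?_
      · refine (norm_inner_le_norm _ _).trans ?_
        rw [mul_comm]
        exact mul_le_mul_of_nonneg_right (hv κ₂) (norm_nonneg _)
      · refine (norm_inner_le_norm _ _).trans ?_
        rw [mul_comm]

theorem sliceE_PP (he : Cen S e) (c d : H) : PP S e (S.T.tp c d) = S.T.tp (e c) (e d) := by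
  show S.l e (S.r e (S.T.tp c d)) = _
  rw [S.r_tp, S.l_tp, ρ_central S he.mem he.central]

theorem crossE (he : Cen S e) {F : Filter (H →L[ℂ] H)} (hF : ∀ᶠ v in F, v ∈ UM S)
    (hn : ∀ ξ η : H, Tendsto (fun v : H →L[ℂ] H => ⟪η, v ξ⟫_ℂ) F (𝓝 ⟪η, e ξ⟫_ℂ)) (κ₁ κ₂ : K) :
    Tendsto (fun v : H →L[ℂ] H => ⟪κ₁, S.l v (S.r (star v) κ₂)⟫_ℂ) F (𝓝 ⟪κ₁, PP S e κ₂⟫_ℂ) := by
  refine sliceE_gen (S := S) (fun v => S.l v * S.r (star v)) (PP S e) ?_ ?_ κ₁ κ₂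
  · filter_upwards [hF] with v hv κ
    exact slice_lr hv κ
  · intro a b c d
    have h1 := (hn c a).mul (rho_star_null he hF hn d b)
    rw [sliceE_PP he, S.T.inner_tp]
    refine h1.congr fun v => ?_
    show _ = ⟪S.T.tp a b, S.l v (S.r (star v) (S.T.tp c d))⟫_ℂ
    rw [S.r_tp, S.l_tp, S.T.inner_tp]

theorem crossE' (he : Cen S e) {F : Filter (H →L[ℂ] H)} (hF : ∀ᶠ v in F, v ∈ UM S)
    (hn : ∀ ξ η : H, Tendsto (fun v : H →L[ℂ] H => ⟪η, v ξ⟫_ℂ) F (𝓝 ⟪η, e ξ⟫_ℂ)) (κ₁ κ₂ : K) :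
    Tendsto (fun v : H →L[ℂ] H => ⟪κ₁, S.T.L (S.ρ (star v)) (S.T.R v κ₂)⟫_ℂ) F
      (𝓝 ⟪κ₁, PP S e κ₂⟫_ℂ) := by
  refine sliceE_gen (S := S) (fun v => S.T.L (S.ρ (star v)) * S.T.R v) (PP S e) ?_ ?_ κ₁ κ₂
  · filter_upwards [hF] with v hv κ
    show ‖S.T.L (S.ρ (star v)) (S.T.R v κ)‖ ≤ ‖κ‖
    have h1 : ‖S.T.R v‖ ≤ 1 := (S.T.R_norm_le v).trans (UM_norm S hv)
    have h2 : ‖S.T.L (S.ρ (star v))‖ ≤ 1 := (S.T.L_norm_le _).trans
      ((S.ρ_norm_le (star_mem hv.1)).trans (UM_norm S (UM_star S hv)))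
    calc ‖S.T.L (S.ρ (star v)) (S.T.R v κ)‖
        ≤ ‖S.T.L (S.ρ (star v))‖ * ‖S.T.R v κ‖ := ContinuousLinearMap.le_opNorm _ _
      _ ≤ 1 * ‖S.T.R v κ‖ := mul_le_mul_of_nonneg_right h2 (norm_nonneg _)
      _ = ‖S.T.R v κ‖ := one_mul _
      _ ≤ ‖S.T.R v‖ * ‖κ‖ := ContinuousLinearMap.le_opNorm _ _
      _ ≤ 1 * ‖κ‖ := mul_le_mul_of_nonneg_right h1 (norm_nonneg _)
      _ = ‖κ‖ := one_mul _
  · intro a b c d
    have h1 := (rho_star_null he hF hn c a).mul (hn d b)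
    rw [sliceE_PP he, S.T.inner_tp]
    refine h1.congr fun v => ?_
    show _ = ⟪S.T.tp a b, S.T.L (S.ρ (star v)) (S.T.R v (S.T.tp c d))⟫_ℂ
    rw [S.T.R_tp, S.T.L_tp, S.T.inner_tp]

theorem sliceE_PP_adj (he : Cen S e) (a b : H) (κ : K) :
    ⟪S.T.tp (e a) (e b), κ⟫_ℂ = ⟪S.T.tp a b, PP S e κ⟫_ℂ := by
  have h1 : star e = e := he.proj.isSelfAdjoint
  have hl : star (S.l e) = S.l e := by rw [← S.l_star, h1]
  have hr : star (S.r e) = S.r e := by rw [← S.r_star he.mem, h1]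
  have h2 : ∀ x : K, ⟪S.l e x, κ⟫_ℂ = ⟪x, S.l e κ⟫_ℂ := by
    intro x
    conv_lhs => rw [← hl]
    rw [ContinuousLinearMap.star_eq_adjoint, ContinuousLinearMap.adjoint_inner_left]
  have h3 : ∀ x y : K, ⟪S.r e x, y⟫_ℂ = ⟪x, S.r e y⟫_ℂ := by
    intro x y
    conv_lhs => rw [← hr]
    rw [ContinuousLinearMap.star_eq_adjoint, ContinuousLinearMap.adjoint_inner_left]
  rw [← sliceE_PP he]
  show ⟪S.l e (S.r e (S.T.tp a b)), κ⟫_ℂ = ⟪S.T.tp a b, S.l e (S.r e κ)⟫_ℂ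
  rw [h2, h3, S.lr_comm]

/-- slices of vectors of `(1 - P) K` by vectors of `e H` are in `(1 - e) H` -/
theorem slice_left_P (he : Cen S e) (h : H) {κ : K} (hκ : PP S e κ = 0) :
    e ((ContinuousLinearMap.adjoint (S.T.tp (e h))) κ) = 0 := by
  refine ext_inner_left ℂ fun ζ => ?_
  rw [← sliceE_e_adj he, ContinuousLinearMap.adjoint_inner_right, sliceE_PP_adj he, hκ,
    inner_zero_right, inner_zero_right]

theorem slice_right_P (he : Cen S e) (h : H) {κ : K} (hκ : PP S e κ = 0) :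
    e ((ContinuousLinearMap.adjoint (S.T.tp.flip (e h))) κ) = 0 := by
  refine ext_inner_left ℂ fun ζ => ?_
  rw [← sliceE_e_adj he, ContinuousLinearMap.adjoint_inner_right,
    ContinuousLinearMap.flip_apply, sliceE_PP_adj he, hκ, inner_zero_right, inner_zero_right]

end

end Pool.H62.MC
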