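import Pool.Agent.H62.MC.BvA
import Pool.Agent.H62.MC.Slice
import Pool.Agent.H62.MC.Adj

/-!
# STEP: the induction

PROOF. Induction on `n`.  `n = 0`: `G = 1`, `γ = γ' = 0`, `z_0 = 0`, `η_0 = 0`.
Step: let `(G, γ, γ', z_n, η_n)` be as in the statement for `n` and `τ/2`, `γ' = C' w0`, `ω' = C w0`.
For `v` in the filter put `G₁ = G (v w)`, `z_{n+1} = r(vw) z_n + l(Gv) z`, and
`η_{n+1} = [ρ(vw) η_n - adjoint (tp.flip (v* Ω)) (C* z_n)] + [(Gv) ζ - adjoint (tp (v* Ω)) (C'* z)]`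
(`adj_right`, `adj_left`, `adj_add`).
* `(v w, l v ω)` is in `Gr`, `(G₁, l G (l v ω) + r(vw) γ) ∈ Gr`; `(w* v*, r v* ω')`,
  `(G₁*, l(w* v*) γ' + r(G*) (r v* ω')) ∈ Gr`, a bounded vector (`bv_l`, `bv_r`).
* `‖η_{n+1}‖ ≤ ‖η_n‖ + ‖ζ‖ + o(1)` (`slice_right`, `slice_left`; `‖ρ(vw) η‖ ≤ ‖η‖`: `S.ρ_norm_le`,
  `UM_norm`).
* `‖z_{n+1}‖² = ‖r(vw) z_n‖² + ‖l(Gv) z‖² + 2 Re ⟪r(vw) z_n, l(Gv) z⟫`, first two `≤ ‖z_n‖²`, `‖z‖²`;
  `⟪r(vw) z_n, l(Gv) z⟫ = ⟪l G* z_n, l v (r v* (r w* z))⟫` (`r(vw)* = r(w* v*) = r(v*) r(w*)`), which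
  tends to `0` by `cross_null`.
* `⟪l(Gv) ω + r(vw) γ, z_{n+1}⟫ = ⟪l(Gv) ω, l(Gv) z⟫ + ⟪r(vw) γ, r(vw) z_n⟫ + ⟪l(Gv) ω, r(vw) z_n⟫ +
  ⟪r(vw) γ, l(Gv) z⟫ = ⟪ω, z⟫ + ⟪γ, z_n⟫ + o(1)` (unitaries: `l(Gv)* l(Gv) = 1`, `r(vw)* r(vw) = 1`;
  the last two by `cross_null`; `⟪l(Gv) ω, r(vw) z_n⟫` is the conjugate of `⟪r(vw) z_n, l(Gv) ω⟫`).
All `o(1)` are `≤ τ/8` for some `v` of the filter (`F.NeBot`, `Eventually.exists`).
-/

namespace Pool.H62.MC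

open scoped InnerProductSpace TensorProduct ComplexConjugate
open Filter Topology Pool.H62.UC

noncomputable section

variable {H : Type*} [NormedAddCommGroup H] [InnerProductSpace ℂ H] [CompleteSpace H]
variable {K : Type*} [NormedAddCommGroup K] [InnerProductSpace ℂ K] [CompleteSpace K]

variable {S : Std H K} {Gr : Submodule ℂ ((H →L[ℂ] H) × K)}

theorem step_ev {α E : Type*} [NormedAddCommGroup E] {F : Filter α} {f : α → E}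
    (h : Tendsto f F (𝓝 0)) {ε : ℝ} (hε : 0 < ε) : ∀ᶠ v in F, ‖f v‖ ≤ ε := by
  have h1 := h.norm
  rw [norm_zero] at h1
  exact h1.eventually_le_const hε

theorem step_inner_star (A : K →L[ℂ] K) (x y : K) : ⟪A x, y⟫_ℂ = ⟪x, (star A) y⟫_ℂ := by
  rw [ContinuousLinearMap.star_eq_adjoint, ContinuousLinearMap.adjoint_inner_right]

theorem step_ll {U : H →L[ℂ] H} (hU : U ∈ UM S) (x y : K) :
    ⟪S.l U x, S.l U y⟫_ℂ = ⟪x, y⟫_ℂ := by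
  rw [step_inner_star, ← S.l_star]
  have h1 : (S.l (star U)) (S.l U y) = y := by
    have h2 : S.l (star U) * S.l U = 1 := by
      rw [← S.l_mul, (Unitary.mem_iff.1 hU.2).1, S.l_one]
    have h3 := congrArg (fun T : K →L[ℂ] K => T y) h2
    exact h3
  rw [h1]

theorem step_rr {U : H →L[ℂ] H} (hU : U ∈ UM S) (x y : K) :
    ⟪S.r U x, S.r U y⟫_ℂ = ⟪x, y⟫_ℂ := by
  rw [step_inner_star, ← S.r_star hU.1]
  have h1 : (S.r (star U)) (S.r U y) = y := by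
    have h2 : S.r (star U) * S.r U = 1 := by
      rw [← S.r_mul hU.1 (star_mem hU.1), (Unitary.mem_iff.1 hU.2).2, S.r_one]
    have h3 := congrArg (fun T : K →L[ℂ] K => T y) h2
    exact h3
  rw [h1]

theorem step_cross {G v w : H →L[ℂ] H} (hv : v ∈ S.M) (hw : w ∈ S.M) (α β : K) :
    ⟪S.r (v * w) α, S.l (G * v) β⟫_ℂ =
      ⟪S.l (star G) α, S.l v (S.r (star v) (S.r (star w) β))⟫_ℂ := by
  rw [step_inner_star (S.l (star G)), ← S.l_star, star_star, S.r_mul hv hw, S.l_mul]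
  change ⟪S.r w (S.r v α), S.l G (S.l v β)⟫_ℂ = _
  rw [step_inner_star (S.r w), step_inner_star (S.r v), ← S.r_star hw, ← S.r_star hv]
  rw [S.lr_comm v (star v), S.lr_comm G (star v), S.lr_comm v (star w), S.lr_comm G (star w)]

theorem step_one
    (leib : ∀ p ∈ Gr, ∀ q ∈ Gr, (p.1 * q.1, S.l p.1 q.2 + S.r q.1 p.2) ∈ Gr)
    {w : H →L[ℂ] H} (hw : w ∈ UM S) {ω ω' : K} (hw1 : (w, ω) ∈ Gr) (hw2 : (star w, ω') ∈ Gr)
    (hb : Bv S ω') {v G : H →L[ℂ] H} (hv : v ∈ UM S) (hv1 : (v, (0 : K)) ∈ Gr)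
    (hv2 : (star v, (0 : K)) ∈ Gr) (hG : G ∈ UM S) {γ γ' : K} (hG1 : (G, γ) ∈ Gr)
    (hG2 : (star G, γ') ∈ Gr) (hb' : Bv S γ') :
    (G * (v * w), S.l (G * v) ω + S.r (v * w) γ) ∈ Gr ∧
      (star (G * (v * w)), S.l (star w * star v) γ' + S.r (star G) (S.r (star v) ω')) ∈ Gr ∧
      Bv S (S.l (star w * star v) γ' + S.r (star G) (S.r (star v) ω')) := by
  refine ⟨?_, ?_, ?_⟩
  · have e1 := leib _ hv1 _ hw1
    have e2 := leib _ hG1 _ e1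
    simp only [map_zero, add_zero] at e2
    rw [S.l_mul]
    exact e2
  · have e1 := leib _ hw2 _ hv2
    have e2 := leib _ e1 _ hG2
    simp only [map_zero, zero_add] at e2
    rw [star_mul, star_mul]
    exact e2
  · exact bv_add (bv_l (mul_mem (star_mem hw.1) (star_mem hv.1)) hb')
      (bv_r (star_mem hG.1) (bv_r (star_mem hv.1) hb))

theorem steps (hmem : ∀ p ∈ Gr, p.1 ∈ S.M)
    (leib : ∀ p ∈ Gr, ∀ q ∈ Gr, (p.1 * q.1, S.l p.1 q.2 + S.r q.1 p.2) ∈ Gr)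
    (h1 : ((1 : H →L[ℂ] H), (0 : K)) ∈ Gr)
    (F : Filter (H →L[ℂ] H)) [F.NeBot] (hF : Lett S Gr F)
    {w : H →L[ℂ] H} (hw : w ∈ UM S) {ω ω' : K} (hw1 : (w, ω) ∈ Gr) (hw2 : (star w, ω') ∈ Gr)
    (hb : Bv S ω') {z : K} {ζ : H} (hz : IsAdj S Gr z ζ) (n : ℕ) :
    ∀ τ : ℝ, 0 < τ → ∃ G ∈ UM S, ∃ γ γ' zn : K, ∃ ηn : H, (G, γ) ∈ Gr ∧ (star G, γ') ∈ Gr ∧
      Bv S γ' ∧ IsAdj S Gr zn ηn ∧ ‖zn‖ ^ 2 ≤ n * ‖z‖ ^ 2 + τ ∧ ‖ηn‖ ≤ n * ‖ζ‖ + τ ∧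
      ‖⟪γ, zn⟫_ℂ - n * ⟪ω, z⟫_ℂ‖ ≤ τ := by
  induction n with
  | zero =>
    intro τ hτ
    refine ⟨1, UM_one S, 0, 0, 0, 0, h1, ?_, bv_zero, ?_, ?_, ?_, ?_⟩
    · rw [star_one]
      exact h1
    · intro p _
      rw [inner_zero_right, inner_zero_right]
    · rw [norm_zero]
      norm_num
      exact hτ.le
    · rw [norm_zero]
      norm_num
      exact hτ.le
    · rw [inner_zero_left]
      norm_num
      exact hτ.le
  | succ n ih =>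
    intro τ hτ
    obtain ⟨G, hG, γ, γ', zn, ηn, hG1, hG2, hb', hzn, hn1, hn2, hn3⟩ := ih (τ / 2) (half_pos hτ)
    obtain ⟨C, hC, hCω⟩ := hb
    obtain ⟨C', hC', hCγ⟩ := hb'
    have hτ8 : 0 < τ / 8 := by positivity
    have hU : ∀ᶠ v in F, v ∈ UM S := hF.mem.mono fun v hv => hv.1
    have c1 := step_ev (cross_null hU hF.null (S.l (star G) zn) (S.r (star w) z)) hτ8
    have c2 := step_ev (cross_null hU hF.null (S.l (star G) zn) (S.r (star w) ω)) hτ8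
    have c3 := step_ev (cross_null hU hF.null (S.l (star G) γ) (S.r (star w) z)) hτ8
    have s1 := (slice_right hU hF.null S.Ω ((star C) zn)).eventually_le_const hτ8
    have s2 := (slice_left hU hF.null S.Ω ((star C') z)).eventually_le_const hτ8
    obtain ⟨v, hv, c1, c2, c3, s1, s2⟩ :=
      (hF.mem.and (c1.and (c2.and (c3.and (s1.and s2))))).exists
    obtain ⟨hv, hv1, hv2⟩ := hv
    obtain ⟨k1, k2, k3⟩ := step_one leib hw hw1 hw2 ⟨C, hC, hCω⟩ hv hv1 hv2 hG hG1 hG2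
      ⟨C', hC', hCγ⟩
    have hw2' : (star w, C (w0 S)) ∈ Gr := by
      rw [hCω]
      exact hw2
    have hG2' : (star G, C' (w0 S)) ∈ Gr := by
      rw [hCγ]
      exact hG2
    have a1 := adj_right hmem leib hzn hv hw hv2 hC hw2'
    have a2 := adj_left hmem leib hz hv hG hv2 hC' hG2'
    have hvw : v * w ∈ UM S := UM_mul S hv hw
    have hGv : G * v ∈ UM S := UM_mul S hG hv
    refine ⟨G * (v * w), UM_mul S hG hvw, _, _, _, _, k1, k2, k3, adj_add a1 a2, ?_, ?_, ?_⟩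
    · -- the norm of the new vector
      have e1 : ‖S.r (v * w) zn + S.l (G * v) z‖ ^ 2 = ‖S.r (v * w) zn‖ ^ 2 +
          2 * (⟪S.r (v * w) zn, S.l (G * v) z⟫_ℂ).re + ‖S.l (G * v) z‖ ^ 2 := by
        have := @norm_add_sq ℂ K _ _ _ (S.r (v * w) zn) (S.l (G * v) z)
        simpa using this
      have e2 : ‖S.r (v * w) zn‖ ^ 2 = ‖zn‖ ^ 2 := by
        have h2 := step_rr hvw zn zn
        rw [inner_self_eq_norm_sq_to_K, inner_self_eq_norm_sq_to_K] at h2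
        exact_mod_cast h2
      have e3 : ‖S.l (G * v) z‖ ^ 2 = ‖z‖ ^ 2 := by
        have h2 := step_ll hGv z z
        rw [inner_self_eq_norm_sq_to_K, inner_self_eq_norm_sq_to_K] at h2
        exact_mod_cast h2
      have e4 : (⟪S.r (v * w) zn, S.l (G * v) z⟫_ℂ).re ≤ τ / 8 := by
        rw [step_cross hv.1 hw.1]
        exact (Complex.re_le_norm _).trans c1
      rw [e1, e2, e3]
      push_cast
      linarith
    · have e1 : ‖S.ρ (v * w) ηn‖ ≤ ‖ηn‖ := by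
        have h2 := (S.ρ (v * w)).le_opNorm ηn
        have h3 : ‖S.ρ (v * w)‖ ≤ 1 := (S.ρ_norm_le hvw.1).trans (UM_norm S hvw)
        nlinarith [norm_nonneg ηn]
      have e2 : ‖(G * v) ζ‖ ≤ ‖ζ‖ := by
        have h2 := (G * v).le_opNorm ζ
        have h3 : ‖G * v‖ ≤ 1 := UM_norm S hGv
        nlinarith [norm_nonneg ζ]
      have key : ∀ p1 q1 p2 q2 : H, ‖p1‖ ≤ ‖ηn‖ → ‖q1‖ ≤ τ / 8 → ‖p2‖ ≤ ‖ζ‖ → ‖q2‖ ≤ τ / 8 →
          ‖(p1 - q1) + (p2 - q2)‖ ≤ ((n + 1 : ℕ) : ℝ) * ‖ζ‖ + τ := by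
        intro p1 q1 p2 q2 g1 g2 g3 g4
        have e3 := norm_add_le (p1 - q1) (p2 - q2)
        have e4 := norm_sub_le p1 q1
        have e5 := norm_sub_le p2 q2
        push_cast
        linarith
      exact key _ _ _ _ e1 s1 e2 s2
    · have e1 : ⟪S.l (G * v) ω + S.r (v * w) γ, S.r (v * w) zn + S.l (G * v) z⟫_ℂ =
          ⟪ω, z⟫_ℂ + ⟪γ, zn⟫_ℂ + (conj ⟪S.r (v * w) zn, S.l (G * v) ω⟫_ℂ +
            ⟪S.r (v * w) γ, S.l (G * v) z⟫_ℂ) := by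
        rw [inner_add_left, inner_add_right, inner_add_right, step_ll hGv, step_rr hvw,
          inner_conj_symm]
        ring
      have e2 : ⟪S.l (G * v) ω + S.r (v * w) γ, S.r (v * w) zn + S.l (G * v) z⟫_ℂ -
          ((n + 1 : ℕ) : ℂ) * ⟪ω, z⟫_ℂ = (⟪γ, zn⟫_ℂ - n * ⟪ω, z⟫_ℂ) +
          (conj ⟪S.r (v * w) zn, S.l (G * v) ω⟫_ℂ + ⟪S.r (v * w) γ, S.l (G * v) z⟫_ℂ) := by
        rw [e1]
        push_cast
        ring
      rw [e2]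
      have e3 : ‖conj ⟪S.r (v * w) zn, S.l (G * v) ω⟫_ℂ‖ ≤ τ / 8 := by
        rw [RCLike.norm_conj, step_cross hv.1 hw.1]
        exact c2
      have e4 : ‖⟪S.r (v * w) γ, S.l (G * v) z⟫_ℂ‖ ≤ τ / 8 := by
        rw [step_cross hv.1 hw.1]
        exact c3
      have e5 := norm_add_le (⟪γ, zn⟫_ℂ - n * ⟪ω, z⟫_ℂ)
        (conj ⟪S.r (v * w) zn, S.l (G * v) ω⟫_ℂ + ⟪S.r (v * w) γ, S.l (G * v) z⟫_ℂ)
      have e6 := norm_add_le (conj ⟪S.r (v * w) zn, S.l (G * v) ω⟫_ℂ)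
        ⟪S.r (v * w) γ, S.l (G * v) z⟫_ℂ
      linarith

end

end Pool.H62.MC
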