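import Pool.Agent.H62.MC.BvA
import Pool.Agent.H62.MC.SliceE
import Pool.Agent.H62.MC.Adj

/-!
# STEPE: the induction, letters tending weakly to the central projection `e`

Compare `MC/Step.lean` (the case `e = 0`), whose helper lemmas may be copied.  All derivatives and `z`
are in `(1 - P) K`, `P = PP S e`.

PROOF. Let `ω' = C w0`, `A₀ = ‖ζ‖`, `κ = A₀ + 2 ‖C‖ ‖z‖ + ‖C‖ + 2`.  Prove by induction on `n`, for all
`τ ∈ (0, 1]`: there are `G ∈ UM S`, `Γ ∈ N'`, `γ`, `z_n`, `η_n` with `(G, γ), (G*, Γ w0) ∈ Gr`,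
`IsAdj S Gr z_n η_n`, `P z_n = 0`, `‖z_n‖² ≤ n ‖z‖² + τ`, `‖Γ* z‖² ≤ n ‖C* z‖² + τ`,
`‖e η_n‖ ≤ n A₀ + τ`, `‖(1 - e) η_n‖ ≤ κ n + τ`, `‖⟪γ, z_n⟫ - n ⟪ω, z⟫‖ ≤ τ`.
`n = 0`: `G = 1`, all the rest `0`.  Step (apply the hypothesis with a small `τ'`, e.g. `τ' = τ/4`): for
`v` in the filter `G₁ = G (v w)`, `z_{n+1} = r(vw) z_n + l(Gv) z`,
`η_{n+1} = [ρ(vw) η_n - sR(v* Ω; C* z_n)] + [(Gv) ζ - sL(v* Ω; Γ* z)]` (`adj_right`, `adj_left`, where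
`sR(b; κ) = adjoint (tp.flip b) κ`, `sL(a; κ) = adjoint (tp a) κ`),
`Γ₁ = Γ * T.L (ρ (w* v*)) + C * T.R (v* G*)`:
`l(w* v*) (Γ w0) + r(G*) (r(v*) (C w0)) = Γ (l(w* v*) w0) + C (r(v* G*) w0) = Γ₁ w0`.
* `Γ₁* z = T.L (ρ(vw)) (Γ* z) + T.R (Gv) (C* z)` (`T.L`, `T.R` star maps, `ρ(w* v*)* = ρ(vw)`), norms of
  the two terms `≤ ‖Γ* z‖`, `‖C* z‖`, cross term
  `⟪T.L (ρ(vw)) (Γ* z), T.R (Gv) (C* z)⟫ = ⟪T.R G* (Γ* z), T.L (ρ(v*)) (T.R v (T.L (ρ w*) (C* z)))⟫`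
  (`ρ(vw) = ρ(w) ρ(v)`, `T.L` and `T.R` commute) `→ ⟪.., P (T.L (ρ w*) (C* z))⟫ = 0` by `crossE'`, as
  `P` commutes with everything here and `P z = 0`.
* `‖z_{n+1}‖²` and `⟪γ₁, z_{n+1}⟫` as in `Step.lean`, cross terms `→ 0` by `crossE` because `P z = 0`,
  `P ω = 0` (`hP`), `P z_n = 0`.
* `e η_{n+1}`: `e` commutes with `ρ(vw)` and `Gv`; `e sR(v* Ω; C* z_n) → e sR(e Ω; C* z_n) = 0`
  (`slice_rightE`, `slice_right_P`; `P (C* z_n) = C* (P z_n) = 0`), same for `sL`; so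
  `‖e η_{n+1}‖ ≤ ‖e η_n‖ + ‖e ζ‖ + o(1) ≤ (n+1) A₀ + τ' + o(1)`.
* `(1 - e) η_{n+1} = a + b - c + o(1)`, `a = ρ(vw) (1-e) η_n`, `b = (Gv) (1-e) ζ`,
  `c = sR(e Ω; C* z_n) + sL(e Ω; Γ* z)` (fixed, `e c = 0`).  `⟪a, c⟫ → 0` (`rho_null`:
  `⟪ρ(w) ρ(v) x, c⟫`, `x = (1-e) η_n`, tends to `⟪ρ(w) e x, c⟫ = 0`), `⟪b, c⟫ → 0` (`null`), so
  `‖a + b - c‖² ≤ (‖a‖ + ‖b‖)² + ‖c‖² + o(1)`, `‖a‖ ≤ κ n + τ'`, `‖b‖ ≤ A₀`,
  `‖c‖² ≤ 2 ‖C‖² ‖z_n‖² + 2 ‖Γ* z‖² ≤ 4 n ‖C‖² ‖z‖² + 2 τ' (‖C‖² + 1)` (`slice_left_norm`, `‖e Ω‖ ≤ 1`).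
  With `B = ‖C‖ ‖z‖`: `(κ n + A₀ + τ')² + 4 n B² + 2 τ' (‖C‖² + 1) ≤ (κ (n+1) + τ')²` because
  `κ - A₀ ≥ 2 B`, `κ ≥ 2 B` give `2 κ n (κ - A₀) ≥ 8 n B²` and `(κ - A₀)² ≥ (‖C‖ + 2)² ≥ ‖C‖² + 4`, with
  a margin `≥ 1` for the `o(1)` (`2 τ' ≤ 1`).
Finally `‖η_n‖ ≤ ‖e η_n‖ + ‖(1-e) η_n‖ ≤ (A₀ + κ + 2) (n + 1)`.
-/

namespace Pool.H62.MC

open scoped InnerProductSpace TensorProduct ComplexConjugate
open Filter Topology Pool.H62.UC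

noncomputable section

variable {H : Type*} [NormedAddCommGroup H] [InnerProductSpace ℂ H] [CompleteSpace H]
variable {K : Type*} [NormedAddCommGroup K] [InnerProductSpace ℂ K] [CompleteSpace K]

variable {S : Std H K} {Gr : Submodule ℂ ((H →L[ℂ] H) × K)} {e : H →L[ℂ] H}

theorem stepE_ev {α E : Type*} [NormedAddCommGroup E] {F : Filter α} {f : α → E}
    (h : Tendsto f F (𝓝 0)) {ε : ℝ} (hε : 0 < ε) : ∀ᶠ v in F, ‖f v‖ ≤ ε := by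
  have h1 := h.norm
  rw [norm_zero] at h1
  exact h1.eventually_le_const hε

theorem stepE_ll {U : H →L[ℂ] H} (hU : U ∈ UM S) (x y : K) :
    ⟪S.l U x, S.l U y⟫_ℂ = ⟪x, y⟫_ℂ := by
  rw [adj_star_right, ← S.l_star]
  have h1 : (S.l (star U)) (S.l U y) = y := by
    have h2 : S.l (star U) * S.l U = 1 := by
      rw [← S.l_mul, (Unitary.mem_iff.1 hU.2).1, S.l_one]
    have h3 := congrArg (fun T : K →L[ℂ] K => T y) h2
    exact h3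
  rw [h1]

theorem stepE_rr {U : H →L[ℂ] H} (hU : U ∈ UM S) (x y : K) :
    ⟪S.r U x, S.r U y⟫_ℂ = ⟪x, y⟫_ℂ := by
  rw [adj_star_right, ← S.r_star hU.1]
  have h1 : (S.r (star U)) (S.r U y) = y := by
    have h2 : S.r (star U) * S.r U = 1 := by
      rw [← S.r_mul hU.1 (star_mem hU.1), (Unitary.mem_iff.1 hU.2).2, S.r_one]
    have h3 := congrArg (fun T : K →L[ℂ] K => T y) h2
    exact h3
  rw [h1]

theorem stepE_cross {G v w : H →L[ℂ] H} (hv : v ∈ S.M) (hw : w ∈ S.M) (α β : K) :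
    ⟪S.r (v * w) α, S.l (G * v) β⟫_ℂ =
      ⟪S.l (star G) α, S.l v (S.r (star v) (S.r (star w) β))⟫_ℂ := by
  rw [adj_star_right (S.l (star G)), ← S.l_star, star_star, S.r_mul hv hw, S.l_mul]
  change ⟪S.r w (S.r v α), S.l G (S.l v β)⟫_ℂ = _
  rw [adj_star_right (S.r w), adj_star_right (S.r v), ← S.r_star hw, ← S.r_star hv]
  rw [S.lr_comm v (star v), S.lr_comm G (star v), S.lr_comm v (star w), S.lr_comm G (star w)]

theorem stepE_LR (A B : H →L[ℂ] H) (x : K) : S.T.L A (S.T.R B x) = S.T.R B (S.T.L A x) := by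
  have h := congrArg (fun T : K →L[ℂ] K => T x) (S.T.LR_comm A B)
  exact h

theorem stepE_crossT {G v w : H →L[ℂ] H} (hv : v ∈ S.M) (hw : w ∈ S.M) (a b : K) :
    ⟪S.T.L (S.ρ (v * w)) a, S.T.R (G * v) b⟫_ℂ =
      ⟪S.T.R (star G) a, S.T.L (S.ρ (star v)) (S.T.R v (S.T.L (S.ρ (star w)) b))⟫_ℂ := by
  rw [map_star S.T.R G, adj_star_left, S.ρ_mul hv hw, map_mul, map_mul]
  change ⟪S.T.L (S.ρ w) (S.T.L (S.ρ v) a), S.T.R G (S.T.R v b)⟫_ℂ = _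
  rw [adj_star_right (S.T.L (S.ρ w)), adj_star_right (S.T.L (S.ρ v)), ← map_star, ← map_star,
    ← S.ρ_star hw, ← S.ρ_star hv]
  congr 1
  rw [stepE_LR (S.ρ (star w)) G, stepE_LR (S.ρ (star v)) G, stepE_LR (S.ρ (star w)) v]

theorem stepE_TL {v : H →L[ℂ] H} (hv : v ∈ UM S) (κ : K) : ‖S.T.L (S.ρ v) κ‖ ≤ ‖κ‖ := by
  have h2 : ‖S.T.L (S.ρ v)‖ ≤ 1 := (S.T.L_norm_le _).trans
      ((S.ρ_norm_le hv.1).trans (UM_norm S hv))
  have h3 := (S.T.L (S.ρ v)).le_opNorm κ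
  nlinarith [norm_nonneg κ]

theorem stepE_TR {v : H →L[ℂ] H} (hv : v ∈ UM S) (κ : K) : ‖S.T.R v κ‖ ≤ ‖κ‖ := by
  have h2 : ‖S.T.R v‖ ≤ 1 := (S.T.R_norm_le _).trans (UM_norm S hv)
  have h3 := (S.T.R v).le_opNorm κ
  nlinarith [norm_nonneg κ]

theorem stepE_one
    (leib : ∀ p ∈ Gr, ∀ q ∈ Gr, (p.1 * q.1, S.l p.1 q.2 + S.r q.1 p.2) ∈ Gr)
    {w : H →L[ℂ] H} (hw : w ∈ UM S) {ω : K} (hw1 : (w, ω) ∈ Gr) {C : K →L[ℂ] K}
    (hC : C ∈ (NK S).commutant) (hw2 : (star w, C (w0 S)) ∈ Gr)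
    {v G : H →L[ℂ] H} (hv : v ∈ UM S) (hv1 : (v, (0 : K)) ∈ Gr)
    (hv2 : (star v, (0 : K)) ∈ Gr) (hG : G ∈ UM S) {γ : K} (hG1 : (G, γ) ∈ Gr)
    {Γ : K →L[ℂ] K} (hΓ : Γ ∈ (NK S).commutant) (hG2 : (star G, Γ (w0 S)) ∈ Gr) :
    (G * (v * w), S.l (G * v) ω + S.r (v * w) γ) ∈ Gr ∧
      (star (G * (v * w)), (Γ * S.T.L (S.ρ (star w * star v)) +
        C * S.T.R (star v * star G)) (w0 S)) ∈ Gr := by
  constructor
  · have e1 := leib _ hv1 _ hw1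
    have e2 := leib _ hG1 _ e1
    simp only [map_zero, add_zero] at e2
    rw [S.l_mul]
    exact e2
  · have e1 := leib _ hw2 _ hv2
    have e2 := leib _ e1 _ hG2
    simp only [map_zero, zero_add] at e2
    rw [star_mul, star_mul]
    have hwv : star w * star v ∈ S.M := mul_mem (star_mem hw.1) (star_mem hv.1)
    have hvG : star v * star G ∈ S.M := mul_mem (star_mem hv.1) (star_mem hG.1)
    have f1 : Γ (S.T.L (S.ρ (star w * star v)) (w0 S)) = S.l (star w * star v) (Γ (w0 S)) := by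
      rw [← cc_l hΓ hwv, l_w0]
      unfold w0
      rw [S.T.L_tp, S.ρ_Ω hwv]
    have f2 : C (S.T.R (star v * star G) (w0 S)) = S.r (star G) (S.r (star v) (C (w0 S))) := by
      have f3 : S.r (star G) (S.r (star v) (C (w0 S))) = S.r (star v * star G) (C (w0 S)) := by
        rw [S.r_mul (star_mem hv.1) (star_mem hG.1)]
        rfl
      rw [f3, ← cc_r hC hvG, r_w0 hvG]
      unfold w0
      rw [S.T.R_tp]
    have f4 : (Γ * S.T.L (S.ρ (star w * star v)) + C * S.T.R (star v * star G)) (w0 S) =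
        S.l (star w * star v) (Γ (w0 S)) + S.r (star G) (S.r (star v) (C (w0 S))) := by
      rw [← f1, ← f2]
      rfl
    rw [f4]
    exact e2

theorem stepE_norm_add (a b : K) {δ : ℝ} (h : ‖⟪a, b⟫_ℂ‖ ≤ δ) :
    ‖a + b‖ ^ 2 ≤ ‖a‖ ^ 2 + ‖b‖ ^ 2 + 2 * δ := by
  have e1 : ‖a + b‖ ^ 2 = ‖a‖ ^ 2 + 2 * (⟪a, b⟫_ℂ).re + ‖b‖ ^ 2 := by
    have := @norm_add_sq ℂ K _ _ _ a b
    simpa using this
  have e2 := Complex.re_le_norm ⟪a, b⟫_ℂ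
  rw [e1]
  linarith

theorem stepE_sq (a b c : H) {α β δ σ : ℝ} (ha : ‖a‖ ≤ α) (hb : ‖b‖ ≤ β)
    (hac : ‖⟪c, a⟫_ℂ‖ ≤ δ) (hbc : ‖⟪c, b⟫_ℂ‖ ≤ δ) (hc : ‖c‖ ^ 2 ≤ σ) :
    ‖a + b - c‖ ^ 2 ≤ (α + β) ^ 2 + σ + 4 * δ := by
  have e1 : ‖c - (a + b)‖ ^ 2 = ‖c‖ ^ 2 - 2 * (⟪c, a + b⟫_ℂ).re + ‖a + b‖ ^ 2 := by
    exact @norm_sub_sq ℂ H _ _ _ c (a + b)
  have e2 : ‖⟪c, a + b⟫_ℂ‖ ≤ δ + δ := by
    rw [inner_add_right]
    exact (norm_add_le _ _).trans (add_le_add hac hbc)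
  have e3 : -(⟪c, a + b⟫_ℂ).re ≤ δ + δ :=
    (neg_le_abs _).trans ((Complex.abs_re_le_norm _).trans e2)
  have e4 : ‖a + b‖ ^ 2 ≤ (α + β) ^ 2 :=
    pow_le_pow_left₀ (norm_nonneg _) ((norm_add_le _ _).trans (add_le_add ha hb)) 2
  rw [norm_sub_rev, e1]
  linarith

theorem stepE_num {A B c n t δ X : ℝ} (hA : 0 ≤ A) (hB : 0 ≤ B) (hc : 0 ≤ c) (hn : 0 ≤ n)
    (ht0 : 0 ≤ t) (ht : t ≤ 1 / 4) (hδ : 4 * δ ≤ 1)
    (hX : X ^ 2 ≤ ((A + 2 * B + c + 2) * n + t + A) ^ 2 +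
      (4 * n * B ^ 2 + 2 * t * (c ^ 2 + 1)) + 4 * δ) :
    X ≤ (A + 2 * B + c + 2) * (n + 1) + t := by
  have h0 : 0 ≤ (A + 2 * B + c + 2) * (n + 1) + t := by positivity
  refine le_of_pow_le_pow_left₀ two_ne_zero h0 (hX.trans ?_)
  have h1 : 0 ≤ n * A := mul_nonneg hn hA
  have h2 : 0 ≤ n * B := mul_nonneg hn hB
  have h3 : 0 ≤ n * c := mul_nonneg hn hc
  have h4 : 2 * t * (c ^ 2 + 1) ≤ (c ^ 2 + 1) := by nlinarith [sq_nonneg c]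
  have h5 : ((A + 2 * B + c + 2) * (n + 1) + t) ^ 2 - ((A + 2 * B + c + 2) * n + t + A) ^ 2 =
      (2 * B + c + 2) * (2 * ((A + 2 * B + c + 2) * n) + 2 * t + (A + 2 * B + c + 2) + A) := by
    ring
  have h6 : 4 * n * B ^ 2 ≤ (2 * B + c + 2) * (2 * ((A + 2 * B + c + 2) * n)) := by
    have g1 : 2 * B ≤ 2 * B + c + 2 := by linarith
    have g2 : 2 * (B * n) ≤ 2 * ((A + 2 * B + c + 2) * n) := by nlinarith
    have g3 := mul_le_mul g1 g2 (by positivity) (by positivity)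
    nlinarith [mul_nonneg h2 hB]
  have h7 : c ^ 2 + 4 ≤ (2 * B + c + 2) * (2 * t + (A + 2 * B + c + 2) + A) := by
    have g1 : c + 2 ≤ 2 * B + c + 2 := by linarith
    have g2 : c + 2 ≤ 2 * t + (A + 2 * B + c + 2) + A := by linarith
    have g3 := mul_le_mul g1 g2 (by positivity) (by positivity)
    nlinarith
  nlinarith

theorem stepE_e1 (he : Cen S e) (x : H) : ‖x - e x‖ ≤ ‖x‖ := by
  have h1 : ‖(1 : H →L[ℂ] H) - e‖ ≤ 1 := he.proj.one_sub.norm_le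
  have h2 := ((1 : H →L[ℂ] H) - e).le_opNorm x
  have h3 : ((1 : H →L[ℂ] H) - e) x = x - e x := rfl
  rw [h3] at h2
  nlinarith [norm_nonneg x]

theorem stepE_ee (he : Cen S e) (x : H) : e (e x) = e x := by
  have h1 := congrArg (fun T : H →L[ℂ] H => T x) he.proj.isIdempotentElem.eq
  exact h1

theorem stepE_eρ (he : Cen S e) {y : H →L[ℂ] H} (hy : y ∈ S.M) (x : H) :
    e (S.ρ y x) = S.ρ y (e x) := by
  have h1 := congrArg (fun T : H →L[ℂ] H => T x) (S.ρ_comm he.mem hy)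
  exact h1

theorem stepE_aux (he : Cen S e) (hmem : ∀ p ∈ Gr, p.1 ∈ S.M)
    (leib : ∀ p ∈ Gr, ∀ q ∈ Gr, (p.1 * q.1, S.l p.1 q.2 + S.r q.1 p.2) ∈ Gr)
    (h1 : ((1 : H →L[ℂ] H), (0 : K)) ∈ Gr) (hP : ∀ p ∈ Gr, PP S e p.2 = 0)
    (F : Filter (H →L[ℂ] H)) [F.NeBot] (hF : LettE S Gr e F)
    {w : H →L[ℂ] H} (hw : w ∈ UM S) {ω : K} (hw1 : (w, ω) ∈ Gr) {C : K →L[ℂ] K}
    (hC : C ∈ (NK S).commutant) (hw2 : (star w, C (w0 S)) ∈ Gr)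
    {z : K} {ζ : H} (hz : IsAdj S Gr z ζ) (hzP : PP S e z = 0) (n : ℕ) :
    ∀ τ : ℝ, 0 < τ → τ ≤ 1 → ∃ G ∈ UM S, ∃ Γ ∈ (NK S).commutant, ∃ γ zn : K, ∃ ηn : H,
      (G, γ) ∈ Gr ∧ (star G, Γ (w0 S)) ∈ Gr ∧ IsAdj S Gr zn ηn ∧ PP S e zn = 0 ∧
      ‖zn‖ ^ 2 ≤ n * ‖z‖ ^ 2 + τ ∧ ‖(star Γ) z‖ ^ 2 ≤ n * ‖(star C) z‖ ^ 2 + τ ∧
      ‖e ηn‖ ≤ n * ‖ζ‖ + τ ∧
      ‖ηn - e ηn‖ ≤ (‖ζ‖ + 2 * (‖C‖ * ‖z‖) + ‖C‖ + 2) * n + τ ∧
      ‖⟪γ, zn⟫_ℂ - n * ⟪ω, z⟫_ℂ‖ ≤ τ := by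
  induction n with
  | zero =>
    intro τ hτ _
    refine ⟨1, UM_one S, 0, zero_mem _, 0, 0, 0, h1, ?_, ?_, ?_, ?_, ?_, ?_, ?_, ?_⟩
    · rw [star_one]
      exact h1
    · intro p _
      rw [inner_zero_right, inner_zero_right]
    · exact map_zero _
    · rw [norm_zero]
      norm_num
      exact hτ.le
    · rw [star_zero]
      norm_num
      exact hτ.le
    · rw [map_zero, norm_zero]
      norm_num
      exact hτ.le
    · rw [map_zero, sub_zero, norm_zero]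
      norm_num
      exact hτ.le
    · rw [inner_zero_left]
      norm_num
      exact hτ.le
  | succ n ih =>
    intro τ hτ hτ1
    obtain ⟨G, hG, Γ, hΓ, γ, zn, ηn, hG1, hG2, hzn, hznP, hn1, hn2, hn3, hn4, hn5⟩ :=
      ih (τ / 4) (by positivity) (by linarith)
    have hτ8 : 0 < τ / 8 := by positivity
    have hU : ∀ᶠ v in F, v ∈ UM S := hF.mem.mono fun v hv => hv.1
    have hsC : star C ∈ (NK S).commutant := star_mem hC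
    have hsΓ : star Γ ∈ (NK S).commutant := star_mem hΓ
    have hωP : PP S e ω = 0 := hP _ hw1
    have hγP : PP S e γ = 0 := hP _ hG1
    have pr : ∀ x ∈ S.M, ∀ κ : K, PP S e κ = 0 → PP S e (S.r x κ) = 0 := by
      intro x hx κ hκ
      rw [cc_r he.PP_comm hx, hκ, map_zero]
    have pl : ∀ x ∈ S.M, ∀ κ : K, PP S e κ = 0 → PP S e (S.l x κ) = 0 := by
      intro x hx κ hκ
      rw [cc_l he.PP_comm hx, hκ, map_zero]
    have pc : ∀ D ∈ (NK S).commutant, ∀ κ : K, PP S e κ = 0 → PP S e (D κ) = 0 := by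
      intro D hD κ hκ
      rw [← cc hD he.PP_mem, hκ, map_zero]
    have cr : ∀ κ₁ κ₂ : K, PP S e κ₂ = 0 →
        ∀ᶠ v in F, ‖⟪κ₁, S.l v (S.r (star v) κ₂)⟫_ℂ‖ ≤ τ / 8 := by
      intro κ₁ κ₂ hκ
      have g := crossE he hU hF.null κ₁ κ₂
      rw [hκ, inner_zero_right] at g
      exact stepE_ev g hτ8
    have cr' : ∀ κ₁ κ₂ : K, PP S e κ₂ = 0 →
        ∀ᶠ v in F, ‖⟪κ₁, S.T.L (S.ρ (star v)) (S.T.R v κ₂)⟫_ℂ‖ ≤ τ / 8 := by
      intro κ₁ κ₂ hκ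
      have g := crossE' he hU hF.null κ₁ κ₂
      rw [hκ, inner_zero_right] at g
      exact stepE_ev g hτ8
    have c1 := cr (S.l (star G) zn) (S.r (star w) z) (pr _ (star_mem hw.1) _ hzP)
    have c2 := cr (S.l (star G) zn) (S.r (star w) ω) (pr _ (star_mem hw.1) _ hωP)
    have c3 := cr (S.l (star G) γ) (S.r (star w) z) (pr _ (star_mem hw.1) _ hzP)
    have c4 := cr' (S.T.R (star G) ((star Γ) z)) (S.T.L (S.ρ (star w)) ((star C) z))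
      (pc _ (TL_mem (star_mem hw.1)) _ (pc _ hsC _ hzP))
    have s1 := (slice_rightE he hU hF.null S.Ω ((star C) zn)).eventually_le_const hτ8
    have s2 := (slice_leftE he hU hF.null S.Ω ((star Γ) z)).eventually_le_const hτ8
    set cR : H := (ContinuousLinearMap.adjoint (S.T.tp.flip (e S.Ω))) ((star C) zn) with hcR
    set cL : H := (ContinuousLinearMap.adjoint (S.T.tp (e S.Ω))) ((star Γ) z) with hcL
    have hecR : e cR = 0 := slice_right_P he S.Ω (pc _ hsC _ hznP)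
    have hecL : e cL = 0 := slice_left_P he S.Ω (pc _ hsΓ _ hzP)
    have c5 : ∀ᶠ v in F, ‖⟪cR + cL, S.ρ (v * w) (ηn - e ηn)⟫_ℂ‖ ≤ τ / 8 := by
      have g := rho_null he hU hF.null (ηn - e ηn) ((star (S.ρ w)) (cR + cL))
      have g0 : e (ηn - e ηn) = 0 := by
        rw [map_sub, stepE_ee he, sub_self]
      rw [g0, inner_zero_right] at g
      filter_upwards [hU, stepE_ev g hτ8] with v hv g1
      rw [S.ρ_mul hv.1 hw.1]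
      change ‖⟪cR + cL, S.ρ w (S.ρ v (ηn - e ηn))⟫_ℂ‖ ≤ τ / 8
      rwa [adj_star_left] at g1
    have c6 : ∀ᶠ v in F, ‖⟪cR + cL, (G * v) (ζ - e ζ)⟫_ℂ‖ ≤ τ / 8 := by
      have g := hF.null (ζ - e ζ) ((star G) (cR + cL))
      have g0 : e (ζ - e ζ) = 0 := by
        rw [map_sub, stepE_ee he, sub_self]
      rw [g0, inner_zero_right] at g
      filter_upwards [stepE_ev g hτ8] with v g1
      change ‖⟪cR + cL, G (v (ζ - e ζ))⟫_ℂ‖ ≤ τ / 8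
      rwa [adj_star_left] at g1
    obtain ⟨v, hv, c1, c2, c3, c4, c5, c6, s1, s2⟩ :=
      (hF.mem.and (c1.and (c2.and (c3.and (c4.and (c5.and (c6.and (s1.and s2)))))))).exists
    obtain ⟨hv, hv1, hv2⟩ := hv
    obtain ⟨k1, k2⟩ := stepE_one leib hw hw1 hC hw2 hv hv1 hv2 hG hG1 hΓ hG2
    have a1 := adj_right hmem leib hzn hv hw hv2 hC hw2
    have a2 := adj_left hmem leib hz hv hG hv2 hΓ hG2
    have hvw : v * w ∈ UM S := UM_mul S hv hw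
    have hGv : G * v ∈ UM S := UM_mul S hG hv
    have hwv' : star w * star v ∈ S.M := mul_mem (star_mem hw.1) (star_mem hv.1)
    have hvG' : star v * star G ∈ S.M := mul_mem (star_mem hv.1) (star_mem hG.1)
    refine ⟨G * (v * w), UM_mul S hG hvw, _,
      add_mem (mul_mem hΓ (TL_mem hwv')) (mul_mem hC (TR_mem hvG')), _, _, _, k1, k2,
      adj_add a1 a2, ?_, ?_, ?_, ?_, ?_, ?_⟩
    · rw [map_add, pr _ hvw.1 _ hznP, pl _ hGv.1 _ hzP, add_zero]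
    · -- the norm of the new vector
      have e2 : ‖S.r (v * w) zn‖ ^ 2 = ‖zn‖ ^ 2 := by
        have h2 := stepE_rr hvw zn zn
        rw [inner_self_eq_norm_sq_to_K, inner_self_eq_norm_sq_to_K] at h2
        exact_mod_cast h2
      have e3 : ‖S.l (G * v) z‖ ^ 2 = ‖z‖ ^ 2 := by
        have h2 := stepE_ll hGv z z
        rw [inner_self_eq_norm_sq_to_K, inner_self_eq_norm_sq_to_K] at h2
        exact_mod_cast h2
      have e4 : ‖⟪S.r (v * w) zn, S.l (G * v) z⟫_ℂ‖ ≤ τ / 8 := by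
        rw [stepE_cross hv.1 hw.1]
        exact c1
      have e5 := stepE_norm_add _ _ e4
      rw [e2, e3] at e5
      push_cast
      linarith
    · -- the norm of `Γ* z`
      have e1 : (star (Γ * S.T.L (S.ρ (star w * star v)) + C * S.T.R (star v * star G))) z =
          S.T.L (S.ρ (v * w)) ((star Γ) z) + S.T.R (G * v) ((star C) z) := by
        rw [star_add, star_mul, star_mul, ← map_star, ← map_star, ← S.ρ_star hwv', star_mul,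
          star_mul, star_star, star_star, star_star]
        rfl
      rw [e1]
      have e2 : ‖S.T.L (S.ρ (v * w)) ((star Γ) z)‖ ^ 2 ≤ ‖(star Γ) z‖ ^ 2 :=
        pow_le_pow_left₀ (norm_nonneg _) (stepE_TL hvw _) 2
      have e3 : ‖S.T.R (G * v) ((star C) z)‖ ^ 2 ≤ ‖(star C) z‖ ^ 2 :=
        pow_le_pow_left₀ (norm_nonneg _) (stepE_TR hGv _) 2
      have e4 : ‖⟪S.T.L (S.ρ (v * w)) ((star Γ) z), S.T.R (G * v) ((star C) z)⟫_ℂ‖ ≤ τ / 8 := by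
        rw [stepE_crossT hv.1 hw.1]
        exact c4
      have e5 := stepE_norm_add _ _ e4
      push_cast
      linarith
    · -- `e η`
      have e1 : ‖S.ρ (v * w) (e ηn)‖ ≤ ‖e ηn‖ := sliceE_rho_le hvw _
      have e2 : ‖(G * v) (e ζ)‖ ≤ ‖e ζ‖ := by
        have h2 := (G * v).le_opNorm (e ζ)
        have h3 : ‖G * v‖ ≤ 1 := UM_norm S hGv
        nlinarith [norm_nonneg (e ζ)]
      have e3 := sliceE_e_le he ζ
      have key : ∀ p q : H, ‖p - cR‖ ≤ τ / 8 → ‖q - cL‖ ≤ τ / 8 →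
          ‖e ((S.ρ (v * w) ηn - p) + ((G * v) ζ - q))‖ ≤ ((n + 1 : ℕ) : ℝ) * ‖ζ‖ + τ := by
        intro p q hp hq
        have f1 : e ((S.ρ (v * w) ηn - p) + ((G * v) ζ - q)) =
            (S.ρ (v * w) (e ηn) + (G * v) (e ζ)) - (e (p - cR) + e (q - cL)) := by
          rw [map_add, map_sub, map_sub, map_sub, map_sub, stepE_eρ he hvw.1,
            sliceE_app he hGv.1, hecR, hecL]
          abel
        rw [f1]
        have f2 := norm_sub_le (S.ρ (v * w) (e ηn) + (G * v) (e ζ)) (e (p - cR) + e (q - cL))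
        have f3 := norm_add_le (S.ρ (v * w) (e ηn)) ((G * v) (e ζ))
        have f4 := norm_add_le (e (p - cR)) (e (q - cL))
        have f5 := sliceE_e_le he (p - cR)
        have f6 := sliceE_e_le he (q - cL)
        rw [Nat.cast_succ]
        linarith
      exact key _ _ s1 s2
    · -- `(1 - e) η`
      have e1 : ‖S.ρ (v * w) (ηn - e ηn)‖ ≤ ‖ηn - e ηn‖ := sliceE_rho_le hvw _
      have e2 : ‖(G * v) (ζ - e ζ)‖ ≤ ‖ζ - e ζ‖ := by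
        have h2 := (G * v).le_opNorm (ζ - e ζ)
        have h3 : ‖G * v‖ ≤ 1 := UM_norm S hGv
        nlinarith [norm_nonneg (ζ - e ζ)]
      have e3 := stepE_e1 he ζ
      have hΩ : ‖e S.Ω‖ ≤ 1 := by
        have g := sliceE_e_le he S.Ω
        rwa [S.tv.norm_one] at g
      have hCz : ∀ x : K, ‖(star C) x‖ ≤ ‖C‖ * ‖x‖ := by
        intro x
        have g := (star C).le_opNorm x
        rwa [norm_star] at g
      have n1 : ‖cR‖ ^ 2 ≤ ‖C‖ ^ 2 * ‖zn‖ ^ 2 := by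
        have g1 : ‖cR‖ ≤ ‖C‖ * ‖zn‖ := by
          have g2 := slice_right_norm (S := S) (e S.Ω) ((star C) zn)
          have g3 := hCz zn
          refine g2.trans (le_trans ?_ g3)
          exact mul_le_of_le_one_left (norm_nonneg _) hΩ
        have g4 := pow_le_pow_left₀ (norm_nonneg _) g1 2
        rwa [mul_pow] at g4
      have n2 : ‖cL‖ ^ 2 ≤ ‖(star Γ) z‖ ^ 2 := by
        have g1 : ‖cL‖ ≤ ‖(star Γ) z‖ := by
          have g2 := slice_left_norm (S := S) (e S.Ω) ((star Γ) z)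
          refine g2.trans ?_
          exact mul_le_of_le_one_left (norm_nonneg _) hΩ
        exact pow_le_pow_left₀ (norm_nonneg _) g1 2
      have n3 : ‖(star C) z‖ ^ 2 ≤ ‖C‖ ^ 2 * ‖z‖ ^ 2 := by
        have g4 := pow_le_pow_left₀ (norm_nonneg _) (hCz z) 2
        rwa [mul_pow] at g4
      have n4 : ‖cR + cL‖ ^ 2 ≤ 4 * (n : ℝ) * (‖C‖ * ‖z‖) ^ 2 + 2 * (τ / 4) * (‖C‖ ^ 2 + 1) := by
        have g1 : ‖cR + cL‖ ^ 2 ≤ 2 * ‖cR‖ ^ 2 + 2 * ‖cL‖ ^ 2 := by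
          have g2 := norm_add_le cR cL
          have g3 := pow_le_pow_left₀ (norm_nonneg _) g2 2
          nlinarith [sq_nonneg (‖cR‖ - ‖cL‖)]
        have hn0 : (0 : ℝ) ≤ n := Nat.cast_nonneg n
        have g5 : ‖C‖ ^ 2 * ‖zn‖ ^ 2 ≤ ‖C‖ ^ 2 * (n * ‖z‖ ^ 2 + τ / 4) :=
          mul_le_mul_of_nonneg_left hn1 (sq_nonneg _)
        have g6 : (n : ℝ) * ‖(star C) z‖ ^ 2 ≤ n * (‖C‖ ^ 2 * ‖z‖ ^ 2) :=
          mul_le_mul_of_nonneg_left n3 hn0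
        nlinarith
      have n5 := stepE_sq (S.ρ (v * w) (ηn - e ηn)) ((G * v) (ζ - e ζ)) (cR + cL)
        (e1.trans hn4) (e2.trans e3) c5 c6 n4
      have n6 := stepE_num (norm_nonneg ζ) (mul_nonneg (norm_nonneg C) (norm_nonneg z))
        (norm_nonneg C) (Nat.cast_nonneg n) (by positivity : (0 : ℝ) ≤ τ / 4) (by linarith)
        (by linarith : 4 * (τ / 8) ≤ 1) n5
      have key : ∀ p q : H, ‖p - cR‖ ≤ τ / 8 → ‖q - cL‖ ≤ τ / 8 →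
          ‖((S.ρ (v * w) ηn - p) + ((G * v) ζ - q)) -
            e ((S.ρ (v * w) ηn - p) + ((G * v) ζ - q))‖ ≤
            (‖ζ‖ + 2 * (‖C‖ * ‖z‖) + ‖C‖ + 2) * ((n + 1 : ℕ) : ℝ) + τ := by
        intro p q hp hq
        have f1 : ((S.ρ (v * w) ηn - p) + ((G * v) ζ - q)) -
            e ((S.ρ (v * w) ηn - p) + ((G * v) ζ - q)) =
            (S.ρ (v * w) (ηn - e ηn) + (G * v) (ζ - e ζ) - (cR + cL)) -
              (((p - cR) - e (p - cR)) + ((q - cL) - e (q - cL))) := by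
          rw [map_add e, map_sub e, map_sub e, map_sub e, map_sub e, map_sub, map_sub,
            stepE_eρ he hvw.1, sliceE_app he hGv.1, hecR, hecL]
          abel
        rw [f1]
        have f2 := norm_sub_le (S.ρ (v * w) (ηn - e ηn) + (G * v) (ζ - e ζ) - (cR + cL))
          (((p - cR) - e (p - cR)) + ((q - cL) - e (q - cL)))
        have f4 := norm_add_le ((p - cR) - e (p - cR)) ((q - cL) - e (q - cL))
        have f5 := stepE_e1 he (p - cR)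
        have f6 := stepE_e1 he (q - cL)
        rw [Nat.cast_succ]
        linarith
      exact key _ _ s1 s2
    · have e1 : ⟪S.l (G * v) ω + S.r (v * w) γ, S.r (v * w) zn + S.l (G * v) z⟫_ℂ =
          ⟪ω, z⟫_ℂ + ⟪γ, zn⟫_ℂ + (conj ⟪S.r (v * w) zn, S.l (G * v) ω⟫_ℂ +
            ⟪S.r (v * w) γ, S.l (G * v) z⟫_ℂ) := by
        rw [inner_add_left, inner_add_right, inner_add_right, stepE_ll hGv, stepE_rr hvw,
          inner_conj_symm]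
        ring
      have e2 : ⟪S.l (G * v) ω + S.r (v * w) γ, S.r (v * w) zn + S.l (G * v) z⟫_ℂ -
          ((n + 1 : ℕ) : ℂ) * ⟪ω, z⟫_ℂ = (⟪γ, zn⟫_ℂ - n * ⟪ω, z⟫_ℂ) +
          (conj ⟪S.r (v * w) zn, S.l (G * v) ω⟫_ℂ + ⟪S.r (v * w) γ, S.l (G * v) z⟫_ℂ) := by
        rw [e1]
        push_cast
        ring
      rw [e2]
      have e3 : ‖conj ⟪S.r (v * w) zn, S.l (G * v) ω⟫_ℂ‖ ≤ τ / 8 := by
        rw [RCLike.norm_conj, stepE_cross hv.1 hw.1]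
        exact c2
      have e4 : ‖⟪S.r (v * w) γ, S.l (G * v) z⟫_ℂ‖ ≤ τ / 8 := by
        rw [stepE_cross hv.1 hw.1]
        exact c3
      have e5 := norm_add_le (⟪γ, zn⟫_ℂ - n * ⟪ω, z⟫_ℂ)
        (conj ⟪S.r (v * w) zn, S.l (G * v) ω⟫_ℂ + ⟪S.r (v * w) γ, S.l (G * v) z⟫_ℂ)
      have e6 := norm_add_le (conj ⟪S.r (v * w) zn, S.l (G * v) ω⟫_ℂ)
        ⟪S.r (v * w) γ, S.l (G * v) z⟫_ℂ
      linarith

theorem stepsE (he : Cen S e) (hmem : ∀ p ∈ Gr, p.1 ∈ S.M)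
    (leib : ∀ p ∈ Gr, ∀ q ∈ Gr, (p.1 * q.1, S.l p.1 q.2 + S.r q.1 p.2) ∈ Gr)
    (h1 : ((1 : H →L[ℂ] H), (0 : K)) ∈ Gr) (hP : ∀ p ∈ Gr, PP S e p.2 = 0)
    (F : Filter (H →L[ℂ] H)) [F.NeBot] (hF : LettE S Gr e F)
    {w : H →L[ℂ] H} (hw : w ∈ UM S) {ω ω' : K} (hw1 : (w, ω) ∈ Gr) (hw2 : (star w, ω') ∈ Gr)
    (hb : Bv S ω') {z : K} {ζ : H} (hz : IsAdj S Gr z ζ) (hzP : PP S e z = 0) :
    ∃ κ : ℝ, ∀ n : ℕ, ∃ G ∈ UM S, ∃ γ zn : K, ∃ ηn : H, (G, γ) ∈ Gr ∧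
      IsAdj S Gr zn ηn ∧ ‖zn‖ ^ 2 ≤ n * ‖z‖ ^ 2 + 1 ∧ ‖ηn‖ ≤ κ * (n + 1) ∧
      ‖⟪γ, zn⟫_ℂ - n * ⟪ω, z⟫_ℂ‖ ≤ 1 := by
  obtain ⟨C, hC, hCω⟩ := hb
  have hw2' : (star w, C (w0 S)) ∈ Gr := by
    rw [hCω]
    exact hw2
  refine ⟨‖ζ‖ + (‖ζ‖ + 2 * (‖C‖ * ‖z‖) + ‖C‖ + 2) + 2, fun n => ?_⟩
  obtain ⟨G, hG, Γ, -, γ, zn, ηn, hG1, -, hzn, -, hn1, -, hn3, hn4, hn5⟩ :=
    stepE_aux he hmem leib h1 hP F hF hw hw1 hC hw2' hz hzP n 1 one_pos le_rfl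
  refine ⟨G, hG, γ, zn, ηn, hG1, hzn, hn1, ?_, hn5⟩
  have e1 : ‖ηn‖ ≤ ‖e ηn‖ + ‖ηn - e ηn‖ := by
    have e2 : ηn = e ηn + (ηn - e ηn) := by abel
    calc ‖ηn‖ = ‖e ηn + (ηn - e ηn)‖ := by rw [← e2]
      _ ≤ _ := norm_add_le _ _
  have hn0 : (0 : ℝ) ≤ n := Nat.cast_nonneg n
  have e3 := norm_nonneg ζ
  have e4 : 0 ≤ ‖C‖ * ‖z‖ := by positivity
  have e5 := norm_nonneg C
  nlinarith

end

end Pool.H62.MC
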